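import Pool.Agent.CHS.Defs

/-!
# CHS/Basic: degrees in `G_W`

For `v ∉ W` the neighbours of `v` in `G_W` are the points `m.mul v w`, `w ∈ W`, not in `W`, and
`m.mul v` is injective; `m.mul v w ∈ W` iff `v = m.mul w w'` for some `w' ∈ W` (then `w' ≠ w`).
If `v = m.mul w w'` with `w ≠ w' ∈ W`, the pair `{w, w'}` is unique by `zdist`, so exactly two of the
points `m.mul v w''` lie in `W`, and `v ∈ Zs m W h` exactly for `h = w, w'`.
-/

set_option autoImplicit false

namespace Pool.Agent.CHS
open Finset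

variable {V : Type} [Fintype V] [DecidableEq V] {m : SQ V} {c : V → ℕ} {E W A B : Finset V}

omit [Fintype V] [DecidableEq V] in
theorem mul_inj (m : SQ V) (x : V) : Function.Injective (m.mul x) := by
  intro a b h
  have := congrArg (m.mul x) h
  rwa [m.inv, m.inv] at this

omit [Fintype V] in
theorem adj_symm (m : SQ V) (W : Finset V) (u v : V) : adj m W u v → adj m W v u := by
  rintro ⟨h1, h2, h3, h4⟩
  exact ⟨h2, h1, Ne.symm h3, by rw [m.comm]; exact h4⟩

omit [Fintype V] in
theorem cross_symm (A B : Finset V) (u v : V) : cross A B u v → cross A B v u := by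
  rintro (⟨h1, h2⟩ | ⟨h1, h2⟩)
  · exact Or.inr ⟨h2, h1⟩
  · exact Or.inl ⟨h2, h1⟩

omit [Fintype V] in
theorem mem_Zs (m : SQ V) (W : Finset V) (h v : V) :
    v ∈ Zs m W h ↔ ∃ w ∈ W, w ≠ h ∧ m.mul h w = v := by
  unfold Zs
  simp only [Finset.mem_image, Finset.mem_erase]
  constructor
  · rintro ⟨w, ⟨h1, h2⟩, h3⟩; exact ⟨w, h2, h1, h3⟩
  · rintro ⟨w, h2, h1, h3⟩; exact ⟨w, ⟨h1, h2⟩, h3⟩

omit [Fintype V] in
theorem mem_Zall (m : SQ V) (W : Finset V) (v : V) :
    v ∈ Zall m W ↔ ∃ h ∈ W, ∃ w ∈ W, w ≠ h ∧ m.mul h w = v := by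
  unfold Zall
  simp only [Finset.mem_biUnion, mem_Zs]

omit [Fintype V] in
theorem Zs_card (m : SQ V) (W : Finset V) (h : V) (hh : h ∈ W) :
    (Zs m W h).card + 1 = W.card := by
  unfold Zs
  rw [Finset.card_image_of_injective _ (mul_inj m h), Finset.card_erase_add_one hh]

theorem Zall_notin (hW : GoodW m c E W) (v : V) (hv : v ∈ Zall m W) : v ∉ W := by
  obtain ⟨h, hh, w, hw, hne, rfl⟩ := (mem_Zall m W v).1 hv
  exact hW.indep h hh w hw (Ne.symm hne)

theorem Zs_sub (hP : Part m W A B) (h : V) (hh : h ∈ W) : Zs m W h ⊆ A := by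
  intro v hv
  exact hP.zsub (Finset.mem_biUnion.2 ⟨h, hh, hv⟩)

theorem two_of_mem (hW : GoodW m c E W) (v : V) (hv : v ∈ Zall m W) :
    (W.filter (fun h => v ∈ Zs m W h)).card = 2 := by
  obtain ⟨h, hh, w, hw, hne, hv'⟩ := (mem_Zall m W v).1 hv
  have : W.filter (fun h => v ∈ Zs m W h) = {h, w} := by
    ext t
    simp only [Finset.mem_filter, Finset.mem_insert, Finset.mem_singleton, mem_Zs]
    constructor
    · rintro ⟨ht, w', hw', hne', he⟩
      rcases hW.zdist t ht w' hw' h hh w hw (Ne.symm hne') (Ne.symm hne) (he.trans hv'.symm) with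
        ⟨h1, -⟩ | ⟨h1, -⟩
      · exact Or.inl h1
      · exact Or.inr h1
    · rintro (rfl | rfl)
      · exact ⟨hh, w, hw, hne, hv'⟩
      · exact ⟨hw, h, hh, Ne.symm hne, by rw [m.comm]; exact hv'⟩
  rw [this, Finset.card_pair (Ne.symm hne)]

theorem le_two (hW : GoodW m c E W) (v : V) :
    (W.filter (fun h => v ∈ Zs m W h)).card ≤ 2 := by
  by_cases hv : v ∈ Zall m W
  · exact (two_of_mem hW v hv).le
  · have : W.filter (fun h => v ∈ Zs m W h) = ∅ := by
      rw [Finset.filter_eq_empty_iff]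
      intro h hh hz
      exact hv (Finset.mem_biUnion.2 ⟨h, hh, hz⟩)
    rw [this]; simp

theorem Zall_card (hW : GoodW m c E W) : 2 * (Zall m W).card + W.card = W.card * W.card := by
  -- double count the pairs `(h, v)` with `v ∈ Zs m W h`
  have h1 : ∑ h ∈ W, (Zs m W h).card = ∑ v ∈ Zall m W, (W.filter (fun h => v ∈ Zs m W h)).card := by
    have h2 : ∀ h ∈ W, (Zs m W h).card = ∑ v ∈ Zall m W, if v ∈ Zs m W h then 1 else 0 := by
      intro h hh
      rw [← Finset.sum_filter, Finset.sum_const, smul_eq_mul, mul_one]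
      congr 1
      ext v
      simp only [Finset.mem_filter]
      exact ⟨fun hv => ⟨Finset.mem_biUnion.2 ⟨h, hh, hv⟩, hv⟩, fun hv => hv.2⟩
    rw [Finset.sum_congr rfl h2, Finset.sum_comm]
    refine Finset.sum_congr rfl (fun v _ => ?_)
    rw [Finset.card_filter]
  have h3 : ∑ v ∈ Zall m W, (W.filter (fun h => v ∈ Zs m W h)).card = 2 * (Zall m W).card := by
    rw [Finset.sum_congr rfl (fun v hv => two_of_mem hW v hv), Finset.sum_const, smul_eq_mul, mul_comm]
  rw [← h3, ← h1]
  have h4 : ∑ h ∈ W, (Zs m W h).card + W.card = ∑ h ∈ W, ((Zs m W h).card + 1) := by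
    rw [Finset.sum_add_distrib]; simp
  rw [h4, Finset.sum_congr rfl (fun h hh => Zs_card m W h hh), Finset.sum_const, smul_eq_mul]

/-- The neighbours of `v` are the images of the `w` with `m.mul v w ∉ W`. -/
theorem nb_eq (m : SQ V) (W : Finset V) (v : V) (hv : v ∉ W) :
    univ.filter (fun u => adj m W v u) = (W.filter (fun w => m.mul v w ∉ W)).image (m.mul v) := by
  ext u
  simp only [Finset.mem_filter, Finset.mem_univ, true_and, Finset.mem_image]
  constructor
  · rintro ⟨h1, h2, h3, h4⟩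
    refine ⟨m.mul v u, ⟨h4, ?_⟩, m.inv v u⟩
    rw [m.inv]; exact h2
  · rintro ⟨w, ⟨h1, h2⟩, rfl⟩
    refine ⟨hv, h2, ?_, by rw [m.inv]; exact h1⟩
    intro h
    have := m.inv v w
    rw [← h, m.idem] at this
    rw [this] at hv
    exact hv h1

theorem deg_le (m : SQ V) (W : Finset V) (v : V) :
    (univ.filter (fun u => adj m W v u)).card ≤ W.card := by
  by_cases hv : v ∈ W
  · have : univ.filter (fun u => adj m W v u) = ∅ := by
      rw [Finset.filter_eq_empty_iff]
      intro u _ h
      exact h.1 hv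
    rw [this]; simp
  · rw [nb_eq m W v hv]
    exact Finset.card_image_le.trans (Finset.card_filter_le _ _)

theorem deg_eq (m : SQ V) (W : Finset V) (v : V) (hv : v ∉ W) (hz : v ∉ Zall m W) :
    (univ.filter (fun u => adj m W v u)).card = W.card := by
  rw [nb_eq m W v hv, Finset.card_image_of_injective _ (mul_inj m v)]
  congr 1
  rw [Finset.filter_eq_self]
  intro w hw hvw
  apply hz
  rw [mem_Zall]
  refine ⟨w, hw, m.mul v w, hvw, ?_, ?_⟩
  · intro h
    have := m.inv w v
    rw [m.comm w v, h, m.idem] at this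
    rw [this] at hw
    exact hv hw
  · rw [m.comm v w]; exact m.inv w v

theorem deg_add_two (hW : GoodW m c E W) (v : V) (hz : v ∈ Zall m W) :
    (univ.filter (fun u => adj m W v u)).card + 2 = W.card := by
  have hv := Zall_notin hW v hz
  rw [nb_eq m W v hv, Finset.card_image_of_injective _ (mul_inj m v), ← two_of_mem hW v hz]
  have h1 : (W.filter (fun w => m.mul v w ∉ W)).card + (W.filter (fun w => m.mul v w ∈ W)).card
      = W.card := by
    rw [add_comm]
    exact Finset.card_filter_add_card_filter_not (s := W) (fun w => m.mul v w ∈ W)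
  rw [← h1]
  congr 2
  apply Finset.filter_congr
  intro w hw
  rw [mem_Zs]
  constructor
  · rintro ⟨w', hw', hne, h⟩
    have : m.mul v w = w' := by
      rw [m.comm, ← h, m.inv]
    rw [this]; exact hw'
  · intro h
    refine ⟨m.mul v w, h, ?_, ?_⟩
    · intro h'
      have := m.inv w v
      rw [m.comm w v, h', m.idem] at this
      rw [this] at hw
      exact hv hw
    · rw [m.comm v w]; exact m.inv w v

theorem card_AB (hP : Part m W A B) : A.card + B.card + W.card = Fintype.card V := by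
  rw [← Finset.card_union_of_disjoint hP.disj, hP.union, ← Finset.card_univ]
  exact Finset.card_sdiff_add_card_eq_card (Finset.subset_univ W)

end Pool.Agent.CHS
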