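import Pool.Agent.CHS.Defs

/-!
# CHS/HallExp: perfect matchings between two sets of a graph with few edges between small sets

Let `r = W.card`, `n = card V`, `D = DA.card = DB.card`.  Suppose Hall's condition fails for
`X ⊆ DA`: `Y` = set of the `v ∈ DB` with `P u v` for some `u ∈ X`, `Y.card < X.card`.
* If `2 X.card ≤ D + 1`: all `P`-neighbours in `DB` of the points of `X` lie in `Y`, so
  `τ |X| ≤ #{(x,y) ∈ X × Y : m x y ∈ W} ≤ (r/n)|X||Y| + 10⁻⁷ r sqrt(|X||Y|)`, and `|Y| ≤ |X| - 1 ≤ D/2`,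
  `sqrt(|X||Y|) ≤ |X|`, so `τ ≤ r D/(2n) + 10⁻⁷ r`: contradiction (`X ≠ ∅`).
* Otherwise put `X' = DA \ X`, `Y' = DB \ Y`; `|X'| < |Y'|`, `2|X'| ≤ D`, and all `P`-neighbours in
  `DA` of the points of `Y'` lie in `X'`; so `τ |Y'| ≤ (r/n)|X'||Y'| + 10⁻⁷ r sqrt(|X'||Y'|)
  ≤ |Y'| (r D/(2n) + 10⁻⁷ r)`: contradiction (`Y' ≠ ∅`).
Then use `Finset.all_card_le_biUnion_card_iff_exists_injective` (Hall) for the points of `DA`.
-/

set_option autoImplicit false

namespace Pool.Agent.CHS
open Finset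

private lemma hallExp_aux {V : Type} [Fintype V] [DecidableEq V] (m : SQ V) (W : Finset V)
    (hexp : ∀ X Y : Finset V,
      (((X ×ˢ Y).filter (fun q => m.mul q.1 q.2 ∈ W)).card : ℝ) ≤
        (W.card : ℝ) / Fintype.card V * (X.card * Y.card)
          + (1 / 10 ^ 7) * W.card * Real.sqrt (X.card * Y.card))
    (D : ℕ) (τ : ℝ)
    (hτ : (W.card : ℝ) * D / (2 * Fintype.card V) + (1 / 10 ^ 7) * W.card < τ)
    (S T : Finset V) (h1 : T.card ≤ S.card) (h2 : 2 * T.card ≤ D) (h3 : 0 < S.card)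
    (h4 : ∀ s ∈ S, τ ≤ ((T.filter (fun t => m.mul s t ∈ W)).card : ℝ)) : False := by
  have hcount : (((S ×ˢ T).filter (fun q => m.mul q.1 q.2 ∈ W)).card : ℝ) =
      ∑ s ∈ S, ((T.filter (fun t => m.mul s t ∈ W)).card : ℝ) := by
    rw [Finset.card_filter, Finset.sum_product, Nat.cast_sum]
    refine Finset.sum_congr rfl (fun s _ => ?_)
    rw [Finset.card_filter]
  have h5 : τ * S.card ≤ (((S ×ˢ T).filter (fun q => m.mul q.1 q.2 ∈ W)).card : ℝ) := by
    rw [hcount]
    calc τ * S.card = ∑ s ∈ S, τ := by rw [Finset.sum_const, nsmul_eq_mul, mul_comm]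
      _ ≤ _ := Finset.sum_le_sum h4
  have h6 := hexp S T
  have hS : (0 : ℝ) < S.card := by exact_mod_cast h3
  have hTS : (T.card : ℝ) ≤ S.card := by exact_mod_cast h1
  have hT0 : (0 : ℝ) ≤ T.card := Nat.cast_nonneg _
  have h2T : (T.card : ℝ) ≤ (D : ℝ) / 2 := by
    have : (2 * (T.card : ℝ)) ≤ D := by exact_mod_cast h2
    linarith
  have hsqrt : Real.sqrt (S.card * T.card) ≤ S.card := by
    rw [Real.sqrt_le_left hS.le]
    nlinarith
  have hr0 : (0 : ℝ) ≤ W.card := Nat.cast_nonneg _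
  have hn0 : (0 : ℝ) ≤ (W.card : ℝ) / Fintype.card V := by positivity
  have h7 : (W.card : ℝ) / Fintype.card V * (S.card * T.card) ≤
      S.card * ((W.card : ℝ) * D / (2 * Fintype.card V)) := by
    have h8 : (W.card : ℝ) / Fintype.card V * (S.card * T.card) ≤
        (W.card : ℝ) / Fintype.card V * (S.card * ((D : ℝ) / 2)) := by
      apply mul_le_mul_of_nonneg_left _ hn0
      exact mul_le_mul_of_nonneg_left h2T hS.le
    refine h8.trans (le_of_eq ?_)
    rw [mul_comm (2 : ℝ), ← div_div]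
    ring
  have h9 : (1 / 10 ^ 7) * (W.card : ℝ) * Real.sqrt (S.card * T.card) ≤
      S.card * ((1 / 10 ^ 7) * W.card) := by
    have h90 : (0 : ℝ) ≤ (1 / 10 ^ 7) * (W.card : ℝ) := mul_nonneg (by norm_num) hr0
    calc _ ≤ (1 / 10 ^ 7) * (W.card : ℝ) * S.card := mul_le_mul_of_nonneg_left hsqrt h90
      _ = _ := mul_comm _ _
  have h10 : τ * S.card ≤
      S.card * ((W.card : ℝ) * D / (2 * Fintype.card V) + (1 / 10 ^ 7) * W.card) := by
    rw [mul_add]
    linarith
  have h11 : S.card * ((W.card : ℝ) * D / (2 * Fintype.card V) + (1 / 10 ^ 7) * W.card)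
      < S.card * τ := mul_lt_mul_of_pos_left hτ hS
  linarith

theorem hallExp {V : Type} [Fintype V] [DecidableEq V] (m : SQ V) (W : Finset V)
    (hexp : ∀ X Y : Finset V,
      (((X ×ˢ Y).filter (fun q => m.mul q.1 q.2 ∈ W)).card : ℝ) ≤
        (W.card : ℝ) / Fintype.card V * (X.card * Y.card)
          + (1 / 10 ^ 7) * W.card * Real.sqrt (X.card * Y.card))
    (P : V → V → Prop) [DecidableRel P] (hP : ∀ u v, P u v → m.mul u v ∈ W)
    (DA DB : Finset V) (hcard : DA.card = DB.card) (τ : ℝ)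
    (hτ : (W.card : ℝ) * DA.card / (2 * Fintype.card V) + (1 / 10 ^ 7) * W.card < τ)
    (hA : ∀ u ∈ DA, τ ≤ ((DB.filter (fun v => P u v)).card : ℝ))
    (hB : ∀ v ∈ DB, τ ≤ ((DA.filter (fun u => P u v)).card : ℝ)) :
    ∃ g : V → V, Set.InjOn g DA ∧ ∀ u ∈ DA, g u ∈ DB ∧ P u (g u) := by
  classical
  have hhall : ∀ s : Finset {u // u ∈ DA},
      s.card ≤ (s.biUnion (fun u => DB.filter (fun v => P u.1 v))).card := by
    intro s
    by_contra hlt
    push Not at hlt
    set Y := s.biUnion (fun u => DB.filter (fun v => P u.1 v)) with hY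
    set X : Finset V := s.map (Function.Embedding.subtype _) with hXdef
    have hXcard : X.card = s.card := Finset.card_map _
    have hXsub : X ⊆ DA := by
      intro u hu
      rw [hXdef, Finset.mem_map] at hu
      obtain ⟨w, _, rfl⟩ := hu
      exact w.2
    have hYsub : Y ⊆ DB := by
      intro v hv
      rw [hY, Finset.mem_biUnion] at hv
      obtain ⟨w, _, hw⟩ := hv
      exact (Finset.mem_filter.mp hw).1
    have hXY : ∀ u ∈ X, ∀ v ∈ DB, P u v → v ∈ Y := by
      intro u hu v hv hp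
      rw [hXdef, Finset.mem_map] at hu
      obtain ⟨w, hw, rfl⟩ := hu
      rw [hY, Finset.mem_biUnion]
      exact ⟨w, hw, Finset.mem_filter.mpr ⟨hv, hp⟩⟩
    have hXle := Finset.card_le_card hXsub
    have hYle := Finset.card_le_card hYsub
    by_cases hc : 2 * X.card ≤ DA.card + 1
    · refine hallExp_aux m W hexp DA.card τ hτ X Y (by omega) (by omega) (by omega) ?_
      intro u hu
      refine (hA u (hXsub hu)).trans ?_
      have hsub : DB.filter (fun v => P u v) ⊆ Y.filter (fun v => m.mul u v ∈ W) := by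
        intro v hv
        rw [Finset.mem_filter] at hv ⊢
        exact ⟨hXY u hu v hv.1 hv.2, hP u v hv.2⟩
      exact_mod_cast Finset.card_le_card hsub
    · have c1 : (DA \ X).card = DA.card - X.card := Finset.card_sdiff_of_subset hXsub
      have c2 : (DB \ Y).card = DB.card - Y.card := Finset.card_sdiff_of_subset hYsub
      refine hallExp_aux m W hexp DA.card τ hτ (DB \ Y) (DA \ X) (by omega) (by omega)
        (by omega) ?_
      intro v hv
      rw [Finset.mem_sdiff] at hv
      refine (hB v hv.1).trans ?_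
      have hsub : DA.filter (fun u => P u v) ⊆ (DA \ X).filter (fun u => m.mul v u ∈ W) := by
        intro u hu
        rw [Finset.mem_filter] at hu ⊢
        refine ⟨Finset.mem_sdiff.mpr ⟨hu.1, fun hX => hv.2 (hXY u hX v hv.1 hu.2)⟩, ?_⟩
        rw [m.comm]
        exact hP u v hu.2
      exact_mod_cast Finset.card_le_card hsub
  obtain ⟨f, hf, hft⟩ := (Finset.all_card_le_biUnion_card_iff_exists_injective _).mp hhall
  refine ⟨fun u => if h : u ∈ DA then f ⟨u, h⟩ else u, ?_, ?_⟩
  · intro u hu v hv huv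
    have hu' : u ∈ DA := hu
    have hv' : v ∈ DA := hv
    simp only [dif_pos hu', dif_pos hv'] at huv
    exact congrArg Subtype.val (hf huv)
  · intro u hu
    simp only [dif_pos hu]
    exact Finset.mem_filter.mp (hft ⟨u, hu⟩)

end Pool.Agent.CHS
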