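import Pool.Agent.CHS.Defs

/-!
# CHS/GWc: every point has few neighbours among the third points

`w = Fin.cons a ω : Fin (s+1) → V`, `r = s + 1`, `n = card V ≥ r^10`.  Suppose `v` is not one of the
`w i` and the set `I` of the indices `i` with a witness pair `j ≠ k`, `m v (w i) = m (w j) (w k)`, has at
least 7 elements.  A witness pair does not contain `i`: `m v (w i) = m (w i) (w k)` would give
`v = w k`.  `I \ {0}` has at least 6 elements; each has two witnesses `j_i, k_i`.  Among the at least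
15 unordered pairs of a 6-element subset at most 12 are of the form `{i, j_i}` or `{i, k_i}`, so there
are `i ≠ i'` in `I \ {0}` such that `i' ∉ {j_i, k_i}` and `i ∉ {j_{i'}, k_{i'}}`.
Count: for fixed `v`, `i ≠ i'` (both nonzero) and `j, k, j', k'` (all different from `i` and `i'`) the
values of `w i`, `w i'` are determined by the other coordinates: at most `n^(s-2)` functions `ω`.  The
number of choices is at most `n r^6`, so the fraction is at most `r^6 / n ≤ r^(-4) ≤ 1/10`.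
-/

set_option autoImplicit false

namespace Pool.Agent.CHS
open Finset

theorem cancelGC {V : Type} (m : SQ V) {x y z : V} (h : m.mul x y = m.mul x z) : y = z := by
  have h1 := congrArg (m.mul x) h
  rwa [m.inv, m.inv] at h1

theorem exists_pairGC {ι : Type} [DecidableEq ι] (S : Finset ι) (hS : 6 ≤ S.card)
    (J K : ι → ι) : ∃ i ∈ S, ∃ i' ∈ S, i ≠ i' ∧ i' ≠ J i ∧ i' ≠ K i ∧ i ≠ J i' ∧ i ≠ K i' := by
  by_contra hcon
  push Not at hcon
  have hsub : S.offDiag ⊆ ((S.image (fun i => (i, J i)) ∪ S.image (fun i => (i, K i))) ∪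
      (S.image (fun i => (J i, i)) ∪ S.image (fun i => (K i, i)))) := by
    rintro ⟨i, i'⟩ h
    rw [mem_offDiag] at h
    obtain ⟨h1, h2, h3⟩ := h
    simp only [mem_union, mem_image]
    by_cases e1 : i' = J i
    · exact Or.inl (Or.inl ⟨i, h1, by rw [e1]⟩)
    by_cases e2 : i' = K i
    · exact Or.inl (Or.inr ⟨i, h1, by rw [e2]⟩)
    by_cases e3 : i = J i'
    · exact Or.inr (Or.inl ⟨i', h2, by rw [← e3]⟩)
    have e4 := hcon i h1 i' h2 h3 e1 e2 e3
    exact Or.inr (Or.inr ⟨i', h2, by rw [← e4]⟩)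
  have hc := card_le_card hsub
  have h1 := card_image_le (s := S) (f := fun i => (i, J i))
  have h2 := card_image_le (s := S) (f := fun i => (i, K i))
  have h3 := card_image_le (s := S) (f := fun i => (J i, i))
  have h4 := card_image_le (s := S) (f := fun i => (K i, i))
  have h5 := card_union_le (S.image (fun i => (i, J i)) ∪ S.image (fun i => (i, K i)))
    (S.image (fun i => (J i, i)) ∪ S.image (fun i => (K i, i)))
  have h6 := card_union_le (S.image (fun i => (i, J i))) (S.image (fun i => (i, K i)))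
  have h7 := card_union_le (S.image (fun i => (J i, i))) (S.image (fun i => (K i, i)))
  rw [offDiag_card] at hc
  have h8 : S.card * S.card ≤ 5 * S.card := by omega
  have h9 : S.card ≤ 5 := Nat.le_of_mul_le_mul_right h8 (by omega)
  omega

/-- two coordinates are determined by the others -/
theorem count_twoGC {V : Type} [Fintype V] [DecidableEq V] (m : SQ V) {s : ℕ} (a v : V)
    (i i' j k j' k' : Fin (s + 1)) (hi : i ≠ 0) (hi' : i' ≠ 0) (hii : i ≠ i')
    (hj : j ≠ i ∧ j ≠ i') (hk : k ≠ i ∧ k ≠ i') (hj' : j' ≠ i ∧ j' ≠ i')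
    (hk' : k' ≠ i ∧ k' ≠ i') :
    ((univ.filter (fun ω : Fin s → V =>
      m.mul v ((Fin.cons a ω : Fin (s + 1) → V) i) =
        m.mul ((Fin.cons a ω : Fin (s + 1) → V) j) ((Fin.cons a ω : Fin (s + 1) → V) k) ∧
      m.mul v ((Fin.cons a ω : Fin (s + 1) → V) i') =
        m.mul ((Fin.cons a ω : Fin (s + 1) → V) j')
          ((Fin.cons a ω : Fin (s + 1) → V) k'))).card) ≤ Fintype.card V ^ (s - 2) := by
  obtain ⟨p, rfl⟩ := Fin.exists_succ_eq.2 hi
  obtain ⟨p', rfl⟩ := Fin.exists_succ_eq.2 hi'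
  have hpp : p ≠ p' := fun h => hii (by rw [h])
  have hcard : Fintype.card ({q : Fin s // q ≠ p ∧ q ≠ p'} → V) = Fintype.card V ^ (s - 2) := by
    rw [Fintype.card_fun]
    congr 1
    rw [Fintype.card_subtype]
    have e : (univ.filter (fun q : Fin s => q ≠ p ∧ q ≠ p')) = univ \ {p, p'} := by
      ext q
      simp [not_or]
    rw [e, card_sdiff_of_subset (subset_univ _), card_univ, Fintype.card_fin, card_pair hpp]
  rw [← hcard, ← card_univ]
  refine card_le_card_of_injOn (fun ω q => ω q.1) (fun _ _ => mem_coe.2 (mem_univ _)) ?_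
  intro ω hω ω' hω' hee
  rw [mem_coe, mem_filter] at hω hω'
  obtain ⟨-, h1, h2⟩ := hω
  obtain ⟨-, h1', h2'⟩ := hω'
  have hag : ∀ q : Fin (s + 1), q ≠ p.succ → q ≠ p'.succ →
      (Fin.cons a ω : Fin (s + 1) → V) q = (Fin.cons a ω' : Fin (s + 1) → V) q := by
    intro q hq hq'
    rcases Fin.eq_zero_or_eq_succ q with rfl | ⟨t, rfl⟩
    · simp
    · rw [Fin.cons_succ, Fin.cons_succ]
      have ht : t ≠ p := fun h => hq (by rw [h])
      have ht' : t ≠ p' := fun h => hq' (by rw [h])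
      exact congrFun hee ⟨t, ht, ht'⟩
  have e1 : ω p = ω' p := by
    have h3 : m.mul v ((Fin.cons a ω : Fin (s + 1) → V) p.succ) =
        m.mul v ((Fin.cons a ω' : Fin (s + 1) → V) p.succ) := by
      rw [h1, h1', hag j hj.1 hj.2, hag k hk.1 hk.2]
    have h4 := cancelGC m h3
    rwa [Fin.cons_succ, Fin.cons_succ] at h4
  have e2 : ω p' = ω' p' := by
    have h3 : m.mul v ((Fin.cons a ω : Fin (s + 1) → V) p'.succ) =
        m.mul v ((Fin.cons a ω' : Fin (s + 1) → V) p'.succ) := by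
      rw [h2, h2', hag j' hj'.1 hj'.2, hag k' hk'.1 hk'.2]
    have h4 := cancelGC m h3
    rwa [Fin.cons_succ, Fin.cons_succ] at h4
  funext q
  by_cases hq : q = p
  · rw [hq, e1]
  by_cases hq' : q = p'
  · rw [hq', e2]
  exact congrFun hee ⟨q, hq, hq'⟩

open Classical in
theorem gwc : ∃ s0 : ℕ, ∀ s ≥ s0, ∀ (V : Type) [Fintype V] [DecidableEq V],
    (s + 1) ^ 10 ≤ Fintype.card V → ∀ (m : SQ V) (a : V),
    ((univ.filter (fun ω : Fin s → V =>
        ¬ ∀ v, (∀ i, (Fin.cons a ω : Fin (s + 1) → V) i ≠ v) →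
          (univ.filter (fun i : Fin (s + 1) => ∃ j k : Fin (s + 1), j ≠ k ∧
            m.mul v ((Fin.cons a ω : Fin (s + 1) → V) i) =
              m.mul ((Fin.cons a ω : Fin (s + 1) → V) j)
                ((Fin.cons a ω : Fin (s + 1) → V) k))).card ≤ 6)).card : ℝ)
      ≤ (1 / 10) * (Fintype.card V : ℝ) ^ s := by
  refine ⟨1, fun s hs V _ _ hn m a => ?_⟩
  classical
  set r := s + 1 with hr
  set n := Fintype.card V with hndef
  -- the set of tuples
  let B : V × Fin r × Fin r × Fin r × Fin r × Fin r × Fin r → Finset (Fin s → V) :=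
    fun q => if (q.2.1 ≠ 0 ∧ q.2.2.1 ≠ 0 ∧ q.2.1 ≠ q.2.2.1) ∧
        (q.2.2.2.1 ≠ q.2.1 ∧ q.2.2.2.1 ≠ q.2.2.1) ∧
        (q.2.2.2.2.1 ≠ q.2.1 ∧ q.2.2.2.2.1 ≠ q.2.2.1) ∧
        (q.2.2.2.2.2.1 ≠ q.2.1 ∧ q.2.2.2.2.2.1 ≠ q.2.2.1) ∧
        (q.2.2.2.2.2.2 ≠ q.2.1 ∧ q.2.2.2.2.2.2 ≠ q.2.2.1) then
      univ.filter (fun ω : Fin s → V =>
        m.mul q.1 ((Fin.cons a ω : Fin (s + 1) → V) q.2.1) =
          m.mul ((Fin.cons a ω : Fin (s + 1) → V) q.2.2.2.1)
            ((Fin.cons a ω : Fin (s + 1) → V) q.2.2.2.2.1) ∧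
        m.mul q.1 ((Fin.cons a ω : Fin (s + 1) → V) q.2.2.1) =
          m.mul ((Fin.cons a ω : Fin (s + 1) → V) q.2.2.2.2.2.1)
            ((Fin.cons a ω : Fin (s + 1) → V) q.2.2.2.2.2.2)) else ∅
  have hB : ∀ q, (B q).card ≤ n ^ (s - 2) := by
    intro q
    show (if _ then _ else _ : Finset (Fin s → V)).card ≤ _
    split_ifs with hq
    · obtain ⟨⟨h1, h2, h3⟩, h4, h5, h6, h7⟩ := hq
      exact count_twoGC m a q.1 _ _ _ _ _ _ h1 h2 h3 h4 h5 h6 h7
    · rw [card_empty]
      exact Nat.zero_le _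
  have hbad : (univ.filter (fun ω : Fin s → V =>
        ¬ ∀ v, (∀ i, (Fin.cons a ω : Fin (s + 1) → V) i ≠ v) →
          (univ.filter (fun i : Fin (s + 1) => ∃ j k : Fin (s + 1), j ≠ k ∧
            m.mul v ((Fin.cons a ω : Fin (s + 1) → V) i) =
              m.mul ((Fin.cons a ω : Fin (s + 1) → V) j)
                ((Fin.cons a ω : Fin (s + 1) → V) k))).card ≤ 6)) ⊆ univ.biUnion B := by
    intro ω hω
    rw [mem_filter] at hω
    obtain ⟨-, hω⟩ := hω
    push Not at hω
    obtain ⟨v, hv, h7⟩ := hω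
    set w : Fin (s + 1) → V := Fin.cons a ω with hw
    set I := univ.filter (fun i : Fin (s + 1) => ∃ j k : Fin (s + 1), j ≠ k ∧
      m.mul v (w i) = m.mul (w j) (w k)) with hI
    have hwit : ∀ i ∈ I, ∃ j k : Fin (s + 1), m.mul v (w i) = m.mul (w j) (w k) ∧
        j ≠ i ∧ k ≠ i := by
      intro i hi
      rw [hI, mem_filter] at hi
      obtain ⟨-, j, k, -, h⟩ := hi
      refine ⟨j, k, h, ?_, ?_⟩
      · rintro rfl
        rw [m.comm v] at h
        exact hv k (cancelGC m h).symm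
      · rintro rfl
        rw [m.comm v, m.comm (w j)] at h
        exact hv j (cancelGC m h).symm
    choose! J K hJK hJi hKi using hwit
    have h6 : 6 ≤ (I.erase 0).card := by
      have := pred_card_le_card_erase (s := I) (a := 0)
      omega
    obtain ⟨i, hi, i', hi', h1, h2, h3, h4, h5⟩ := exists_pairGC (I.erase 0) h6 J K
    obtain ⟨hi0, hi⟩ := mem_erase.1 hi
    obtain ⟨hi0', hi'⟩ := mem_erase.1 hi'
    rw [mem_biUnion]
    refine ⟨(v, i, i', J i, K i, J i', K i'), mem_univ _, ?_⟩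
    show ω ∈ (if _ then _ else _ : Finset (Fin s → V))
    rw [if_pos ⟨⟨hi0, hi0', h1⟩, ⟨hJi i hi, h2.symm⟩, ⟨hKi i hi, h3.symm⟩,
      ⟨h4.symm, hJi i' hi'⟩, ⟨h5.symm, hKi i' hi'⟩⟩, mem_filter]
    exact ⟨mem_univ _, hJK i hi, hJK i' hi'⟩
  have hc := (card_le_card hbad).trans (card_biUnion_le_card_mul _ _ _ fun q _ => hB q)
  have hcu : (univ : Finset (V × Fin r × Fin r × Fin r × Fin r × Fin r × Fin r)).card =
      n * r ^ 6 := by
    rw [card_univ]
    simp only [Fintype.card_prod, Fintype.card_fin]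
    ring
  rw [hcu] at hc
  have hr2 : 2 ≤ r := by omega
  have hn10 : 10 * r ^ 6 ≤ n := by
    calc 10 * r ^ 6 ≤ r ^ 4 * r ^ 6 := by
          refine Nat.mul_le_mul_right _ ?_
          calc 10 ≤ 2 ^ 4 := by norm_num
            _ ≤ r ^ 4 := Nat.pow_le_pow_left hr2 4
      _ = r ^ 10 := by rw [← pow_add]
      _ ≤ n := hn
  rcases Nat.lt_or_ge s 2 with h2 | h2
  · -- the bad set is empty
    have hs1 : s = 1 := by omega
    have hemp : (univ.filter (fun ω : Fin s → V =>
        ¬ ∀ v, (∀ i, (Fin.cons a ω : Fin (s + 1) → V) i ≠ v) →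
          (univ.filter (fun i : Fin (s + 1) => ∃ j k : Fin (s + 1), j ≠ k ∧
            m.mul v ((Fin.cons a ω : Fin (s + 1) → V) i) =
              m.mul ((Fin.cons a ω : Fin (s + 1) → V) j)
                ((Fin.cons a ω : Fin (s + 1) → V) k))).card ≤ 6)) = ∅ := by
      rw [filter_eq_empty_iff]
      intro ω _
      rw [not_not]
      intro v _
      refine (card_le_univ _).trans ?_
      rw [Fintype.card_fin]
      omega
    rw [hemp, card_empty, Nat.cast_zero]
    positivity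
  · have e : (n : ℝ) ^ s = (n : ℝ) * n * (n : ℝ) ^ (s - 2) := by
      rw [← pow_two, ← pow_add]
      congr 1
      omega
    have hc' : ((univ.filter (fun ω : Fin s → V =>
        ¬ ∀ v, (∀ i, (Fin.cons a ω : Fin (s + 1) → V) i ≠ v) →
          (univ.filter (fun i : Fin (s + 1) => ∃ j k : Fin (s + 1), j ≠ k ∧
            m.mul v ((Fin.cons a ω : Fin (s + 1) → V) i) =
              m.mul ((Fin.cons a ω : Fin (s + 1) → V) j)
                ((Fin.cons a ω : Fin (s + 1) → V) k))).card ≤ 6)).card : ℝ) ≤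
        (n : ℝ) * (r : ℝ) ^ 6 * (n : ℝ) ^ (s - 2) := by
      exact_mod_cast hc
    have hn' : 10 * (r : ℝ) ^ 6 ≤ n := by exact_mod_cast hn10
    refine hc'.trans ?_
    rw [e]
    have h9 : (0 : ℝ) ≤ n := Nat.cast_nonneg _
    have h10 : (n : ℝ) * (r : ℝ) ^ 6 ≤ 1 / 10 * (n * n) := by nlinarith
    have h11 := mul_le_mul_of_nonneg_right h10 (pow_nonneg h9 (s - 2))
    linarith

end Pool.Agent.CHS
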