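import Pool.Agent.CHS.Defs

/-!
# CHS/Trace: the trace moment

`n = card V`, `P w` = permutation matrix of the involution `x ↦ m.mul w x`, `Qm m w = P w - J/n`.
`P w * J = J = J * P w`, so a product of `k ≥ 1` matrices `Qm` is (a permutation matrix) `- J/n`, and its
trace has absolute value at most `n` (it is between `-1` and `n - 1`).  `∑ w, P w = J` (for all `x, y`
there is exactly one `w` with `m.mul w x = y`, namely `m.mul x y`), so `∑ w, Qm m w = 0`.
Expand the power: `((∑ i, Qm m (ω i))^32).trace = ∑ over words i : Fin 32 → Fin s of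
trace (Qm (ω (i 0)) * ... * Qm (ω (i 31)))`.  Sum over `ω`: if some letter `l : Fin s` occurs exactly once
in the word, the sum over `ω l` alone is zero (linearity in this factor and `∑ w, Qm m w = 0`).
The other words have at most 16 different letters, so they are of the form `φ ∘ ψ` with
`ψ : Fin 32 → Fin 16`, `φ : Fin 16 → Fin s`: at most `16^32 s^16` words; each contributes at most
`n^s * n`.
-/

set_option autoImplicit false

namespace Pool.Agent.CHS
open Finset

/-- The centred permutation matrix of `w`. -/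
noncomputable def Qm {V : Type} [Fintype V] [DecidableEq V] (m : SQ V) (w : V) : Matrix V V ℝ :=
  fun x y => (if m.mul w x = y then 1 else 0) - 1 / (Fintype.card V : ℝ)

/-- The centred permutation matrix of a permutation. -/
noncomputable def Rm {V : Type} [Fintype V] [DecidableEq V] (σ : Equiv.Perm V) : Matrix V V ℝ :=
  fun x y => (if σ x = y then 1 else 0) - 1 / (Fintype.card V : ℝ)

theorem Rm_mul {V : Type} [Fintype V] [DecidableEq V] (σ τ : Equiv.Perm V) :
    Rm σ * Rm τ = Rm (σ.trans τ) := by
  ext x z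
  rw [Matrix.mul_apply]
  have hn : (Fintype.card V : ℝ) ≠ 0 := by
    have : 0 < Fintype.card V := Fintype.card_pos_iff.2 ⟨x⟩
    positivity
  have h1 : ∀ y, Rm σ x y * Rm τ y z = (if σ x = y then (if τ y = z then 1 else 0) else 0)
      - (1 / (Fintype.card V : ℝ)) * (if σ x = y then 1 else 0)
      - (1 / (Fintype.card V : ℝ)) * (if y = τ.symm z then 1 else 0)
      + (1 / (Fintype.card V : ℝ)) * (1 / (Fintype.card V : ℝ)) := by
    intro y
    have e : (τ y = z) ↔ (y = τ.symm z) := by
      rw [Equiv.eq_symm_apply]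
    unfold Rm
    simp only [e]
    split_ifs <;> ring
  simp only [h1]
  rw [Finset.sum_add_distrib, Finset.sum_sub_distrib, Finset.sum_sub_distrib, ← Finset.mul_sum,
    ← Finset.mul_sum]
  simp only [Finset.sum_ite_eq, Finset.sum_ite_eq', Finset.mem_univ, if_true, Finset.sum_const,
    Finset.card_univ, nsmul_eq_mul]
  unfold Rm
  simp only [Equiv.trans_apply]
  field_simp
  ring_nf

/-- The involution of `w`. -/
def mulPerm {V : Type} (m : SQ V) (w : V) : Equiv.Perm V where
  toFun := m.mul w
  invFun := m.mul w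
  left_inv := m.inv w
  right_inv := m.inv w

theorem Qm_eq {V : Type} [Fintype V] [DecidableEq V] (m : SQ V) (w : V) :
    Qm m w = Rm (mulPerm m w) := rfl

theorem prod_Rm {V : Type} [Fintype V] [DecidableEq V] (l : List (Equiv.Perm V)) (hl : l ≠ []) :
    ∃ σ : Equiv.Perm V, (l.map Rm).prod = Rm σ := by
  induction l with
  | nil => exact absurd rfl hl
  | cons a l ih =>
    by_cases h : l = []
    · subst h
      exact ⟨a, by simp⟩
    · obtain ⟨σ, hσ⟩ := ih h
      exact ⟨a.trans σ, by rw [List.map_cons, List.prod_cons, hσ, Rm_mul]⟩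

theorem trace_Rm_le {V : Type} [Fintype V] [DecidableEq V] (σ : Equiv.Perm V) :
    (Rm σ).trace ≤ Fintype.card V := by
  unfold Matrix.trace
  have : ∀ x : V, (Rm σ).diag x ≤ 1 := by
    intro x
    rw [Matrix.diag_apply]
    unfold Rm
    have : (0 : ℝ) ≤ 1 / (Fintype.card V : ℝ) := by positivity
    split_ifs <;> linarith
  calc ∑ x, (Rm σ).diag x ≤ ∑ _x : V, (1 : ℝ) := Finset.sum_le_sum fun x _ => this x
    _ = Fintype.card V := by simp

theorem sum_Qm {V : Type} [Fintype V] [DecidableEq V] (m : SQ V) : ∑ w, Qm m w = 0 := by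
  ext x y
  rw [Matrix.sum_apply, Matrix.zero_apply]
  have hn : (Fintype.card V : ℝ) ≠ 0 := by
    have : 0 < Fintype.card V := Fintype.card_pos_iff.2 ⟨x⟩
    positivity
  unfold Qm
  have e : ∀ w, (m.mul w x = y) ↔ (w = m.mul x y) := by
    intro w
    constructor
    · rintro rfl
      rw [m.comm w x, m.inv]
    · rintro rfl
      rw [m.comm _ x, m.inv]
  simp only [e]
  rw [Finset.sum_sub_distrib]
  simp only [Finset.sum_ite_eq', Finset.mem_univ, if_true, Finset.sum_const,
    Finset.card_univ, nsmul_eq_mul]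
  field_simp
  ring

/-- The contribution of a word. -/
noncomputable def wtr {V : Type} [Fintype V] [DecidableEq V] (m : SQ V) {s k : ℕ}
    (f : Fin k → Fin s) (ω : Fin s → V) : ℝ :=
  ((MultilinearMap.mkPiAlgebraFin ℝ k (Matrix V V ℝ)) (fun j => Qm m (ω (f j)))).trace

theorem wtr_le {V : Type} [Fintype V] [DecidableEq V] (m : SQ V) {s k : ℕ} (hk : 0 < k)
    (f : Fin k → Fin s) (ω : Fin s → V) : wtr m f ω ≤ Fintype.card V := by
  unfold wtr
  rw [MultilinearMap.mkPiAlgebraFin_apply]
  have h1 : List.ofFn (fun j => Qm m (ω (f j))) =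
      (List.ofFn (fun j => mulPerm m (ω (f j)))).map Rm := by
    rw [List.map_ofFn]
    rfl
  rw [h1]
  obtain ⟨σ, hσ⟩ := prod_Rm (List.ofFn (fun j => mulPerm m (ω (f j)))) (by
    intro h
    have := congrArg List.length h
    rw [List.length_ofFn, List.length_nil] at this
    omega)
  rw [hσ]
  exact trace_Rm_le σ

theorem sum_wtr_zero {V : Type} [Fintype V] [DecidableEq V] (m : SQ V) {s k : ℕ}
    (f : Fin k → Fin s) (j0 : Fin k) (h : ∀ j, f j = f j0 → j = j0) :
    ∑ ω : Fin s → V, wtr m f ω = 0 := by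
  have key : ∀ ω : Fin s → V, ∑ v : V, wtr m f (Function.update ω (f j0) v) = 0 := by
    intro ω
    have h1 : ∀ v, wtr m f (Function.update ω (f j0) v) =
        ((MultilinearMap.mkPiAlgebraFin ℝ k (Matrix V V ℝ))
          (Function.update (fun j => Qm m (ω (f j))) j0 (Qm m v))).trace := by
      intro v
      unfold wtr
      congr 2
      funext j
      by_cases hj : j = j0
      · subst hj
        simp
      · have hj' : f j ≠ f j0 := fun h' => hj (h j h')
        rw [Function.update_of_ne hj', Function.update_of_ne hj]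
    simp only [h1]
    rw [← Matrix.trace_sum, ← MultilinearMap.map_update_sum, sum_Qm,
      MultilinearMap.map_update_zero, Matrix.trace_zero]
  rw [← (Equiv.funSplitAt (f j0) V).symm.sum_comp, Fintype.sum_prod_type, Finset.sum_comm]
  refine Finset.sum_eq_zero fun r _ => ?_
  by_cases hV : Nonempty V
  · obtain ⟨v0⟩ := hV
    rw [← key ((Equiv.funSplitAt (f j0) V).symm (v0, r))]
    refine Finset.sum_congr rfl fun v _ => ?_
    congr 1
    funext j
    by_cases hj : j = f j0
    · subst hj
      simp [Equiv.funSplitAt]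
    · rw [Function.update_of_ne hj]
      simp [Equiv.funSplitAt, hj]
  · rw [not_nonempty_iff] at hV
    exact Finset.sum_eq_zero fun v _ => (hV.false v).elim

open Classical in
theorem card_words (s h : ℕ) :
    (univ.filter (fun f : Fin (2 * h) → Fin s => ∀ j0, ∃ j, f j = f j0 ∧ j ≠ j0)).card ≤
      h ^ (2 * h) * s ^ h := by
  rcases Nat.eq_zero_or_pos h with rfl | hh
  · simp only [Nat.mul_zero, pow_zero, mul_one]
    refine (Finset.card_filter_le _ _).trans ?_
    simp
  have hmaps : (univ.filter (fun f : Fin (2 * h) → Fin s => ∀ j0, ∃ j, f j = f j0 ∧ j ≠ j0)) ⊆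
      (univ : Finset ((Fin (2 * h) → Fin h) × (Fin h → Fin s))).image (fun p => p.2 ∘ p.1) := by
    intro f hf
    rw [mem_filter] at hf
    have hf := hf.2
    -- the image has at most `h` elements
    have hc : (univ.image f).card ≤ h := by
      have h1 : ∑ l ∈ univ.image f, (univ.filter (fun j => f j = l)).card = 2 * h := by
        rw [← Finset.card_eq_sum_card_image]
        simp
      have h2 : ∀ l ∈ univ.image f, 2 ≤ (univ.filter (fun j => f j = l)).card := by
        intro l hl
        obtain ⟨j0, -, rfl⟩ := mem_image.1 hl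
        obtain ⟨j, hj, hne⟩ := hf j0
        have : ({j0, j} : Finset (Fin (2 * h))) ⊆ univ.filter (fun i => f i = f j0) := by
          intro i hi
          rw [mem_insert, mem_singleton] at hi
          rw [mem_filter]
          rcases hi with rfl | rfl
          · exact ⟨mem_univ _, rfl⟩
          · exact ⟨mem_univ _, hj⟩
        calc 2 = ({j0, j} : Finset (Fin (2 * h))).card := (card_pair (Ne.symm hne)).symm
          _ ≤ _ := card_le_card this
      have h3 := Finset.card_nsmul_le_sum (univ.image f) _ 2 h2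
      rw [h1, smul_eq_mul] at h3
      omega
    have hemb : Nonempty ({x // x ∈ univ.image f} ↪ Fin h) := by
      apply Function.Embedding.nonempty_of_card_le
      rw [Fintype.card_coe, Fintype.card_fin]
      exact hc
    obtain ⟨e⟩ := hemb
    have hmem : ∀ j, f j ∈ univ.image f := fun j => mem_image_of_mem f (mem_univ j)
    rw [mem_image]
    refine ⟨(fun j => e ⟨f j, hmem j⟩, fun t => if ht : ∃ x, e x = t then (Classical.choose ht).1
      else f ⟨0, by omega⟩), mem_univ _, ?_⟩
    funext j
    simp only [Function.comp_apply]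
    have ht : ∃ x, e x = e ⟨f j, hmem j⟩ := ⟨_, rfl⟩
    rw [dif_pos ht]
    have := e.injective (Classical.choose_spec ht)
    rw [this]
  refine (card_le_card hmaps).trans (card_image_le.trans ?_)
  rw [card_univ, Fintype.card_prod, Fintype.card_fun, Fintype.card_fun, Fintype.card_fin,
    Fintype.card_fin, Fintype.card_fin]

theorem traceMoment' {V : Type} [Fintype V] [DecidableEq V] (m : SQ V) (s h : ℕ) (hh : 0 < h) :
    ∑ ω : Fin s → V, ((∑ i, Qm m (ω i)) ^ (2 * h)).trace ≤
      (Fintype.card V : ℝ) ^ s * Fintype.card V * ((h : ℝ) ^ (2 * h) * (s : ℝ) ^ h) := by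
  classical
  have h1 : ∀ ω : Fin s → V, ((∑ i, Qm m (ω i)) ^ (2 * h)).trace =
      ∑ f : Fin (2 * h) → Fin s, wtr m f ω := by
    intro ω
    unfold wtr
    rw [← MultilinearMap.mkPiAlgebraFin_apply_const (R := ℝ), MultilinearMap.map_sum,
      Matrix.trace_sum]
  simp only [h1]
  rw [Finset.sum_comm]
  rw [← Finset.sum_filter_add_sum_filter_not univ
    (fun f : Fin (2 * h) → Fin s => ∀ j0, ∃ j, f j = f j0 ∧ j ≠ j0)]
  have h2 : ∑ f ∈ univ.filter (fun f : Fin (2 * h) → Fin s => ¬ ∀ j0, ∃ j, f j = f j0 ∧ j ≠ j0),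
      ∑ ω : Fin s → V, wtr m f ω = 0 := by
    refine Finset.sum_eq_zero fun f hf => ?_
    rw [mem_filter] at hf
    have hf := hf.2
    push Not at hf
    obtain ⟨j0, hj0⟩ := hf
    exact sum_wtr_zero m f j0 hj0
  rw [h2, add_zero]
  have h3 : ∀ f ∈ univ.filter (fun f : Fin (2 * h) → Fin s => ∀ j0, ∃ j, f j = f j0 ∧ j ≠ j0),
      ∑ ω : Fin s → V, wtr m f ω ≤ (Fintype.card V : ℝ) ^ s * Fintype.card V := by
    intro f _
    calc ∑ ω : Fin s → V, wtr m f ω ≤ ∑ _ω : Fin s → V, (Fintype.card V : ℝ) :=
          Finset.sum_le_sum fun ω _ => wtr_le m (by omega) f ω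
      _ = (Fintype.card V : ℝ) ^ s * Fintype.card V := by
          rw [Finset.sum_const, Finset.card_univ, Fintype.card_fun, Fintype.card_fin, nsmul_eq_mul]
          push_cast
          ring
  refine (Finset.sum_le_card_nsmul _ _ _ h3).trans ?_
  rw [nsmul_eq_mul, mul_comm]
  apply mul_le_mul_of_nonneg_left _ (by positivity)
  exact_mod_cast card_words s h

theorem traceMoment {V : Type} [Fintype V] [DecidableEq V] (m : SQ V) (s : ℕ) :
    ∑ ω : Fin s → V, ((∑ i, Qm m (ω i)) ^ 32).trace ≤
      (Fintype.card V : ℝ) ^ s * Fintype.card V * 16 ^ 32 * (s : ℝ) ^ 16 := by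
  have h := traceMoment' m s 16 (by norm_num)
  have e : (2 * 16 : ℕ) = 32 := by norm_num
  rw [e] at h
  refine h.trans (le_of_eq ?_)
  push_cast
  ring

theorem Qm_symm {V : Type} [Fintype V] [DecidableEq V] (m : SQ V) (w : V) :
    (Qm m w).IsSymm := by
  unfold Matrix.IsSymm
  ext x y
  rw [Matrix.transpose_apply]
  unfold Qm
  have e : (m.mul w y = x) ↔ (m.mul w x = y) := by
    constructor
    · rintro rfl; rw [m.inv]
    · rintro rfl; rw [m.inv]
  simp only [e]

end Pool.Agent.CHS
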