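import Pool.Agent.CHS.Spec
import Pool.Agent.CHS.Trace

/-!
# CHS/GWd: expansion for random points

`X ω = ∑ i, Qm m (ω i)`, `Λ = s / (2·10^7)`.  `trace (X^32) ≥ 0` (`X^32 = (X^16)ᵀ X^16`), so by Markov's
inequality and `traceMoment` the number of the `ω` with `trace (X^32) > Λ^32` is at most
`n^s * n * 16^32 * s^16 / Λ^32 ≤ n^s * 2 (s+1)^10 * (16 * 2·10^7)^32 / s^16 ≤ n^s / 10` for large `s`.
For the other `ω`, `spec` gives for all `X', Y'`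
`∑ i #{(x,y) ∈ X' × Y' : m x y = ω i} - (s/n)|X'||Y'| = ∑_{x ∈ X'} ∑_{y ∈ Y'} (X ω) x y ≤
Λ sqrt(|X'||Y'|)`  (`m.mul w x = y` iff `m.mul x y = w`).
-/

set_option autoImplicit false

namespace Pool.Agent.CHS
open Finset

theorem gwd_trace_nonneg {V : Type} [Fintype V] [DecidableEq V] {X : Matrix V V ℝ}
    (hX : X.IsSymm) : 0 ≤ (X ^ 32).trace := by
  have h1 : (X ^ 16).IsSymm := hX.pow 16
  have h2 : X ^ 32 = X ^ 16 * X ^ 16 := by rw [← pow_add]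
  rw [h2, Matrix.trace]
  refine sum_nonneg fun i _ => ?_
  rw [Matrix.diag_apply, Matrix.mul_apply]
  refine sum_nonneg fun j _ => ?_
  rw [h1.apply i j]
  exact mul_self_nonneg _

theorem gwd_mul_iff {V : Type} (m : SQ V) (w x y : V) : m.mul w x = y ↔ m.mul x y = w := by
  constructor
  · rintro rfl
    rw [m.comm w x, m.inv]
  · rintro rfl
    rw [m.comm _ x, m.inv]

theorem gwd_sum {V : Type} [Fintype V] [DecidableEq V] (m : SQ V) {s : ℕ} (ω : Fin s → V)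
    (X Y : Finset V) : ∑ x ∈ X, ∑ y ∈ Y, (∑ i, Qm m (ω i)) x y =
      ((∑ i, ((X ×ˢ Y).filter (fun q => m.mul q.1 q.2 = ω i)).card : ℕ) : ℝ) -
        (s : ℝ) / Fintype.card V * (X.card * Y.card) := by
  have h1 : ∀ x y, (∑ i, Qm m (ω i)) x y =
      ∑ i, (if m.mul x y = ω i then (1 : ℝ) else 0) - s * (1 / (Fintype.card V : ℝ)) := by
    intro x y
    rw [Matrix.sum_apply]
    unfold Qm
    rw [sum_sub_distrib, sum_const, card_univ, Fintype.card_fin, nsmul_eq_mul]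
    congr 1
    refine sum_congr rfl fun i _ => ?_
    simp only [gwd_mul_iff]
  simp only [h1, sum_sub_distrib, sum_const, nsmul_eq_mul]
  have h2 : ∑ x ∈ X, ∑ y ∈ Y, ∑ i, (if m.mul x y = ω i then (1 : ℝ) else 0) =
      ((∑ i, ((X ×ˢ Y).filter (fun q => m.mul q.1 q.2 = ω i)).card : ℕ) : ℝ) := by
    rw [Nat.cast_sum, ← sum_product', sum_comm]
    refine sum_congr rfl fun i _ => ?_
    rw [card_filter, Nat.cast_sum]
    refine sum_congr rfl fun q _ => ?_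
    split_ifs <;> simp
  rw [h2]
  ring

theorem gwd_symm {V : Type} [Fintype V] [DecidableEq V] (m : SQ V) {s : ℕ} (ω : Fin s → V) :
    (∑ i, Qm m (ω i)).IsSymm := by
  unfold Matrix.IsSymm
  rw [Matrix.transpose_sum]
  exact sum_congr rfl fun i _ => Qm_symm m (ω i)

theorem gwd_num (n s : ℕ) (hn : n ≤ 2 * (s + 1) ^ 10) (hs1 : 1 ≤ s)
    (hs : (20480 : ℝ) * (16 * (2 * 10 ^ 7)) ^ 32 ≤ s) (b : ℝ)
    (h : b * ((1 / (2 * 10 ^ 7)) * s) ^ 32 ≤ (n : ℝ) ^ s * n * 16 ^ 32 * (s : ℝ) ^ 16) :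
    b ≤ (1 / 10) * (n : ℝ) ^ s := by
  have hs1' : (1 : ℝ) ≤ s := by exact_mod_cast hs1
  obtain ⟨D, hD⟩ : ∃ D : ℝ, D = 2 * 10 ^ 7 := ⟨_, rfl⟩
  rw [← hD] at hs h
  have hD0 : 0 < D := by rw [hD]; positivity
  have hn' : (n : ℝ) ≤ 2048 * (s : ℝ) ^ 10 := by
    have h1 : (n : ℝ) ≤ 2 * ((s : ℝ) + 1) ^ 10 := by exact_mod_cast hn
    have h2 : ((s : ℝ) + 1) ^ 10 ≤ (2 * s) ^ 10 := pow_le_pow_left₀ (by positivity) (by linarith) 10
    calc (n : ℝ) ≤ 2 * ((s : ℝ) + 1) ^ 10 := h1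
      _ ≤ 2 * (2 * s) ^ 10 := by linarith
      _ = 2048 * (s : ℝ) ^ 10 := by ring
  have hN : 0 ≤ (n : ℝ) ^ s := by positivity
  have h3 : b * (s : ℝ) ^ 32 ≤ (n : ℝ) ^ s * (2048 * (16 * D) ^ 32 * (s : ℝ) ^ 26) := by
    have e1 : b * (s : ℝ) ^ 32 = b * ((1 / D) * s) ^ 32 * D ^ 32 := by
      field_simp
    rw [e1]
    calc b * ((1 / D) * s) ^ 32 * D ^ 32 ≤ (n : ℝ) ^ s * n * 16 ^ 32 * (s : ℝ) ^ 16 * D ^ 32 :=
          mul_le_mul_of_nonneg_right h (by positivity)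
      _ = (n : ℝ) ^ s * (16 ^ 32 * (s : ℝ) ^ 16 * D ^ 32) * n := by ring
      _ ≤ (n : ℝ) ^ s * (16 ^ 32 * (s : ℝ) ^ 16 * D ^ 32) * (2048 * (s : ℝ) ^ 10) :=
          mul_le_mul_of_nonneg_left hn' (by positivity)
      _ = _ := by ring
  have h4 : 2048 * (16 * D) ^ 32 * (s : ℝ) ^ 26 ≤ (1 / 10) * (s : ℝ) ^ 32 := by
    have h5 : (s : ℝ) ≤ (s : ℝ) ^ 6 := le_self_pow₀ hs1' (by norm_num)
    calc 2048 * (16 * D) ^ 32 * (s : ℝ) ^ 26 = (1 / 10) * (20480 * (16 * D) ^ 32) * (s : ℝ) ^ 26 := by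
          ring
      _ ≤ (1 / 10) * (s : ℝ) ^ 6 * (s : ℝ) ^ 26 := by
          apply mul_le_mul_of_nonneg_right _ (by positivity)
          apply mul_le_mul_of_nonneg_left (hs.trans h5) (by norm_num)
      _ = (1 / 10) * (s : ℝ) ^ 32 := by ring
  have h6 : b * (s : ℝ) ^ 32 ≤ (1 / 10) * (n : ℝ) ^ s * (s : ℝ) ^ 32 :=
    h3.trans ((mul_le_mul_of_nonneg_left h4 hN).trans (le_of_eq (by ring)))
  exact le_of_mul_le_mul_right h6 (by positivity)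

open Classical in
theorem gwd : ∃ s0 : ℕ, ∀ s ≥ s0, ∀ (V : Type) [Fintype V] [DecidableEq V],
    Fintype.card V ≤ 2 * (s + 1) ^ 10 → ∀ (m : SQ V),
    ((univ.filter (fun ω : Fin s → V => ¬ ∀ X Y : Finset V,
        ((∑ i, ((X ×ˢ Y).filter (fun q => m.mul q.1 q.2 = ω i)).card : ℕ) : ℝ) ≤
          (s : ℝ) / Fintype.card V * (X.card * Y.card)
            + (1 / (2 * 10 ^ 7)) * s * Real.sqrt (X.card * Y.card))).card : ℝ)
      ≤ (1 / 10) * (Fintype.card V : ℝ) ^ s := by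
  obtain ⟨s1, hs1⟩ := exists_nat_ge ((20480 : ℝ) * (16 * (2 * 10 ^ 7)) ^ 32)
  refine ⟨s1 + 1, fun s hs V _ _ hV m => ?_⟩
  refine gwd_num _ s hV (by omega) (hs1.trans (by exact_mod_cast (by omega : s1 ≤ s))) _ ?_
  have hT := traceMoment m s
  refine le_trans ?_ hT
  set B := univ.filter (fun ω : Fin s → V => ¬ ∀ X Y : Finset V,
        ((∑ i, ((X ×ˢ Y).filter (fun q => m.mul q.1 q.2 = ω i)).card : ℕ) : ℝ) ≤
          (s : ℝ) / Fintype.card V * (X.card * Y.card)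
            + (1 / (2 * 10 ^ 7)) * s * Real.sqrt (X.card * Y.card)) with hB
  have h1 : ∑ ω ∈ B, ((∑ i, Qm m (ω i)) ^ 32).trace ≤
      ∑ ω : Fin s → V, ((∑ i, Qm m (ω i)) ^ 32).trace :=
    sum_le_sum_of_subset_of_nonneg (subset_univ _) fun ω _ _ => gwd_trace_nonneg (gwd_symm m ω)
  refine le_trans ?_ h1
  rw [← nsmul_eq_mul, ← sum_const]
  refine sum_le_sum fun ω hω => ?_
  rw [hB, mem_filter] at hω
  by_contra hcon
  apply hω.2
  intro X Y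
  have h2 := spec (∑ i, Qm m (ω i)) (gwd_symm m ω) ((1 / (2 * 10 ^ 7)) * s) (by positivity)
    (not_le.1 hcon).le X Y
  rw [gwd_sum] at h2
  linarith

end Pool.Agent.CHS
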