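import Pool.Agent.CHS.Defs

/-!
# CHS/Finish: exact decomposition of the last bipartite graph

`F` is a bipartite graph between `A` and `B`, `Q` the set of the remaining colours, `q = |Q|`.
All degrees on the side `B` are `q`; on the side `A` they are `q`, except `q - 1` on the groups
`grp t` (`t ∈ T`, each of size `q`) and `q - 2` on `Z2` (of size `q(q-1)/2`).  Then `F` decomposes into
`q` matchings `g s : B → A` (`s ∈ Q`), such that every group has exactly one point `z s t` missed by
the colour `s`, and every pair `s ≠ s'` of colours has exactly one point `z s s'` of `Z2` missed by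
exactly these two colours.

Proof.  Induction on `q` (generalising `T`, `grp`, `Z2`, `F`).  `q = 0`: nothing to prove (use
`Nonempty α` for the functions).  `q ≥ 1`: choose `s ∈ Q`.  Counting edges:
`q |B| = q |A| - q |T| - q(q-1)`, so `|A| = |B| + |T| + (q - 1)`.  Hall's theorem for the points
`a ∈ A` with the targets
`t(a) = {b ∈ B : F a b} ∪ {t ∈ T : a ∈ grp t} ∪ (Fin (q-1) if a ∈ Z2)` (disjoint union of types):
for `X ⊆ A` write `X₂ = X ∩ Z2`; every point of `X \ X₂` has `q` targets in `B ⊔ T`, every point of `X₂`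
has `q - 2`, and every element of `B ⊔ T` is a target of at most `q` points (`|grp t| = q`).  So the
number `N` of targets in `B ⊔ T` satisfies `q N ≥ q |X| - 2 |X₂|`.  If `X₂ = ∅`: `N ≥ |X|`.  Otherwise
`q N ≥ q |X| - 2 |Z2| = q |X| - q (q-1)`, so `N ≥ |X| - (q-1)` and the `q - 1` dummies give `≥ |X|`.
The injection is a bijection onto `B ⊔ T ⊔ Fin (q-1)` by counting.  Let `g s b` be the point sent to
`b`, `z s t` (`t ∈ T`) the point sent to `t` (it lies in `grp t`), and `Z' ⊆ Z2` the `q - 1` points sent
to dummies: they are exactly the points of `A` not of the form `g s b` and not `z s t`, `t ∈ T`.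
Remove the edges `(g s b, b)` from `F`, remove `s` from `Q`, put `s` into `T` with `grp s = Z'`, replace
`grp t` by `grp t \ {z s t}` and `Z2` by `Z2 \ Z'`.  The hypotheses hold for `q - 1`: a point of
`grp t \ {z s t}` had degree `q - 1` and loses one: `q - 2 = (q-1) - 1`; the point `z s t` had degree
`q - 1` and keeps it: it is now ordinary; a point of `Z'` had degree `q - 2` and keeps it:
`(q-1) - 1`; a point of `Z2 \ Z'` loses one: `q - 3 = (q-1) - 2`; ordinary points lose one.
Put `z s s' = z s' s := z' s' s` (the value for the new group) for `s' ∈ Q \ {s}`.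
-/

set_option autoImplicit false

namespace Pool.Agent.CHS
open Finset

section hallstep
variable {α γ : Type} [DecidableEq α] [DecidableEq γ]

/-- One colour: a matching covering the whole right side and all left points of full degree. -/
theorem hall_step (A : Finset α) (Y : Finset γ) (r : α → γ → Prop) [DecidableRel r]
    (Z2 : Finset α) (q : ℕ) (hq : 1 ≤ q) (hZA : Z2 ⊆ A) (hZ2 : 2 * Z2.card + q = q * q)
    (hY : ∀ y ∈ Y, (A.filter (fun a => r a y)).card = q)
    (hA : ∀ a ∈ A, a ∉ Z2 → (Y.filter (fun y => r a y)).card = q)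
    (hA2 : ∀ a ∈ Z2, (Y.filter (fun y => r a y)).card + 2 = q) [Nonempty α] :
    ∃ g : γ → α, (∀ y ∈ Y, g y ∈ A ∧ r (g y) y) ∧ (∀ y ∈ Y, ∀ y' ∈ Y, g y = g y' → y = y') ∧
      (∀ a ∈ A, a ∉ Z2 → ∃ y ∈ Y, g y = a) ∧ A.card = Y.card + (q - 1) := by
  classical
  -- counting
  have hcount : q * A.card = q * Y.card + 2 * Z2.card := by
    have h1 : ∑ a ∈ A, (Y.filter (fun y => r a y)).card = ∑ y ∈ Y, (A.filter (fun a => r a y)).card :=
      Finset.sum_card_bipartiteAbove_eq_sum_card_bipartiteBelow r
    have h2 : ∑ y ∈ Y, (A.filter (fun a => r a y)).card = q * Y.card := by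
      rw [Finset.sum_congr rfl hY, Finset.sum_const, smul_eq_mul, mul_comm]
    have h3 : ∑ a ∈ A, (Y.filter (fun y => r a y)).card + 2 * Z2.card = q * A.card := by
      have h4 : 2 * Z2.card = ∑ a ∈ A, if a ∈ Z2 then 2 else 0 := by
        rw [← Finset.sum_filter, Finset.sum_const, smul_eq_mul, mul_comm]
        congr 2
        ext a
        simp only [Finset.mem_filter]
        exact ⟨fun h => ⟨hZA h, h⟩, fun h => h.2⟩
      rw [h4, ← Finset.sum_add_distrib, mul_comm q, ← smul_eq_mul, ← Finset.sum_const]
      refine Finset.sum_congr rfl (fun a ha => ?_)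
      by_cases haZ : a ∈ Z2
      · simp only [haZ, if_true]; exact hA2 a haZ
      · simp only [haZ, if_false, add_zero]; exact hA a ha haZ
    omega
  have hcardA : A.card = Y.card + (q - 1) := by
    obtain ⟨p, rfl⟩ : ∃ p, q = p + 1 := ⟨q - 1, by omega⟩
    have : (p + 1) * A.card = (p + 1) * (Y.card + p) := by
      rw [hcount]
      have h5 : 2 * Z2.card = (p + 1) * p := by
        have : 2 * Z2.card + (p + 1) = (p + 1) * p + (p + 1) := by rw [hZ2]; ring
        omega
      rw [h5]; ring
    have h6 := Nat.eq_of_mul_eq_mul_left (Nat.succ_pos p) this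
    simpa using h6
  -- Hall's theorem
  let t : {a // a ∈ A} → Finset (γ ⊕ Fin (q - 1)) := fun a =>
    (Y.filter (fun y => r a.1 y)).image Sum.inl ∪
      (if a.1 ∈ Z2 then (univ : Finset (Fin (q - 1))).image Sum.inr else ∅)
  have hall : ∀ X : Finset {a // a ∈ A}, X.card ≤ (X.biUnion t).card := by
    intro X
    -- the set of the right points adjacent to `X`
    let N : Finset γ := Y.filter (fun y => ∃ a ∈ X, r a.1 y)
    have hN1 : N.image Sum.inl ⊆ X.biUnion t := by
      intro y hy
      simp only [Finset.mem_image] at hy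
      obtain ⟨y, hy, rfl⟩ := hy
      simp only [N, Finset.mem_filter] at hy
      obtain ⟨hyY, a, ha, hr⟩ := hy
      rw [Finset.mem_biUnion]
      refine ⟨a, ha, Finset.mem_union_left _ ?_⟩
      exact Finset.mem_image_of_mem _ (Finset.mem_filter.2 ⟨hyY, hr⟩)
    let X2 := X.filter (fun a => a.1 ∈ Z2)
    have hN2 : q * X.card ≤ q * N.card + 2 * X2.card := by
      have h1 : ∑ a ∈ X, (N.filter (fun y => r a.1 y)).card =
          ∑ y ∈ N, (X.filter (fun a => r a.1 y)).card :=
        Finset.sum_card_bipartiteAbove_eq_sum_card_bipartiteBelow (fun (a : {a // a ∈ A}) y => r a.1 y)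
      have h2 : ∑ y ∈ N, (X.filter (fun a => r a.1 y)).card ≤ q * N.card := by
        rw [mul_comm, ← smul_eq_mul, ← Finset.sum_const]
        refine Finset.sum_le_sum (fun y hy => ?_)
        simp only [N, Finset.mem_filter] at hy
        rw [← hY y hy.1]
        have : (X.filter (fun a => r a.1 y)).card =
            ((X.filter (fun a => r a.1 y)).image Subtype.val).card :=
          (Finset.card_image_of_injective _ Subtype.val_injective).symm
        rw [this]
        apply Finset.card_le_card
        intro a ha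
        simp only [Finset.mem_image, Finset.mem_filter] at ha
        obtain ⟨a', ⟨_, h⟩, rfl⟩ := ha
        exact Finset.mem_filter.2 ⟨a'.2, h⟩
      have h3 : q * X.card ≤ ∑ a ∈ X, (N.filter (fun y => r a.1 y)).card + 2 * X2.card := by
        have h4 : 2 * X2.card = ∑ a ∈ X, if a.1 ∈ Z2 then 2 else 0 := by
          rw [← Finset.sum_filter, Finset.sum_const, smul_eq_mul, mul_comm]
        rw [h4, ← Finset.sum_add_distrib, mul_comm q, ← smul_eq_mul, ← Finset.sum_const]
        refine Finset.sum_le_sum (fun a ha => ?_)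
        have h5 : N.filter (fun y => r a.1 y) = Y.filter (fun y => r a.1 y) := by
          ext y
          simp only [N, Finset.mem_filter]
          exact ⟨fun h => ⟨h.1.1, h.2⟩, fun h => ⟨⟨h.1, a, ha, h.2⟩, h.2⟩⟩
        rw [h5]
        by_cases haZ : a.1 ∈ Z2
        · simp only [haZ, if_true]; exact (hA2 a.1 haZ).ge
        · simp only [haZ, if_false, add_zero]; exact (hA a.1 a.2 haZ).ge
      omega
    by_cases hX2 : X2 = ∅
    · rw [hX2] at hN2
      simp only [Finset.card_empty, mul_zero, add_zero] at hN2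
      have h7 : X.card ≤ N.card := Nat.le_of_mul_le_mul_left hN2 (by omega)
      refine h7.trans ?_
      rw [← Finset.card_image_of_injective N (Sum.inl_injective (β := Fin (q - 1)))]
      exact Finset.card_le_card hN1
    · obtain ⟨a0, ha0⟩ := Finset.nonempty_of_ne_empty hX2
      simp only [X2, Finset.mem_filter] at ha0
      have hX2c : X2.card ≤ Z2.card := by
        have : X2.card = (X2.image Subtype.val).card :=
          (Finset.card_image_of_injective _ Subtype.val_injective).symm
        rw [this]
        apply Finset.card_le_card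
        intro a ha
        simp only [X2, Finset.mem_image, Finset.mem_filter] at ha
        obtain ⟨a', ⟨_, h⟩, rfl⟩ := ha
        exact h
      have h8 : X.card ≤ N.card + (q - 1) := by
        obtain ⟨p, rfl⟩ : ∃ p, q = p + 1 := ⟨q - 1, by omega⟩
        have h5 : 2 * Z2.card = (p + 1) * p := by
          have : 2 * Z2.card + (p + 1) = (p + 1) * p + (p + 1) := by rw [hZ2]; ring
          omega
        have h9 : (p + 1) * X.card ≤ (p + 1) * (N.card + p) := by
          calc (p + 1) * X.card ≤ (p + 1) * N.card + 2 * X2.card := hN2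
            _ ≤ (p + 1) * N.card + 2 * Z2.card := by omega
            _ = (p + 1) * (N.card + p) := by rw [h5]; ring
        have := Nat.le_of_mul_le_mul_left h9 (Nat.succ_pos p)
        simpa using this
      refine h8.trans ?_
      have h10 : N.image Sum.inl ∪ (univ : Finset (Fin (q - 1))).image Sum.inr ⊆ X.biUnion t := by
        apply Finset.union_subset hN1
        intro y hy
        rw [Finset.mem_biUnion]
        refine ⟨a0, ha0.1, Finset.mem_union_right _ ?_⟩
        simp only [ha0.2, if_true]
        exact hy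
      refine le_trans ?_ (Finset.card_le_card h10)
      rw [Finset.card_union_of_disjoint, Finset.card_image_of_injective _ Sum.inl_injective,
        Finset.card_image_of_injective _ Sum.inr_injective]
      · simp
      · rw [Finset.disjoint_left]
        intro y hy hy'
        simp only [Finset.mem_image] at hy hy'
        obtain ⟨b, -, rfl⟩ := hy
        obtain ⟨c, -, hc⟩ := hy'
        exact absurd hc (by simp)
  obtain ⟨φ, hφi, hφ⟩ := (Finset.all_card_le_biUnion_card_iff_exists_injective t).1 hall
  -- `φ` is onto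
  let R : Finset (γ ⊕ Fin (q - 1)) := Y.image Sum.inl ∪ (univ : Finset (Fin (q - 1))).image Sum.inr
  have hR : R.card = A.card := by
    rw [hcardA]
    rw [Finset.card_union_of_disjoint, Finset.card_image_of_injective _ Sum.inl_injective,
        Finset.card_image_of_injective _ Sum.inr_injective]
    · simp
    · rw [Finset.disjoint_left]
      intro y hy hy'
      simp only [Finset.mem_image] at hy hy'
      obtain ⟨b, -, rfl⟩ := hy
      obtain ⟨c, -, hc⟩ := hy'
      exact absurd hc (by simp)
  have himg : (univ : Finset {a // a ∈ A}).image φ = R := by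
    apply Finset.eq_of_subset_of_card_le
    · intro y hy
      simp only [Finset.mem_image, Finset.mem_univ, true_and] at hy
      obtain ⟨a, rfl⟩ := hy
      have := hφ a
      simp only [t, Finset.mem_union] at this
      rcases this with h | h
      · apply Finset.mem_union_left
        simp only [Finset.mem_image, Finset.mem_filter] at h ⊢
        obtain ⟨y, ⟨h1, -⟩, h3⟩ := h
        exact ⟨y, h1, h3⟩
      · apply Finset.mem_union_right
        split_ifs at h with haZ
        · exact h
        · simp at h
    · rw [hR, Finset.card_image_of_injective _ hφi]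
      simp
  have hsurj : ∀ y ∈ Y, ∃ a : {a // a ∈ A}, φ a = Sum.inl y := by
    intro y hy
    have : (Sum.inl y : γ ⊕ Fin (q - 1)) ∈ R :=
      Finset.mem_union_left _ (Finset.mem_image_of_mem _ hy)
    rw [← himg] at this
    simpa only [Finset.mem_image, Finset.mem_univ, true_and] using this
  obtain ⟨x0⟩ := (inferInstance : Nonempty α)
  let g : γ → α := fun y => if hy : y ∈ Y then (Classical.choose (hsurj y hy)).1 else x0
  have hg : ∀ y (hy : y ∈ Y), ∃ a : {a // a ∈ A}, g y = a.1 ∧ φ a = Sum.inl y := by
    intro y hy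
    refine ⟨Classical.choose (hsurj y hy), ?_, Classical.choose_spec (hsurj y hy)⟩
    simp only [g, hy, dif_pos]
  refine ⟨g, ?_, ?_, ?_, hcardA⟩
  · intro y hy
    obtain ⟨a, h1, h2⟩ := hg y hy
    rw [h1]
    refine ⟨a.2, ?_⟩
    have := hφ a
    rw [h2] at this
    simp only [t, Finset.mem_union] at this
    rcases this with h | h
    · simp only [Finset.mem_image, Finset.mem_filter] at h
      obtain ⟨y', ⟨_, h3⟩, h4⟩ := h
      rw [← Sum.inl_injective h4]; exact h3
    · split_ifs at h with haZ
      · simp at h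
      · simp at h
  · intro y hy y' hy' he
    obtain ⟨a, h1, h2⟩ := hg y hy
    obtain ⟨a', h1', h2'⟩ := hg y' hy'
    have : a = a' := Subtype.ext (by rw [← h1, ← h1', he])
    rw [this, h2'] at h2
    exact (Sum.inl_injective h2).symm
  · intro a ha haZ
    have := hφ ⟨a, ha⟩
    simp only [t, haZ, if_false, Finset.union_empty, Finset.mem_image, Finset.mem_filter] at this
    obtain ⟨y, ⟨hy, _⟩, h⟩ := this
    refine ⟨y, hy, ?_⟩
    obtain ⟨a', h1, h2⟩ := hg y hy
    have : (⟨a, ha⟩ : {a // a ∈ A}) = a' := hφi (by rw [← h, h2])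
    rw [h1, ← this]

end hallstep

theorem finish {κ α β : Type} [DecidableEq κ] [DecidableEq α] [DecidableEq β] [Nonempty α]
    (A : Finset α) (B : Finset β) :
    ∀ (F : α → β → Prop) [DecidableRel F] (Q T : Finset κ) (grp : κ → Finset α) (Z2 : Finset α),
      Disjoint Q T →
      (∀ t ∈ T, grp t ⊆ A) → (∀ t ∈ T, (grp t).card = Q.card) →
      (∀ t ∈ T, ∀ t' ∈ T, t ≠ t' → Disjoint (grp t) (grp t')) →
      Z2 ⊆ A → (∀ t ∈ T, Disjoint Z2 (grp t)) → 2 * Z2.card + Q.card = Q.card * Q.card →
      (∀ b ∈ B, (A.filter (fun a => F a b)).card = Q.card) →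
      (∀ a ∈ A, (∀ t ∈ T, a ∉ grp t) → a ∉ Z2 → (B.filter (fun b => F a b)).card = Q.card) →
      (∀ t ∈ T, ∀ a ∈ grp t, (B.filter (fun b => F a b)).card + 1 = Q.card) →
      (∀ a ∈ Z2, (B.filter (fun b => F a b)).card + 2 = Q.card) →
      ∃ (g : κ → β → α) (z : κ → κ → α),
        (∀ s ∈ Q, ∀ b ∈ B, g s b ∈ A ∧ F (g s b) b) ∧
        (∀ s ∈ Q, ∀ b ∈ B, ∀ b' ∈ B, g s b = g s b' → b = b') ∧
        (∀ s ∈ Q, ∀ s' ∈ Q, ∀ b ∈ B, g s b = g s' b → s = s') ∧
        (∀ s ∈ Q, ∀ t ∈ T, z s t ∈ grp t) ∧
        (∀ s ∈ Q, ∀ s' ∈ Q, s ≠ s' → z s s' ∈ Z2 ∧ z s s' = z s' s) ∧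
        (∀ s ∈ Q, ∀ s' ∈ Q, ∀ t ∈ T, z s t = z s' t → s = s') ∧
        (∀ s ∈ Q, ∀ s' ∈ Q, ∀ t ∈ Q, ∀ t' ∈ Q, s ≠ s' → t ≠ t' → z s s' = z t t' →
          (s = t ∧ s' = t') ∨ (s = t' ∧ s' = t)) ∧
        (∀ s ∈ Q, ∀ a ∈ A, (∃ b ∈ B, g s b = a) ↔ ¬ (∃ t ∈ Q ∪ T, t ≠ s ∧ z s t = a)) := by
  intro F instF Q
  obtain ⟨n, hn⟩ : ∃ n, Q.card = n := ⟨_, rfl⟩
  induction n generalizing F instF Q with
  | zero =>
    intro T grp Z2 _ _ _ _ _ _ _ _ _ _ _
    have hQ : Q = ∅ := Finset.card_eq_zero.1 hn
    subst hQ
    obtain ⟨x0⟩ := (inferInstance : Nonempty α)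
    refine ⟨fun _ _ => x0, fun _ _ => x0, ?_, ?_, ?_, ?_, ?_, ?_, ?_, ?_⟩ <;>
      · intro s hs
        exact absurd hs (Finset.notMem_empty s)
  | succ n ih =>
    intro T grp Z2 hQT hgA hgc hgd hZA hZg hZc hB hA0 hA1 hA2
    classical
    obtain ⟨s, hs⟩ : Q.Nonempty := Finset.card_pos.1 (by omega)
    have hsT : s ∉ T := Finset.disjoint_left.1 hQT hs
    -- the combined bipartite graph
    let r : α → β ⊕ κ → Prop := fun a y => Sum.elim (fun b => F a b) (fun t => a ∈ grp t) y
    have instr : DecidableRel r := fun _ _ => Classical.propDecidable _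
    let Y : Finset (β ⊕ κ) := B.disjSum T
    have hYl : ∀ b, Sum.inl b ∈ Y ↔ b ∈ B := fun b => Finset.inl_mem_disjSum
    have hYr : ∀ t, Sum.inr t ∈ Y ↔ t ∈ T := fun t => Finset.inr_mem_disjSum
    have hdeg : ∀ a, (Y.filter (fun y => r a y)).card =
        (B.filter (fun b => F a b)).card + (T.filter (fun t => a ∈ grp t)).card := by
      intro a
      have : Y.filter (fun y => r a y) =
          (B.filter (fun b => F a b)).disjSum (T.filter (fun t => a ∈ grp t)) := by
        ext y
        rcases y with b | t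
        · simp only [Finset.mem_filter, hYl, Finset.inl_mem_disjSum, r, Sum.elim_inl]
        · simp only [Finset.mem_filter, hYr, Finset.inr_mem_disjSum, r, Sum.elim_inr]
      rw [this, Finset.card_disjSum]
    have hT0 : ∀ a, (∀ t ∈ T, a ∉ grp t) → (T.filter (fun t => a ∈ grp t)).card = 0 := by
      intro a ha
      rw [Finset.card_eq_zero, Finset.filter_eq_empty_iff]
      exact fun t ht => ha t ht
    have hT1 : ∀ t ∈ T, ∀ a ∈ grp t, (T.filter (fun t => a ∈ grp t)).card = 1 := by
      intro t ht a ha
      rw [Finset.card_eq_one]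
      refine ⟨t, ?_⟩
      ext t'
      simp only [Finset.mem_filter, Finset.mem_singleton]
      constructor
      · rintro ⟨ht', ha'⟩
        by_contra hne
        exact Finset.disjoint_left.1 (hgd t' ht' t ht hne) ha' ha
      · rintro rfl; exact ⟨ht, ha⟩
    obtain ⟨g, hg1, hg2, hg3, hAc⟩ := hall_step A Y r Z2 Q.card (by omega) hZA hZc
      (by
        intro y hy
        rcases y with b | t
        · rw [← hB b ((hYl b).1 hy)]
          congr 1
          ext a
          simp only [Finset.mem_filter, r, Sum.elim_inl]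
        · have ht := (hYr t).1 hy
          rw [← hgc t ht]
          congr 1
          ext a
          simp only [Finset.mem_filter, r, Sum.elim_inr]
          exact ⟨fun h => h.2, fun h => ⟨hgA t ht h, h⟩⟩)
      (by
        intro a ha haZ
        rw [hdeg]
        by_cases h : ∀ t ∈ T, a ∉ grp t
        · rw [hT0 a h, hA0 a ha h haZ]; rfl
        · push Not at h
          obtain ⟨t, ht, hat⟩ := h
          rw [hT1 t ht a hat]; exact hA1 t ht a hat)
      (by
        intro a haZ
        rw [hdeg, hT0 a (fun t ht hat => Finset.disjoint_left.1 (hZg t ht) haZ hat), add_zero]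
        exact hA2 a haZ)
    -- the missed points
    let Im : Finset α := Y.image g
    let Z' : Finset α := A \ Im
    have hImA : Im ⊆ A := by
      intro a ha
      obtain ⟨y, hy, rfl⟩ := Finset.mem_image.1 ha
      exact (hg1 y hy).1
    have hImc : Im.card = Y.card :=
      Finset.card_image_of_injOn (fun y hy y' hy' h => hg2 y hy y' hy' h)
    have hZ'c : Z'.card = n := by
      have := Finset.card_sdiff_add_card_eq_card hImA
      have h2 : Z'.card + Im.card = A.card := this
      omega
    have hZ'Z2 : Z' ⊆ Z2 := by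
      intro a ha
      rw [Finset.mem_sdiff] at ha
      by_contra haZ
      obtain ⟨y, hy, hya⟩ := hg3 a ha.1 haZ
      exact ha.2 (Finset.mem_image.2 ⟨y, hy, hya⟩)
    have hgT : ∀ t ∈ T, g (Sum.inr t) ∈ grp t := by
      intro t ht
      have := (hg1 (Sum.inr t) ((hYr t).2 ht)).2
      simpa only [r, Sum.elim_inr] using this
    have hgB : ∀ b ∈ B, F (g (Sum.inl b)) b := by
      intro b hb
      have := (hg1 (Sum.inl b) ((hYl b).2 hb)).2
      simpa only [r, Sum.elim_inl] using this
    have himg : ∀ a ∈ A, a ∉ Z' → (∃ b ∈ B, g (Sum.inl b) = a) ∨ (∃ t ∈ T, g (Sum.inr t) = a) := by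
      intro a ha haZ
      have : a ∈ Im := by
        by_contra h
        exact haZ (Finset.mem_sdiff.2 ⟨ha, h⟩)
      obtain ⟨y, hy, hya⟩ := Finset.mem_image.1 this
      rcases y with b | t
      · exact Or.inl ⟨b, (hYl b).1 hy, hya⟩
      · exact Or.inr ⟨t, (hYr t).1 hy, hya⟩
    have hnZl : ∀ b ∈ B, g (Sum.inl b) ∉ Z' := by
      intro b hb h
      exact (Finset.mem_sdiff.1 h).2 (Finset.mem_image_of_mem g ((hYl b).2 hb))
    have hnZr : ∀ t ∈ T, g (Sum.inr t) ∉ Z' := by
      intro t ht h
      exact (Finset.mem_sdiff.1 h).2 (Finset.mem_image_of_mem g ((hYr t).2 ht))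
    -- the new data
    let F' : α → β → Prop := fun a b => F a b ∧ g (Sum.inl b) ≠ a
    let grp' : κ → Finset α := fun t => if t = s then Z' else (grp t).erase (g (Sum.inr t))
    have hgs : grp' s = Z' := by simp only [grp', if_true]
    have hgt : ∀ t ∈ T, grp' t = (grp t).erase (g (Sum.inr t)) := by
      intro t ht
      have : t ≠ s := fun h => hsT (h ▸ ht)
      simp only [grp', this, if_false]
    have hQ'c : (Q.erase s).card = n := by
      rw [Finset.card_erase_of_mem hs]; omega
    -- degrees for `F'`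
    have hF'one : ∀ b ∈ B, (B.filter (fun b' => F' (g (Sum.inl b)) b')).card + 1 =
        (B.filter (fun b' => F (g (Sum.inl b)) b')).card := by
      intro b hb
      have : B.filter (fun b' => F' (g (Sum.inl b)) b') =
          (B.filter (fun b' => F (g (Sum.inl b)) b')).erase b := by
        ext b'
        simp only [F', Finset.mem_filter, Finset.mem_erase]
        constructor
        · rintro ⟨h1, h2, h3⟩
          exact ⟨fun h => h3 (by rw [h]), h1, h2⟩
        · rintro ⟨h1, h2, h3⟩
          refine ⟨h2, h3, fun h => h1 ?_⟩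
          exact Sum.inl_injective (hg2 _ ((hYl b').2 h2) _ ((hYl b).2 hb) h)
      rw [this, Finset.card_erase_add_one]
      exact Finset.mem_filter.2 ⟨hb, hgB b hb⟩
    have hF'none : ∀ a, (∀ b ∈ B, g (Sum.inl b) ≠ a) →
        (B.filter (fun b' => F' a b')).card = (B.filter (fun b' => F a b')).card := by
      intro a ha
      congr 1
      apply Finset.filter_congr
      intro b hb
      simp only [F']
      exact ⟨fun h => h.1, fun h => ⟨h, ha b hb⟩⟩
    have hrl : ∀ t ∈ T, ∀ b ∈ B, g (Sum.inl b) ≠ g (Sum.inr t) := by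
      intro t ht b hb h
      have := hg2 _ ((hYl b).2 hb) _ ((hYr t).2 ht) h
      exact absurd this (by simp)
    have hIH := ih F' (Q.erase s) hQ'c (insert s T) grp' (Z2 \ Z')
      (by
        rw [Finset.disjoint_left]
        intro t ht ht'
        rw [Finset.mem_erase] at ht
        rcases Finset.mem_insert.1 ht' with h | h
        · exact ht.1 h
        · exact Finset.disjoint_left.1 hQT ht.2 h)
      (by
        intro t ht
        rcases Finset.mem_insert.1 ht with h | h
        · rw [h, hgs]; exact Finset.sdiff_subset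
        · rw [hgt t h]; exact (Finset.erase_subset _ _).trans (hgA t h))
      (by
        intro t ht
        rw [hQ'c]
        rcases Finset.mem_insert.1 ht with h | h
        · rw [h, hgs, hZ'c]
        · rw [hgt t h, Finset.card_erase_of_mem (hgT t h), hgc t h]; omega)
      (by
        intro t ht t' ht' hne
        rcases Finset.mem_insert.1 ht with h | h
        · rcases Finset.mem_insert.1 ht' with h' | h'
          · exact absurd (h.trans h'.symm) hne
          · rw [h, hgs, hgt t' h']
            exact Disjoint.mono hZ'Z2 (Finset.erase_subset _ _) (hZg t' h')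
        · rcases Finset.mem_insert.1 ht' with h' | h'
          · rw [h', hgs, hgt t h]
            exact (Disjoint.mono hZ'Z2 (Finset.erase_subset _ _) (hZg t h)).symm
          · rw [hgt t h, hgt t' h']
            exact Disjoint.mono (Finset.erase_subset _ _) (Finset.erase_subset _ _)
              (hgd t h t' h' hne))
      (Finset.sdiff_subset.trans hZA)
      (by
        intro t ht
        rcases Finset.mem_insert.1 ht with h | h
        · rw [h, hgs]; exact Finset.sdiff_disjoint
        · rw [hgt t h]
          exact Disjoint.mono Finset.sdiff_subset (Finset.erase_subset _ _) (hZg t h))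
      (by
        rw [hQ'c]
        have h1 : (Z2 \ Z').card + Z'.card = Z2.card := Finset.card_sdiff_add_card_eq_card hZ'Z2
        rw [hZ'c] at h1
        rw [hn] at hZc
        nlinarith)
      (by
        intro b hb
        rw [hQ'c]
        have : A.filter (fun a => F' a b) = (A.filter (fun a => F a b)).erase (g (Sum.inl b)) := by
          ext a
          simp only [F', Finset.mem_filter, Finset.mem_erase]
          exact ⟨fun h => ⟨fun h' => h.2.2 h'.symm, h.1, h.2.1⟩,
            fun h => ⟨h.2.1, h.2.2, fun h' => h.1 h'.symm⟩⟩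
        rw [this, Finset.card_erase_of_mem
          (Finset.mem_filter.2 ⟨(hg1 _ ((hYl b).2 hb)).1, hgB b hb⟩), hB b hb]
        omega)
      (by
        intro a ha hnot haZ
        rw [hQ'c]
        have haZ' : a ∉ Z' := by
          have := hnot s (Finset.mem_insert_self _ _)
          rwa [hgs] at this
        have haZ2 : a ∉ Z2 := fun h => haZ (Finset.mem_sdiff.2 ⟨h, haZ'⟩)
        rcases himg a ha haZ' with ⟨b, hb, hba⟩ | ⟨t, ht, hta⟩
        · have h1 := hF'one b hb
          rw [hba] at h1
          have h2 : ∀ t ∈ T, a ∉ grp t := by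
            intro t ht hat
            have := hnot t (Finset.mem_insert_of_mem ht)
            rw [hgt t ht, Finset.mem_erase] at this
            refine this ⟨?_, hat⟩
            rw [← hba]; exact hrl t ht b hb
          rw [hA0 a ha h2 haZ2] at h1
          omega
        · have h1 := hF'none a (fun b hb h => hrl t ht b hb (h.trans hta.symm))
          have h2 := hA1 t ht a (hta ▸ hgT t ht)
          omega)
      (by
        intro t ht a ha
        rw [hQ'c]
        rcases Finset.mem_insert.1 ht with h | h
        · rw [h, hgs] at ha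
          have h1 := hF'none a (fun b hb h => hnZl b hb (h ▸ ha))
          have h2 := hA2 a (hZ'Z2 ha)
          omega
        · rw [hgt t h, Finset.mem_erase] at ha
          have haZ2 : a ∉ Z2 := fun h' => Finset.disjoint_left.1 (hZg t h) h' ha.2
          have haZ' : a ∉ Z' := fun h' => haZ2 (hZ'Z2 h')
          rcases himg a (hgA t h ha.2) haZ' with ⟨b, hb, hba⟩ | ⟨t', ht', hta⟩
          · have h1 := hF'one b hb
            rw [hba] at h1
            have h2 := hA1 t h a ha.2
            omega
          · exfalso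
            by_cases he : t = t'
            · subst he; exact ha.1 hta.symm
            · exact Finset.disjoint_left.1 (hgd t h t' ht' he) ha.2 (hta ▸ hgT t' ht'))
      (by
        intro a ha
        rw [hQ'c]
        rw [Finset.mem_sdiff] at ha
        rcases himg a (hZA ha.1) ha.2 with ⟨b, hb, hba⟩ | ⟨t, ht, hta⟩
        · have h1 := hF'one b hb
          rw [hba] at h1
          have h2 := hA2 a ha.1
          omega
        · exact absurd (hta ▸ hgT t ht) (Finset.disjoint_left.1 (hZg t ht) ha.1))
    obtain ⟨g1, z1, k1, k2, k3, k4, k5, k6, k7, k8⟩ := hIH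
    let G : κ → β → α := fun s' b => if s' = s then g (Sum.inl b) else g1 s' b
    let Zf : κ → κ → α := fun s1 t1 =>
      if s1 = s then (if t1 ∈ T then g (Sum.inr t1) else z1 t1 s) else z1 s1 t1
    have hGs : ∀ b, G s b = g (Sum.inl b) := fun b => by simp only [G, if_true]
    have hGn : ∀ s' b, s' ≠ s → G s' b = g1 s' b := fun s' b h => by simp only [G, h, if_false]
    have hZs1 : ∀ t ∈ T, Zf s t = g (Sum.inr t) := fun t ht => by simp only [Zf, if_true, ht]
    have hZs2 : ∀ t, t ∉ T → Zf s t = z1 t s := fun t ht => by simp only [Zf, if_true, ht, if_false]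
    have hZn : ∀ s1 t, s1 ≠ s → Zf s1 t = z1 s1 t := fun s1 t h => by simp only [Zf, h, if_false]
    have hmem : ∀ s' ∈ Q, s' ≠ s → s' ∈ Q.erase s := fun s' h1 h2 => Finset.mem_erase.2 ⟨h2, h1⟩
    have hQnT : ∀ s' ∈ Q, s' ∉ T := fun s' h => Finset.disjoint_left.1 hQT h
    have hZ'im : ∀ s' ∈ Q, s' ≠ s → z1 s' s ∈ Z' := by
      intro s' h1 h2
      have := k4 s' (hmem s' h1 h2) s (Finset.mem_insert_self _ _)
      rwa [hgs] at this
    refine ⟨G, Zf, ?_, ?_, ?_, ?_, ?_, ?_, ?_, ?_⟩
    · intro s' hs' b hb
      by_cases h : s' = s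
      · rw [h, hGs]; exact ⟨(hg1 _ ((hYl b).2 hb)).1, hgB b hb⟩
      · rw [hGn s' b h]
        have := k1 s' (hmem s' hs' h) b hb
        exact ⟨this.1, this.2.1⟩
    · intro s' hs' b hb b' hb' he
      by_cases h : s' = s
      · rw [h, hGs, hGs] at he
        exact Sum.inl_injective (hg2 _ ((hYl b).2 hb) _ ((hYl b').2 hb') he)
      · rw [hGn s' b h, hGn s' b' h] at he
        exact k2 s' (hmem s' hs' h) b hb b' hb' he
    · intro s1 hs1 s2 hs2 b hb he
      by_cases h1 : s1 = s
      · by_cases h2 : s2 = s
        · rw [h1, h2]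
        · rw [h1, hGs, hGn s2 b h2] at he
          exact absurd he (k1 s2 (hmem s2 hs2 h2) b hb).2.2
      · by_cases h2 : s2 = s
        · rw [h2, hGs, hGn s1 b h1] at he
          exact absurd he.symm (k1 s1 (hmem s1 hs1 h1) b hb).2.2
        · rw [hGn s1 b h1, hGn s2 b h2] at he
          exact k3 s1 (hmem s1 hs1 h1) s2 (hmem s2 hs2 h2) b hb he
    · intro s1 hs1 t ht
      by_cases h1 : s1 = s
      · rw [h1, hZs1 t ht]; exact hgT t ht
      · rw [hZn s1 t h1]
        have := k4 s1 (hmem s1 hs1 h1) t (Finset.mem_insert_of_mem ht)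
        rw [hgt t ht] at this
        exact Finset.mem_of_mem_erase this
    · intro s1 hs1 s2 hs2 hne
      by_cases h1 : s1 = s
      · have h2 : s2 ≠ s := fun h => hne (h1.trans h.symm)
        rw [h1, hZs2 s2 (hQnT s2 hs2), hZn s2 s h2]
        exact ⟨hZ'Z2 (hZ'im s2 hs2 h2), rfl⟩
      · by_cases h2 : s2 = s
        · rw [h2, hZs2 s1 (hQnT s1 hs1), hZn s1 s h1]
          exact ⟨hZ'Z2 (hZ'im s1 hs1 h1), rfl⟩
        · rw [hZn s1 s2 h1, hZn s2 s1 h2]
          have := k5 s1 (hmem s1 hs1 h1) s2 (hmem s2 hs2 h2) hne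
          exact ⟨(Finset.mem_sdiff.1 this.1).1, this.2⟩
    · intro s1 hs1 s2 hs2 t ht he
      by_cases h1 : s1 = s
      · by_cases h2 : s2 = s
        · rw [h1, h2]
        · exfalso
          rw [h1, hZs1 t ht, hZn s2 t h2] at he
          have := k4 s2 (hmem s2 hs2 h2) t (Finset.mem_insert_of_mem ht)
          rw [hgt t ht, ← he] at this
          exact Finset.notMem_erase _ _ this
      · by_cases h2 : s2 = s
        · exfalso
          rw [h2, hZs1 t ht, hZn s1 t h1] at he
          have := k4 s1 (hmem s1 hs1 h1) t (Finset.mem_insert_of_mem ht)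
          rw [hgt t ht, he] at this
          exact Finset.notMem_erase _ _ this
        · rw [hZn s1 t h1, hZn s2 t h2] at he
          exact k6 s1 (hmem s1 hs1 h1) s2 (hmem s2 hs2 h2) t (Finset.mem_insert_of_mem ht) he
    · -- injectivity on pairs
      have hsym : ∀ s1 ∈ Q, ∀ s2 ∈ Q, s1 ≠ s2 → Zf s1 s2 = Zf s2 s1 := by
        intro s1 hs1 s2 hs2 hne
        by_cases h1 : s1 = s
        · have h2 : s2 ≠ s := fun h => hne (h1.trans h.symm)
          rw [h1, hZs2 s2 (hQnT s2 hs2), hZn s2 s h2]
        · by_cases h2 : s2 = s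
          · rw [h2, hZs2 s1 (hQnT s1 hs1), hZn s1 s h1]
          · rw [hZn s1 s2 h1, hZn s2 s1 h2]
            exact (k5 s1 (hmem s1 hs1 h1) s2 (hmem s2 hs2 h2) hne).2
      have hin : ∀ s2 ∈ Q, s2 ≠ s → Zf s s2 ∈ Z' := by
        intro s2 hs2 h2
        rw [hZs2 s2 (hQnT s2 hs2)]; exact hZ'im s2 hs2 h2
      have hout : ∀ s1 ∈ Q, ∀ s2 ∈ Q, s1 ≠ s2 → s1 ≠ s → s2 ≠ s → Zf s1 s2 ∉ Z' := by
        intro s1 hs1 s2 hs2 hne h1 h2
        rw [hZn s1 s2 h1]
        exact (Finset.mem_sdiff.1 (k5 s1 (hmem s1 hs1 h1) s2 (hmem s2 hs2 h2) hne).1).2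
      have hcase : ∀ s2 ∈ Q, s2 ≠ s → ∀ t1 ∈ Q, ∀ t2 ∈ Q, t1 ≠ t2 → Zf s s2 = Zf t1 t2 →
          (s = t1 ∧ s2 = t2) ∨ (s = t2 ∧ s2 = t1) := by
        intro s2 hs2 h2 t1 ht1 t2 ht2 hne he
        by_cases h3 : t1 = s
        · left
          have h4 : t2 ≠ s := fun h => hne (h3.trans h.symm)
          refine ⟨h3.symm, ?_⟩
          rw [h3, hZs2 s2 (hQnT s2 hs2), hZs2 t2 (hQnT t2 ht2)] at he
          exact k6 s2 (hmem s2 hs2 h2) t2 (hmem t2 ht2 h4) s (Finset.mem_insert_self _ _) he
        · by_cases h4 : t2 = s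
          · right
            refine ⟨h4.symm, ?_⟩
            rw [hsym t1 ht1 t2 ht2 hne, h4, hZs2 s2 (hQnT s2 hs2), hZs2 t1 (hQnT t1 ht1)] at he
            exact k6 s2 (hmem s2 hs2 h2) t1 (hmem t1 ht1 h3) s (Finset.mem_insert_self _ _) he
          · exfalso
            exact hout t1 ht1 t2 ht2 hne h3 h4 (he ▸ hin s2 hs2 h2)
      intro s1 hs1 s2 hs2 t1 ht1 t2 ht2 hne hne' he
      by_cases h1 : s1 = s
      · rw [h1] at he hne ⊢
        exact hcase s2 hs2 (Ne.symm hne) t1 ht1 t2 ht2 hne' he
      · by_cases h2 : s2 = s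
        · rw [hsym s1 hs1 s2 hs2 hne, h2] at he
          rcases hcase s1 hs1 h1 t1 ht1 t2 ht2 hne' he with ⟨a1, a2⟩ | ⟨a1, a2⟩
          · exact Or.inr ⟨a2, h2.trans a1⟩
          · exact Or.inl ⟨a2, h2.trans a1⟩
        · by_cases h3 : t1 = s
          · rw [h3] at he hne' ⊢
            rcases hcase t2 ht2 (Ne.symm hne') s1 hs1 s2 hs2 hne he.symm with ⟨a1, _⟩ | ⟨a1, _⟩
            · exact absurd a1.symm h1
            · exact absurd a1.symm h2
          · by_cases h4 : t2 = s
            · rw [hsym t1 ht1 t2 ht2 hne', h4] at he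
              rcases hcase t1 ht1 h3 s1 hs1 s2 hs2 hne he.symm with ⟨a1, _⟩ | ⟨a1, _⟩
              · exact absurd a1.symm h1
              · exact absurd a1.symm h2
            · rw [hZn s1 s2 h1, hZn t1 t2 h3] at he
              exact k7 s1 (hmem s1 hs1 h1) s2 (hmem s2 hs2 h2) t1 (hmem t1 ht1 h3) t2
                (hmem t2 ht2 h4) hne hne' he
    · intro s' hs' a ha
      by_cases h : s' = s
      · rw [h]
        constructor
        · rintro ⟨b, hb, hba⟩ ⟨t, ht, hts, hza⟩
          rw [hGs] at hba
          by_cases htT : t ∈ T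
          · rw [hZs1 t htT] at hza
            exact hrl t htT b hb (hba.trans hza.symm)
          · have htQ : t ∈ Q := (Finset.mem_union.1 ht).resolve_right htT
            rw [hZs2 t htT] at hza
            have := hZ'im t htQ hts
            rw [hza, ← hba] at this
            exact hnZl b hb this
        · intro hno
          by_cases haZ : a ∈ Z'
          · exfalso
            -- all points of `Z'` are values
            have himgZ : (Q.erase s).image (fun t => z1 t s) = Z' := by
              apply Finset.eq_of_subset_of_card_le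
              · intro x hx
                obtain ⟨t, ht, rfl⟩ := Finset.mem_image.1 hx
                exact hZ'im t (Finset.mem_of_mem_erase ht) (Finset.ne_of_mem_erase ht)
              · rw [hZ'c, Finset.card_image_of_injOn, hQ'c]
                intro t ht t' ht' he
                exact k6 t ht t' ht' s (Finset.mem_insert_self _ _) he
            rw [← himgZ] at haZ
            obtain ⟨t, ht, hta⟩ := Finset.mem_image.1 haZ
            have htQ := Finset.mem_of_mem_erase ht
            exact hno ⟨t, Finset.mem_union_left _ htQ, Finset.ne_of_mem_erase ht, by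
              rw [hZs2 t (hQnT t htQ)]; exact hta⟩
          · rcases himg a ha haZ with ⟨b, hb, hba⟩ | ⟨t, ht, hta⟩
            · exact ⟨b, hb, by rw [hGs]; exact hba⟩
            · exfalso
              exact hno ⟨t, Finset.mem_union_right _ ht, fun h => hsT (h ▸ ht), by
                rw [hZs1 t ht]; exact hta⟩
      · have hk := k8 s' (hmem s' hs' h) a ha
        have e1 : (∃ b ∈ B, G s' b = a) ↔ (∃ b ∈ B, g1 s' b = a) := by
          constructor
          · rintro ⟨b, hb, h3⟩; exact ⟨b, hb, by rw [← hGn s' b h]; exact h3⟩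
          · rintro ⟨b, hb, h3⟩; exact ⟨b, hb, by rw [hGn s' b h]; exact h3⟩
        rw [e1, hk]
        apply not_congr
        constructor
        · rintro ⟨t, ht, h2, h3⟩
          refine ⟨t, ?_, h2, by rw [hZn s' t h]; exact h3⟩
          rcases Finset.mem_union.1 ht with h4 | h4
          · exact Finset.mem_union_left _ (Finset.mem_of_mem_erase h4)
          · rcases Finset.mem_insert.1 h4 with h5 | h5
            · rw [h5]; exact Finset.mem_union_left _ hs
            · exact Finset.mem_union_right _ h5
        · rintro ⟨t, ht, h2, h3⟩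
          refine ⟨t, ?_, h2, by rw [← hZn s' t h]; exact h3⟩
          by_cases hts : t = s
          · rw [hts]; exact Finset.mem_union_right _ (Finset.mem_insert_self _ _)
          · rcases Finset.mem_union.1 ht with h4 | h4
            · exact Finset.mem_union_left _ (hmem t h4 hts)
            · exact Finset.mem_union_right _ (Finset.mem_insert_of_mem h4)

end Pool.Agent.CHS
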