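import Mathlib

/-!
# CHS/Cells: a random map into `2^t` cells is even on all neighbourhoods

`M` cells, `g : V → Fin M` uniformly random.  For fixed `v` and a cell `j` the number
`x = #{u ∈ N v : g u = j}` is binomial with `|N v| ≤ r` trials and success probability `1/M`.
`E exp(λ (x - |N v|/M))` for `λ = ± ε/4` (`ε ≤ 1`): each factor is
`exp(-λ/M) (1 + (exp λ - 1)/M) ≤ exp ((exp λ - 1 - λ)/M) ≤ exp (λ²)`; so by Markov's inequality
`P(|x - |N v|/M| > ε r) ≤ 2 exp(-|λ| ε r + λ² r) ≤ 2 exp(-ε² r / 8)` (`|λ| = ε/4`: `-ε²/4 + ε²/16`).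
The sum over the at most `2 r^10` points and `M` cells is `< 1` for large `r`.
Sums over all functions `V → Fin M` of products: `Finset.prod_univ_sum`.
-/

set_option autoImplicit false

namespace Pool.Agent.CHS
open Finset

private theorem cells_decay (c K : ℝ) (hc : 0 < c) : ∃ r0 : ℕ, ∀ r : ℕ, r0 ≤ r →
    K * (r : ℝ) ^ 10 * Real.exp (-(c * r)) < 1 := by
  have h1 := Real.tendsto_pow_mul_exp_neg_atTop_nhds_zero 10
  have h2 : Filter.Tendsto (fun r : ℕ => c * (r : ℝ)) Filter.atTop Filter.atTop :=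
    Filter.Tendsto.const_mul_atTop hc tendsto_natCast_atTop_atTop
  have h3 := (h1.comp h2).const_mul (K / c ^ 10)
  rw [mul_zero] at h3
  have h4 := h3.eventually (gt_mem_nhds (show (0 : ℝ) < 1 by norm_num))
  obtain ⟨r0, hr0⟩ := Filter.eventually_atTop.mp h4
  refine ⟨r0, fun r hr => ?_⟩
  have h5 := hr0 r hr
  have h6 : K / c ^ 10 * ((fun x : ℝ => x ^ 10 * Real.exp (-x)) ∘ fun r : ℕ => c * (r : ℝ)) r
      = K * (r : ℝ) ^ 10 * Real.exp (-(c * r)) := by
    simp only [Function.comp]
    rw [mul_pow]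
    field_simp
  linarith [h6 ▸ h5]

private theorem cells_mgf {V : Type} [Fintype V] [DecidableEq V] (M : ℕ) (hM : 0 < M)
    (N : Finset V) (j : Fin M) (r : ℕ) (hN : N.card ≤ r) (l : ℝ) (hl : |l| ≤ 1) :
    ∑ g : V → Fin M, Real.exp (l * (((N.filter (fun u => g u = j)).card : ℝ) - (N.card : ℝ) / M))
      ≤ (M : ℝ) ^ Fintype.card V * Real.exp (l ^ 2 * r) := by
  have hM' : (0 : ℝ) < M := by exact_mod_cast hM
  have hM1 : (1 : ℝ) ≤ M := by exact_mod_cast hM
  -- product formula
  have h1 : ∀ g : V → Fin M,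
      Real.exp (l * (((N.filter (fun u => g u = j)).card : ℝ) - (N.card : ℝ) / M))
        = Real.exp (-(l * (N.card : ℝ) / M)) *
          ∏ u, (if u ∈ N then (if g u = j then Real.exp l else 1) else 1) := by
    intro g
    have h2 : ∏ u, (if u ∈ N then (if g u = j then Real.exp l else 1) else (1 : ℝ))
        = Real.exp l ^ (N.filter (fun u => g u = j)).card := by
      rw [Finset.prod_ite_mem, Finset.univ_inter, ← Finset.prod_filter, Finset.prod_const]
    rw [h2, ← Real.exp_nat_mul, ← Real.exp_add]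
    congr 1
    ring
  have h3 : ∑ g : V → Fin M, ∏ u, (if u ∈ N then (if g u = j then Real.exp l else 1) else (1 : ℝ))
      = (M : ℝ) ^ Fintype.card V * (1 + (Real.exp l - 1) / M) ^ N.card := by
    have h4 := (Fintype.piFinset_univ (α := V) (β := fun _ => Fin M))
    have h5 : ∑ g : V → Fin M, ∏ u, (if u ∈ N then (if g u = j then Real.exp l else 1) else (1 : ℝ))
        = ∏ u : V, ∑ i : Fin M, (if u ∈ N then (if i = j then Real.exp l else 1) else (1 : ℝ)) := by
      rw [Finset.prod_univ_sum, h4]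
    rw [h5]
    have h6 : ∀ u : V, ∑ i : Fin M, (if u ∈ N then (if i = j then Real.exp l else 1) else (1 : ℝ))
        = (M : ℝ) * (if u ∈ N then (1 + (Real.exp l - 1) / M) else 1) := by
      intro u
      by_cases hu : u ∈ N
      · simp only [hu, if_true]
        have h7 : ∀ i : Fin M, (if i = j then Real.exp l else (1 : ℝ))
            = 1 + (if i = j then Real.exp l - 1 else 0) := by
          intro i; split_ifs <;> ring
        rw [Finset.sum_congr rfl (fun i _ => h7 i), Finset.sum_add_distrib, Finset.sum_ite_eq']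
        simp only [Finset.sum_const, Finset.card_univ, Fintype.card_fin, nsmul_eq_mul, mul_one,
          Finset.mem_univ, if_true]
        field_simp
      · simp [hu]
    rw [Finset.prod_congr rfl (fun u _ => h6 u), Finset.prod_mul_distrib, Finset.prod_const,
      Finset.card_univ, Finset.prod_ite_mem, Finset.univ_inter, Finset.prod_const]
  rw [Finset.sum_congr rfl (fun g _ => h1 g), ← Finset.mul_sum, h3]
  have h8 : 0 < 1 + (Real.exp l - 1) / M := by
    have : 0 < Real.exp l := Real.exp_pos l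
    have h9 : 1 + (Real.exp l - 1) / M = (M - 1 + Real.exp l) / M := by field_simp; ring
    rw [h9]
    apply div_pos _ hM'
    linarith
  have h10 : 1 + (Real.exp l - 1) / M ≤ Real.exp (l / M + l ^ 2) := by
    have h11 : 1 + (Real.exp l - 1) / M ≤ Real.exp ((Real.exp l - 1) / M) := by
      have := Real.add_one_le_exp ((Real.exp l - 1) / M)
      linarith
    refine h11.trans (Real.exp_le_exp.mpr ?_)
    have h12 := Real.abs_exp_sub_one_sub_id_le hl
    have h13 : Real.exp l - 1 ≤ l + l ^ 2 := by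
      have := (abs_le.mp h12).2
      linarith
    have h14 : (Real.exp l - 1) / M ≤ (l + l ^ 2) / M := by gcongr
    have h15 : l ^ 2 / M ≤ l ^ 2 := div_le_self (sq_nonneg l) hM1
    rw [add_div] at h14
    linarith
  have h16 : (1 + (Real.exp l - 1) / M) ^ N.card ≤ Real.exp (l * N.card / M + l ^ 2 * N.card) := by
    refine (pow_le_pow_left₀ h8.le h10 N.card).trans (le_of_eq ?_)
    rw [← Real.exp_nat_mul]
    congr 1
    ring
  have h17 : (0 : ℝ) < (M : ℝ) ^ Fintype.card V := pow_pos hM' _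
  calc Real.exp (-(l * (N.card : ℝ) / M)) *
        ((M : ℝ) ^ Fintype.card V * (1 + (Real.exp l - 1) / M) ^ N.card)
      = (M : ℝ) ^ Fintype.card V *
        (Real.exp (-(l * (N.card : ℝ) / M)) * (1 + (Real.exp l - 1) / M) ^ N.card) := by ring
    _ ≤ (M : ℝ) ^ Fintype.card V *
        (Real.exp (-(l * (N.card : ℝ) / M)) * Real.exp (l * N.card / M + l ^ 2 * N.card)) := by
        gcongr
    _ = (M : ℝ) ^ Fintype.card V * Real.exp (l ^ 2 * N.card) := by
        rw [← Real.exp_add]; congr 2; ring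
    _ ≤ (M : ℝ) ^ Fintype.card V * Real.exp (l ^ 2 * r) := by
        have : (N.card : ℝ) ≤ r := by exact_mod_cast hN
        gcongr

private theorem cells_one (ε : ℝ) (hε : 0 < ε) (hε1 : ε ≤ 1) (M : ℕ) (hM : 0 < M) :
    ∃ r0 : ℕ, ∀ r ≥ r0,
    ∀ (V : Type) [Fintype V] [DecidableEq V], Fintype.card V ≤ 2 * r ^ 10 →
    ∀ (N : V → Finset V), (∀ v, (N v).card ≤ r) →
    ∃ g : V → Fin M, ∀ v j,
      |(((N v).filter (fun u => g u = j)).card : ℝ) - ((N v).card : ℝ) / M| ≤ ε * r := by
  obtain ⟨r0, hr0⟩ := cells_decay (3 * ε ^ 2 / 16) (4 * M) (by positivity)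
  refine ⟨r0, fun r hr V _ _ hV N hN => ?_⟩
  have hM' : (0 : ℝ) < M := by exact_mod_cast hM
  by_contra hcon
  push Not at hcon
  set l : ℝ := ε / 4 with hl
  have hl0 : 0 < l := by positivity
  have hl1 : |l| ≤ 1 := by rw [abs_of_pos hl0]; linarith
  have hl2 : |(-l)| ≤ 1 := by rw [abs_neg]; exact hl1
  -- the potential
  set X : (V → Fin M) → V → Fin M → ℝ := fun g v j =>
    (((N v).filter (fun u => g u = j)).card : ℝ) - ((N v).card : ℝ) / M with hX
  have hlow : ∀ g : V → Fin M, Real.exp (l * (ε * r)) ≤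
      ∑ v, ∑ j, (Real.exp (l * X g v j) + Real.exp (-l * X g v j)) := by
    intro g
    obtain ⟨v, j, hvj⟩ := hcon g
    have h1 : Real.exp (l * (ε * r)) ≤ Real.exp (l * X g v j) + Real.exp (-l * X g v j) := by
      rcases lt_abs.mp hvj with h | h
      · have : Real.exp (l * (ε * r)) ≤ Real.exp (l * X g v j) := by
          apply Real.exp_le_exp.mpr
          exact mul_le_mul_of_nonneg_left h.le hl0.le
        have := Real.exp_pos (-l * X g v j)
        linarith
      · have : Real.exp (l * (ε * r)) ≤ Real.exp (-l * X g v j) := by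
          apply Real.exp_le_exp.mpr
          have := mul_le_mul_of_nonneg_left h.le hl0.le
          calc l * (ε * r) ≤ l * -X g v j := this
            _ = -l * X g v j := by ring
        have := Real.exp_pos (l * X g v j)
        linarith
    have h2 : Real.exp (l * X g v j) + Real.exp (-l * X g v j) ≤
        ∑ j, (Real.exp (l * X g v j) + Real.exp (-l * X g v j)) :=
      Finset.single_le_sum (f := fun j => Real.exp (l * X g v j) + Real.exp (-l * X g v j))
        (fun j _ => by positivity) (Finset.mem_univ j)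
    have h3 : ∑ j, (Real.exp (l * X g v j) + Real.exp (-l * X g v j)) ≤
        ∑ v, ∑ j, (Real.exp (l * X g v j) + Real.exp (-l * X g v j)) :=
      Finset.single_le_sum
        (f := fun v => ∑ j, (Real.exp (l * X g v j) + Real.exp (-l * X g v j)))
        (fun v _ => Finset.sum_nonneg (fun j _ => by positivity)) (Finset.mem_univ v)
    exact h1.trans (h2.trans h3)
  have hsum := Finset.sum_le_sum (fun g (_ : g ∈ (Finset.univ : Finset (V → Fin M))) => hlow g)
  rw [Finset.sum_const, Finset.card_univ, nsmul_eq_mul, Finset.sum_comm] at hsum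
  have hup : ∑ v, ∑ g : V → Fin M, ∑ j, (Real.exp (l * X g v j) + Real.exp (-l * X g v j)) ≤
      ∑ v : V, ∑ j : Fin M, 2 * ((M : ℝ) ^ Fintype.card V * Real.exp (l ^ 2 * r)) := by
    apply Finset.sum_le_sum
    intro v _
    rw [Finset.sum_comm]
    apply Finset.sum_le_sum
    intro j _
    rw [Finset.sum_add_distrib]
    have h1 := cells_mgf M hM (N v) j r (hN v) l hl1
    have h2 := cells_mgf M hM (N v) j r (hN v) (-l) hl2
    rw [neg_sq] at h2
    linarith
  have h3 := hsum.trans hup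
  rw [Finset.sum_const, Finset.sum_const, Finset.card_univ, Finset.card_univ, Fintype.card_fin,
    nsmul_eq_mul, nsmul_eq_mul, Fintype.card_fun, Fintype.card_fin, Nat.cast_pow] at h3
  have hpow : (0 : ℝ) < (M : ℝ) ^ Fintype.card V := pow_pos hM' _
  have h4 : Real.exp (l * (ε * r)) ≤
      (Fintype.card V : ℝ) * (M * (2 * Real.exp (l ^ 2 * r))) := by
    have h5 : (M : ℝ) ^ Fintype.card V * Real.exp (l * (ε * r)) ≤ (M : ℝ) ^ Fintype.card V *
      ((Fintype.card V : ℝ) * (M * (2 * Real.exp (l ^ 2 * r)))) := by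
      refine h3.trans (le_of_eq ?_)
      ring
    exact le_of_mul_le_mul_left h5 hpow
  have hVr : (Fintype.card V : ℝ) ≤ 2 * (r : ℝ) ^ 10 := by exact_mod_cast hV
  have h6 : Real.exp (l * (ε * r)) ≤ (4 * M) * (r : ℝ) ^ 10 * Real.exp (l ^ 2 * r) := by
    refine h4.trans ?_
    calc (Fintype.card V : ℝ) * (M * (2 * Real.exp (l ^ 2 * r)))
        ≤ (2 * (r : ℝ) ^ 10) * (M * (2 * Real.exp (l ^ 2 * r))) := by gcongr
      _ = (4 * M) * (r : ℝ) ^ 10 * Real.exp (l ^ 2 * r) := by ring
  have h7 : 1 ≤ (4 * M) * (r : ℝ) ^ 10 * Real.exp (-(3 * ε ^ 2 / 16 * r)) := by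
    have h8 : Real.exp (l ^ 2 * r) = Real.exp (l * (ε * r)) * Real.exp (-(3 * ε ^ 2 / 16 * r)) := by
      rw [← Real.exp_add]
      congr 1
      rw [hl]
      ring
    rw [h8] at h6
    have h9 : Real.exp (l * (ε * r)) * 1 ≤ Real.exp (l * (ε * r)) *
        ((4 * M) * (r : ℝ) ^ 10 * Real.exp (-(3 * ε ^ 2 / 16 * r))) := by
      linarith
    exact le_of_mul_le_mul_left h9 (Real.exp_pos _)
  linarith [hr0 r hr]

theorem cells (ε : ℝ) (hε : 0 < ε) (M : ℕ) (hM : 0 < M) : ∃ r0 : ℕ, ∀ r ≥ r0,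
    ∀ (V : Type) [Fintype V] [DecidableEq V], Fintype.card V ≤ 2 * r ^ 10 →
    ∀ (N : V → Finset V), (∀ v, (N v).card ≤ r) →
    ∃ g : V → Fin M, ∀ v j,
      |(((N v).filter (fun u => g u = j)).card : ℝ) - ((N v).card : ℝ) / M| ≤ ε * r := by
  obtain ⟨r0, hr0⟩ := cells_one (min ε 1) (lt_min hε one_pos) (min_le_right _ _) M hM
  refine ⟨r0, fun r hr V _ _ hV N hN => ?_⟩
  obtain ⟨g, hg⟩ := hr0 r hr V hV N hN
  refine ⟨g, fun v j => (hg v j).trans ?_⟩
  exact mul_le_mul_of_nonneg_right (min_le_left _ _) (Nat.cast_nonneg r)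

end Pool.Agent.CHS
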