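import Pool.Agent.CHS.Konig
import Pool.Agent.CHS.Cells

/-!
# CHS/Levels: almost optimal edge colouring (a weak form of Vizing's theorem)

Choose `t` with `2^(-t) ≤ ε/2` and put `M = 2^t`, `ε' = ε / (4 M (t+1))`.  Take `g : V → Fin M` from
`cells` (with `ε'`, `N v` = neighbours of `v`), read `g v` as `t` binary digits (`Nat.testBit`).
For `j < t` let `G_j u v` hold if `G u v` and `j` is the first digit in which `g u`, `g v` differ.
`G_j` is bipartite (digit `j`), and the neighbours of `v` in `G_j` lie in `2^(t-1-j)` cells, each with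
at most `Δ/M + ε' r` neighbours, so the degrees are at most `Δ 2^(-1-j) + ε' M r`, let `Δ_j` be the
integer part; `konig` gives `Δ_j` matchings.  Altogether
`q = ∑_j Δ_j ≤ Δ + t ε' M r ≤ Δ + ε r` matchings; matchings of different levels are disjoint because
the `G_j` are.  The edges `u v` not covered have `g u = g v`: at most `Δ/M + ε' r ≤ ε r` at each point.
-/

set_option autoImplicit false

namespace Pool.Agent.CHS
open Finset

private theorem lv_card (t j : ℕ) (hj : j < t) (a : ℕ) :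
    ((univ : Finset (Fin (2 ^ t))).filter (fun c : Fin (2 ^ t) => (∀ i < j, a.testBit i = (c : ℕ).testBit i) ∧
      a.testBit j ≠ (c : ℕ).testBit j)).card ≤ 2 ^ (t - 1 - j) := by
  rw [← card_range (2 ^ (t - 1 - j))]
  apply card_le_card_of_injOn (fun c : Fin (2 ^ t) => (c : ℕ) / 2 ^ (j + 1))
  · intro c _
    simp only [coe_range, Set.mem_Iio]
    apply Nat.div_lt_of_lt_mul
    rw [← pow_add]
    have : j + 1 + (t - 1 - j) = t := by omega
    rw [this]
    exact c.2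
  · intro c hc c' hc' h
    simp only [coe_filter, mem_univ, true_and, Set.mem_ofPred_eq] at hc hc' h
    apply Fin.ext
    apply Nat.eq_of_testBit_eq
    intro i
    rcases lt_trichotomy i j with hi | hi | hi
    · rw [← hc.1 i hi, hc'.1 i hi]
    · subst hi
      have e1 := hc.2
      have e2 := hc'.2
      revert e1 e2
      cases a.testBit i <;> cases (c : ℕ).testBit i <;> cases (c' : ℕ).testBit i <;> simp
    · have e0 : ∀ x : ℕ, (x / 2 ^ (j + 1)).testBit (i - (j + 1)) = x.testBit i := by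
        intro x
        rw [Nat.testBit_div_two_pow]
        congr 1
        omega
      rw [← e0 (c : ℕ), h, e0]

private theorem lv_first {t : ℕ} {a b : ℕ} (ha : a < 2 ^ t) (hb : b < 2 ^ t) (h : a ≠ b) :
    ∃ j, j < t ∧ (∀ i < j, a.testBit i = b.testBit i) ∧ a.testBit j ≠ b.testBit j := by
  classical
  have hex : ∃ j, a.testBit j ≠ b.testBit j := by
    by_contra hne
    push Not at hne
    exact h (Nat.eq_of_testBit_eq hne)
  refine ⟨Nat.find hex, ?_, ?_, Nat.find_spec hex⟩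
  · by_contra hlt
    push Not at hlt
    have h1 := Nat.find_spec hex
    rw [Nat.testBit_lt_two_pow (lt_of_lt_of_le ha (Nat.pow_le_pow_right (by norm_num) hlt)),
      Nat.testBit_lt_two_pow (lt_of_lt_of_le hb (Nat.pow_le_pow_right (by norm_num) hlt))] at h1
    exact h1 rfl
  · intro i hi
    have := Nat.find_min hex hi
    push Not at this
    exact this

private theorem lv_sum (t : ℕ) : ∑ j : Fin t, (1 : ℝ) / 2 ^ ((j : ℕ) + 1) ≤ 1 := by
  have h : ∀ t : ℕ, ∑ j ∈ range t, (1 : ℝ) / 2 ^ (j + 1) = 1 - 1 / 2 ^ t := by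
    intro t
    induction t with
    | zero => simp
    | succ n ih =>
      rw [sum_range_succ, ih]
      field_simp
      ring
  rw [Fin.sum_univ_eq_sum_range (fun j => (1 : ℝ) / 2 ^ (j + 1)), h]
  have : (0 : ℝ) ≤ 1 / 2 ^ t := by positivity
  linarith

theorem levels (ε : ℝ) (hε : 0 < ε) : ∃ r0 : ℕ, ∀ r ≥ r0, ∀ (V : Type) [Fintype V]
    [DecidableEq V], Fintype.card V ≤ 2 * r ^ 10 → ∀ (G : V → V → Prop) [DecidableRel G],
    (∀ u v, G u v → G v u) → (∀ u, ¬ G u u) → ∀ Δ : ℕ, Δ ≤ r →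
    (∀ v, (univ.filter (fun u => G v u)).card ≤ Δ) →
    ∃ q : ℕ, (q : ℝ) ≤ Δ + ε * r ∧ ∃ R : Fin q → V → V,
      (∀ i u, R i (R i u) = u) ∧ (∀ i u, R i u ≠ u → G u (R i u)) ∧
      (∀ i j, i ≠ j → ∀ u, R i u = R j u → R i u = u) ∧
      ∀ v, ((univ.filter (fun u => G v u ∧ ∀ i, R i v ≠ u)).card : ℝ) ≤ ε * r := by
  obtain ⟨t, ht⟩ : ∃ t : ℕ, (1 / 2 : ℝ) ^ t < ε / 2 :=
    exists_pow_lt_of_lt_one (by positivity) (by norm_num)
  have hM0 : 0 < 2 ^ t := by positivity
  have hMr : (0 : ℝ) < 2 ^ t := by positivity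
  obtain ⟨ε', hε'⟩ : ∃ ε' : ℝ, ε' = ε / (4 * 2 ^ t * (t + 1)) := ⟨_, rfl⟩
  have ht1 : (0 : ℝ) < (t : ℝ) + 1 := by positivity
  have hε'0 : 0 < ε' := by rw [hε']; positivity
  have hε'M : ε' * 2 ^ t * (t + 1) = ε / 4 := by
    rw [hε']
    field_simp
  have hε't : ε' * 2 ^ t * t ≤ ε / 4 := by
    have : 0 ≤ ε' * 2 ^ t := by positivity
    nlinarith
  have hε'1 : ε' ≤ ε / 4 := by
    have h1 : (1 : ℝ) ≤ 2 ^ t := one_le_pow₀ (by norm_num)
    have h2 : (0 : ℝ) ≤ (t : ℝ) := by positivity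
    have h3 : 1 ≤ (2 : ℝ) ^ t * (t + 1) := by nlinarith
    calc ε' = ε' * 1 := (mul_one _).symm
      _ ≤ ε' * (2 ^ t * (t + 1)) := mul_le_mul_of_nonneg_left h3 hε'0.le
      _ = ε / 4 := by rw [← hε'M]; ring
  obtain ⟨r0, hr0⟩ := cells ε' hε'0 (2 ^ t) hM0
  refine ⟨r0, ?_⟩
  intro r hr V _ _ hcard G _ hsym hirr Δ hΔ hdeg
  obtain ⟨g, hg⟩ := hr0 r hr V hcard (fun v => univ.filter (fun u => G v u))
    (fun v => (hdeg v).trans hΔ)
  have hrr : (0 : ℝ) ≤ (r : ℝ) := by positivity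
  have hΔr : (Δ : ℝ) ≤ r := by exact_mod_cast hΔ
  -- number of neighbours in one cell
  have hcell : ∀ v c, (((univ.filter (fun u => G v u)).filter (fun u => g u = c)).card : ℝ) ≤
      (Δ : ℝ) / 2 ^ t + ε' * r := by
    intro v c
    have h1 := (abs_le.1 (hg v c)).2
    have h2 : ((univ.filter (fun u => G v u)).card : ℝ) ≤ Δ := by exact_mod_cast hdeg v
    have h3 : ((univ.filter (fun u => G v u)).card : ℝ) / ((2 ^ t : ℕ) : ℝ) ≤ (Δ : ℝ) / 2 ^ t := by
      push_cast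
      gcongr
    linarith
  -- levels
  obtain ⟨D, hD⟩ : ∃ D : Fin t → ℕ, ∀ j, D j = ⌊(Δ : ℝ) * (1 / 2 ^ ((j : ℕ) + 1)) +
    ε' * 2 ^ t * r⌋₊ := ⟨_, fun _ => rfl⟩
  obtain ⟨H, hH⟩ : ∃ H : Fin t → V → V → Prop, ∀ j u v, H j u v ↔
    (G u v ∧ (∀ i < (j : ℕ), (g u : ℕ).testBit i = (g v : ℕ).testBit i) ∧
      (g u : ℕ).testBit j ≠ (g v : ℕ).testBit j) := ⟨_, fun _ _ _ => Iff.rfl⟩
  have key : ∀ j : Fin t, ∃ R : Fin (D j) → V → V, (∀ i u, R i (R i u) = u) ∧
      (∀ i u, R i u ≠ u → H j u (R i u)) ∧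
      (∀ i k, i ≠ k → ∀ u, R i u = R k u → R i u = u) ∧
      ∀ u v, H j u v → ∃ i, R i u = v := by
    intro j
    have : DecidableRel (H j) := fun u v => Classical.propDecidable _
    refine konig (univ.filter (fun u => (g u : ℕ).testBit j = true)) (D j) (H j) ?_ ?_ ?_
    · intro u v h
      rw [hH] at h ⊢
      exact ⟨hsym _ _ h.1, fun i hi => (h.2.1 i hi).symm, h.2.2.symm⟩
    · intro u v h
      rw [hH] at h
      have h3 := h.2.2
      simp only [mem_filter, mem_univ, true_and]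
      revert h3
      cases (g u : ℕ).testBit j <;> cases (g v : ℕ).testBit j <;> simp
    · intro v
      rw [hD]
      apply Nat.le_floor
      obtain ⟨S, hS⟩ : ∃ S : Finset (Fin (2 ^ t)), S = univ.filter (fun c : Fin (2 ^ t) => (∀ i < (j : ℕ),
        (g v : ℕ).testBit i = (c : ℕ).testBit i) ∧ (g v : ℕ).testBit j ≠ (c : ℕ).testBit j) :=
        ⟨_, rfl⟩
      have hScard : S.card ≤ 2 ^ (t - 1 - (j : ℕ)) := by
        rw [hS]
        exact lv_card t j j.2 (g v)
      have hsub : univ.filter (fun u => H j v u) ⊆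
          S.biUnion (fun c => (univ.filter (fun u => G v u)).filter (fun u => g u = c)) := by
        intro u hu
        rw [mem_filter, hH] at hu
        rw [mem_biUnion]
        refine ⟨g u, ?_, ?_⟩
        · rw [hS, mem_filter]
          exact ⟨mem_univ _, hu.2.2⟩
        · rw [mem_filter, mem_filter]
          exact ⟨⟨mem_univ _, hu.2.1⟩, rfl⟩
      have h1 : (univ.filter (fun u => H j v u)).card ≤
          ∑ c ∈ S, ((univ.filter (fun u => G v u)).filter (fun u => g u = c)).card :=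
        (card_le_card hsub).trans card_biUnion_le
      have h2 : ((univ.filter (fun u => H j v u)).card : ℝ) ≤
          ∑ c ∈ S, (((univ.filter (fun u => G v u)).filter (fun u => g u = c)).card : ℝ) := by
        exact_mod_cast h1
      have h3 : ∑ c ∈ S, (((univ.filter (fun u => G v u)).filter (fun u => g u = c)).card : ℝ) ≤
          S.card • ((Δ : ℝ) / 2 ^ t + ε' * r) := sum_le_card_nsmul _ _ _ (fun c _ => hcell v c)
      have h4 : (S.card : ℝ) ≤ 2 ^ (t - 1 - (j : ℕ)) := by exact_mod_cast hScard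
      have h5 : (2 : ℝ) ^ t = 2 ^ (t - 1 - (j : ℕ)) * 2 ^ ((j : ℕ) + 1) := by
        rw [← pow_add]
        congr 1
        have := j.2
        omega
      have h6 : (2 : ℝ) ^ (t - 1 - (j : ℕ)) ≤ 2 ^ t :=
        pow_le_pow_right₀ (by norm_num) (by omega)
      have h7 : (0 : ℝ) < 2 ^ (t - 1 - (j : ℕ)) := by positivity
      have h8 : (0 : ℝ) ≤ (Δ : ℝ) / 2 ^ t + ε' * r := by positivity
      rw [nsmul_eq_mul] at h3
      calc ((univ.filter (fun u => H j v u)).card : ℝ)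
          ≤ (S.card : ℝ) * ((Δ : ℝ) / 2 ^ t + ε' * r) := h2.trans h3
        _ ≤ 2 ^ (t - 1 - (j : ℕ)) * ((Δ : ℝ) / 2 ^ t + ε' * r) := mul_le_mul_of_nonneg_right h4 h8
        _ = (Δ : ℝ) * (1 / 2 ^ ((j : ℕ) + 1)) + 2 ^ (t - 1 - (j : ℕ)) * (ε' * r) := by
            rw [h5]
            field_simp
        _ ≤ (Δ : ℝ) * (1 / 2 ^ ((j : ℕ) + 1)) + 2 ^ t * (ε' * r) := by
            have : 0 ≤ ε' * r := by positivity
            have := mul_le_mul_of_nonneg_right h6 this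
            linarith
        _ = _ := by ring
  choose R hR1 hR2 hR3 hR4 using key
  have hS3 : ∀ a b : (Σ j : Fin t, Fin (D j)), a ≠ b → ∀ u, R a.1 a.2 u = R b.1 b.2 u →
      R a.1 a.2 u = u := by
    rintro ⟨a1, a2⟩ ⟨b1, b2⟩ hab u hu
    have hu' : R a1 a2 u = R b1 b2 u := hu
    by_contra hne
    have hne1 : R a1 a2 u ≠ u := hne
    have hne' : R b1 b2 u ≠ u := by rwa [← hu']
    have e1 := (hH _ _ _).1 (hR2 a1 a2 u hne1)
    have e2 := (hH _ _ _).1 (hR2 b1 b2 u hne')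
    rw [← hu'] at e2
    rcases lt_trichotomy (a1 : ℕ) (b1 : ℕ) with h | h | h
    · exact e1.2.2 (e2.2.1 _ h)
    · have h' : a1 = b1 := Fin.ext h
      subst h'
      refine hne1 (hR3 a1 a2 b2 ?_ u hu')
      rintro rfl
      exact hab rfl
    · exact e2.2.2 (e1.2.1 _ h)
  refine ⟨∑ j : Fin t, D j, ?_, fun i => R (finSigmaFinEquiv.symm i).1 (finSigmaFinEquiv.symm i).2,
    ?_, ?_, ?_, ?_⟩
  · push_cast
    have h1 : ∀ j : Fin t, (D j : ℝ) ≤ (Δ : ℝ) * (1 / 2 ^ ((j : ℕ) + 1)) + ε' * 2 ^ t * r := by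
      intro j
      rw [hD]
      exact Nat.floor_le (by positivity)
    calc ∑ j : Fin t, (D j : ℝ) ≤ ∑ j : Fin t, ((Δ : ℝ) * (1 / 2 ^ ((j : ℕ) + 1)) + ε' * 2 ^ t * r) :=
          sum_le_sum (fun j _ => h1 j)
      _ = (Δ : ℝ) * (∑ j : Fin t, (1 : ℝ) / 2 ^ ((j : ℕ) + 1)) + ε' * 2 ^ t * t * r := by
          rw [sum_add_distrib, ← mul_sum, sum_const, card_univ, Fintype.card_fin, nsmul_eq_mul]
          ring
      _ ≤ (Δ : ℝ) * 1 + ε / 4 * r := by
          have h2 := lv_sum t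
          have h3 : (0 : ℝ) ≤ (Δ : ℝ) := by positivity
          exact add_le_add (mul_le_mul_of_nonneg_left h2 h3) (mul_le_mul_of_nonneg_right hε't hrr)
      _ ≤ (Δ : ℝ) + ε * r := by nlinarith
  · intro i u
    exact hR1 _ _ _
  · intro i u h
    exact ((hH _ _ _).1 (hR2 _ _ _ h)).1
  · intro i k hik u hu
    exact hS3 _ _ (fun h => hik (finSigmaFinEquiv.symm.injective h)) u hu
  · intro v
    have hsub : univ.filter (fun u => G v u ∧ ∀ i : Fin (∑ j : Fin t, D j),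
        R (finSigmaFinEquiv.symm i).1 (finSigmaFinEquiv.symm i).2 v ≠ u) ⊆
        (univ.filter (fun u => G v u)).filter (fun u => g u = g v) := by
      intro u hu
      rw [mem_filter] at hu
      rw [mem_filter, mem_filter]
      refine ⟨⟨mem_univ _, hu.2.1⟩, ?_⟩
      by_contra hne
      have hne2 : (g v : ℕ) ≠ (g u : ℕ) := fun h => hne (Fin.ext h.symm)
      obtain ⟨j, hj, hj1, hj2⟩ := lv_first (g v).2 (g u).2 hne2
      obtain ⟨i, hi⟩ := hR4 ⟨j, hj⟩ v u ((hH _ _ _).2 ⟨hu.2.1, hj1, hj2⟩)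
      refine hu.2.2 (finSigmaFinEquiv ⟨⟨j, hj⟩, i⟩) ?_
      rw [Equiv.symm_apply_apply]
      exact hi
    have h1 : ((univ.filter (fun u => G v u ∧ ∀ i : Fin (∑ j : Fin t, D j),
        R (finSigmaFinEquiv.symm i).1 (finSigmaFinEquiv.symm i).2 v ≠ u)).card : ℝ) ≤
        (((univ.filter (fun u => G v u)).filter (fun u => g u = g v)).card : ℝ) := by
      exact_mod_cast card_le_card hsub
    refine h1.trans ((hcell v (g v)).trans ?_)
    have h2 : (Δ : ℝ) / 2 ^ t ≤ ε / 2 * r := by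
      have h3 : (1 : ℝ) / 2 ^ t ≤ ε / 2 := by
        rw [one_div, ← inv_pow, ← one_div]
        exact ht.le
      calc (Δ : ℝ) / 2 ^ t = (1 / 2 ^ t) * Δ := by ring
        _ ≤ ε / 2 * r := mul_le_mul h3 hΔr (by positivity) (by positivity)
    have h4 : ε' * r ≤ ε / 4 * r := mul_le_mul_of_nonneg_right hε'1 hrr
    nlinarith

end Pool.Agent.CHS
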