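import Pool.Agent.CHS.Lip

/-!
# CHS/Chain: the chain of small steps

Let `c : V → ℕ` take values `< k`.  Suppose every system `m` for which `c` is not a proper colouring
can be changed through a set `W`, independent before and after, so that all blocks of `m'` meeting
`W` are not monochromatic for `c`, while some monochromatic block of `m` meets `W`.  Then for every
system `m` and every `q` with `k ≤ q ≤ chi m` there is a system with chromatic number exactly `q`.

Proof.  Strong induction on the number `μ(m)` of pairs `(x, y)`, `x ≠ y`, with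
`c x = c y = c (m.mul x y)`; claim: for all `m` with `q ≤ chi m` there is `m'` with `chi m' = q`.
If `μ(m) = 0` then `c` is a proper colouring of `m` with values `< k`, so `chi m ≤ k ≤ q ≤ chi m` and
`m' = m` works.  Otherwise take `m'`, `W` from the hypothesis.  Every monochromatic pair `(x, y)` of
`m'` has `x, y, m' x y ∉ W`, so `m x y = m' x y` and it is a monochromatic pair of `m`; the pair
`(a, b)` with `a ∈ W` is one of `m` but not of `m'`; hence `μ(m') < μ(m)`.  By `lip` in both
directions `chi m ≤ chi m' + 1`.  If `q ≤ chi m'` use the induction hypothesis for `m'`.  If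
`chi m' < q ≤ chi m ≤ chi m' + 1` then `chi m = q`: take `m` itself.
(`chi` is the least `k` with `Colb m k`; the set is nonempty by `colb_card`.)
-/

set_option autoImplicit false

namespace Pool.Agent.CHS
open Finset

/-- The step property used in `chain`. -/
def StepProp {V : Type} (c : V → ℕ) : Prop :=
  ∀ m : SQ V, (∃ a b, a ≠ b ∧ c a = c b ∧ c b = c (m.mul a b)) →
    ∃ (m' : SQ V) (W : Finset V),
      (∀ x ∈ W, ∀ y ∈ W, x ≠ y → m.mul x y ∉ W) ∧
      (∀ x ∈ W, ∀ y ∈ W, x ≠ y → m'.mul x y ∉ W) ∧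
      (∀ x ∉ W, ∀ y ∉ W, m'.mul x y ∉ W → m.mul x y = m'.mul x y) ∧
      (∀ x ∉ W, ∀ y ∉ W, m.mul x y ∉ W → m'.mul x y = m.mul x y) ∧
      (∃ a ∈ W, ∃ b, a ≠ b ∧ c a = c b ∧ c b = c (m.mul a b)) ∧
      (∀ x y, x ≠ y → c x = c y → c y = c (m'.mul x y) → x ∉ W ∧ y ∉ W ∧ m'.mul x y ∉ W)

/-- the monochromatic pairs -/
private def mon {V : Type} [Fintype V] [DecidableEq V] (c : V → ℕ) (m : SQ V) :
    Finset (V × V) :=
  univ.filter (fun p => p.1 ≠ p.2 ∧ c p.1 = c p.2 ∧ c p.2 = c (m.mul p.1 p.2))

private theorem mem_mon {V : Type} [Fintype V] [DecidableEq V] (c : V → ℕ) (m : SQ V) (x y : V) :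
    (x, y) ∈ mon c m ↔ x ≠ y ∧ c x = c y ∧ c y = c (m.mul x y) := by
  simp [mon]

private theorem chi_spec {V : Type} [Fintype V] (m : SQ V) : Colb m (chi m) :=
  Nat.sInf_mem (s := {k | Colb m k}) ⟨_, colb_card m⟩

private theorem chi_le {V : Type} (m : SQ V) {k : ℕ} (h : Colb m k) : chi m ≤ k :=
  Nat.sInf_le h

theorem chain {V : Type} [Fintype V] [DecidableEq V] (c : V → ℕ) (k : ℕ) (hc : ∀ v, c v < k)
    (step : StepProp c) (m : SQ V) (q : ℕ) (hkq : k ≤ q) (hq : q ≤ chi m) :
    ∃ m' : SQ V, chi m' = q := by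
  induction hn : (mon c m).card using Nat.strong_induction_on generalizing m with
  | _ n ih =>
    by_cases hmono : ∃ a b, a ≠ b ∧ c a = c b ∧ c b = c (m.mul a b)
    · obtain ⟨m', W, hind, hind', heq, heq', ⟨a, haW, b, hab, hcab, hcb⟩, hclean⟩ := step m hmono
      have hsub : mon c m' ⊆ mon c m := by
        rintro ⟨x, y⟩ hxy
        rw [mem_mon] at hxy
        obtain ⟨h1, h2, h3⟩ := hxy
        obtain ⟨hx, hy, hz⟩ := hclean x y h1 h2 h3
        rw [mem_mon]
        refine ⟨h1, h2, ?_⟩
        rw [heq x hx y hy hz]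
        exact h3
      have hlt : (mon c m').card < (mon c m).card := by
        apply Finset.card_lt_card
        refine ⟨hsub, ?_⟩
        intro hsup
        have h1 : (a, b) ∈ mon c m := (mem_mon c m a b).2 ⟨hab, hcab, hcb⟩
        have h2 := hsup h1
        rw [mem_mon] at h2
        exact (hclean a b h2.1 h2.2.1 h2.2.2).1 haW
      by_cases hq' : q ≤ chi m'
      · exact ih _ (hn ▸ hlt) m' hq' rfl
      · refine ⟨m, le_antisymm ?_ hq⟩
        have h1 : Colb m (chi m' + 1) := lip m' m W hind heq' (chi m') (chi_spec m')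
        have h2 := chi_le m h1
        omega
    · have hcol : Colb m k := by
        refine ⟨fun v => ⟨c v, hc v⟩, ?_⟩
        rintro x y hxy ⟨h1, h2⟩
        exact hmono ⟨x, y, hxy, by simpa using h1, by simpa using h2⟩
      exact ⟨m, le_antisymm ((chi_le m hcol).trans hkq) hq⟩

end Pool.Agent.CHS
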