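import Mathlib

/-!
# CHS/Sel: a random selection

`p = 1/100000`.  Choose `ω : J → Fin 100000` uniformly, `S = {j : ω j = 0}`.
(1) `|S| ≤ 1.1 p |J|` fails with probability at most `1/4`: Chebyshev, the variance of `|S|` is
`p (1-p) |J| ≤ p |J|`, and `p |J| / (0.1 p |J|)² = 100 / (p |J|) ≤ 1/4` as `|J| ≥ r ≥ r0`.
(2) The expectation of `∑_{j ∈ S} ∑_{u ∈ T j} wt u` is at most `p ∑ u wt u` (the `T j` are disjoint), so by
Markov's inequality (2) fails with probability at most `1/4` (if `∑ wt = 0` it never fails).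
(3) For fixed `v` put `μ j = |N v ∩ T j| ≤ 4`, `M = ∑ μ j = |N v ∩ ⋃ T j| ≤ r`.  If `M ≤ r/100` nothing is
to be shown.  For `0 < λ ≤ 1`: `E exp(-λ ∑_{j ∈ S} μ j) = ∏ (1 - p (1 - exp(-λ μ j))) ≤
exp(-p ∑ (1 - exp(-λ μ j)))`, and `1 - exp(-x) ≥ x - x²/2`, so `1 - exp(-λ μ) ≥ λ μ (1 - 2 λ)` for `μ ≤ 4`.
So the probability of `∑_{j ∈ S} μ j < p (M - r/100)` is at most
`exp(λ p (M - r/100) - p λ (1 - 2λ) M) ≤ exp(p λ (2 λ M - r/100)) ≤ exp(-p λ r / 200)` for
`λ = 1/400` (`2 λ M ≤ r/200`).  The sum over the at most `2 r^10` points `v` is `< 1/4` for large `r`.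
All products are computed with `Finset.prod_univ_sum` / `Fintype.piFinset` (sums over all functions
`J → Fin 100000` of products).
-/

set_option autoImplicit false

namespace Pool.Agent.CHS
open Finset

/-- the probability of `S` -/
private noncomputable def wS {J : Type} [Fintype J] [DecidableEq J] (S : Finset J) : ℝ :=
  (∏ _i ∈ S, (1 / 100000 : ℝ)) * ∏ _i ∈ univ \ S, (1 - 1 / 100000 : ℝ)

section
variable {J : Type} [Fintype J] [DecidableEq J]

private lemma wS_nonneg (S : Finset J) : 0 ≤ wS S := by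
  unfold wS
  apply mul_nonneg <;> apply Finset.prod_nonneg <;> intros <;> norm_num

private lemma sum_w_mul (g : J → ℝ) :
    ∑ S : Finset J, wS S * ∏ i ∈ S, g i = ∏ i, (1 / 100000 * g i + (1 - 1 / 100000)) := by
  rw [Finset.prod_add, Finset.powerset_univ]
  apply Finset.sum_congr rfl
  intro S _
  unfold wS
  rw [Finset.prod_mul_distrib]
  ring

private lemma sum_w : ∑ S : Finset J, wS S = 1 := by
  have := sum_w_mul (J := J) (fun _ => 1)
  simpa using this

private lemma sum_w_mem (j : J) :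
    ∑ S : Finset J, wS S * (if j ∈ S then 1 else 0) = (1 / 100000 : ℝ) := by
  have h1 := sum_w_mul (J := J) (fun i => if i = j then 0 else 1)
  have h2 : ∏ i : J, (1 / 100000 * (if i = j then (0 : ℝ) else 1) + (1 - 1 / 100000)) =
      1 - 1 / 100000 := by
    have : ∀ i : J, (1 / 100000 * (if i = j then (0 : ℝ) else 1) + (1 - 1 / 100000)) =
        if i = j then (1 - 1 / 100000 : ℝ) else 1 := by
      intro i
      split_ifs <;> ring
    simp only [this]
    rw [Finset.prod_ite_eq']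
    simp
  have h3 : ∀ S : Finset J, ∏ i ∈ S, (if i = j then (0 : ℝ) else 1) =
      1 - (if j ∈ S then 1 else 0) := by
    intro S
    split_ifs with h
    · rw [Finset.prod_eq_zero h (by simp)]
      ring
    · rw [Finset.prod_eq_one]
      · ring
      · intro i hi
        rw [if_neg]
        rintro rfl
        exact h hi
  rw [h2] at h1
  simp only [h3, mul_sub, mul_one, Finset.sum_sub_distrib, sum_w] at h1
  linarith

private lemma sum_w_lin (a : J → ℝ) :
    ∑ S : Finset J, wS S * ∑ j ∈ S, a j = 1 / 100000 * ∑ j, a j := by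
  have h1 : ∀ S : Finset J, wS S * ∑ j ∈ S, a j =
      ∑ j, a j * (wS S * (if j ∈ S then 1 else 0)) := by
    intro S
    rw [Finset.mul_sum]
    rw [← Finset.sum_subset (Finset.subset_univ S)]
    · apply Finset.sum_congr rfl
      intro j hj
      rw [if_pos hj]
      ring
    · intro j _ hj
      rw [if_neg hj]
      ring
  simp only [h1]
  rw [Finset.sum_comm]
  simp only [← Finset.mul_sum, sum_w_mem]
  rw [← Finset.sum_mul]
  ring

/-- exponential moment -/
private lemma sum_w_exp (b : J → ℝ) (C : ℝ) :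
    ∑ S : Finset J, wS S * Real.exp (C + ∑ j ∈ S, b j) ≤
      Real.exp (C + 1 / 100000 * ∑ j, (Real.exp (b j) - 1)) := by
  have h1 : ∀ S : Finset J, wS S * Real.exp (C + ∑ j ∈ S, b j) =
      Real.exp C * (wS S * ∏ j ∈ S, Real.exp (b j)) := by
    intro S
    rw [Real.exp_add, Real.exp_sum]
    ring
  simp only [h1]
  rw [← Finset.mul_sum, sum_w_mul, Real.exp_add]
  apply mul_le_mul_of_nonneg_left _ (Real.exp_pos _).le
  rw [Finset.mul_sum, Real.exp_sum]
  apply Finset.prod_le_prod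
  · intro j _
    have := Real.exp_pos (b j)
    norm_num
    linarith
  · intro j _
    have := Real.add_one_le_exp (1 / 100000 * (Real.exp (b j) - 1))
    linarith

end

private lemma exp_neg_le {x : ℝ} (hx : 0 ≤ x) : Real.exp (-x) ≤ 1 - x + x ^ 2 / 2 := by
  have h1 := Real.quadratic_le_exp_of_nonneg hx
  have h2 : Real.exp (-x) * Real.exp x = 1 := by rw [← Real.exp_add]; simp
  have h3 := Real.exp_pos (-x)
  have h4 : 0 < 1 + x + x ^ 2 / 2 := by positivity
  have h5 : Real.exp (-x) * (1 + x + x ^ 2 / 2) ≤ 1 :=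
    (mul_le_mul_of_nonneg_left h1 h3.le).trans h2.le
  have h6 : (1 - x + x ^ 2 / 2) * (1 + x + x ^ 2 / 2) = 1 + x ^ 4 / 4 := by ring
  have h7 : Real.exp (-x) * (1 + x + x ^ 2 / 2) ≤ (1 - x + x ^ 2 / 2) * (1 + x + x ^ 2 / 2) := by
    rw [h6]
    have : 0 ≤ x ^ 4 / 4 := by positivity
    linarith
  exact le_of_mul_le_mul_right h7 h4

private lemma big_r : ∃ r0 : ℕ, ∀ r ≥ r0,
    2 * (r : ℝ) ^ 10 * Real.exp (-(r / 8000000000)) < 1 / 4 := by
  have h1 := Real.tendsto_pow_mul_exp_neg_atTop_nhds_zero 10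
  have h2 : Filter.Tendsto (fun r : ℕ => (r : ℝ) / 8000000000) Filter.atTop Filter.atTop :=
    tendsto_natCast_atTop_atTop.atTop_div_const (by norm_num)
  have h3 := (h1.comp h2).const_mul (2 * 8000000000 ^ 10 : ℝ)
  rw [mul_zero] at h3
  have h4 := h3.eventually (gt_mem_nhds (show (0 : ℝ) < 1 / 4 by norm_num))
  obtain ⟨r0, hr0⟩ := Filter.eventually_atTop.1 h4
  refine ⟨r0, fun r hr => ?_⟩
  have h5 := hr0 r hr
  simp only [Function.comp] at h5
  refine lt_of_le_of_lt (le_of_eq ?_) h5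
  rw [div_pow]
  ring

theorem sel : ∃ r0 : ℕ, ∀ r ≥ r0, ∀ (V : Type) [Fintype V] [DecidableEq V],
    Fintype.card V ≤ 2 * r ^ 10 → ∀ (J : Type) [Fintype J] [DecidableEq J], r ≤ Fintype.card J →
    ∀ (T : J → Finset V), (∀ i j, i ≠ j → Disjoint (T i) (T j)) → (∀ j, (T j).card ≤ 4) →
    ∀ (N : V → Finset V), (∀ v, (N v).card ≤ r) → ∀ (wt : V → ℝ), (∀ u, 0 ≤ wt u) →
    ∃ S : Finset J,
      (S.card : ℝ) ≤ (11 / 10) * (1 / 100000) * Fintype.card J ∧
      (∑ j ∈ S, ∑ u ∈ T j, wt u) ≤ (4 / 100000) * ∑ u, wt u ∧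
      ∀ v, (1 / 100000) * (((N v ∩ univ.biUnion T).card : ℝ) - r / 100) ≤
        ((N v ∩ S.biUnion T).card : ℝ) := by
  obtain ⟨r1, hr1⟩ := big_r
  refine ⟨max r1 (12 * 10 ^ 7), ?_⟩
  intro r hr V _ _ hV J _ _ hJ T hT hT4 N hN wt hwt
  have hrr1 : r1 ≤ r := (le_max_left _ _).trans hr
  have hr12 : 12 * 10 ^ 7 ≤ r := (le_max_right _ _).trans hr
  have hR : (12 * 10 ^ 7 : ℝ) ≤ r := by exact_mod_cast hr12
  have hJR : (12 * 10 ^ 7 : ℝ) ≤ Fintype.card J := by exact_mod_cast hr12.trans hJ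
  have hbig := hr1 r hrr1
  have hVR : (Fintype.card V : ℝ) ≤ 2 * (r : ℝ) ^ 10 := by exact_mod_cast hV
  -- the union over a subset of indices
  have hcard : ∀ (v : V) (S : Finset J),
      ((N v ∩ S.biUnion T).card : ℝ) = ∑ j ∈ S, ((N v ∩ T j).card : ℝ) := by
    intro v S
    rw [Finset.inter_biUnion, Finset.card_biUnion]
    · push_cast
      rfl
    · intro i _ j _ hij
      exact (hT i j hij).mono Finset.inter_subset_right Finset.inter_subset_right
  set W : Finset J → ℝ := fun S => ∑ j ∈ S, ∑ u ∈ T j, wt u with hW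
  have hWtot : W univ ≤ ∑ u, wt u := by
    rw [hW]
    simp only
    rw [← Finset.sum_biUnion]
    · exact Finset.sum_le_sum_of_subset_of_nonneg (Finset.subset_univ _) (fun u _ _ => hwt u)
    · intro i _ j _ hij
      exact hT i j hij
  have hWmono : ∀ S, W S ≤ W univ := by
    intro S
    apply Finset.sum_le_sum_of_subset_of_nonneg (Finset.subset_univ _)
    intro j _ _
    exact Finset.sum_nonneg (fun u _ => hwt u)
  have hW0 : ∀ S, 0 ≤ W S := fun S => Finset.sum_nonneg (fun j _ => Finset.sum_nonneg (fun u _ => hwt u))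
  set Tot : ℝ := ∑ u, wt u with hTot
  have hTot0 : 0 ≤ Tot := Finset.sum_nonneg (fun u _ => hwt u)
  set F1 : Finset J → ℝ := fun S =>
    Real.exp (-(1 / 20) * ((11 / 10) * (1 / 100000) * Fintype.card J) + ∑ j ∈ S, (1 / 20 : ℝ))
    with hF1
  set F2 : Finset J → ℝ := fun S => W S / ((4 / 100000) * Tot) with hF2
  set F3 : V → Finset J → ℝ := fun v S =>
    Real.exp ((1 / 400) * ((1 / 100000) * (((N v ∩ univ.biUnion T).card : ℝ) - r / 100)) +
      ∑ j ∈ S, (-((1 / 400) * ((N v ∩ T j).card : ℝ)))) with hF3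
  have hE1 : ∑ S, wS S * F1 S ≤ 1 / 4 := by
    refine (sum_w_exp (J := J) _ _).trans ?_
    simp only [Finset.sum_const, Finset.card_univ, nsmul_eq_mul]
    have h1 : Real.exp (1 / 20) - 1 ≤ 1 / 20 + 1 / 400 := by
      have := Real.abs_exp_sub_one_sub_id_le (x := 1 / 20) (by norm_num [abs_le])
      have h2 := (abs_le.1 this).2
      norm_num at h2 ⊢
      linarith
    have h2 : -(1 / 20) * ((11 / 10) * (1 / 100000) * (Fintype.card J : ℝ)) +
        1 / 100000 * ((Fintype.card J : ℝ) * (Real.exp (1 / 20) - 1)) ≤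
          -((Fintype.card J : ℝ) / 40000000) := by
      have h3 : (Fintype.card J : ℝ) * (Real.exp (1 / 20) - 1) ≤
          (Fintype.card J : ℝ) * (1 / 20 + 1 / 400) :=
        mul_le_mul_of_nonneg_left h1 (by positivity)
      linarith
    have h3 : Real.exp (-((Fintype.card J : ℝ) / 40000000)) ≤ 1 / 4 := by
      rw [Real.exp_neg]
      have h4 := Real.add_one_le_exp ((Fintype.card J : ℝ) / 40000000)
      have h5 : (4 : ℝ) ≤ Real.exp ((Fintype.card J : ℝ) / 40000000) := by linarith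
      rw [inv_eq_one_div]
      exact one_div_le_one_div_of_le (by norm_num) h5
    exact (Real.exp_le_exp.2 h2).trans h3
  have hE2 : ∑ S, wS S * F2 S ≤ 1 / 4 := by
    have h1 : ∀ S, wS S * F2 S = (wS S * W S) / ((4 / 100000) * Tot) := by
      intro S
      rw [hF2]
      ring
    simp only [h1]
    rw [← Finset.sum_div]
    have h2 : ∑ S, wS S * W S = 1 / 100000 * W univ := sum_w_lin (J := J) _
    rw [h2]
    rcases hTot0.eq_or_lt with h0 | h0
    · rw [← h0]
      norm_num
    · rw [div_le_iff₀ (by positivity)]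
      linarith
  have hE3 : ∀ v, ∑ S, wS S * F3 v S ≤ Real.exp (-(r / 8000000000)) := by
    intro v
    refine (sum_w_exp (J := J) _ _).trans ?_
    apply Real.exp_le_exp.2
    have hM := hcard v univ
    set M : ℝ := ((N v ∩ univ.biUnion T).card : ℝ) with hMd
    have hMr : M ≤ r := by
      rw [hMd]
      exact_mod_cast (Finset.card_le_card Finset.inter_subset_left).trans (hN v)
    have h1 : ∑ j, (Real.exp (-((1 / 400) * ((N v ∩ T j).card : ℝ))) - 1) ≤
        ∑ j, (-((1 / 400) * (1 - 2 / 400) * ((N v ∩ T j).card : ℝ))) := by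
      apply Finset.sum_le_sum
      intro j _
      have h4 : ((N v ∩ T j).card : ℝ) ≤ 4 := by
        exact_mod_cast (Finset.card_le_card Finset.inter_subset_right).trans (hT4 j)
      have h0 : (0 : ℝ) ≤ ((N v ∩ T j).card : ℝ) := by positivity
      have h5 := exp_neg_le (x := (1 / 400) * ((N v ∩ T j).card : ℝ)) (by positivity)
      nlinarith [mul_le_mul_of_nonneg_left h4 h0]
    have h2 : ∑ j, (-((1 / 400) * (1 - 2 / 400) * ((N v ∩ T j).card : ℝ))) =
        -((1 / 400) * (1 - 2 / 400) * M) := by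
      rw [hM, Finset.sum_neg_distrib, Finset.mul_sum]
    rw [h2] at h1
    linarith
  have hE3' : ∑ S, wS S * ∑ v, F3 v S < 1 / 4 := by
    have h1 : ∑ S, wS S * ∑ v, F3 v S = ∑ v, ∑ S, wS S * F3 v S := by
      simp only [Finset.mul_sum]
      rw [Finset.sum_comm]
    rw [h1]
    refine lt_of_le_of_lt (Finset.sum_le_sum (fun v _ => hE3 v)) ?_
    rw [Finset.sum_const, Finset.card_univ, nsmul_eq_mul]
    refine lt_of_le_of_lt ?_ hbig
    exact mul_le_mul_of_nonneg_right hVR (Real.exp_pos _).le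
  have hF1pos : ∀ S, 0 < F1 S := fun S => Real.exp_pos _
  have hF3pos : ∀ v S, 0 < F3 v S := fun v S => Real.exp_pos _
  have hF2pos : ∀ S, 0 ≤ F2 S := fun S => div_nonneg (hW0 S) (by positivity)
  have hex : ∃ S, F1 S + F2 S + ∑ v, F3 v S < 1 := by
    by_contra hcon
    push Not at hcon
    have h1 : ∑ S : Finset J, wS S * 1 ≤ ∑ S, wS S * (F1 S + F2 S + ∑ v, F3 v S) :=
      Finset.sum_le_sum (fun S _ => mul_le_mul_of_nonneg_left (hcon S) (wS_nonneg S))
    simp only [mul_one, sum_w, mul_add, Finset.sum_add_distrib] at h1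
    linarith
  obtain ⟨S, hS⟩ := hex
  have hsum3 : 0 ≤ ∑ v, F3 v S := Finset.sum_nonneg (fun v _ => (hF3pos v S).le)
  refine ⟨S, ?_, ?_, ?_⟩
  · have h1 : F1 S < 1 := by linarith [hF2pos S]
    rw [hF1] at h1
    simp only at h1
    rw [Real.exp_lt_one_iff] at h1
    rw [Finset.sum_const, nsmul_eq_mul] at h1
    linarith
  · rcases hTot0.eq_or_lt with h0 | h0
    · have h1 := (hWmono S).trans hWtot
      rw [← h0] at h1 ⊢
      linarith
    · have h1 : F2 S < 1 := by linarith [hF1pos S]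
      rw [hF2] at h1
      simp only at h1
      rw [div_lt_one (by positivity)] at h1
      exact h1.le
  · intro v
    have h1 : F3 v S < 1 := by
      have h2 : F3 v S ≤ ∑ v, F3 v S :=
        Finset.single_le_sum (fun v _ => (hF3pos v S).le) (Finset.mem_univ v)
      linarith [hF1pos S, hF2pos S]
    rw [hF3] at h1
    simp only at h1
    rw [Real.exp_lt_one_iff, Finset.sum_neg_distrib, ← Finset.mul_sum, ← hcard v S] at h1
    linarith

end Pool.Agent.CHS
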