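import Pool.Agent.CHS.Basic

/-!
# CHS/Assemble: the new Steiner triple system from a complete re-decomposition

Proof.  Define `m'.mul x y` by cases (write `U` for the complement of `W`):
* `x = y`: `x`;
* `x, y ∈ W`, `x ≠ y`: `z x y`;
* `x ∈ W`, `y ∈ U`: `f x y` if `f x y ≠ y`, else (by `Full.fix`) the point `w' ∈ W`, `w' ≠ x` with
  `z x w' = y` (unique by `zinj`); symmetrically for `x ∈ U`, `y ∈ W`;
* `x, y ∈ U`, `x ≠ y`: `m.mul x y` if this is not in `W`, else the `w ∈ W` with `f w x = y`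
  (exists by `cover`, unique by `disj` because `y ≠ x`).
Instead of a definition by cases we use the relation `T x y z` (`{x,y,z}` is a block or
`x = y = z`) and show that for all `x, y` there is exactly one `z` with `T x y z`, and that `T` is
symmetric.
-/

set_option autoImplicit false

namespace Pool.Agent.CHS
open Finset

section
variable {V : Type} [Fintype V] [DecidableEq V] {m : SQ V} {W : Finset V} {f z : V → V → V}

/-- `(x, y, t)` is one of the new blocks (in this order of the roles). -/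
def RB (m : SQ V) (W : Finset V) (f z : V → V → V) (x y t : V) : Prop :=
  -- old block
  (x ∉ W ∧ y ∉ W ∧ t ∉ W ∧ m.mul x y = t) ∨
  -- one point in `W`
  (x ∈ W ∧ y ∉ W ∧ f x y ≠ y ∧ f x y = t) ∨
  (y ∈ W ∧ x ∉ W ∧ f y x ≠ x ∧ f y x = t) ∨
  (t ∈ W ∧ x ∉ W ∧ f t x ≠ x ∧ f t x = y) ∨
  -- two points in `W`
  (x ∈ W ∧ y ∈ W ∧ x ≠ y ∧ z x y = t) ∨
  (x ∈ W ∧ t ∈ W ∧ x ≠ t ∧ z x t = y) ∨
  (y ∈ W ∧ t ∈ W ∧ y ≠ t ∧ z y t = x) ∨
  (x ∈ W ∧ y = x ∧ t = x)

omit [DecidableEq V] [Fintype V] in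
private theorem mul_self_iff (m : SQ V) (x y : V) (h : m.mul x y = x) : y = x := by
  have := m.inv x y
  rw [h, m.idem] at this
  exact this.symm

theorem fout (h : Full m W f z) {w u : V} (hw : w ∈ W) (hu : f w u ≠ u) : u ∉ W :=
  fun hc => hu ((h.fix w hw u).2 (Or.inl hc))

theorem fout' (h : Full m W f z) {w u : V} (hw : w ∈ W) (hu : f w u ≠ u) : f w u ∉ W := by
  refine fout h hw ?_
  rw [h.inv w hw]; exact Ne.symm hu

theorem RB_swap1 (h : Full m W f z) {x y t : V} (hb : RB m W f z x y t) : RB m W f z y x t := by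
  unfold RB at hb ⊢
  rcases hb with ⟨h1, h2, h3, h4⟩ | ⟨h1, h2, h3, h4⟩ | ⟨h1, h2, h3, h4⟩ | ⟨h1, h2, h3, h4⟩ |
    ⟨h1, h2, h3, h4⟩ | ⟨h1, h2, h3, h4⟩ | ⟨h1, h2, h3, h4⟩ | ⟨h1, h2, h3⟩
  · exact Or.inl ⟨h2, h1, h3, by rw [m.comm]; exact h4⟩
  · exact Or.inr (Or.inr (Or.inl ⟨h1, h2, h3, h4⟩))
  · exact Or.inr (Or.inl ⟨h1, h2, h3, h4⟩)
  · refine Or.inr (Or.inr (Or.inr (Or.inl ⟨h1, ?_, ?_, ?_⟩)))
    · rw [← h4]; exact fout' h h1 h3
    · rw [← h4, h.inv t h1]; exact Ne.symm h3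
    · rw [← h4, h.inv t h1]
  · exact Or.inr (Or.inr (Or.inr (Or.inr (Or.inl ⟨h2, h1, Ne.symm h3, by
      rw [← h.zsymm x h1 y h2 h3]; exact h4⟩))))
  · exact Or.inr (Or.inr (Or.inr (Or.inr (Or.inr (Or.inr (Or.inl ⟨h1, h2, h3, h4⟩))))))
  · exact Or.inr (Or.inr (Or.inr (Or.inr (Or.inr (Or.inl ⟨h1, h2, h3, h4⟩)))))
  · subst h2; subst h3
    exact Or.inr (Or.inr (Or.inr (Or.inr (Or.inr (Or.inr (Or.inr ⟨h1, rfl, rfl⟩))))))

theorem RB_swap2 (h : Full m W f z) {x y t : V} (hb : RB m W f z x y t) : RB m W f z x t y := by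
  unfold RB at hb ⊢
  rcases hb with ⟨h1, h2, h3, h4⟩ | ⟨h1, h2, h3, h4⟩ | ⟨h1, h2, h3, h4⟩ | ⟨h1, h2, h3, h4⟩ |
    ⟨h1, h2, h3, h4⟩ | ⟨h1, h2, h3, h4⟩ | ⟨h1, h2, h3, h4⟩ | ⟨h1, h2, h3⟩
  · exact Or.inl ⟨h1, h3, h2, by rw [← h4]; exact m.inv x y⟩
  · refine Or.inr (Or.inl ⟨h1, ?_, ?_, ?_⟩)
    · rw [← h4]; exact fout' h h1 h3
    · rw [← h4, h.inv x h1]; exact Ne.symm h3
    · rw [← h4, h.inv x h1]
  · exact Or.inr (Or.inr (Or.inr (Or.inl ⟨h1, h2, h3, h4⟩)))
  · exact Or.inr (Or.inr (Or.inl ⟨h1, h2, h3, h4⟩))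
  · exact Or.inr (Or.inr (Or.inr (Or.inr (Or.inr (Or.inl ⟨h1, h2, h3, h4⟩)))))
  · exact Or.inr (Or.inr (Or.inr (Or.inr (Or.inl ⟨h1, h2, h3, h4⟩))))
  · exact Or.inr (Or.inr (Or.inr (Or.inr (Or.inr (Or.inr (Or.inl ⟨h2, h1, Ne.symm h3, by
      rw [← h.zsymm y h1 t h2 h3]; exact h4⟩))))))
  · exact Or.inr (Or.inr (Or.inr (Or.inr (Or.inr (Or.inr (Or.inr ⟨h1, h3, h2⟩))))))

theorem RB_exists (h : Full m W f z) (x y : V) : ∃ t, RB m W f z x y t := by
  unfold RB
  by_cases hx : x ∈ W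
  · by_cases hy : y ∈ W
    · by_cases hxy : x = y
      · exact ⟨x, Or.inr (Or.inr (Or.inr (Or.inr (Or.inr (Or.inr (Or.inr ⟨hx, hxy.symm, rfl⟩))))))⟩
      · exact ⟨z x y, Or.inr (Or.inr (Or.inr (Or.inr (Or.inl ⟨hx, hy, hxy, rfl⟩))))⟩
    · by_cases hf : f x y = y
      · rcases (h.fix x hx y).1 hf with h1 | ⟨w', h1, h2, h3⟩
        · exact absurd h1 hy
        · exact ⟨w', Or.inr (Or.inr (Or.inr (Or.inr (Or.inr (Or.inl ⟨hx, h1, Ne.symm h2, h3⟩)))))⟩
      · exact ⟨f x y, Or.inr (Or.inl ⟨hx, hy, hf, rfl⟩)⟩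
  · by_cases hy : y ∈ W
    · by_cases hf : f y x = x
      · rcases (h.fix y hy x).1 hf with h1 | ⟨w', h1, h2, h3⟩
        · exact absurd h1 hx
        · exact ⟨w', Or.inr (Or.inr (Or.inr (Or.inr (Or.inr (Or.inr
            (Or.inl ⟨hy, h1, Ne.symm h2, h3⟩))))))⟩
      · exact ⟨f y x, Or.inr (Or.inr (Or.inl ⟨hy, hx, hf, rfl⟩))⟩
    · by_cases hm : m.mul x y ∈ W
      · by_cases hxy : x = y
        · subst hxy; rw [m.idem] at hm; exact absurd hm hx
        · obtain ⟨w, hw, hf⟩ := h.cover x y ⟨hx, hy, hxy, hm⟩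
          exact ⟨w, Or.inr (Or.inr (Or.inr (Or.inl ⟨hw, hx, by rw [hf]; exact Ne.symm hxy, hf⟩)))⟩
      · exact ⟨m.mul x y, Or.inl ⟨hx, hy, hm, rfl⟩⟩

theorem RB_unique (h : Full m W f z) {x y t t' : V} (h1 : RB m W f z x y t)
    (h2 : RB m W f z x y t') : t = t' := by
  unfold RB at h1 h2
  by_cases hx : x ∈ W
  · by_cases hy : y ∈ W
    · by_cases hxy : x = y
      · -- `t = x = t'`
        subst hxy
        have key : ∀ s, RB m W f z x x s → s = x := by
          intro s hs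
          unfold RB at hs
          rcases hs with ⟨a1, a2, a3, a4⟩ | ⟨a1, a2, a3, a4⟩ | ⟨a1, a2, a3, a4⟩ |
            ⟨a1, a2, a3, a4⟩ | ⟨a1, a2, a3, a4⟩ | ⟨a1, a2, a3, a4⟩ | ⟨a1, a2, a3, a4⟩ |
            ⟨a1, a2, a3⟩
          · exact absurd hx a1
          · exact absurd hx a2
          · exact absurd hx a2
          · exact absurd hx a2
          · exact absurd rfl a3
          · have := h.zout x a1 s a2 a3
            rw [a4] at this; exact absurd hx this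
          · have := h.zout x a1 s a2 a3
            rw [a4] at this; exact absurd hx this
          · exact a3
        rw [key t h1, key t' h2]
      · have key : ∀ s, RB m W f z x y s → s = z x y := by
          intro s hs
          unfold RB at hs
          rcases hs with ⟨a1, a2, a3, a4⟩ | ⟨a1, a2, a3, a4⟩ | ⟨a1, a2, a3, a4⟩ |
            ⟨a1, a2, a3, a4⟩ | ⟨a1, a2, a3, a4⟩ | ⟨a1, a2, a3, a4⟩ | ⟨a1, a2, a3, a4⟩ |
            ⟨a1, a2, a3⟩
          · exact absurd hx a1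
          · exact absurd hy a2
          · exact absurd hx a2
          · exact absurd hx a2
          · exact a4.symm
          · have := h.zout x a1 s a2 a3
            rw [a4] at this; exact absurd hy this
          · have := h.zout y a1 s a2 a3
            rw [a4] at this; exact absurd hx this
          · exact absurd a2.symm hxy
        rw [key t h1, key t' h2]
    · -- x ∈ W, y ∉ W
      by_cases hf : f x y = y
      · have key : ∀ s, RB m W f z x y s → s ∈ W ∧ x ≠ s ∧ z x s = y := by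
          intro s hs
          unfold RB at hs
          rcases hs with ⟨a1, a2, a3, a4⟩ | ⟨a1, a2, a3, a4⟩ | ⟨a1, a2, a3, a4⟩ |
            ⟨a1, a2, a3, a4⟩ | ⟨a1, a2, a3, a4⟩ | ⟨a1, a2, a3, a4⟩ | ⟨a1, a2, a3, a4⟩ |
            ⟨a1, a2, a3⟩
          · exact absurd hx a1
          · exact absurd hf a3
          · exact absurd a1 hy
          · exact absurd hx a2
          · exact absurd a2 hy
          · exact ⟨a2, a3, a4⟩
          · exact absurd a1 hy
          · rw [a2] at hy; exact absurd hx hy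
        obtain ⟨b1, b2, b3⟩ := key t h1
        obtain ⟨c1, c2, c3⟩ := key t' h2
        exact h.zinj x hx t b1 t' c1 (Ne.symm b2) (Ne.symm c2) (b3.trans c3.symm)
      · have key : ∀ s, RB m W f z x y s → s = f x y := by
          intro s hs
          unfold RB at hs
          rcases hs with ⟨a1, a2, a3, a4⟩ | ⟨a1, a2, a3, a4⟩ | ⟨a1, a2, a3, a4⟩ |
            ⟨a1, a2, a3, a4⟩ | ⟨a1, a2, a3, a4⟩ | ⟨a1, a2, a3, a4⟩ | ⟨a1, a2, a3, a4⟩ |
            ⟨a1, a2, a3⟩
          · exact absurd hx a1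
          · exact a4.symm
          · exact absurd a1 hy
          · exact absurd hx a2
          · exact absurd a2 hy
          · exact absurd ((h.fix x hx y).2 (Or.inr ⟨s, a2, Ne.symm a3, a4⟩)) hf
          · exact absurd a1 hy
          · rw [a2] at hy; exact absurd hx hy
        rw [key t h1, key t' h2]
  · by_cases hy : y ∈ W
    · by_cases hf : f y x = x
      · have key : ∀ s, RB m W f z x y s → s ∈ W ∧ y ≠ s ∧ z y s = x := by
          intro s hs
          unfold RB at hs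
          rcases hs with ⟨a1, a2, a3, a4⟩ | ⟨a1, a2, a3, a4⟩ | ⟨a1, a2, a3, a4⟩ |
            ⟨a1, a2, a3, a4⟩ | ⟨a1, a2, a3, a4⟩ | ⟨a1, a2, a3, a4⟩ | ⟨a1, a2, a3, a4⟩ |
            ⟨a1, a2, a3⟩
          · exact absurd hy a2
          · exact absurd a1 hx
          · exact absurd hf a3
          · rw [← a4] at hy; exact absurd hy (fout' h a1 a3)
          · exact absurd a1 hx
          · exact absurd a1 hx
          · exact ⟨a2, a3, a4⟩
          · exact absurd a1 hx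
        obtain ⟨b1, b2, b3⟩ := key t h1
        obtain ⟨c1, c2, c3⟩ := key t' h2
        exact h.zinj y hy t b1 t' c1 (Ne.symm b2) (Ne.symm c2) (b3.trans c3.symm)
      · have key : ∀ s, RB m W f z x y s → s = f y x := by
          intro s hs
          unfold RB at hs
          rcases hs with ⟨a1, a2, a3, a4⟩ | ⟨a1, a2, a3, a4⟩ | ⟨a1, a2, a3, a4⟩ |
            ⟨a1, a2, a3, a4⟩ | ⟨a1, a2, a3, a4⟩ | ⟨a1, a2, a3, a4⟩ | ⟨a1, a2, a3, a4⟩ |
            ⟨a1, a2, a3⟩
          · exact absurd hy a2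
          · exact absurd a1 hx
          · exact a4.symm
          · rw [← a4] at hy; exact absurd hy (fout' h a1 a3)
          · exact absurd a1 hx
          · exact absurd a1 hx
          · exact absurd ((h.fix y hy x).2 (Or.inr ⟨s, a2, Ne.symm a3, a4⟩)) hf
          · exact absurd a1 hx
        rw [key t h1, key t' h2]
    · -- x, y ∉ W
      have key : ∀ s, RB m W f z x y s → (s ∉ W ∧ m.mul x y = s) ∨
          (s ∈ W ∧ m.mul x y ∈ W ∧ f s x ≠ x ∧ f s x = y) := by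
        intro s hs
        unfold RB at hs
        rcases hs with ⟨a1, a2, a3, a4⟩ | ⟨a1, a2, a3, a4⟩ | ⟨a1, a2, a3, a4⟩ |
          ⟨a1, a2, a3, a4⟩ | ⟨a1, a2, a3, a4⟩ | ⟨a1, a2, a3, a4⟩ | ⟨a1, a2, a3, a4⟩ |
          ⟨a1, a2, a3⟩
        · exact Or.inl ⟨a3, a4⟩
        · exact absurd a1 hx
        · exact absurd a1 hy
        · refine Or.inr ⟨a1, ?_, a3, a4⟩
          have := h.edge s a1 x a3
          rw [a4] at this; exact this
        · exact absurd a1 hx
        · exact absurd a1 hx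
        · exact absurd a1 hy
        · exact absurd a1 hx
      rcases key t h1 with ⟨b1, b2⟩ | ⟨b1, b2, b3, b4⟩ <;>
        rcases key t' h2 with ⟨c1, c2⟩ | ⟨c1, c2, c3, c4⟩
      · exact b2.symm.trans c2
      · rw [b2] at c2; exact absurd c2 b1
      · rw [c2] at b2; exact absurd b2 c1
      · by_contra hne
        have := h.disj t b1 t' c1 hne x (b4.trans c4.symm)
        exact b3 this

end

theorem assemble {V : Type} [Fintype V] [DecidableEq V] (m : SQ V) (W : Finset V)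
    (f z : V → V → V) (h : Full m W f z) :
    ∃ m' : SQ V,
      (∀ x ∉ W, ∀ y ∉ W, x ≠ y → (m'.mul x y ∈ W ↔ m.mul x y ∈ W)) ∧
      (∀ x ∉ W, ∀ y ∉ W, m.mul x y ∉ W → m'.mul x y = m.mul x y) ∧
      (∀ w ∈ W, ∀ w' ∈ W, w ≠ w' → m'.mul w w' = z w w') ∧
      (∀ w ∈ W, ∀ u, f w u ≠ u → m'.mul w u = f w u) := by
  classical
  choose g hg using fun x => RB_exists (m := m) (W := W) (f := f) (z := z) h x
  have huniq : ∀ x y t, RB m W f z x y t → g x y = t := fun x y t ht => RB_unique h (hg x y) ht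
  refine ⟨⟨g, ?_, ?_, ?_⟩, ?_, ?_, ?_, ?_⟩
  · intro x
    apply huniq
    by_cases hx : x ∈ W
    · exact Or.inr (Or.inr (Or.inr (Or.inr (Or.inr (Or.inr (Or.inr ⟨hx, rfl, rfl⟩))))))
    · exact Or.inl ⟨hx, hx, hx, m.idem x⟩
  · intro x y
    exact huniq _ _ _ (RB_swap1 h (hg y x))
  · intro x y
    exact huniq _ _ _ (RB_swap2 h (hg x y))
  · intro x hx y hy hxy
    show g x y ∈ W ↔ m.mul x y ∈ W
    constructor
    · intro hg'
      have := hg x y
      unfold RB at this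
      rcases this with ⟨a1, a2, a3, a4⟩ | ⟨a1, a2, a3, a4⟩ | ⟨a1, a2, a3, a4⟩ |
        ⟨a1, a2, a3, a4⟩ | ⟨a1, a2, a3, a4⟩ | ⟨a1, a2, a3, a4⟩ | ⟨a1, a2, a3, a4⟩ |
        ⟨a1, a2, a3⟩
      · exact absurd hg' a3
      · exact absurd a1 hx
      · exact absurd a1 hy
      · have := h.edge _ a1 x a3
        rw [a4] at this; exact this
      · exact absurd a1 hx
      · exact absurd a1 hx
      · exact absurd a1 hy
      · exact absurd a1 hx
    · intro hm
      obtain ⟨w, hw, hf⟩ := h.cover x y ⟨hx, hy, hxy, hm⟩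
      rw [huniq x y w (Or.inr (Or.inr (Or.inr (Or.inl ⟨hw, hx, by rw [hf]; exact Ne.symm hxy, hf⟩))))]
      exact hw
  · intro x hx y hy hm
    exact huniq _ _ _ (Or.inl ⟨hx, hy, hm, rfl⟩)
  · intro w hw w' hw' hne
    exact huniq _ _ _ (Or.inr (Or.inr (Or.inr (Or.inr (Or.inl ⟨hw, hw', hne, rfl⟩)))))
  · intro w hw u hu
    exact huniq _ _ _ (Or.inr (Or.inl ⟨hw, fout h hw hu, hu, rfl⟩))

end Pool.Agent.CHS
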