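import Mathlib

/-!
# CHS/Col: colouring few small items properly and evenly (method of conditional expectations)

Items `i : I` are sets `T i` of at most 4 points, every point lies in at most `Δ` items, every item has
at most 12 forbidden colours, `8 Δ + 24 ≤ l = #colours`.  Then the items can be coloured such that
items with a common point get different colours, no forbidden colour is used, and for every `v` and
every colour `h` the number of pairs `(u, i)`, `u ∈ N v`, `u ∈ T i`, `col i = h` is small.

Proof.  Colour the items one after the other (induction on the set `J` of coloured items).  Put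
`μ i v = |N v ∩ T i| ≤ 4` and, for a partial colouring of `J`,
`Φ = ∑ v, ∑ h, 2 ^ (∑_{i ∈ J, col i = h} μ i v) * ∏_{i ∉ J} (1 + (2 ^ (μ i v) - 1) * (2 / l))`.
The next item `i ∉ J` has at most `4 (Δ - 1) ≤ 4 Δ` coloured items meeting it and 12 forbidden colours,
so a set `Av` of at least `l - 4 Δ - 12 ≥ l / 2` colours is available.  If `i` gets the colour
`h₀ ∈ Av`, the summand of `(v, h)` is multiplied by `2 ^ (μ i v)` if `h = h₀` and by 1 otherwise and
divided by `1 + (2 ^ (μ i v) - 1)(2/l)`; averaging over `h₀ ∈ Av` the factor in front of the old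
exponential is at most `1 + (2 ^ (μ i v) - 1) / |Av| ≤ 1 + (2 ^ (μ i v) - 1)(2/l)`, so some
`h₀ ∈ Av` does not increase `Φ`.  At the end each single term of `Φ` is at most the initial value
`∑ v, ∑ h, ∏ i (1 + (2 ^ (μ i v) - 1)(2/l)) ≤ n l exp ((15/4)(2/l) ∑ i μ i v)` because
`2^μ - 1 ≤ (15/4) μ` for `μ ∈ {0,..,4}` and `1 + x ≤ exp x`; and `∑ i μ i v = ∑_{u ∈ N v} #{i : u ∈ T i} ≤ r Δ`.
-/

set_option autoImplicit false

namespace Pool.Agent.CHS
open Finset

theorem pow_leCL {μ : ℕ} (h : μ ≤ 4) : (2 : ℝ) ^ μ - 1 ≤ 15 / 4 * μ := by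
  interval_cases μ <;> norm_num

theorem prod_leCL {I V : Type} [Fintype I] [DecidableEq I] [DecidableEq V]
    (T : I → Finset V) (N : Finset V) (Δ r : ℕ)
    (hT : ∀ i, (T i).card ≤ 4) (hdeg : ∀ v, (univ.filter (fun i => v ∈ T i)).card ≤ Δ)
    (hN : N.card ≤ r) {l : ℝ} (hl : 0 < l) :
    ∏ i, (1 + ((2 : ℝ) ^ (N ∩ T i).card - 1) * (2 / l)) ≤ Real.exp (8 * r * Δ / l) := by
  have h1 : ∑ i, (N ∩ T i).card ≤ r * Δ := by
    have e : ∀ i, (N ∩ T i).card = ∑ u ∈ N, if u ∈ T i then 1 else 0 := by
      intro i
      rw [← filter_mem_eq_inter, card_filter]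
    simp only [e]
    rw [sum_comm]
    calc ∑ u ∈ N, ∑ i, (if u ∈ T i then 1 else 0) ≤ ∑ _u ∈ N, Δ := by
          refine sum_le_sum fun u _ => ?_
          rw [← card_filter]
          exact hdeg u
      _ = N.card * Δ := by rw [sum_const, smul_eq_mul]
      _ ≤ r * Δ := Nat.mul_le_mul_right _ hN
  have h1' : ∑ i, ((N ∩ T i).card : ℝ) ≤ r * Δ := by exact_mod_cast h1
  have h4 : ∀ i, (N ∩ T i).card ≤ 4 := fun i => (card_le_card inter_subset_right).trans (hT i)
  calc ∏ i, (1 + ((2 : ℝ) ^ (N ∩ T i).card - 1) * (2 / l))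
      ≤ ∏ i, Real.exp (15 / 4 * (N ∩ T i).card * (2 / l)) := by
        refine prod_le_prod (fun i _ => ?_) (fun i _ => ?_)
        · have h2 : (1 : ℝ) ≤ 2 ^ (N ∩ T i).card := one_le_pow₀ (by norm_num)
          have h3 : 0 ≤ ((2 : ℝ) ^ (N ∩ T i).card - 1) * (2 / l) :=
            mul_nonneg (by linarith) (by positivity)
          linarith
        · have h3 : ((2 : ℝ) ^ (N ∩ T i).card - 1) * (2 / l) ≤
              15 / 4 * (N ∩ T i).card * (2 / l) :=
            mul_le_mul_of_nonneg_right (pow_leCL (h4 i)) (by positivity)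
          have h5 := Real.add_one_le_exp (15 / 4 * ((N ∩ T i).card : ℝ) * (2 / l))
          linarith
    _ = Real.exp (15 / 4 * (2 / l) * ∑ i, ((N ∩ T i).card : ℝ)) := by
        rw [← Real.exp_sum, mul_sum]
        congr 1
        refine sum_congr rfl fun i _ => ?_
        ring
    _ ≤ Real.exp (8 * r * Δ / l) := by
        apply Real.exp_le_exp.2
        have h6 : (0 : ℝ) ≤ r * Δ := by positivity
        have h7 : 15 / 4 * (2 / l) * ∑ i, ((N ∩ T i).card : ℝ) ≤ 15 / 4 * (2 / l) * (r * Δ) :=
          mul_le_mul_of_nonneg_left h1' (by positivity)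
        have h8 : 15 / 4 * (2 / l) * (r * Δ) ≤ 8 * r * Δ / l := by
          rw [le_div_iff₀ hl]
          have h9 : 15 / 4 * (2 / l) * (r * Δ) * l = 15 / 2 * (r * Δ) := by
            field_simp
            ring
          rw [h9]
          nlinarith
        linarith

theorem colLemma {I V C : Type} [Fintype I] [DecidableEq I] [Fintype V] [DecidableEq V] [Fintype C]
    [DecidableEq C] (T : I → Finset V) (Forb : I → Finset C) (N : V → Finset V) (Δ r : ℕ)
    (hT : ∀ i, (T i).card ≤ 4) (hdeg : ∀ v, (univ.filter (fun i => v ∈ T i)).card ≤ Δ)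
    (hF : ∀ i, (Forb i).card ≤ 12) (hN : ∀ v, (N v).card ≤ r)
    (hl : 8 * Δ + 24 ≤ Fintype.card C) :
    ∃ col : I → C, (∀ i, col i ∉ Forb i) ∧
      (∀ i j, i ≠ j → col i = col j → Disjoint (T i) (T j)) ∧
      ∀ v h, (2 : ℝ) ^ (∑ i, if col i = h then (N v ∩ T i).card else 0) ≤
        Fintype.card V * Fintype.card C * Real.exp (8 * r * Δ / Fintype.card C) := by
  set l : ℝ := (Fintype.card C : ℝ) with hldef
  have hl24 : (24 : ℝ) ≤ l := by
    have : 24 ≤ Fintype.card C := by omega
    rw [hldef]
    exact_mod_cast this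
  have hl0 : 0 < l := by linarith
  have hC : Nonempty C := Fintype.card_pos_iff.1 (by omega)
  let mu : I → V → ℕ := fun i v => (N v ∩ T i).card
  let aa : I → V → ℝ := fun i v => 1 + ((2 : ℝ) ^ (mu i v) - 1) * (2 / l)
  let ex : Finset I → (I → C) → V → C → ℕ := fun J col v h =>
    ∑ i ∈ J, if col i = h then mu i v else 0
  let Φ : Finset I → (I → C) → ℝ := fun J col =>
    ∑ v, ∑ h, (2 : ℝ) ^ (ex J col v h) * ∏ i ∈ univ \ J, aa i v
  have haa : ∀ i v, 1 ≤ aa i v := by
    intro i v
    have h2 : (1 : ℝ) ≤ 2 ^ mu i v := one_le_pow₀ (by norm_num)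
    have h3 : 0 ≤ ((2 : ℝ) ^ (mu i v) - 1) * (2 / l) := mul_nonneg (by linarith) (by positivity)
    show 1 ≤ 1 + ((2 : ℝ) ^ (mu i v) - 1) * (2 / l)
    linarith
  have hstep : ∀ J : Finset I, ∃ col : I → C, (∀ i ∈ J, col i ∉ Forb i) ∧
      (∀ i ∈ J, ∀ j ∈ J, i ≠ j → col i = col j → Disjoint (T i) (T j)) ∧
      Φ J col ≤ ∑ v : V, ∑ _h : C, ∏ i, aa i v := by
    intro J
    induction J using Finset.induction_on with
    | empty =>
      refine ⟨fun _ => Classical.choice hC, fun i hi => absurd hi (notMem_empty i),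
        fun i hi => absurd hi (notMem_empty i), le_of_eq ?_⟩
      show ∑ v, ∑ h, (2 : ℝ) ^ (∑ i ∈ (∅ : Finset I), _) * ∏ i ∈ univ \ ∅, aa i v = _
      simp only [sum_empty, pow_zero, one_mul, sdiff_empty]
    | insert i J hi ih =>
      obtain ⟨col, hc1, hc2, hc3⟩ := ih
      set Bad := J.filter (fun j => ¬ Disjoint (T i) (T j)) with hBad
      set Av := univ \ (Forb i ∪ Bad.image col) with hAv
      have hBc : Bad.card ≤ 4 * Δ := by
        have h1 : Bad ⊆ (T i).biUnion (fun v => univ.filter (fun j => v ∈ T j)) := by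
          intro j hj
          rw [hBad, mem_filter, not_disjoint_iff] at hj
          obtain ⟨-, v, h2, h3⟩ := hj
          rw [mem_biUnion]
          exact ⟨v, h2, by rw [mem_filter]; exact ⟨mem_univ _, h3⟩⟩
        calc Bad.card ≤ _ := card_le_card h1
          _ ≤ (T i).card * Δ := card_biUnion_le_card_mul _ _ _ fun v _ => hdeg v
          _ ≤ 4 * Δ := Nat.mul_le_mul_right _ (hT i)
      have hAc : Fintype.card C ≤ Av.card + (12 + 4 * Δ) := by
        have h1 : (Forb i ∪ Bad.image col).card ≤ 12 + 4 * Δ :=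
          (card_union_le _ _).trans (Nat.add_le_add (hF i) (card_image_le.trans hBc))
        have h2 := card_sdiff_add_card_eq_card (subset_univ (Forb i ∪ Bad.image col))
        rw [card_univ] at h2
        rw [hAv]
        omega
      have hAc2 : l / 2 ≤ (Av.card : ℝ) := by
        have h1 : Fintype.card C ≤ 2 * Av.card := by omega
        have h2 : l ≤ 2 * (Av.card : ℝ) := by
          rw [hldef]
          exact_mod_cast h1
        linarith
      have hAne : Av.Nonempty := by
        rw [← card_pos]
        have : (0 : ℝ) < (Av.card : ℝ) := by linarith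
        exact_mod_cast this
      have hex : ∀ h0 v h, ex (insert i J) (Function.update col i h0) v h =
          (if h0 = h then mu i v else 0) + ex J col v h := by
        intro h0 v h
        show ∑ j ∈ insert i J, _ = _ + ∑ j ∈ J, _
        rw [sum_insert hi, Function.update_self]
        congr 1
        refine sum_congr rfl fun j hj => ?_
        have hji : j ≠ i := by
          rintro rfl
          exact hi hj
        rw [Function.update_of_ne hji]
      have hprod : ∀ v, ∏ j ∈ univ \ J, aa j v = aa i v * ∏ j ∈ univ \ insert i J, aa j v := by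
        intro v
        rw [sdiff_insert]
        exact (mul_prod_erase (univ \ J) (fun j => aa j v)
          (mem_sdiff.2 ⟨mem_univ _, hi⟩)).symm
      have hsum : ∑ h0 ∈ Av, Φ (insert i J) (Function.update col i h0) ≤ ∑ _h0 ∈ Av, Φ J col := by
        show ∑ h0 ∈ Av, ∑ v, ∑ h, (2 : ℝ) ^ (ex (insert i J) (Function.update col i h0) v h) *
          ∏ j ∈ univ \ insert i J, aa j v ≤ _
        simp only [hex]
        rw [sum_comm, sum_const, nsmul_eq_mul]
        show _ ≤ (Av.card : ℝ) * ∑ v, ∑ h, (2 : ℝ) ^ (ex J col v h) * ∏ j ∈ univ \ J, aa j v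
        rw [mul_sum]
        refine sum_le_sum fun v _ => ?_
        rw [sum_comm, mul_sum]
        refine sum_le_sum fun h _ => ?_
        rw [hprod v]
        have hP : 0 ≤ ∏ j ∈ univ \ insert i J, aa j v :=
          prod_nonneg fun j _ => zero_le_one.trans (haa j v)
        have hE : (0 : ℝ) ≤ 2 ^ ex J col v h := by positivity
        have e1 : ∑ h0 ∈ Av, (2 : ℝ) ^ ((if h0 = h then mu i v else 0) + ex J col v h) *
            ∏ j ∈ univ \ insert i J, aa j v =
            (∑ h0 ∈ Av, (2 : ℝ) ^ (if h0 = h then mu i v else 0)) * ((2 : ℝ) ^ ex J col v h *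
              ∏ j ∈ univ \ insert i J, aa j v) := by
          rw [sum_mul]
          refine sum_congr rfl fun h0 _ => ?_
          rw [pow_add]
          ring
        have e2 : ∑ h0 ∈ Av, (2 : ℝ) ^ (if h0 = h then mu i v else 0) ≤ Av.card * aa i v := by
          have h1 : ∀ h0 ∈ Av, (2 : ℝ) ^ (if h0 = h then mu i v else 0) =
              1 + (if h0 = h then (2 : ℝ) ^ mu i v - 1 else 0) := by
            intro h0 _
            split_ifs
            · ring
            · norm_num
          rw [sum_congr rfl h1, sum_add_distrib, sum_const, nsmul_eq_mul, mul_one]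
          have h2 : (1 : ℝ) ≤ 2 ^ mu i v := one_le_pow₀ (by norm_num)
          have h3 : ∑ h0 ∈ Av, (if h0 = h then (2 : ℝ) ^ mu i v - 1 else 0) ≤
              (2 : ℝ) ^ mu i v - 1 := by
            rw [sum_ite_eq']
            split_ifs
            · exact le_rfl
            · linarith
          show (Av.card : ℝ) + _ ≤ Av.card * (1 + ((2 : ℝ) ^ (mu i v) - 1) * (2 / l))
          have h4 : (2 : ℝ) ^ mu i v - 1 ≤ Av.card * (((2 : ℝ) ^ (mu i v) - 1) * (2 / l)) := by
            have h5 : 1 ≤ (Av.card : ℝ) * (2 / l) := by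
              rw [mul_div_assoc', le_div_iff₀ hl0]
              linarith
            nlinarith
          linarith
        rw [e1]
        calc _ ≤ (Av.card * aa i v) * ((2 : ℝ) ^ ex J col v h *
              ∏ j ∈ univ \ insert i J, aa j v) :=
              mul_le_mul_of_nonneg_right e2 (mul_nonneg hE hP)
          _ = _ := by ring
      obtain ⟨h0, hh0, hle⟩ := exists_le_of_sum_le hAne hsum
      rw [hAv, mem_sdiff, mem_union, not_or] at hh0
      obtain ⟨-, hf1, hf2⟩ := hh0
      have key : ∀ j ∈ J, h0 = col j → Disjoint (T i) (T j) := by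
        intro j hj hjc
        by_contra hnd
        exact hf2 (mem_image.2 ⟨j, by rw [hBad, mem_filter]; exact ⟨hj, hnd⟩, hjc.symm⟩)
      refine ⟨Function.update col i h0, ?_, ?_, hle.trans hc3⟩
      · intro j hj
        by_cases hji : j = i
        · subst hji
          rw [Function.update_self]
          exact hf1
        · rw [Function.update_of_ne hji]
          exact hc1 j ((mem_insert.1 hj).resolve_left hji)
      · intro j hj k hk hjk hcc
        by_cases hji : j = i
        · subst hji
          have hki : k ≠ j := fun h => hjk h.symm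
          rw [Function.update_self, Function.update_of_ne hki] at hcc
          exact key k ((mem_insert.1 hk).resolve_left hki) hcc
        · by_cases hki : k = i
          · subst hki
            rw [Function.update_self, Function.update_of_ne hji] at hcc
            exact (key j ((mem_insert.1 hj).resolve_left hji) hcc.symm).symm
          · rw [Function.update_of_ne hji, Function.update_of_ne hki] at hcc
            exact hc2 j ((mem_insert.1 hj).resolve_left hji) k
              ((mem_insert.1 hk).resolve_left hki) hjk hcc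
  obtain ⟨col, hc1, hc2, hc3⟩ := hstep univ
  refine ⟨col, fun i => hc1 i (mem_univ i), fun i j => hc2 i (mem_univ i) j (mem_univ j), ?_⟩
  intro v h
  have hΦ : Φ univ col = ∑ v, ∑ h, (2 : ℝ) ^ (ex univ col v h) := by
    show ∑ v, ∑ h, (2 : ℝ) ^ (ex univ col v h) * ∏ i ∈ univ \ univ, aa i v = _
    simp only [sdiff_self, bot_eq_empty, prod_empty, mul_one]
  have h1 : (2 : ℝ) ^ (ex univ col v h) ≤ Φ univ col := by
    rw [hΦ]
    calc (2 : ℝ) ^ (ex univ col v h) ≤ ∑ h, (2 : ℝ) ^ (ex univ col v h) :=
          single_le_sum (f := fun h => (2 : ℝ) ^ (ex univ col v h))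
            (fun _ _ => by positivity) (mem_univ h)
      _ ≤ _ := single_le_sum (f := fun v => ∑ h, (2 : ℝ) ^ (ex univ col v h))
            (fun _ _ => by positivity) (mem_univ v)
  refine (h1.trans hc3).trans ?_
  calc ∑ v : V, ∑ _h : C, ∏ i, aa i v ≤ ∑ _v : V, ∑ _h : C, Real.exp (8 * r * Δ / l) := by
        refine sum_le_sum fun v _ => sum_le_sum fun h _ => ?_
        exact prod_leCL T (N v) Δ r hT hdeg (hN v) hl0
    _ = _ := by
        rw [sum_const, sum_const, card_univ, card_univ, nsmul_eq_mul, nsmul_eq_mul]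
        ring

end Pool.Agent.CHS
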