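import Pool.Agent.CHS.HallExp

/-!
# CHS/Complete: completing a partial matching of a colour by pool edges

`b` is a matching of `G_W` avoiding `Zs m W h`, covering equally many points of `A` and of `B`.
`DA` = points of `A` outside `Zs m W h` with `b u = u`, `DB` = points of `B` with `b u = u`.
`|Zs m W h| = |W| - 1` (`m.mul h` is injective), `Zs m W h ⊆ Zall m W ⊆ A`, and `b` fixes the points of
`Zs m W h`, so `|DA| = |A| - (|W| - 1) - #{u ∈ A : b u ≠ u} = |B| - #{u ∈ B : b u ≠ u} = |DB|`.
By `hdeg` every point of `DA` has at least `τ` `P`-neighbours in `DB` and conversely (`P u v` implies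
`cross A B u v`; points of `B` are not in `Zs m W h`; points of `W` are in neither).  Apply `hallExp`
and let `f u = b u` if `b u ≠ u`, `f u = g u` for `u ∈ DA`, the inverse of `g` on `DB`, and `f u = u`
on `W ∪ Zs m W h` (note `b u = u` there, since `b u ≠ u` gives `adj`, so `u ∉ W`).
-/

set_option autoImplicit false

namespace Pool.Agent.CHS
open Finset

theorem Zs_cardCP {V : Type} [Fintype V] [DecidableEq V] (m : SQ V) (W : Finset V) (h : V)
    (hh : h ∈ W) : (Zs m W h).card + 1 = W.card := by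
  unfold Zs
  rw [card_image_of_injective, card_erase_add_one hh]
  intro x y hxy
  have h1 := congrArg (m.mul h) hxy
  rwa [m.inv, m.inv] at h1

theorem complete {V : Type} [Fintype V] [DecidableEq V] (m : SQ V) (c : V → ℕ)
    (E W A B : Finset V) (hW : GoodW m c E W) (hP : Part m W A B) (h : V) (hh : h ∈ W)
    (b : V → V) (hb1 : ∀ u, b (b u) = u)
    (hb2 : ∀ u, b u ≠ u → adj m W u (b u) ∧ u ∉ Zs m W h)
    (hbal : (A.filter (fun u => b u ≠ u)).card = (B.filter (fun u => b u ≠ u)).card)
    (P : V → V → Prop) [DecidableRel P] (hP1 : ∀ u v, P u v → P v u)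
    (hP2 : ∀ u v, P u v → adj m W u v ∧ cross A B u v) (τ : ℝ)
    (hτ : (W.card : ℝ) * (B.filter (fun u => b u = u)).card / (2 * Fintype.card V)
      + (1 / 10 ^ 7) * W.card < τ)
    (hdeg : ∀ v ∉ W, v ∉ Zs m W h → b v = v →
      τ ≤ ((univ.filter (fun u => P v u ∧ b u = u ∧ u ∉ Zs m W h)).card : ℝ)) :
    ∃ f : V → V, Mat m W h f ∧ (∀ u, b u ≠ u → f u = b u) ∧
      (∀ u, b u = u → f u ≠ u → P u (f u)) := by
  classical
  have hZA : Zs m W h ⊆ A := fun u hu => hP.zsub (mem_biUnion.2 ⟨h, hh, hu⟩)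
  have hAB : ∀ u, u ∈ A → u ∈ B → False := fun u h1 h2 => (disjoint_left.1 hP.disj) h1 h2
  have hmem : ∀ u, (u ∈ A ∨ u ∈ B) ↔ u ∉ W := by
    intro u
    rw [← mem_union, hP.union, mem_sdiff]
    simp
  have hAW : ∀ u, u ∈ A → u ∉ W := fun u hu => (hmem u).1 (Or.inl hu)
  have hBW : ∀ u, u ∈ B → u ∉ W := fun u hu => (hmem u).1 (Or.inr hu)
  have hbZ : ∀ u, u ∈ Zs m W h → b u = u := by
    intro u hu
    by_contra hne
    exact (hb2 u hne).2 hu
  have hbW : ∀ u, u ∈ W → b u = u := by
    intro u hu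
    by_contra hne
    exact (hb2 u hne).1.1 hu
  set DA := A.filter (fun u => b u = u ∧ u ∉ Zs m W h) with hDA
  set DB := B.filter (fun u => b u = u) with hDB
  have memA : ∀ u, u ∈ DA ↔ u ∈ A ∧ b u = u ∧ u ∉ Zs m W h := fun u => by
    rw [hDA, mem_filter]
  have memB : ∀ u, u ∈ DB ↔ u ∈ B ∧ b u = u := fun u => by
    rw [hDB, mem_filter]
  have hcard : DA.card = DB.card := by
    have e1 : (A.filter (fun u => b u = u)).card + (A.filter (fun u => b u ≠ u)).card = A.card :=
      card_filter_add_card_filter_not (s := A) (fun u => b u = u)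
    have e2 : DB.card + (B.filter (fun u => b u ≠ u)).card = B.card :=
      card_filter_add_card_filter_not (s := B) (fun u => b u = u)
    have e3 : (A.filter (fun u => b u = u)).card = DA.card + (Zs m W h).card := by
      rw [← card_union_of_disjoint]
      · congr 1
        ext u
        rw [mem_filter, mem_union, memA]
        constructor
        · rintro ⟨h1, h2⟩
          by_cases h3 : u ∈ Zs m W h
          · exact Or.inr h3
          · exact Or.inl ⟨h1, h2, h3⟩
        · rintro (⟨h1, h2, _⟩ | h1)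
          · exact ⟨h1, h2⟩
          · exact ⟨hZA h1, hbZ u h1⟩
      · rw [disjoint_left]
        intro u h1 h2
        exact ((memA u).1 h1).2.2 h2
    have e4 := Zs_cardCP m W h hh
    have e5 := hP.card
    rw [e3] at e1
    rw [hbal] at e1
    omega
  obtain ⟨g, hg1, hg2⟩ := hallExp m W hW.expand P (fun u v huv => (hP2 u v huv).1.2.2.2) DA DB
    hcard τ (by rw [hcard]; exact hτ) (by
      intro u hu
      obtain ⟨h1, h2, h3⟩ := (memA u).1 hu
      refine (hdeg u (hAW u h1) h3 h2).trans ?_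
      norm_cast
      refine card_le_card ?_
      intro v hv
      rw [mem_filter] at hv
      obtain ⟨-, h4, h5, h6⟩ := hv
      rw [mem_filter, memB]
      refine ⟨⟨?_, h5⟩, h4⟩
      rcases (hP2 u v h4).2 with h7 | h7
      · exact h7.2
      · exact (hAB u h1 h7.1).elim) (by
      intro v hv
      obtain ⟨h1, h2⟩ := (memB v).1 hv
      refine (hdeg v (hBW v h1) (fun h3 => hAB v (hZA h3) h1) h2).trans ?_
      norm_cast
      refine card_le_card ?_
      intro u hu
      rw [mem_filter] at hu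
      obtain ⟨-, h4, h5, h6⟩ := hu
      rw [mem_filter, memA]
      refine ⟨⟨?_, h5, h6⟩, hP1 _ _ h4⟩
      rcases (hP2 v u h4).2 with h7 | h7
      · exact (hAB v h7.1 h1).elim
      · exact h7.2)
  have hsurj : ∀ v ∈ DB, ∃ u ∈ DA, g u = v := by
    have h1 : DA.image g = DB := by
      apply eq_of_subset_of_card_le
      · intro v hv
        obtain ⟨u, hu, rfl⟩ := mem_image.1 hv
        exact (hg2 u hu).1
      · rw [card_image_of_injOn hg1, hcard]
    intro v hv
    rw [← h1] at hv
    obtain ⟨u, hu, hv⟩ := mem_image.1 hv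
    exact ⟨u, hu, hv⟩
  choose! g' hg'1 hg'2 using hsurj
  have hg'g : ∀ u ∈ DA, g' (g u) = u := by
    intro u hu
    have h1 := (hg2 u hu).1
    exact hg1 (hg'1 _ h1) hu (hg'2 _ h1)
  have nAB : ∀ u, u ∈ DB → u ∉ DA := fun u h1 h2 => hAB u ((memA u).1 h2).1 ((memB u).1 h1).1
  set f : V → V := fun u => if b u ≠ u then b u else if u ∈ DA then g u else
    if u ∈ DB then g' u else u with hf
  have f1 : ∀ u, b u ≠ u → f u = b u := by
    intro u hu
    simp only [hf]
    rw [if_pos hu]
  have f2 : ∀ u, u ∈ DA → f u = g u := by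
    intro u hu
    simp only [hf]
    rw [if_neg (not_not.2 ((memA u).1 hu).2.1), if_pos hu]
  have f3 : ∀ u, u ∈ DB → f u = g' u := by
    intro u hu
    simp only [hf]
    rw [if_neg (not_not.2 ((memB u).1 hu).2), if_neg (nAB u hu), if_pos hu]
  have f4 : ∀ u, b u = u → u ∉ DA → u ∉ DB → f u = u := by
    intro u h1 h2 h3
    simp only [hf]
    rw [if_neg (not_not.2 h1), if_neg h2, if_neg h3]
  have hPf : ∀ u, b u = u → f u ≠ u → P u (f u) := by
    intro u h1 h2
    by_cases h3 : u ∈ DA
    · rw [f2 u h3]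
      exact (hg2 u h3).2
    by_cases h4 : u ∈ DB
    · rw [f3 u h4]
      have h5 := (hg2 _ (hg'1 u h4)).2
      rw [hg'2 u h4] at h5
      exact hP1 _ _ h5
    exact absurd (f4 u h1 h3 h4) h2
  refine ⟨f, ⟨?_, ?_, ?_⟩, f1, hPf⟩
  · intro u
    by_cases h1 : b u = u
    · by_cases h3 : u ∈ DA
      · rw [f2 u h3, f3 _ (hg2 u h3).1, hg'g u h3]
      by_cases h4 : u ∈ DB
      · rw [f3 u h4, f2 _ (hg'1 u h4), hg'2 u h4]
      rw [f4 u h1 h3 h4, f4 u h1 h3 h4]
    · have h2 : b (b u) ≠ b u := by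
        rw [hb1]
        exact fun h => h1 h.symm
      rw [f1 u h1, f1 _ h2, hb1]
  · intro u
    constructor
    · intro h1
      by_contra h2
      push Not at h2
      obtain ⟨h2, h3⟩ := h2
      by_cases h4 : b u = u
      · rcases (hmem u).2 h2 with h5 | h5
        · have h6 : u ∈ DA := (memA u).2 ⟨h5, h4, h3⟩
          rw [f2 u h6] at h1
          have h7 := (hg2 u h6).1
          rw [h1] at h7
          exact nAB u h7 h6
        · have h6 : u ∈ DB := (memB u).2 ⟨h5, h4⟩
          rw [f3 u h6] at h1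
          have h7 := hg'1 u h6
          rw [h1] at h7
          exact nAB u h6 h7
      · rw [f1 u h4] at h1
        exact h4 h1
    · rintro (h1 | h1)
      · exact f4 u (hbW u h1) (fun h2 => hAW u ((memA u).1 h2).1 h1)
          (fun h2 => hBW u ((memB u).1 h2).1 h1)
      · exact f4 u (hbZ u h1) (fun h2 => ((memA u).1 h2).2.2 h1)
          (fun h2 => hAB u (hZA h1) ((memB u).1 h2).1)
  · intro u h1
    by_cases h2 : b u = u
    · exact (hP2 _ _ (hPf u h2 h1)).1.2.2.2
    · rw [f1 u h2]
      exact (hb2 u h2).1.2.2.2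

end Pool.Agent.CHS
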