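import Pool.Agent.CHS.Defs

/-!
# CHS/Conv: block sets and Steiner quasigroups

`Cn n` is the set `C(n)` of the problem (as in the frozen statement S09911).  A block set `B` on
`Fin n` gives the quasigroup `mul x x = x`, `mul x y` = third point of the block through `x ≠ y`;
a quasigroup gives the block set of all `{x, y, mul x y}`, `x ≠ y`.  In both directions the proper
colourings are the same: a block `b = {x, y, z}` has two points with different colours iff not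
`c x = c y = c z`.
-/

set_option autoImplicit false

namespace Pool.Agent.CHS
open Finset

/-- The set `C(n)` of the chromatic numbers of the Steiner triple systems on `Fin n`. -/
def Cn (n : ℕ) : Set ℕ :=
  {k : ℕ | ∃ B : Finset (Finset (Fin n)),
    (∀ b ∈ B, b.card = 3) ∧
    (∀ x y : Fin n, x ≠ y → ∃! b : Finset (Fin n), b ∈ B ∧ x ∈ b ∧ y ∈ b) ∧
    sInf {m : ℕ | ∃ c : Fin n → Fin m, ∀ b ∈ B, ∃ x ∈ b, ∃ y ∈ b, c x ≠ c y} = k}

namespace CV

variable {n : ℕ}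

theorem mul_ne {V : Type} (m : SQ V) {x y : V} (h : x ≠ y) : m.mul x y ≠ x ∧ m.mul x y ≠ y := by
  have h1 : ∀ a b : V, m.mul a b = a → a = b := by
    intro a b hab
    have h2 := m.inv a b
    rwa [hab, m.idem] at h2
  exact ⟨fun h' => h (h1 x y h'), fun h' => h (h1 y x (by rw [m.comm]; exact h')).symm⟩

theorem chi_eq (m : SQ (Fin n)) (B : Finset (Finset (Fin n)))
    (hB : ∀ b, b ∈ B ↔ ∃ x y, x ≠ y ∧ b = {x, y, m.mul x y}) :
    sInf {k : ℕ | ∃ c : Fin n → Fin k, ∀ b ∈ B, ∃ x ∈ b, ∃ y ∈ b, c x ≠ c y} = chi m := by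
  unfold chi
  congr 1
  ext k
  simp only [Set.mem_setOf_eq, Colb]
  constructor
  · rintro ⟨c, hc⟩
    refine ⟨c, fun x y hxy ⟨h1, h2⟩ => ?_⟩
    obtain ⟨u, hu, v, hv, huv⟩ := hc {x, y, m.mul x y} ((hB _).2 ⟨x, y, hxy, rfl⟩)
    have h3 : ∀ w ∈ ({x, y, m.mul x y} : Finset (Fin n)), c w = c y := by
      intro w hw
      simp only [Finset.mem_insert, Finset.mem_singleton] at hw
      rcases hw with rfl | rfl | rfl
      · exact h1
      · rfl
      · exact h2.symm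
    exact huv ((h3 u hu).trans (h3 v hv).symm)
  · rintro ⟨c, hc⟩
    refine ⟨c, fun b hb => ?_⟩
    obtain ⟨x, y, hxy, rfl⟩ := (hB b).1 hb
    by_cases h1 : c x = c y
    · refine ⟨y, by simp, m.mul x y, by simp, fun h2 => hc x y hxy ⟨h1, h2⟩⟩
    · exact ⟨x, by simp, y, by simp, h1⟩

/-- blocks through `x`, `y` with third point `z` -/
def PP (B : Finset (Finset (Fin n))) (x y z : Fin n) : Prop :=
  x ≠ y ∧ z ≠ x ∧ z ≠ y ∧ ({x, y, z} : Finset (Fin n)) ∈ B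

variable {B : Finset (Finset (Fin n))}

theorem PP.swap {x y z : Fin n} (h : PP B x y z) : PP B y x z := by
  obtain ⟨h1, h2, h3, h4⟩ := h
  refine ⟨h1.symm, h3, h2, ?_⟩
  rwa [Finset.insert_comm]

theorem PP.rot {x y z : Fin n} (h : PP B x y z) : PP B x z y := by
  obtain ⟨h1, h2, h3, h4⟩ := h
  refine ⟨h2.symm, h1.symm, h3.symm, ?_⟩
  rwa [Finset.pair_comm]

theorem PP.unique (h2 : ∀ x y : Fin n, x ≠ y → ∃! b : Finset (Fin n), b ∈ B ∧ x ∈ b ∧ y ∈ b)
    {x y z z' : Fin n} (h : PP B x y z) (h' : PP B x y z') : z = z' := by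
  have h3 := (h2 x y h.1).unique ⟨h.2.2.2, by simp, by simp⟩ ⟨h'.2.2.2, by simp, by simp⟩
  have h4 : z ∈ ({x, y, z'} : Finset (Fin n)) := by
    rw [← h3]; simp
  simp only [Finset.mem_insert, Finset.mem_singleton] at h4
  rcases h4 with h4 | h4 | h4
  · exact absurd h4 h.2.1
  · exact absurd h4 h.2.2.1
  · exact h4

theorem PP.ex (h1 : ∀ b ∈ B, b.card = 3)
    (h2 : ∀ x y : Fin n, x ≠ y → ∃! b : Finset (Fin n), b ∈ B ∧ x ∈ b ∧ y ∈ b)
    {x y : Fin n} (hxy : x ≠ y) : ∃ z, PP B x y z := by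
  obtain ⟨b, ⟨hb, hx, hy⟩, -⟩ := h2 x y hxy
  have h3 : ((b.erase x).erase y).card = 1 := by
    rw [Finset.card_erase_of_mem (Finset.mem_erase.2 ⟨hxy.symm, hy⟩), Finset.card_erase_of_mem hx,
      h1 b hb]
  obtain ⟨z, hz⟩ := Finset.card_eq_one.1 h3
  have h4 : z ∈ (b.erase x).erase y := by rw [hz]; simp
  rw [Finset.mem_erase, Finset.mem_erase] at h4
  refine ⟨z, hxy, h4.2.1, h4.1, ?_⟩
  have h5 : ({x, y, z} : Finset (Fin n)) = b := by
    rw [← hz, Finset.insert_erase (Finset.mem_erase.2 ⟨hxy.symm, hy⟩), Finset.insert_erase hx]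
  rw [h5]; exact hb

theorem blocks_iff (h1 : ∀ b ∈ B, b.card = 3)
    (h2 : ∀ x y : Fin n, x ≠ y → ∃! b : Finset (Fin n), b ∈ B ∧ x ∈ b ∧ y ∈ b)
    (m : SQ (Fin n)) (hm : ∀ x y, x ≠ y → PP B x y (m.mul x y)) (b : Finset (Fin n)) :
    b ∈ B ↔ ∃ x y, x ≠ y ∧ b = {x, y, m.mul x y} := by
  constructor
  · intro hb
    obtain ⟨x, y, z, hxy, hxz, hyz, rfl⟩ := Finset.card_eq_three.1 (h1 b hb)
    have h3 : PP B x y z := ⟨hxy, hxz.symm, hyz.symm, hb⟩
    exact ⟨x, y, hxy, by rw [h3.unique h2 (hm x y hxy)]⟩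
  · rintro ⟨x, y, hxy, rfl⟩
    exact (hm x y hxy).2.2.2

theorem exists_SQ (h1 : ∀ b ∈ B, b.card = 3)
    (h2 : ∀ x y : Fin n, x ≠ y → ∃! b : Finset (Fin n), b ∈ B ∧ x ∈ b ∧ y ∈ b) :
    ∃ m : SQ (Fin n), ∀ x y, x ≠ y → PP B x y (m.mul x y) := by
  classical
  have hex : ∀ x y : Fin n, ∃ z, (x = y → z = x) ∧ (x ≠ y → PP B x y z) := by
    intro x y
    by_cases h : x = y
    · exact ⟨x, fun _ => rfl, fun h' => absurd h h'⟩
    · obtain ⟨z, hz⟩ := PP.ex h1 h2 h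
      exact ⟨z, fun h' => absurd h' h, fun _ => hz⟩
  choose f hf hg using hex
  refine ⟨⟨f, fun x => hf x x rfl, fun x y => ?_, fun x y => ?_⟩, hg⟩
  · by_cases h : x = y
    · rw [h]
    · exact (hg x y h).unique h2 (hg y x (Ne.symm h)).swap
  · by_cases h : x = y
    · rw [hf x y h, hf x x rfl, h]
    · have h3 := (hg x y h).rot
      exact (hg x (f x y) h3.1).unique h2 h3

theorem exists_B (m : SQ (Fin n)) : ∃ B : Finset (Finset (Fin n)),
    (∀ b ∈ B, b.card = 3) ∧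
    (∀ x y : Fin n, x ≠ y → ∃! b : Finset (Fin n), b ∈ B ∧ x ∈ b ∧ y ∈ b) ∧
    ∀ b, b ∈ B ↔ ∃ x y, x ≠ y ∧ b = {x, y, m.mul x y} := by
  classical
  set B : Finset (Finset (Fin n)) := (univ.filter (fun p : Fin n × Fin n => p.1 ≠ p.2)).image
    (fun p => {p.1, p.2, m.mul p.1 p.2}) with hBd
  have hB : ∀ b, b ∈ B ↔ ∃ x y, x ≠ y ∧ b = {x, y, m.mul x y} := by
    intro b
    rw [hBd, Finset.mem_image]
    constructor
    · rintro ⟨p, hp, rfl⟩
      exact ⟨p.1, p.2, (Finset.mem_filter.1 hp).2, rfl⟩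
    · rintro ⟨x, y, hxy, rfl⟩
      exact ⟨(x, y), Finset.mem_filter.2 ⟨Finset.mem_univ _, hxy⟩, rfl⟩
  refine ⟨B, fun b hb => ?_, fun x y hxy => ?_, hB⟩
  · obtain ⟨x, y, hxy, rfl⟩ := (hB b).1 hb
    have h := mul_ne m hxy
    exact Finset.card_eq_three.2 ⟨x, y, m.mul x y, hxy, h.1.symm, h.2.symm, rfl⟩
  · refine ⟨{x, y, m.mul x y}, ⟨(hB _).2 ⟨x, y, hxy, rfl⟩, by simp, by simp⟩, ?_⟩
    rintro b ⟨hb, hx, hy⟩
    obtain ⟨u, v, huv, rfl⟩ := (hB b).1 hb
    have e1 : m.mul v u = m.mul u v := m.comm v u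
    have e2 : m.mul u (m.mul u v) = v := m.inv u v
    have e3 : m.mul (m.mul u v) u = v := by rw [m.comm]; exact e2
    have e4 : m.mul v (m.mul u v) = u := by rw [m.comm u v]; exact m.inv v u
    have e5 : m.mul (m.mul u v) v = u := by rw [m.comm]; exact e4
    simp only [Finset.mem_insert, Finset.mem_singleton] at hx hy
    rcases hx with rfl | rfl | rfl <;> rcases hy with rfl | rfl | rfl
    · exact absurd rfl hxy
    · rfl
    · rw [e2]; exact congrArg _ (Finset.pair_comm _ _)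
    · rw [e1]; exact Finset.insert_comm _ _ _
    · exact absurd rfl hxy
    · rw [e4]
      ext t; simp only [Finset.mem_insert, Finset.mem_singleton]; tauto
    · rw [e3]
      ext t; simp only [Finset.mem_insert, Finset.mem_singleton]; tauto
    · rw [e5]
      ext t; simp only [Finset.mem_insert, Finset.mem_singleton]; tauto
    · exact absurd rfl hxy

end CV

theorem conv (n k : ℕ) : k ∈ Cn n ↔ ∃ m : SQ (Fin n), chi m = k := by
  constructor
  · rintro ⟨B, h1, h2, h3⟩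
    obtain ⟨m, hm⟩ := CV.exists_SQ h1 h2
    exact ⟨m, by rw [← h3, CV.chi_eq m B (CV.blocks_iff h1 h2 m hm)]⟩
  · rintro ⟨m, rfl⟩
    obtain ⟨B, h1, h2, h3⟩ := CV.exists_B m
    exact ⟨B, h1, h2, CV.chi_eq m B h3⟩

end Pool.Agent.CHS
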