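import Mathlib

/-!
# CHS: the chromatic spectrum of Steiner triple systems (MP_87880a_co)

Definitions.  A Steiner triple system on `V` is given by its Steiner quasigroup `m : SQ V`
(`m.mul x y` is the third point of the block through `x ≠ y`, and `m.mul x x = x`).
Throughout `W` is the small set of points whose blocks are re-decomposed, `adj m W` is the graph
`G_W` on the points outside `W`: `u ~ v` iff the third point of `u, v` lies in `W`.
-/

set_option autoImplicit false

namespace Pool.Agent.CHS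
open Finset

/-- A Steiner quasigroup: `mul x y` is the third point of the block through `x ≠ y`. -/
structure SQ (V : Type) where
  mul : V → V → V
  idem : ∀ x, mul x x = x
  comm : ∀ x y, mul x y = mul y x
  inv : ∀ x y, mul x (mul x y) = y

section
variable {V : Type}

/-- `m` has a proper colouring with `k` colours. -/
def Colb (m : SQ V) (k : ℕ) : Prop :=
  ∃ c : V → Fin k, ∀ x y, x ≠ y → ¬ (c x = c y ∧ c y = c (m.mul x y))

/-- The chromatic number. -/
noncomputable def chi (m : SQ V) : ℕ := sInf {k | Colb m k}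

variable [Fintype V] [DecidableEq V]

/-- The graph `G_W` on the points outside `W`. -/
def adj (m : SQ V) (W : Finset V) (u v : V) : Prop :=
  u ∉ W ∧ v ∉ W ∧ u ≠ v ∧ m.mul u v ∈ W

instance (m : SQ V) (W : Finset V) (u v : V) : Decidable (adj m W u v) := by
  unfold adj; infer_instance

/-- The points missed by the matching of colour `h`: the third points of `h` and the other
points of `W`. -/
def Zs (m : SQ V) (W : Finset V) (h : V) : Finset V := (W.erase h).image (m.mul h)

/-- All third points of pairs of points of `W`. -/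
def Zall (m : SQ V) (W : Finset V) : Finset V := W.biUnion (Zs m W)

/-- The pair `u, v` is a pair between `A` and `B`. -/
def cross (A B : Finset V) (u v : V) : Prop := (u ∈ A ∧ v ∈ B) ∨ (u ∈ B ∧ v ∈ A)

instance (A B : Finset V) (u v : V) : Decidable (cross A B u v) := by
  unfold cross; infer_instance

/-- The pair `u, v` is used by one of the matchings `f h`, `h ∈ H` (matchings are given as
involutions of `V`; a fixed point is a point missed by the matching). -/
def used (H : Finset V) (f : V → V → V) (u v : V) : Prop := ∃ h ∈ H, f h u = v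

instance (H : Finset V) (f : V → V → V) (u v : V) : Decidable (used H f u v) := by
  unfold used; infer_instance

/-- The properties of the random set `W`. -/
structure GoodW (m : SQ V) (c : V → ℕ) (E W : Finset V) : Prop where
  indep : ∀ x ∈ W, ∀ y ∈ W, x ≠ y → m.mul x y ∉ W
  zdist : ∀ x ∈ W, ∀ y ∈ W, ∀ x' ∈ W, ∀ y' ∈ W, x ≠ y → x' ≠ y' →
    m.mul x y = m.mul x' y' → (x = x' ∧ y = y') ∨ (x = y' ∧ y = x')
  cinj : ∀ x ∈ W, ∀ y ∈ W, c x = c y → x = y
  mono : ∀ v ∉ W, (univ.filter (fun u => adj m W v u ∧ c u = c v)).card ≤ 4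
  zdeg : ∀ v ∉ W, (univ.filter (fun u => adj m W v u ∧ u ∈ Zall m W)).card ≤ 6
  edeg : ∀ v ∉ W, (univ.filter (fun u => adj m W v u ∧ u ∈ E)).card ≤ 4
  expand : ∀ X Y : Finset V,
    (((X ×ˢ Y).filter (fun q => m.mul q.1 q.2 ∈ W)).card : ℝ) ≤
      (W.card : ℝ) / Fintype.card V * (X.card * Y.card)
        + (1 / 10 ^ 7) * W.card * Real.sqrt (X.card * Y.card)

/-- The partition `V \ W = A ∪ B`. -/
structure Part (m : SQ V) (W A B : Finset V) : Prop where
  disj : Disjoint A B
  union : A ∪ B = univ \ W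
  zsub : Zall m W ⊆ A
  card : A.card + 1 = B.card + W.card
  degA : ∀ v ∉ W, |((univ.filter (fun u => adj m W v u ∧ u ∈ A)).card : ℝ) - W.card / 2|
    ≤ (1 / 10 ^ 13) * W.card
  degB : ∀ v ∉ W, |((univ.filter (fun u => adj m W v u ∧ u ∈ B)).card : ℝ) - W.card / 2|
    ≤ (1 / 10 ^ 13) * W.card

/-- `f` is a matching of `G_W` covering exactly the points outside `W` and `Zs m W h`. -/
structure Mat (m : SQ V) (W : Finset V) (h : V) (f : V → V) : Prop where
  inv : ∀ u, f (f u) = u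
  fix : ∀ u, f u = u ↔ (u ∈ W ∨ u ∈ Zs m W h)
  edge : ∀ u, f u ≠ u → m.mul u (f u) ∈ W

/-- The colours `h ∈ H` have been given pairwise disjoint matchings `f h`. -/
structure State (m : SQ V) (W H : Finset V) (f : V → V → V) : Prop where
  sub : H ⊆ W
  mat : ∀ h ∈ H, Mat m W h (f h)
  disj : ∀ h ∈ H, ∀ h' ∈ H, h ≠ h' → ∀ u, f h u = f h' u → f h u = u

/-- The output of stage 1. -/
structure Stage1 (m : SQ V) (c : V → ℕ) (W A B H : Finset V) (f : V → V → V) : Prop where
  st : State m W H f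
  hcard : (H.card : ℝ) ≤ (51 / 100) * W.card
  nonmono : ∀ h ∈ H, ∀ u, f h u ≠ u → c (f h u) ≠ c u
  usage : ∀ v ∉ W, ((H.filter (fun h => cross A B v (f h v))).card : ℝ) ≤ (1 / 10000) * W.card
  left : ∀ v ∉ W, ((univ.filter (fun u => adj m W v u ∧ ¬ used H f v u ∧
    ¬ cross A B v u)).card : ℝ) ≤ (1 / 20000) * W.card
  bal : ((A ×ˢ A).filter (fun q => adj m W q.1 q.2 ∧ ¬ used H f q.1 q.2)).card =
    ((B ×ˢ B).filter (fun q => adj m W q.1 q.2 ∧ ¬ used H f q.1 q.2)).card

/-- The base matchings of stage 2. -/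
structure Base (m : SQ V) (c : V → ℕ) (W A B H : Finset V) (f : V → V → V) (H2 : Finset V)
    (b : V → V → V) : Prop where
  sub : H2 ⊆ W \ H
  card : (H2.card : ℝ) ≤ (W.card : ℝ) / 10
  inv : ∀ h ∈ H2, ∀ u, b h (b h u) = u
  edge : ∀ h ∈ H2, ∀ u, b h u ≠ u → adj m W u (b h u) ∧ ¬ used H f u (b h u) ∧
    (¬ cross A B u (b h u) ∨ c u = c (b h u)) ∧ u ∉ Zs m W h
  good : ∀ h ∈ H2, ∀ u, b h u ≠ u → ¬ (c (b h u) = c u ∧ c u = c h)
  disj : ∀ h ∈ H2, ∀ h' ∈ H2, h ≠ h' → ∀ u, b h u = b h' u → b h u = u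
  bal : ∀ h ∈ H2, (A.filter (fun u => b h u ≠ u)).card = (B.filter (fun u => b h u ≠ u)).card
  cover : ∀ u v, adj m W u v → ¬ used H f u v → (¬ cross A B u v ∨ c u = c v) →
    ∃ h ∈ H2, b h u = v
  fair : ∀ h ∈ H2, ∀ v ∉ W, ((univ.filter (fun u => adj m W v u ∧ b h u ≠ u)).card : ℝ)
    ≤ (W.card : ℝ) / 20

/-- The output of stage 2. -/
structure Stage2 (m : SQ V) (c : V → ℕ) (W A B H : Finset V) (f : V → V → V) : Prop where
  st : State m W H f
  good : ∀ h ∈ H, ∀ u, f h u ≠ u → ¬ (c (f h u) = c u ∧ c u = c h)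
  rest : ∀ u v, adj m W u v → ¬ used H f u v → cross A B u v ∧ c u ≠ c v

/-- A complete re-decomposition: for every `w ∈ W` a matching `f w` of `G_W`, together covering
every edge of `G_W` exactly once, and new third points `z w w'` for the pairs of points of `W`. -/
structure Full (m : SQ V) (W : Finset V) (f z : V → V → V) : Prop where
  inv : ∀ w ∈ W, ∀ u, f w (f w u) = u
  fix : ∀ w ∈ W, ∀ u, f w u = u ↔ (u ∈ W ∨ ∃ w' ∈ W, w' ≠ w ∧ z w w' = u)
  edge : ∀ w ∈ W, ∀ u, f w u ≠ u → m.mul u (f w u) ∈ W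
  disj : ∀ w ∈ W, ∀ w' ∈ W, w ≠ w' → ∀ u, f w u = f w' u → f w u = u
  cover : ∀ u v, adj m W u v → ∃ w ∈ W, f w u = v
  zsymm : ∀ w ∈ W, ∀ w' ∈ W, w ≠ w' → z w w' = z w' w
  zinj : ∀ w ∈ W, ∀ w1 ∈ W, ∀ w2 ∈ W, w1 ≠ w → w2 ≠ w → z w w1 = z w w2 → w1 = w2
  zout : ∀ w ∈ W, ∀ w' ∈ W, w ≠ w' → z w w' ∉ W

end

end Pool.Agent.CHS
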