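import Pool.Agent.CHS.Basic

/-!
# CHS/Edges: the numbers of inside edges of `A` and of `B` are equal

`r = |W|`.  Sum of the degrees over `A`: `r |A| - 2 |Zall|` (`Zall ⊆ A`; `deg_eq`, `deg_add_two`), over
`B`: `r |B|`.  Both contain the cross edges once, so (ordered inside pairs)
`e(A,A) - e(B,B) = r (|A| - |B|) - 2 |Zall| = r (r - 1) - r (r - 1) = 0` (`Part.card`, `Zall_card`).
-/

set_option autoImplicit false

namespace Pool.Agent.CHS
open Finset

theorem edges {V : Type} [Fintype V] [DecidableEq V] {m : SQ V} {c : V → ℕ}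
    {E W A B : Finset V} (hW : GoodW m c E W) (hP : Part m W A B) :
    ((A ×ˢ A).filter (fun q => adj m W q.1 q.2)).card =
      ((B ×ˢ B).filter (fun q => adj m W q.1 q.2)).card := by
  -- split the degree of a point
  have hAW : ∀ v ∈ A, v ∉ W := by
    intro v hv
    have : v ∈ univ \ W := hP.union ▸ Finset.mem_union_left _ hv
    exact (Finset.mem_sdiff.1 this).2
  have hBW : ∀ v ∈ B, v ∉ W := by
    intro v hv
    have : v ∈ univ \ W := hP.union ▸ Finset.mem_union_right _ hv
    exact (Finset.mem_sdiff.1 this).2
  have hdeg : ∀ v, (univ.filter (fun u => adj m W v u)).card =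
      (A.filter (fun u => adj m W v u)).card + (B.filter (fun u => adj m W v u)).card := by
    intro v
    rw [← Finset.card_union_of_disjoint]
    · congr 1
      ext u
      simp only [Finset.mem_filter, Finset.mem_univ, true_and, Finset.mem_union]
      constructor
      · intro h
        have : u ∈ A ∪ B := by
          rw [hP.union]; exact Finset.mem_sdiff.2 ⟨Finset.mem_univ _, h.2.1⟩
        rcases Finset.mem_union.1 this with h' | h'
        · exact Or.inl ⟨h', h⟩
        · exact Or.inr ⟨h', h⟩
      · rintro (h | h) <;> exact h.2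
    · exact Disjoint.mono (Finset.filter_subset _ _) (Finset.filter_subset _ _) hP.disj
  have hprod : ∀ S T : Finset V, ((S ×ˢ T).filter (fun q => adj m W q.1 q.2)).card =
      ∑ v ∈ S, (T.filter (fun u => adj m W v u)).card := by
    intro S T
    rw [Finset.card_filter, Finset.sum_product]
    refine Finset.sum_congr rfl (fun v _ => ?_)
    rw [Finset.card_filter]
  have hsymm : ((A ×ˢ B).filter (fun q => adj m W q.1 q.2)).card =
      ((B ×ˢ A).filter (fun q => adj m W q.1 q.2)).card := by
    refine Finset.card_nbij' Prod.swap Prod.swap ?_ ?_ ?_ ?_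
    · intro q hq
      obtain ⟨h1, h2⟩ := Finset.mem_filter.1 hq
      obtain ⟨h3, h4⟩ := Finset.mem_product.1 h1
      exact Finset.mem_filter.2 ⟨Finset.mem_product.2 ⟨h4, h3⟩, adj_symm m W _ _ h2⟩
    · intro q hq
      obtain ⟨h1, h2⟩ := Finset.mem_filter.1 hq
      obtain ⟨h3, h4⟩ := Finset.mem_product.1 h1
      exact Finset.mem_filter.2 ⟨Finset.mem_product.2 ⟨h4, h3⟩, adj_symm m W _ _ h2⟩
    · intro q _; rfl
    · intro q _; rfl
  -- sums of the degrees
  have hsA : ∑ v ∈ A, (univ.filter (fun u => adj m W v u)).card + 2 * (Zall m W).card =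
      W.card * A.card := by
    have h2 : 2 * (Zall m W).card = ∑ v ∈ A, if v ∈ Zall m W then 2 else 0 := by
      rw [← Finset.sum_filter, Finset.sum_const, smul_eq_mul, mul_comm]
      congr 2
      ext v
      simp only [Finset.mem_filter]
      exact ⟨fun h => ⟨hP.zsub h, h⟩, fun h => h.2⟩
    rw [h2, ← Finset.sum_add_distrib, mul_comm, ← smul_eq_mul, ← Finset.sum_const]
    refine Finset.sum_congr rfl (fun v hv => ?_)
    by_cases hz : v ∈ Zall m W
    · simp only [hz, if_true]; exact deg_add_two hW v hz
    · simp only [hz, if_false, add_zero]; exact deg_eq m W v (hAW v hv) hz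
  have hsB : ∑ v ∈ B, (univ.filter (fun u => adj m W v u)).card = W.card * B.card := by
    rw [mul_comm, ← smul_eq_mul, ← Finset.sum_const]
    refine Finset.sum_congr rfl (fun v hv => ?_)
    have hz : v ∉ Zall m W := fun h => Finset.disjoint_left.1 hP.disj (hP.zsub h) hv
    exact deg_eq m W v (hBW v hv) hz
  have eA : ∑ v ∈ A, (univ.filter (fun u => adj m W v u)).card =
      ((A ×ˢ A).filter (fun q => adj m W q.1 q.2)).card +
        ((A ×ˢ B).filter (fun q => adj m W q.1 q.2)).card := by
    rw [hprod A A, hprod A B, ← Finset.sum_add_distrib]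
    exact Finset.sum_congr rfl (fun v _ => hdeg v)
  have eB : ∑ v ∈ B, (univ.filter (fun u => adj m W v u)).card =
      ((B ×ˢ A).filter (fun q => adj m W q.1 q.2)).card +
        ((B ×ˢ B).filter (fun q => adj m W q.1 q.2)).card := by
    rw [hprod B A, hprod B B, ← Finset.sum_add_distrib]
    exact Finset.sum_congr rfl (fun v _ => hdeg v)
  have hZ := Zall_card hW
  have hc := hP.card
  have key : W.card * A.card + W.card = W.card * B.card + W.card * W.card := by
    calc W.card * A.card + W.card = W.card * (A.card + 1) := by ring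
      _ = W.card * (B.card + W.card) := by rw [hc]
      _ = _ := by ring
  rw [eA] at hsA
  rw [eB] at hsB
  omega

end Pool.Agent.CHS
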