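import Mathlib

/-!
# CHS/GWb: few hits in fixed small targets

`n = card V ≤ 2 (s+1)^10`, targets `T v` with `|T v| ≤ 2 n / (s+1)^4`.  For fixed `v` the fraction of the
`ω : Fin s → V` with at least 4 indices `i` with `ω i ∈ T v` is at most
`(s choose 4) (2/(s+1)^4)^4 ≤ 16 / (s+1)^12`; the sum over the `n ≤ 2 (s+1)^10` points `v` is at most
`32 / (s+1)^2 ≤ 1/10`.
(For a set `I` of 4 indices the number of `ω` with `ω i ∈ T v` for `i ∈ I` is `|T v|^4 n^(s-4)`:
`Fintype.piFinset`.)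
-/

set_option autoImplicit false

namespace Pool.Agent.CHS
open Finset

/-- The number of functions hitting a target of size `t` on all indices of a set of size 4. -/
private theorem count_I {V : Type} [Fintype V] [DecidableEq V] {s : ℕ} (T : Finset V)
    (I : Finset (Fin s)) (hI : I.card = 4) :
    (Fintype.piFinset (fun i : Fin s => if i ∈ I then T else univ)).card =
      T.card ^ 4 * Fintype.card V ^ (s - 4) := by
  rw [Fintype.card_piFinset]
  have : ∀ i : Fin s, (if i ∈ I then T else univ : Finset V).card =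
      if i ∈ I then T.card else Fintype.card V := by
    intro i; split_ifs <;> simp
  rw [Finset.prod_congr rfl (fun i _ => this i), Finset.prod_ite, Finset.prod_const,
    Finset.prod_const]
  congr 2
  · simp [hI]
  · have h1 : (univ.filter (fun i : Fin s => i ∉ I)) = univ \ I := by
      ext i; simp
    rw [h1, Finset.card_sdiff_of_subset (Finset.subset_univ I), hI, Finset.card_univ,
      Fintype.card_fin]

private theorem count_v {V : Type} [Fintype V] [DecidableEq V] {s : ℕ} (T : Finset V)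
    (S : Finset (Fin s → V)) (hS : ∀ ω ∈ S, ∃ I : Finset (Fin s), I.card = 4 ∧ ∀ i ∈ I, ω i ∈ T) :
    S.card ≤ s.choose 4 * (T.card ^ 4 * Fintype.card V ^ (s - 4)) := by
  have h1 : S ⊆ (Finset.powersetCard 4 (univ : Finset (Fin s))).biUnion
      (fun I => Fintype.piFinset (fun i : Fin s => if i ∈ I then T else univ)) := by
    intro ω hω
    obtain ⟨I, hI, hI2⟩ := hS ω hω
    rw [Finset.mem_biUnion]
    refine ⟨I, Finset.mem_powersetCard.2 ⟨Finset.subset_univ I, hI⟩, ?_⟩
    rw [Fintype.mem_piFinset]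
    intro i
    split_ifs with h
    · exact hI2 i h
    · exact Finset.mem_univ _
  refine (Finset.card_le_card h1).trans (Finset.card_biUnion_le.trans ?_)
  rw [Finset.sum_congr rfl (fun I hI => count_I T I (Finset.mem_powersetCard.1 hI).2),
    Finset.sum_const, Finset.card_powersetCard, smul_eq_mul, Finset.card_univ, Fintype.card_fin]

open Classical in
theorem gwb : ∃ s0 : ℕ, ∀ s ≥ s0, ∀ (V : Type) [Fintype V] [DecidableEq V],
    Fintype.card V ≤ 2 * (s + 1) ^ 10 → ∀ (T : V → Finset V),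
    (∀ v, (T v).card * (s + 1) ^ 4 ≤ 2 * Fintype.card V) →
    ((univ.filter (fun ω : Fin s → V =>
        ¬ ∀ v, (univ.filter (fun i => ω i ∈ T v)).card ≤ 3)).card : ℝ)
      ≤ (1 / 10) * (Fintype.card V : ℝ) ^ s := by
  refine ⟨18, fun s hs V _ _ hV T hT => ?_⟩
  set n := Fintype.card V with hn
  set N := univ.filter (fun ω : Fin s → V =>
        ¬ ∀ v, (univ.filter (fun i => ω i ∈ T v)).card ≤ 3) with hN
  let Nv : V → Finset (Fin s → V) := fun v =>
    univ.filter (fun ω : Fin s → V => ∃ I : Finset (Fin s), I.card = 4 ∧ ∀ i ∈ I, ω i ∈ T v)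
  have h1 : N ⊆ (univ : Finset V).biUnion Nv := by
    intro ω hω
    rw [hN, Finset.mem_filter] at hω
    obtain ⟨-, h⟩ := hω
    push Not at h
    obtain ⟨v, hv⟩ := h
    rw [Finset.mem_biUnion]
    refine ⟨v, Finset.mem_univ _, ?_⟩
    simp only [Nv, Finset.mem_filter, Finset.mem_univ, true_and]
    obtain ⟨I, hI1, hI2⟩ := Finset.exists_subset_card_eq (show 4 ≤ _ from hv)
    exact ⟨I, hI2, fun i hi => (Finset.mem_filter.1 (hI1 hi)).2⟩
  have h2 : ∀ v, (Nv v).card * (s + 1) ^ 12 ≤ 16 * n ^ s := by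
    intro v
    have h3 := count_v (T v) (Nv v) (fun ω hω => by
      simpa only [Nv, Finset.mem_filter, Finset.mem_univ, true_and] using hω)
    have h4 : s.choose 4 ≤ (s + 1) ^ 4 :=
      (Nat.choose_le_pow s 4).trans (Nat.pow_le_pow_left (Nat.le_succ s) 4)
    have h5 : n ^ 4 * n ^ (s - 4) = n ^ s := by
      rw [← pow_add]; congr 1; omega
    calc (Nv v).card * (s + 1) ^ 12
        ≤ (s.choose 4 * ((T v).card ^ 4 * n ^ (s - 4))) * (s + 1) ^ 12 :=
          Nat.mul_le_mul_right _ h3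
      _ ≤ ((s + 1) ^ 4 * ((T v).card ^ 4 * n ^ (s - 4))) * (s + 1) ^ 12 :=
          Nat.mul_le_mul_right _ (Nat.mul_le_mul_right _ h4)
      _ = ((T v).card * (s + 1) ^ 4) ^ 4 * n ^ (s - 4) := by ring
      _ ≤ (2 * n) ^ 4 * n ^ (s - 4) := Nat.mul_le_mul_right _ (Nat.pow_le_pow_left (hT v) 4)
      _ = 16 * (n ^ 4 * n ^ (s - 4)) := by ring
      _ = 16 * n ^ s := by rw [h5]
  have h6 : N.card * (s + 1) ^ 12 ≤ n * (16 * n ^ s) := by
    calc N.card * (s + 1) ^ 12 ≤ (∑ v : V, (Nv v).card) * (s + 1) ^ 12 :=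
          Nat.mul_le_mul_right _ ((Finset.card_le_card h1).trans Finset.card_biUnion_le)
      _ = ∑ v : V, (Nv v).card * (s + 1) ^ 12 := by rw [Finset.sum_mul]
      _ ≤ ∑ _v : V, 16 * n ^ s := Finset.sum_le_sum (fun v _ => h2 v)
      _ = n * (16 * n ^ s) := by rw [Finset.sum_const, smul_eq_mul, Finset.card_univ]
  have h7 : N.card * (s + 1) ^ 2 * (s + 1) ^ 10 ≤ 32 * n ^ s * (s + 1) ^ 10 := by
    calc N.card * (s + 1) ^ 2 * (s + 1) ^ 10 = N.card * (s + 1) ^ 12 := by ring
      _ ≤ n * (16 * n ^ s) := h6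
      _ ≤ (2 * (s + 1) ^ 10) * (16 * n ^ s) := Nat.mul_le_mul_right _ hV
      _ = 32 * n ^ s * (s + 1) ^ 10 := by ring
  have h8 : N.card * (s + 1) ^ 2 ≤ 32 * n ^ s := Nat.le_of_mul_le_mul_right h7 (by positivity)
  have h9 : 320 ≤ (s + 1) ^ 2 := by nlinarith
  have h10 : N.card * 320 ≤ 32 * n ^ s := (Nat.mul_le_mul_left _ h9).trans h8
  have h11 : (N.card : ℝ) * 320 ≤ 32 * (n : ℝ) ^ s := by exact_mod_cast h10
  linarith

end Pool.Agent.CHS
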