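import Pool.Agent.CHS.GWa
import Pool.Agent.CHS.GWb
import Pool.Agent.CHS.GWc
import Pool.Agent.CHS.GWd

/-!
# CHS/ExW: existence of a good set `W` containing `a`

`s = r - 1`.  `gwa`, `gwb` with `T v = {w : c (m v w) = c v}` (its size is that of a colour class, since
`m v` is a bijection), `gwb` with `T v = {w : m v w ∈ E}` (size `|E| ≤ 2 r² ≤ 2 n / r⁴`), `gwc`, `gwd`
exclude at most `5/10` of all `ω : Fin s → V` (`n ≥ 1`), so some `ω` is good for all five.
`W` = the set of the values of `w = Fin.cons a ω`; `w` is injective, so `|W| = r`.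
`indep`, `zdist`, `cinj` from `BasicP`.  `mono`: the `u` with `adj m W v u`, `c u = c v` are `m v (w i)` with
`c (m v (w i)) = c v`: at most 3 indices of `ω` and the index 0.  `edeg` in the same way.  `zdeg`:
`gwc` (`m v (w i) ∈ Zall` gives a witness pair).  `expand`: `m x y ∈ W` iff `m x y = w i` for exactly one
`i`; the index 0 contributes `#{(x,y) ∈ X × Y : m x y = a} ≤ min |X| |Y| ≤ sqrt(|X||Y|)
≤ (1/(2·10^7)) r sqrt(|X||Y|)` for `r ≥ 2·10^7`.
-/

set_option autoImplicit false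

namespace Pool.Agent.CHS
open Finset

private theorem pick {α : Type} [Fintype α] [DecidableEq α] {N : ℝ}
    (hN : (Fintype.card α : ℝ) = N) (hN0 : 0 < N) (B1 B2 B3 B4 B5 : Finset α)
    (h1 : (B1.card : ℝ) ≤ 1 / 10 * N) (h2 : (B2.card : ℝ) ≤ 1 / 10 * N)
    (h3 : (B3.card : ℝ) ≤ 1 / 10 * N) (h4 : (B4.card : ℝ) ≤ 1 / 10 * N)
    (h5 : (B5.card : ℝ) ≤ 1 / 10 * N) :
    ∃ x, x ∉ B1 ∧ x ∉ B2 ∧ x ∉ B3 ∧ x ∉ B4 ∧ x ∉ B5 := by
  by_contra hcon
  push Not at hcon
  have hsub : (univ : Finset α) ⊆ B1 ∪ (B2 ∪ (B3 ∪ (B4 ∪ B5))) := by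
    intro x _
    simp only [mem_union]
    by_contra h
    push Not at h
    exact h.2.2.2.2 (hcon x h.1 h.2.1 h.2.2.1 h.2.2.2.1)
  have hc := card_le_card hsub
  have hc' := hc.trans ((card_union_le _ _).trans (Nat.add_le_add_left ((card_union_le _ _).trans
    (Nat.add_le_add_left ((card_union_le _ _).trans (Nat.add_le_add_left (card_union_le _ _) _)) _))
    _))
  rw [card_univ] at hc'
  have : (Fintype.card α : ℝ) ≤ B1.card + (B2.card + (B3.card + (B4.card + B5.card))) := by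
    exact_mod_cast hc'
  rw [hN] at this
  linarith

private theorem core {V : Type} [Fintype V] [DecidableEq V] (m : SQ V) (c : V → ℕ) (E : Finset V)
    (a : V) {s : ℕ} (ω : Fin s → V) (w : Fin (s + 1) → V) (w0 : w 0 = a)
    (wsucc : ∀ i : Fin s, w i.succ = ω i) (hB : BasicP m c w)
    (h2 : ∀ v, (univ.filter (fun i => c (m.mul v (ω i)) = c v)).card ≤ 3)
    (h3 : ∀ v, (univ.filter (fun i => m.mul v (ω i) ∈ E)).card ≤ 3)
    (h4 : ∀ v, (∀ i, w i ≠ v) → ∀ S : Finset (Fin (s + 1)), (∀ i ∈ S, ∃ j k : Fin (s + 1), j ≠ k ∧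
      m.mul v (w i) = m.mul (w j) (w k)) → S.card ≤ 6)
    (h5 : ∀ X Y : Finset V,
      ((∑ i, ((X ×ˢ Y).filter (fun q => m.mul q.1 q.2 = ω i)).card : ℕ) : ℝ) ≤
          (s : ℝ) / Fintype.card V * (X.card * Y.card)
            + (1 / (2 * 10 ^ 7)) * s * Real.sqrt (X.card * Y.card))
    (hs : (2 * 10 ^ 7 : ℝ) ≤ s + 1) : ∃ W : Finset V, a ∈ W ∧ W.card = s + 1 ∧ GoodW m c E W := by
  obtain ⟨hB1, hB2, hB3⟩ := hB
  have hinj : Function.Injective w := by
    intro i j h
    by_contra hne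
    exact (hB1 i j hne).1 h
  obtain ⟨W, hW⟩ : ∃ W : Finset V, W = univ.image w := ⟨_, rfl⟩
  have hmem : ∀ x, x ∈ W ↔ ∃ i, w i = x := by
    intro x
    rw [hW, mem_image]
    simp
  have hcard : W.card = s + 1 := by
    rw [hW, card_image_of_injective _ hinj, card_univ, Fintype.card_fin]
  refine ⟨W, (hmem a).2 ⟨0, w0⟩, hcard, ?_, ?_, ?_, ?_, ?_, ?_, ?_⟩
  · intro x hx y hy hxy hxyW
    obtain ⟨i, rfl⟩ := (hmem x).1 hx
    obtain ⟨j, rfl⟩ := (hmem y).1 hy
    obtain ⟨k, hk⟩ := (hmem _).1 hxyW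
    exact hB2 i j k (fun h => hxy (by rw [h])) hk.symm
  · intro x hx y hy x' hx' y' hy' hxy hxy' h
    obtain ⟨i, rfl⟩ := (hmem x).1 hx
    obtain ⟨j, rfl⟩ := (hmem y).1 hy
    obtain ⟨k, rfl⟩ := (hmem x').1 hx'
    obtain ⟨l, rfl⟩ := (hmem y').1 hy'
    rcases hB3 i j k l (fun h => hxy (by rw [h])) (fun h => hxy' (by rw [h])) h with
      ⟨h1, h2⟩ | ⟨h1, h2⟩
    · left; rw [h1, h2]; exact ⟨rfl, rfl⟩
    · right; rw [h1, h2]; exact ⟨rfl, rfl⟩
  · intro x hx y hy h
    obtain ⟨i, rfl⟩ := (hmem x).1 hx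
    obtain ⟨j, rfl⟩ := (hmem y).1 hy
    by_contra hne
    exact (hB1 i j (fun h => hne (by rw [h]))).2 h
  · intro v hv
    have hsub : (univ.filter (fun u => adj m W v u ∧ c u = c v)) ⊆
        (univ.filter (fun i : Fin (s + 1) => c (m.mul v (w i)) = c v)).image
          (fun i => m.mul v (w i)) := by
      intro u hu
      rw [mem_filter] at hu
      obtain ⟨-, ⟨-, -, -, hm⟩, hc⟩ := hu
      obtain ⟨i, hi⟩ := (hmem _).1 hm
      rw [mem_image]
      have hu' : m.mul v (w i) = u := by rw [hi, m.inv]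
      exact ⟨i, by rw [mem_filter]; exact ⟨mem_univ _, by rw [hu']; exact hc⟩, hu'⟩
    refine (card_le_card hsub).trans (card_image_le.trans ?_)
    rw [Fin.card_filter_univ_succ']
    have := h2 v
    simp only [wsucc]
    split_ifs <;> omega
  · intro v hv
    have hvw : ∀ i, w i ≠ v := fun i h => hv ((hmem v).2 ⟨i, h⟩)
    classical
    have hsub : (univ.filter (fun u => adj m W v u ∧ u ∈ Zall m W)) ⊆
        (univ.filter (fun i : Fin (s + 1) => ∃ j k : Fin (s + 1), j ≠ k ∧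
          m.mul v (w i) = m.mul (w j) (w k))).image (fun i => m.mul v (w i)) := by
      intro u hu
      rw [mem_filter] at hu
      obtain ⟨-, ⟨-, -, -, hm⟩, hc⟩ := hu
      obtain ⟨i, hi⟩ := (hmem _).1 hm
      rw [mem_image]
      have hu' : m.mul v (w i) = u := by rw [hi, m.inv]
      refine ⟨i, ?_, hu'⟩
      rw [mem_filter]
      refine ⟨mem_univ _, ?_⟩
      unfold Zall Zs at hc
      rw [mem_biUnion] at hc
      obtain ⟨h, hh, hu2⟩ := hc
      rw [mem_image] at hu2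
      obtain ⟨h', hh', hu3⟩ := hu2
      rw [mem_erase] at hh'
      obtain ⟨j, hj⟩ := (hmem _).1 hh
      obtain ⟨k, hk⟩ := (hmem _).1 hh'.2
      refine ⟨j, k, ?_, ?_⟩
      · intro hjk
        apply hh'.1
        rw [← hk, ← hj, hjk]
      · rw [hu', hj, hk, hu3]
    refine (card_le_card hsub).trans (card_image_le.trans ?_)
    refine h4 v hvw _ ?_
    intro i hi
    rw [mem_filter] at hi
    exact hi.2
  · intro v hv
    have hsub : (univ.filter (fun u => adj m W v u ∧ u ∈ E)) ⊆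
        (univ.filter (fun i : Fin (s + 1) => m.mul v (w i) ∈ E)).image
          (fun i => m.mul v (w i)) := by
      intro u hu
      rw [mem_filter] at hu
      obtain ⟨-, ⟨-, -, -, hm⟩, hc⟩ := hu
      obtain ⟨i, hi⟩ := (hmem _).1 hm
      rw [mem_image]
      have hu' : m.mul v (w i) = u := by rw [hi, m.inv]
      exact ⟨i, by rw [mem_filter]; exact ⟨mem_univ _, by rw [hu']; exact hc⟩, hu'⟩
    refine (card_le_card hsub).trans (card_image_le.trans ?_)
    rw [Fin.card_filter_univ_succ']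
    have := h3 v
    simp only [wsucc]
    split_ifs <;> omega
  · intro X Y
    have hsub : ((X ×ˢ Y).filter (fun q => m.mul q.1 q.2 ∈ W)) ⊆
        univ.biUnion (fun i : Fin (s + 1) => (X ×ˢ Y).filter (fun q => m.mul q.1 q.2 = w i)) := by
      intro q hq
      rw [mem_filter] at hq
      obtain ⟨i, hi⟩ := (hmem _).1 hq.2
      rw [mem_biUnion]
      refine ⟨i, mem_univ _, ?_⟩
      rw [mem_filter]
      exact ⟨hq.1, hi.symm⟩
    have h1 := (card_le_card hsub).trans card_biUnion_le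
    rw [Fin.sum_univ_succ] at h1
    simp only [w0, wsucc] at h1
    have ha1 : ((X ×ˢ Y).filter (fun q => m.mul q.1 q.2 = a)).card ≤ X.card := by
      apply card_le_card_of_injOn Prod.fst
      · intro q hq
        rw [mem_coe, mem_filter, mem_product] at hq
        exact hq.1.1
      · intro q hq q' hq' h
        rw [mem_coe, mem_filter] at hq hq'
        have e1 : q.2 = m.mul q.1 a := by rw [← hq.2, m.inv]
        have e2 : q'.2 = m.mul q'.1 a := by rw [← hq'.2, m.inv]
        exact Prod.ext h (by rw [e1, e2, h])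
    have ha2 : ((X ×ˢ Y).filter (fun q => m.mul q.1 q.2 = a)).card ≤ Y.card := by
      apply card_le_card_of_injOn Prod.snd
      · intro q hq
        rw [mem_coe, mem_filter, mem_product] at hq
        exact hq.1.2
      · intro q hq q' hq' h
        rw [mem_coe, mem_filter] at hq hq'
        have e1 : q.1 = m.mul q.2 a := by rw [← hq.2, m.comm q.1 q.2, m.inv]
        have e2 : q'.1 = m.mul q'.2 a := by rw [← hq'.2, m.comm q'.1 q'.2, m.inv]
        exact Prod.ext (by rw [e1, e2, h]) h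
    have hR0 := Real.sqrt_nonneg ((X.card : ℝ) * Y.card)
    have ha3 : (((X ×ˢ Y).filter (fun q => m.mul q.1 q.2 = a)).card : ℝ) ≤
        Real.sqrt ((X.card : ℝ) * Y.card) := by
      apply Real.le_sqrt_of_sq_le
      rw [sq]
      exact mul_le_mul (by exact_mod_cast ha1) (by exact_mod_cast ha2) (Nat.cast_nonneg _)
        (Nat.cast_nonneg _)
    have h5' := h5 X Y
    have h1' : (((X ×ˢ Y).filter (fun q => m.mul q.1 q.2 ∈ W)).card : ℝ) ≤
        (((X ×ˢ Y).filter (fun q => m.mul q.1 q.2 = a)).card : ℝ) +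
          ((∑ i, ((X ×ˢ Y).filter (fun q => m.mul q.1 q.2 = ω i)).card : ℕ) : ℝ) := by
      exact_mod_cast h1
    rw [hcard]
    push_cast at h1' h5' ⊢
    have h6 : (s : ℝ) / Fintype.card V * (X.card * Y.card) ≤
        ((s : ℝ) + 1) / Fintype.card V * (X.card * Y.card) := by
      apply mul_le_mul_of_nonneg_right _ (by positivity)
      apply div_le_div_of_nonneg_right _ (Nat.cast_nonneg _)
      linarith
    have h7 : Real.sqrt ((X.card : ℝ) * Y.card) +
        (1 / (2 * 10 ^ 7)) * s * Real.sqrt ((X.card : ℝ) * Y.card) ≤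
        (1 / 10 ^ 7) * ((s : ℝ) + 1) * Real.sqrt ((X.card : ℝ) * Y.card) := by
      have h8 : (1 : ℝ) + (1 / (2 * 10 ^ 7)) * s ≤ (1 / 10 ^ 7) * ((s : ℝ) + 1) := by
        norm_num at hs ⊢
        linarith
      have := mul_le_mul_of_nonneg_right h8 hR0
      linarith
    linarith

theorem exW : ∃ r0 : ℕ, ∀ r ≥ r0, ∀ (V : Type) [Fintype V] [DecidableEq V],
    r ^ 10 ≤ Fintype.card V → Fintype.card V ≤ 2 * r ^ 10 → ∀ (m : SQ V) (c : V → ℕ),
    (∀ j, (univ.filter (fun v => c v = j)).card * r ^ 4 ≤ 2 * Fintype.card V) →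
    ∀ (E : Finset V), E.card ≤ 2 * r ^ 2 → ∀ a : V,
    ∃ W : Finset V, a ∈ W ∧ W.card = r ∧ GoodW m c E W := by
  obtain ⟨sa, ha⟩ := gwa
  obtain ⟨sb, hb⟩ := gwb
  obtain ⟨sc, hc⟩ := gwc
  obtain ⟨sd, hd⟩ := gwd
  refine ⟨sa + sb + sc + sd + 2 * 10 ^ 7 + 1, ?_⟩
  intro r hr V _ _ hn1 hn2 m c hcl E hE a
  obtain ⟨s, rfl⟩ : ∃ s, r = s + 1 := ⟨r - 1, by omega⟩
  have hn0 : 0 < Fintype.card V := Fintype.card_pos_iff.2 ⟨a⟩
  have hmul : ∀ v, Function.Injective (m.mul v) := by
    intro v x y h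
    rw [← m.inv v x, h, m.inv]
  have t1 : ∀ v, (univ.filter (fun w => c (m.mul v w) = c v)).card * (s + 1) ^ 4 ≤
      2 * Fintype.card V := by
    intro v
    refine le_trans (Nat.mul_le_mul_right _ ?_) (hcl (c v))
    apply card_le_card_of_injOn (m.mul v)
    · intro x hx
      rw [mem_coe, mem_filter] at hx
      simp [hx.2]
    · exact (hmul v).injOn
  have t2 : ∀ v, (univ.filter (fun w => m.mul v w ∈ E)).card * (s + 1) ^ 4 ≤
      2 * Fintype.card V := by
    intro v
    have h1 : (univ.filter (fun w => m.mul v w ∈ E)).card ≤ E.card := by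
      apply card_le_card_of_injOn (m.mul v)
      · intro x hx
        rw [mem_coe, mem_filter] at hx
        exact hx.2
      · exact (hmul v).injOn
    calc (univ.filter (fun w => m.mul v w ∈ E)).card * (s + 1) ^ 4
        ≤ 2 * (s + 1) ^ 2 * (s + 1) ^ 4 := Nat.mul_le_mul_right _ (h1.trans hE)
      _ = 2 * (s + 1) ^ 6 := by ring
      _ ≤ 2 * (s + 1) ^ 10 := Nat.mul_le_mul_left _ (Nat.pow_le_pow_right (by omega) (by norm_num))
      _ ≤ 2 * Fintype.card V := Nat.mul_le_mul_left _ hn1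
  have g1 := ha s (by omega) V hn1 m c a hcl
  have g2 := hb s (by omega) V hn2 (fun v => univ.filter (fun w => c (m.mul v w) = c v)) t1
  have g3 := hb s (by omega) V hn2 (fun v => univ.filter (fun w => m.mul v w ∈ E)) t2
  have g4 := hc s (by omega) V hn1 m a
  have g5 := hd s (by omega) V hn2 m
  have hN : (Fintype.card (Fin s → V) : ℝ) = (Fintype.card V : ℝ) ^ s := by
    rw [Fintype.card_fun, Fintype.card_fin]
    push_cast
    rfl
  have hN0 : (0 : ℝ) < (Fintype.card V : ℝ) ^ s := by positivity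
  obtain ⟨ω, b1, b2, b3, b4, b5⟩ := pick hN hN0 _ _ _ _ _ g1 g2 g3 g4 g5
  simp only [mem_filter, mem_univ, true_and, not_not] at b1 b2 b3 b4 b5
  refine core m c E a ω (Fin.cons a ω) rfl (fun i => rfl) b1 ?_ ?_ ?_ b5 ?_
  · intro v
    have := b2 v
    convert this using 3
  · intro v
    have := b3 v
    convert this using 3
  · intro v hv S hS
    refine le_trans (card_le_card ?_) (b4 v hv)
    intro i hi
    rw [mem_filter]
    exact ⟨mem_univ _, hS i hi⟩
  · have : 2 * 10 ^ 7 ≤ s + 1 := by omega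
    exact_mod_cast this

end Pool.Agent.CHS
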