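import Pool.Agent.CHS.Finish
import Pool.Agent.CHS.Basic

/-!
# CHS/FinApp: from the output of stage 2 to a complete re-decomposition

Let `r = |W|`, `Q = W \ H`, `T = H`, `F a b := adj m W a b ∧ ¬ used H f a b`, `grp t := Q.image (m.mul t)`
(`t ∈ H`), `Z2` := all `m.mul s s'`, `s ≠ s' ∈ Q`.  By `zdist` the third points of the pairs of points
of `W` are distinct, all lie in `Zall m W ⊆ A`, and none lies in `W` (`indep`).
Degrees: a point `u ∉ W` has exactly `#{w ∈ W : m.mul u w ∉ W}` neighbours `v = m.mul u w` in `G_W`,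
that is `r` if `u ∉ Zall`, `r - 2` if `u = m.mul w w'`.  It is covered by `f h` (`h ∈ H`) iff
`u ∉ Zs m W h`, and by `State.disj` different `h` give different partners.  So the number of unused
edges at `u` is `|Q|` minus the number of `s ∈ Q` with `u ∈ Zs m W s` (`unused_card`);
by `Stage2.rest` all of them go to the other side.  Apply `finish` with
`κ = α = β = V` and get `g`, `z₀`.  Put `f' h = f h` for `h ∈ H`; for `s ∈ Q` let `f' s` be the involution
exchanging `b ∈ B` and `g s b ∈ A` and fixing all other points.  Put `z h h' = m.mul h h'` on `H`,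
`z s h = z h s = z₀ s h` (`s ∈ Q`, `h ∈ H`), `z s s' = z₀ s s'` on `Q`.
`Full.fix` for `h ∈ H`: the points `z h w'` (`w' ∈ W`, `w' ≠ h`) are the `m.mul h h'` and the `|Q|` distinct
points `z₀ s h ∈ grp h`, `|grp h| = |Q|`, so together exactly `Zs m W h`.  For `s ∈ Q`: last clause of
`finish`.  `zinj`: by the injectivity clauses and disjointness of the groups, `Z2`.
The colour condition: for `h ∈ H` it is `Stage2.good`; the edges of `f' s`, `s ∈ Q`, are unused edges,
so `c u ≠ c v` by `Stage2.rest`.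
-/

set_option autoImplicit false

namespace Pool.Agent.CHS
open Finset

section FinAppAux

variable {V : Type} [Fintype V] [DecidableEq V] {m : SQ V} {c : V → ℕ} {E W A B H : Finset V}
  {f : V → V → V}

omit [Fintype V] in
/-- pairs of points of `S ⊆ W` -/
private theorem fa_pair {S : Finset V} (hz : ∀ x ∈ S, ∀ y ∈ S, ∀ x' ∈ S, ∀ y' ∈ S, x ≠ y → x' ≠ y' →
    m.mul x y = m.mul x' y' → (x = x' ∧ y = y') ∨ (x = y' ∧ y = x')) {h w : V} (hh : h ∈ S)
    (hw : w ∈ S) (hne : w ≠ h) :
    S.filter (fun t => m.mul h w ∈ Zs m S t) = {h, w} := by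
  ext t
  simp only [Finset.mem_filter, Finset.mem_insert, Finset.mem_singleton, mem_Zs]
  constructor
  · rintro ⟨ht, w', hw', hne', he⟩
    rcases hz t ht w' hw' h hh w hw (Ne.symm hne') (Ne.symm hne) he with ⟨h1, -⟩ | ⟨h1, -⟩
    · exact Or.inl h1
    · exact Or.inr h1
  · rintro (rfl | rfl)
    · exact ⟨hh, w, hw, hne, rfl⟩
    · exact ⟨hw, h, hh, Ne.symm hne, by rw [m.comm]⟩

omit [Fintype V] in
private theorem fa_Zall_card {S : Finset V}
    (hz : ∀ x ∈ S, ∀ y ∈ S, ∀ x' ∈ S, ∀ y' ∈ S, x ≠ y → x' ≠ y' →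
      m.mul x y = m.mul x' y' → (x = x' ∧ y = y') ∨ (x = y' ∧ y = x')) :
    2 * (Zall m S).card + S.card = S.card * S.card := by
  have h1 : ∑ h ∈ S, (Zs m S h).card = ∑ v ∈ Zall m S, (S.filter (fun h => v ∈ Zs m S h)).card := by
    have h2 : ∀ h ∈ S, (Zs m S h).card = ∑ v ∈ Zall m S, if v ∈ Zs m S h then 1 else 0 := by
      intro h hh
      rw [← Finset.sum_filter, Finset.sum_const, smul_eq_mul, mul_one]
      congr 1
      ext v
      simp only [Finset.mem_filter]
      exact ⟨fun hv => ⟨Finset.mem_biUnion.2 ⟨h, hh, hv⟩, hv⟩, fun hv => hv.2⟩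
    rw [Finset.sum_congr rfl h2, Finset.sum_comm]
    refine Finset.sum_congr rfl (fun v _ => ?_)
    rw [Finset.card_filter]
  have h3 : ∑ v ∈ Zall m S, (S.filter (fun h => v ∈ Zs m S h)).card = 2 * (Zall m S).card := by
    have h5 : ∀ v ∈ Zall m S, (S.filter (fun h => v ∈ Zs m S h)).card = 2 := by
      intro v hv
      obtain ⟨h, hh, w, hw, hne, rfl⟩ := (mem_Zall m S v).1 hv
      rw [fa_pair hz hh hw hne, Finset.card_pair (Ne.symm hne)]
    rw [Finset.sum_congr rfl h5, Finset.sum_const, smul_eq_mul, mul_comm]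
  rw [← h3, ← h1]
  have h4 : ∑ h ∈ S, (Zs m S h).card + S.card = ∑ h ∈ S, ((Zs m S h).card + 1) := by
    rw [Finset.sum_add_distrib]; simp
  rw [h4, Finset.sum_congr rfl (fun h hh => Zs_card m S h hh), Finset.sum_const, smul_eq_mul]

private theorem fa_deg (hW : GoodW m c E W) {v : V} (hv : v ∉ W) :
    (univ.filter (fun u => adj m W v u)).card + (W.filter (fun w => v ∈ Zs m W w)).card =
      W.card := by
  by_cases hz : v ∈ Zall m W
  · rw [two_of_mem hW v hz, deg_add_two hW v hz]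
  · have : W.filter (fun h => v ∈ Zs m W h) = ∅ := by
      rw [Finset.filter_eq_empty_iff]
      intro h hh hzz
      exact hz (Finset.mem_biUnion.2 ⟨h, hh, hzz⟩)
    rw [this, deg_eq m W v hv hz]; simp

private theorem fa_adj (hst : State m W H f) {h v : V} (hh : h ∈ H) (hv : v ∉ W)
    (hz : v ∉ Zs m W h) : adj m W v (f h v) := by
  have hm := hst.mat h hh
  have hne : f h v ≠ v := by
    intro he
    rcases (hm.fix v).1 he with h1 | h1
    · exact hv h1
    · exact hz h1
  refine ⟨hv, ?_, hne.symm, hm.edge v hne⟩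
  intro hw
  have h1 := (hm.fix (f h v)).2 (Or.inl hw)
  rw [hm.inv] at h1
  exact hne h1.symm

/-- number of unused edges at a point -/
private theorem fa_unused (hW : GoodW m c E W) (hst : State m W H f) {v : V} (hv : v ∉ W) :
    (univ.filter (fun u => adj m W v u ∧ ¬ used H f v u)).card +
      ((W \ H).filter (fun s => v ∈ Zs m W s)).card = (W \ H).card := by
  have h1 := fa_deg hW hv
  have h2 : (univ.filter (fun u => adj m W v u)).card =
      (univ.filter (fun u => adj m W v u ∧ ¬ used H f v u)).card +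
        (univ.filter (fun u => adj m W v u ∧ used H f v u)).card := by
    rw [← Finset.card_filter_add_card_filter_not (s := univ.filter (fun u => adj m W v u))
      (fun u => ¬ used H f v u)]
    congr 1
    · rw [Finset.filter_filter]
    · rw [Finset.filter_filter]
      congr 1
      ext u
      simp
  have h3 : univ.filter (fun u => adj m W v u ∧ used H f v u) =
      (H.filter (fun h => v ∉ Zs m W h)).image (fun h => f h v) := by
    ext u
    simp only [Finset.mem_filter, Finset.mem_univ, true_and, Finset.mem_image]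
    constructor
    · rintro ⟨ha, h, hh, rfl⟩
      refine ⟨h, ⟨hh, ?_⟩, rfl⟩
      intro hz
      exact ha.2.2.1 (((hst.mat h hh).fix v).2 (Or.inr hz)).symm
    · rintro ⟨h, ⟨hh, hz⟩, rfl⟩
      exact ⟨fa_adj hst hh hv hz, h, hh, rfl⟩
  have h4 : ((H.filter (fun h => v ∉ Zs m W h)).image (fun h => f h v)).card =
      (H.filter (fun h => v ∉ Zs m W h)).card := by
    apply Finset.card_image_of_injOn
    intro h hh h' hh' he
    simp only [Finset.coe_filter, Set.mem_ofPred_eq] at hh hh'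
    by_contra hne
    have := hst.disj h hh.1 h' hh'.1 hne v he
    exact (fa_adj hst hh.1 hv hh.2).2.2.1 this.symm
  have h5 : (H.filter (fun h => v ∉ Zs m W h)).card + (H.filter (fun h => v ∈ Zs m W h)).card =
      H.card := by
    rw [add_comm]
    exact Finset.card_filter_add_card_filter_not (s := H) (fun h => v ∈ Zs m W h)
  have h6 : (W.filter (fun w => v ∈ Zs m W w)).card =
      ((W \ H).filter (fun s => v ∈ Zs m W s)).card + (H.filter (fun h => v ∈ Zs m W h)).card := by
    rw [← Finset.card_union_of_disjoint]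
    · congr 1
      ext t
      simp only [Finset.mem_filter, Finset.mem_union, Finset.mem_sdiff]
      constructor
      · rintro ⟨ht, hz⟩
        by_cases hH : t ∈ H
        · exact Or.inr ⟨hH, hz⟩
        · exact Or.inl ⟨⟨ht, hH⟩, hz⟩
      · rintro (⟨⟨ht, _⟩, hz⟩ | ⟨ht, hz⟩)
        · exact ⟨ht, hz⟩
        · exact ⟨hst.sub ht, hz⟩
    · rw [Finset.disjoint_left]
      intro t ht ht'
      simp only [Finset.mem_filter, Finset.mem_sdiff] at ht ht'
      exact ht.1.2 ht'.1
  have h7 : (W \ H).card + H.card = W.card := Finset.card_sdiff_add_card_eq_card hst.sub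
  rw [h3, h4] at h2
  omega

omit [Fintype V] in
private theorem fa_used_symm (hst : ∀ h ∈ H, ∀ u, f h (f h u) = u) {u v : V} (h : used H f u v) :
    used H f v u := by
  obtain ⟨h, hh, rfl⟩ := h
  exact ⟨h, hh, hst h hh u⟩

omit [Fintype V] in
/-- an injective map between sets of the same size is onto -/
private theorem fa_surj {S T : Finset V} (hc : S.card = T.card) (φ : V → V) (h1 : ∀ s ∈ S, φ s ∈ T)
    (h2 : ∀ s ∈ S, ∀ s' ∈ S, φ s = φ s' → s = s') {t : V} (ht : t ∈ T) : ∃ s ∈ S, φ s = t := by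
  have h3 : S.image φ = T := by
    apply Finset.eq_of_subset_of_card_le
    · intro x hx
      obtain ⟨s, hs, rfl⟩ := Finset.mem_image.1 hx
      exact h1 s hs
    · rw [Finset.card_image_of_injOn (fun s hs s' hs' he => h2 s hs s' hs' he), hc]
  rw [← h3] at ht
  obtain ⟨s, hs, he⟩ := Finset.mem_image.1 ht
  exact ⟨s, hs, he⟩

end FinAppAux

theorem finApp {V : Type} [Fintype V] [DecidableEq V] (m : SQ V) (c : V → ℕ)
    (E W A B H : Finset V) (f : V → V → V) (hW : GoodW m c E W) (hP : Part m W A B)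
    (h2 : Stage2 m c W A B H f) :
    ∃ f' z : V → V → V, Full m W f' z ∧
      ∀ w ∈ W, ∀ u, f' w u ≠ u → ¬ (c (f' w u) = c u ∧ c u = c w) := by
  classical
  rcases isEmpty_or_nonempty V with hV | hV
  · refine ⟨f, f, ⟨?_, ?_, ?_, ?_, ?_, ?_, ?_, ?_⟩, ?_⟩ <;> intro w <;> exact hV.elim w
  have hst := h2.st
  have hHW := hst.sub
  have hinvf : ∀ h ∈ H, ∀ u, f h (f h u) = u := fun h hh => (hst.mat h hh).inv
  set Q : Finset V := W \ H with hQdef
  have hQW : ∀ s ∈ Q, s ∈ W := fun s hs => (Finset.mem_sdiff.1 hs).1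
  have hQH : ∀ s ∈ Q, s ∉ H := fun s hs => (Finset.mem_sdiff.1 hs).2
  have hWQH : ∀ w ∈ W, w ∈ H ∨ w ∈ Q := fun w hw => by
    by_cases h : w ∈ H
    · exact Or.inl h
    · exact Or.inr (Finset.mem_sdiff.2 ⟨hw, h⟩)
  have hzQ : ∀ x ∈ Q, ∀ y ∈ Q, ∀ x' ∈ Q, ∀ y' ∈ Q, x ≠ y → x' ≠ y' →
      m.mul x y = m.mul x' y' → (x = x' ∧ y = y') ∨ (x = y' ∧ y = x') :=
    fun x hx y hy x' hx' y' hy' => hW.zdist x (hQW x hx) y (hQW y hy) x' (hQW x' hx') y' (hQW y' hy')
  have hAB : ∀ v, v ∈ A → v ∉ B := fun v hv => Finset.disjoint_left.1 hP.disj hv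
  have hAW : ∀ v, v ∈ A → v ∉ W := fun v hv => by
    have : v ∈ A ∪ B := Finset.mem_union_left _ hv
    rw [hP.union] at this
    exact (Finset.mem_sdiff.1 this).2
  have hBW : ∀ v, v ∈ B → v ∉ W := fun v hv => by
    have : v ∈ A ∪ B := Finset.mem_union_right _ hv
    rw [hP.union] at this
    exact (Finset.mem_sdiff.1 this).2
  have hall : ∀ v, v ∈ W ∨ v ∈ A ∨ v ∈ B := fun v => by
    by_cases h : v ∈ W
    · exact Or.inl h
    · have : v ∈ A ∪ B := by rw [hP.union]; exact Finset.mem_sdiff.2 ⟨Finset.mem_univ v, h⟩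
      exact Or.inr (Finset.mem_union.1 this)
  have hZA : ∀ h ∈ W, ∀ w ∈ W, w ≠ h → m.mul h w ∈ A := fun h hh w hw hne =>
    hP.zsub ((mem_Zall m W _).2 ⟨h, hh, w, hw, hne, rfl⟩)
  have hneHQ : ∀ t ∈ H, ∀ s ∈ Q, s ≠ t := fun t ht s hs he => hQH s hs (he ▸ ht)
  let grp : V → Finset V := fun t => Q.image (m.mul t)
  let Z2 : Finset V := Zall m Q
  have hgA : ∀ t ∈ H, grp t ⊆ A := by
    intro t ht v hv
    obtain ⟨s, hs, rfl⟩ := Finset.mem_image.1 hv
    exact hZA t (hHW ht) s (hQW s hs) (hneHQ t ht s hs)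
  have hgc : ∀ t ∈ H, (grp t).card = Q.card := fun t _ =>
    Finset.card_image_of_injective _ (mul_inj m t)
  have hgd : ∀ t ∈ H, ∀ t' ∈ H, t ≠ t' → Disjoint (grp t) (grp t') := by
    intro t ht t' ht' hne
    rw [Finset.disjoint_left]
    intro v hv hv'
    obtain ⟨s, hs, rfl⟩ := Finset.mem_image.1 hv
    obtain ⟨s', hs', he⟩ := Finset.mem_image.1 hv'
    rcases hW.zdist t' (hHW ht') s' (hQW s' hs') t (hHW ht) s (hQW s hs)
      (hneHQ t' ht' s' hs').symm (hneHQ t ht s hs).symm he with ⟨h1, -⟩ | ⟨h1, -⟩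
    · exact hne h1.symm
    · exact hneHQ t' ht' s hs h1.symm
  have hZ2A : Z2 ⊆ A := by
    intro v hv
    obtain ⟨h, hh, w, hw, hne, rfl⟩ := (mem_Zall m Q v).1 hv
    exact hZA h (hQW h hh) w (hQW w hw) hne
  have hZ2g : ∀ t ∈ H, Disjoint Z2 (grp t) := by
    intro t ht
    rw [Finset.disjoint_left]
    intro v hv hv'
    obtain ⟨h, hh, w, hw, hne, rfl⟩ := (mem_Zall m Q v).1 hv
    obtain ⟨s', hs', he⟩ := Finset.mem_image.1 hv'
    rcases hW.zdist t (hHW ht) s' (hQW s' hs') h (hQW h hh) w (hQW w hw)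
      (hneHQ t ht s' hs').symm hne.symm he with ⟨h1, -⟩ | ⟨h1, -⟩
    · exact hneHQ t ht h hh h1.symm
    · exact hneHQ t ht w hw h1.symm
  have hcross : ∀ a ∈ A, ∀ v, adj m W a v → ¬ used H f a v → v ∈ B := by
    intro a ha v h3 h4
    rcases (h2.rest a v h3 h4).1 with ⟨-, h5⟩ | ⟨h5, -⟩
    · exact h5
    · exact absurd h5 (hAB a ha)
  have hcross' : ∀ b ∈ B, ∀ v, adj m W b v → ¬ used H f b v → v ∈ A := by
    intro b hb v h3 h4
    rcases (h2.rest b v h3 h4).1 with ⟨h5, -⟩ | ⟨-, h5⟩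
    · exact absurd hb (hAB b h5)
    · exact h5
  -- degrees
  have degA : ∀ a ∈ A, (B.filter (fun b => adj m W a b ∧ ¬ used H f a b)).card +
      (Q.filter (fun s => a ∈ Zs m W s)).card = Q.card := by
    intro a ha
    rw [← fa_unused hW hst (hAW a ha)]
    congr 2
    ext u
    simp only [Finset.mem_filter, Finset.mem_univ, true_and]
    exact ⟨fun h => h.2, fun h => ⟨hcross a ha u h.1 h.2, h⟩⟩
  have degB : ∀ b ∈ B, (A.filter (fun a => adj m W a b ∧ ¬ used H f a b)).card = Q.card := by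
    intro b hb
    have h3 := fa_unused hW hst (hBW b hb)
    have h4 : (Q.filter (fun s => b ∈ Zs m W s)) = ∅ := by
      rw [Finset.filter_eq_empty_iff]
      intro s hs hz
      exact hAB b (Zs_sub hP s (hQW s hs) hz) hb
    rw [h4, Finset.card_empty, add_zero] at h3
    rw [← h3]
    congr 1
    ext u
    simp only [Finset.mem_filter, Finset.mem_univ, true_and]
    constructor
    · rintro ⟨-, h5, h6⟩
      exact ⟨adj_symm m W u b h5, fun h7 => h6 (fa_used_symm hinvf h7)⟩
    · rintro ⟨h5, h6⟩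
      exact ⟨hcross' b hb u h5 h6, adj_symm m W b u h5, fun h7 => h6 (fa_used_symm hinvf h7)⟩
  obtain ⟨g, z₀, g1, g2, g3, z1, z2, z3, z4, gz⟩ := finish A B
    (fun a b => adj m W a b ∧ ¬ used H f a b) Q H grp Z2
    (by rw [hQdef]; exact Finset.sdiff_disjoint) hgA hgc hgd hZ2A hZ2g (fa_Zall_card hzQ) degB
    (by
      intro a ha hg hz
      have h3 := degA a ha
      have h4 : (Q.filter (fun s => a ∈ Zs m W s)) = ∅ := by
        rw [Finset.filter_eq_empty_iff]
        intro s hs hzs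
        obtain ⟨w, hw, hne, rfl⟩ := (mem_Zs m W s a).1 hzs
        rcases hWQH w hw with hwH | hwQ
        · apply hg w hwH
          exact Finset.mem_image.2 ⟨s, hs, m.comm _ _⟩
        · exact hz ((mem_Zall m Q _).2 ⟨s, hs, w, hwQ, hne, rfl⟩)
      rw [h4, Finset.card_empty, add_zero] at h3
      exact h3)
    (by
      intro t ht a ha
      have h3 := degA a (hgA t ht ha)
      obtain ⟨s, hs, rfl⟩ := Finset.mem_image.1 ha
      have h4 : (Q.filter (fun s' => m.mul t s ∈ Zs m W s')) = {s} := by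
        ext s'
        simp only [Finset.mem_filter, Finset.mem_singleton, mem_Zs]
        constructor
        · rintro ⟨hs', w, hw, hne, he⟩
          rcases hW.zdist s' (hQW s' hs') w hw t (hHW ht) s (hQW s hs) hne.symm
            (hneHQ t ht s hs).symm he with ⟨h5, -⟩ | ⟨h5, -⟩
          · exact absurd h5 (hneHQ t ht s' hs')
          · exact h5
        · rintro rfl
          exact ⟨hs, t, hHW ht, (hneHQ t ht s' hs).symm, m.comm _ _⟩
      rw [h4, Finset.card_singleton] at h3
      exact h3)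
    (by
      intro a ha
      have h3 := degA a (hZ2A ha)
      obtain ⟨h, hh, w, hw, hne, rfl⟩ := (mem_Zall m Q a).1 ha
      have h4 : (Q.filter (fun s' => m.mul h w ∈ Zs m W s')) = {h, w} := by
        ext s'
        simp only [Finset.mem_filter, Finset.mem_insert, Finset.mem_singleton, mem_Zs]
        constructor
        · rintro ⟨hs', w', hw', hne', he⟩
          rcases hW.zdist s' (hQW s' hs') w' hw' h (hQW h hh) w (hQW w hw) hne'.symm
            hne.symm he with ⟨h5, -⟩ | ⟨h5, -⟩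
          · exact Or.inl h5
          · exact Or.inr h5
        · rintro (rfl | rfl)
          · exact ⟨hh, w, hQW w hw, hne, rfl⟩
          · exact ⟨hw, h, hQW h hh, hne.symm, m.comm _ _⟩
      rw [h4, Finset.card_pair hne.symm] at h3
      exact h3)
  -- the new matchings
  let fQ : V → V → V := fun s u =>
    if u ∈ B then g s u else if h : ∃ b ∈ B, g s b = u then Classical.choose h else u
  have fQB : ∀ s, ∀ u ∈ B, fQ s u = g s u := fun s u hu => by simp only [fQ, hu, if_true]
  have fQg : ∀ s ∈ Q, ∀ b ∈ B, fQ s (g s b) = b := by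
    intro s hs b hb
    have h3 : g s b ∉ B := hAB _ (g1 s hs b hb).1
    have h4 : ∃ b' ∈ B, g s b' = g s b := ⟨b, hb, rfl⟩
    simp only [fQ, h3, if_false, h4, dif_pos]
    have h5 := Classical.choose_spec h4
    exact g2 s hs _ h5.1 b hb h5.2
  have fQo : ∀ s, ∀ u, u ∉ B → (¬ ∃ b ∈ B, g s b = u) → fQ s u = u := by
    intro s u h3 h4
    simp only [fQ, h3, if_false, h4, dif_neg, not_false_eq_true]
  -- three cases
  have fQc : ∀ s ∈ Q, ∀ u, (u ∈ B ∧ fQ s u = g s u) ∨ (∃ b ∈ B, u = g s b ∧ fQ s u = b) ∨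
      (u ∉ B ∧ (¬ ∃ b ∈ B, g s b = u) ∧ fQ s u = u) := by
    intro s hs u
    by_cases h3 : u ∈ B
    · exact Or.inl ⟨h3, fQB s u h3⟩
    · by_cases h4 : ∃ b ∈ B, g s b = u
      · obtain ⟨b, hb, rfl⟩ := h4
        exact Or.inr (Or.inl ⟨b, hb, rfl, fQg s hs b hb⟩)
      · exact Or.inr (Or.inr ⟨h3, h4, fQo s u h3 h4⟩)
  have fQinv : ∀ s ∈ Q, ∀ u, fQ s (fQ s u) = u := by
    intro s hs u
    rcases fQc s hs u with ⟨h3, h4⟩ | ⟨b, hb, rfl, h4⟩ | ⟨-, -, h4⟩
    · rw [h4, fQg s hs u h3]
    · rw [h4, fQB s b hb]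
    · rw [h4, h4]
  have fQadj : ∀ s ∈ Q, ∀ u, fQ s u ≠ u → adj m W u (fQ s u) ∧ ¬ used H f u (fQ s u) := by
    intro s hs u hne
    rcases fQc s hs u with ⟨h3, h4⟩ | ⟨b, hb, rfl, h4⟩ | ⟨-, -, h4⟩
    · rw [h4]
      have h5 := (g1 s hs u h3).2
      exact ⟨adj_symm m W _ _ h5.1, fun h7 => h5.2 (fa_used_symm hinvf h7)⟩
    · rw [h4]
      exact (g1 s hs b hb).2
    · exact absurd h4 hne
  let f' : V → V → V := fun w u => if w ∈ H then f w u else fQ w u
  have f'H : ∀ w ∈ H, ∀ u, f' w u = f w u := fun w hw u => by simp only [f', hw, if_true]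
  have f'Q : ∀ w ∈ Q, ∀ u, f' w u = fQ w u := fun w hw u => by
    simp only [f', hQH w hw, if_false]
  let z : V → V → V := fun w w' =>
    if w ∈ H then (if w' ∈ H then m.mul w w' else z₀ w' w) else z₀ w w'
  have zHH : ∀ w ∈ H, ∀ w' ∈ H, z w w' = m.mul w w' := fun w hw w' hw' => by
    simp only [z, hw, hw', if_true]
  have zHQ : ∀ w ∈ H, ∀ w' ∈ Q, z w w' = z₀ w' w := fun w hw w' hw' => by
    simp only [z, hw, hQH w' hw', if_true, if_false]
  have zQ : ∀ w ∈ Q, ∀ w', z w w' = z₀ w w' := fun w hw w' => by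
    simp only [z, hQH w hw, if_false]
  have hz0A : ∀ s ∈ Q, ∀ w ∈ W, w ≠ s → z₀ s w ∈ A := by
    intro s hs w hw hne
    rcases hWQH w hw with h3 | h3
    · exact hgA w h3 (z1 s hs w h3)
    · exact hZ2A (z2 s hs w h3 hne.symm).1
  have hQT : ∀ w, w ∈ Q ∪ H ↔ w ∈ W := by
    intro w
    rw [Finset.mem_union]
    constructor
    · rintro (h | h)
      · exact hQW w h
      · exact hHW h
    · intro h
      exact (hWQH w h).symm
  refine ⟨f', z, ⟨?_, ?_, ?_, ?_, ?_, ?_, ?_, ?_⟩, ?_⟩
  · -- inv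
    intro w hw u
    rcases hWQH w hw with h3 | h3
    · rw [f'H w h3, f'H w h3, hinvf w h3]
    · rw [f'Q w h3, f'Q w h3, fQinv w h3]
  · -- fix
    intro w hw u
    rcases hWQH w hw with h3 | h3
    · rw [f'H w h3, (hst.mat w h3).fix u]
      apply or_congr_right
      rw [mem_Zs]
      constructor
      · rintro ⟨w', hw', hne, he⟩
        rcases hWQH w' hw' with h4 | h4
        · exact ⟨w', hw', hne, by rw [zHH w h3 w' h4, he]⟩
        · have h5 : u ∈ grp w := Finset.mem_image.2 ⟨w', h4, he⟩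
          obtain ⟨s, hs, hes⟩ := fa_surj (hgc w h3).symm (fun s => z₀ s w)
            (fun s hs => z1 s hs w h3) (fun s hs s' hs' he' => z3 s hs s' hs' w h3 he') h5
          exact ⟨s, hQW s hs, hneHQ w h3 s hs, by rw [zHQ w h3 s hs]; exact hes⟩
      · rintro ⟨w', hw', hne, he⟩
        rcases hWQH w' hw' with h4 | h4
        · rw [zHH w h3 w' h4] at he
          exact ⟨w', hw', hne, he⟩
        · rw [zHQ w h3 w' h4] at he
          have h5 := z1 w' h4 w h3
          rw [he] at h5
          obtain ⟨s, hs, hes⟩ := Finset.mem_image.1 h5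
          exact ⟨s, hQW s hs, hneHQ w h3 s hs, hes⟩
    · rw [f'Q w h3]
      rcases hall u with hu | hu | hu
      · refine ⟨fun _ => Or.inl hu, fun _ => ?_⟩
        apply fQo
        · intro hb; exact hBW u hb hu
        · rintro ⟨b, hb, he⟩
          exact hAW _ (g1 w h3 b hb).1 (he ▸ hu)
      · constructor
        · intro he
          right
          have h4 : ¬ ∃ b ∈ B, g w b = u := by
            rintro ⟨b, hb, rfl⟩
            rw [fQg w h3 b hb] at he
            exact hAB _ hu (he ▸ hb)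
          have h5 := (not_congr (gz w h3 u hu)).1 h4
          rw [not_not] at h5
          obtain ⟨t, ht, hne, het⟩ := h5
          exact ⟨t, (hQT t).1 ht, hne, by rw [zQ w h3]; exact het⟩
        · rintro (h4 | ⟨t, ht, hne, het⟩)
          · exact absurd h4 (hAW u hu)
          · rw [zQ w h3] at het
            apply fQo _ _ (hAB u hu)
            intro h5
            exact (gz w h3 u hu).1 h5 ⟨t, (hQT t).2 ht, hne, het⟩
      · constructor
        · intro he
          rw [fQB w u hu] at he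
          exact absurd hu (hAB u (he ▸ (g1 w h3 u hu).1))
        · rintro (h4 | ⟨t, ht, hne, het⟩)
          · exact absurd h4 (hBW u hu)
          · rw [zQ w h3] at het
            exact absurd hu (hAB u (het ▸ hz0A w h3 t ht hne))
  · -- edge
    intro w hw u hne
    rcases hWQH w hw with h3 | h3
    · rw [f'H w h3] at hne ⊢
      exact (hst.mat w h3).edge u hne
    · rw [f'Q w h3] at hne ⊢
      exact (fQadj w h3 u hne).1.2.2.2
  · -- disj
    intro w hw w' hw' hne u he
    by_contra hcon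
    rcases hWQH w hw with h3 | h3 <;> rcases hWQH w' hw' with h4 | h4
    · rw [f'H w h3] at he hcon
      rw [f'H w' h4] at he
      exact hcon (hst.disj w h3 w' h4 hne u he)
    · rw [f'H w h3] at he hcon
      rw [f'Q w' h4] at he
      have h5 := (fQadj w' h4 u (by rw [← he]; exact hcon)).2
      exact h5 ⟨w, h3, he⟩
    · rw [f'Q w h3] at he hcon
      rw [f'H w' h4] at he
      have h5 := (fQadj w h3 u hcon).2
      exact h5 ⟨w', h4, he.symm⟩
    · rw [f'Q w h3] at he hcon
      rw [f'Q w' h4] at he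
      rcases fQc w h3 u with ⟨h5, h6⟩ | ⟨b, hb, hu, h6⟩ | ⟨-, -, h6⟩
      · rw [h6, fQB w' u h5] at he
        exact hne (g3 w h3 w' h4 u h5 he)
      · rcases fQc w' h4 u with ⟨h5, -⟩ | ⟨b', hb', hu', h6'⟩ | ⟨h5, -, h6'⟩
        · rw [hu] at h5
          exact hAB _ (g1 w h3 b hb).1 h5
        · rw [h6, h6'] at he
          subst he
          rw [hu] at hu'
          exact hne (g3 w h3 w' h4 b hb hu')
        · rw [h6, h6'] at he
          rw [he] at hb
          exact h5 hb
      · exact hcon h6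
  · -- cover
    intro u v hadj
    by_cases hus : used H f u v
    · obtain ⟨h, hh, he⟩ := hus
      exact ⟨h, hHW hh, by rw [f'H h hh]; exact he⟩
    · have key : ∀ a ∈ A, ∀ b ∈ B, adj m W a b → ¬ used H f a b → ∃ s ∈ Q, g s b = a := by
        intro a ha b hb h5 h6
        exact fa_surj (degB b hb).symm (fun s => g s b)
          (fun s hs => Finset.mem_filter.2 (g1 s hs b hb))
          (fun s hs s' hs' he' => g3 s hs s' hs' b hb he')
          (Finset.mem_filter.2 ⟨ha, h5, h6⟩)
      rcases (h2.rest u v hadj hus).1 with ⟨hu, hv⟩ | ⟨hu, hv⟩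
      · obtain ⟨s, hs, he⟩ := key u hu v hv hadj hus
        refine ⟨s, hQW s hs, ?_⟩
        rw [f'Q s hs, ← he, fQg s hs v hv]
      · obtain ⟨s, hs, he⟩ := key v hv u hu (adj_symm m W u v hadj)
          (fun h7 => hus (fa_used_symm hinvf h7))
        refine ⟨s, hQW s hs, ?_⟩
        rw [f'Q s hs, fQB s u hu, he]
  · -- zsymm
    intro w hw w' hw' hne
    rcases hWQH w hw with h3 | h3 <;> rcases hWQH w' hw' with h4 | h4
    · rw [zHH w h3 w' h4, zHH w' h4 w h3, m.comm]
    · rw [zHQ w h3 w' h4, zQ w' h4]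
    · rw [zQ w h3, zHQ w' h4 w h3]
    · rw [zQ w h3, zQ w' h4]
      exact (z2 w h3 w' h4 hne).2
  · -- zinj
    intro w hw w1 hw1 w2 hw2 hne1 hne2 he
    rcases hWQH w hw with h3 | h3
    · rcases hWQH w1 hw1 with h4 | h4 <;> rcases hWQH w2 hw2 with h5 | h5
      · rw [zHH w h3 w1 h4, zHH w h3 w2 h5] at he
        exact mul_inj m w he
      · exfalso
        rw [zHH w h3 w1 h4, zHQ w h3 w2 h5] at he
        have h6 := z1 w2 h5 w h3
        rw [← he] at h6
        obtain ⟨s, hs, hes⟩ := Finset.mem_image.1 h6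
        exact hneHQ w1 h4 s hs (mul_inj m w hes)
      · exfalso
        rw [zHQ w h3 w1 h4, zHH w h3 w2 h5] at he
        have h6 := z1 w1 h4 w h3
        rw [he] at h6
        obtain ⟨s, hs, hes⟩ := Finset.mem_image.1 h6
        exact hneHQ w2 h5 s hs (mul_inj m w hes)
      · rw [zHQ w h3 w1 h4, zHQ w h3 w2 h5] at he
        exact z3 w1 h4 w2 h5 w h3 he
    · rw [zQ w h3, zQ w h3] at he
      rcases hWQH w1 hw1 with h4 | h4 <;> rcases hWQH w2 hw2 with h5 | h5
      · by_contra hne
        have h6 := z1 w h3 w1 h4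
        have h7 := z1 w h3 w2 h5
        rw [← he] at h7
        exact Finset.disjoint_left.1 (hgd w1 h4 w2 h5 hne) h6 h7
      · exfalso
        have h6 := z1 w h3 w1 h4
        have h7 := (z2 w h3 w2 h5 hne2.symm).1
        rw [← he] at h7
        exact Finset.disjoint_left.1 (hZ2g w1 h4) h7 h6
      · exfalso
        have h6 := z1 w h3 w2 h5
        have h7 := (z2 w h3 w1 h4 hne1.symm).1
        rw [he] at h7
        exact Finset.disjoint_left.1 (hZ2g w2 h5) h7 h6
      · rcases z4 w h3 w1 h4 w h3 w2 h5 hne1.symm hne2.symm he with ⟨-, h6⟩ | ⟨h6, -⟩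
        · exact h6
        · exact absurd h6.symm hne2
  · -- zout
    intro w hw w' hw' hne
    rcases hWQH w hw with h3 | h3
    · rcases hWQH w' hw' with h4 | h4
      · rw [zHH w h3 w' h4]
        exact hW.indep w hw w' hw' hne
      · rw [zHQ w h3 w' h4]
        exact hAW _ (hz0A w' h4 w hw hne)
    · rw [zQ w h3]
      exact hAW _ (hz0A w h3 w' hw' hne.symm)
  · -- colours
    intro w hw u hne
    rcases hWQH w hw with h3 | h3
    · rw [f'H w h3] at hne ⊢
      exact h2.good w h3 u hne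
    · rw [f'Q w h3] at hne ⊢
      obtain ⟨h4, h5⟩ := fQadj w h3 u hne
      rintro ⟨h6, -⟩
      exact (h2.rest u _ h4 h5).2 h6.symm

end Pool.Agent.CHS
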