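import Mathlib

/-!
# CHS/Split: an even splitting into two halves of exactly equal size

Pair up the points of `S` arbitrarily (`|S| = 2k`, pairs `(x_i, y_i)`, `i : Fin k`), choose
`ω : Fin k → Bool` uniformly and put `x_i` (if `ω i`) or `y_i` (if not) into `A`.
For fixed `v`: a pair with both points in `N v` contributes exactly 1 to `|N v ∩ A|`, a pair with
exactly one point in `N v` contributes 0 or 1 with probability 1/2.  So
`|N v ∩ A| - |N v ∩ S| / 2` is a sum of at most `r` independent random variables `± 1/2`, and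
`E exp(λ·) = cosh(λ/2)^k' ≤ exp(λ² r / 8)` (`k' ≤ r`), whence
`P(|·| > ε r) ≤ 2 exp(-λ ε r + λ² r / 8) = 2 exp(-2 ε² r)` (`λ = 4 ε`).
The sum over the at most `2 r^10` points `v` is `< 1` for large `r`.
-/

set_option autoImplicit false

namespace Pool.Agent.CHS
open Finset

/-- exponential moment of a sum of independent symmetric variables -/
private theorem moment {k : ℕ} (d : Fin k → ℝ) (lam R : ℝ) (hd : ∑ i, d i ^ 2 ≤ R) :
    ∑ ω : Fin k → Bool, Real.exp (lam * ∑ i, (if ω i then d i / 2 else -(d i / 2))) ≤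
      2 ^ k * Real.exp (lam ^ 2 * R / 8) := by
  have h1 : ∀ ω : Fin k → Bool, Real.exp (lam * ∑ i, (if ω i then d i / 2 else -(d i / 2))) =
      ∏ i, Real.exp (lam * (if ω i then d i / 2 else -(d i / 2))) := by
    intro ω
    rw [mul_sum, Real.exp_sum]
  have h2 : ∑ ω : Fin k → Bool, ∏ i, Real.exp (lam * (if ω i then d i / 2 else -(d i / 2))) =
      ∏ i, ∑ b : Bool, Real.exp (lam * (if b then d i / 2 else -(d i / 2))) := by
    rw [Finset.prod_univ_sum, Fintype.piFinset_univ]
  rw [sum_congr rfl (fun ω _ => h1 ω), h2]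
  have h3 : ∀ i, ∑ b : Bool, Real.exp (lam * (if b then d i / 2 else -(d i / 2))) ≤
      2 * Real.exp (lam ^ 2 / 8 * d i ^ 2) := by
    intro i
    have h4 := Real.cosh_le_exp_half_sq (lam * (d i / 2))
    rw [Real.cosh_eq] at h4
    have h5 : (lam * (d i / 2)) ^ 2 / 2 = lam ^ 2 / 8 * d i ^ 2 := by ring
    rw [h5] at h4
    rw [Fintype.sum_bool]
    simp only [if_true, Bool.false_eq_true, if_false]
    have h6 : lam * -(d i / 2) = -(lam * (d i / 2)) := by ring
    rw [h6]
    linarith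
  calc ∏ i, ∑ b : Bool, Real.exp (lam * (if b then d i / 2 else -(d i / 2))) ≤
        ∏ i : Fin k, 2 * Real.exp (lam ^ 2 / 8 * d i ^ 2) :=
        prod_le_prod (fun i _ => sum_nonneg fun b _ => (Real.exp_pos _).le) (fun i _ => h3 i)
    _ = 2 ^ k * Real.exp (lam ^ 2 / 8 * ∑ i, d i ^ 2) := by
        rw [prod_mul_distrib, prod_const, card_univ, Fintype.card_fin, ← Real.exp_sum, ← mul_sum]
    _ ≤ 2 ^ k * Real.exp (lam ^ 2 * R / 8) := by
        apply mul_le_mul_of_nonneg_left _ (by positivity)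
        apply Real.exp_le_exp.mpr
        have h7 : 0 ≤ lam ^ 2 / 8 := by positivity
        nlinarith

theorem split (ε : ℝ) (hε : 0 < ε) : ∃ r0 : ℕ, ∀ r ≥ r0, ∀ (V : Type) [Fintype V]
    [DecidableEq V], Fintype.card V ≤ 2 * r ^ 10 → ∀ S : Finset V, Even S.card →
    ∀ (N : V → Finset V), (∀ v, (N v).card ≤ r) →
    ∃ A : Finset V, A ⊆ S ∧ 2 * A.card = S.card ∧
      ∀ v, |((N v ∩ A).card : ℝ) - ((N v ∩ S).card : ℝ) / 2| ≤ ε * r := by
  have hb : 0 < 2 * ε ^ 2 := by positivity
  have h1 := (isLittleO_pow_exp_pos_mul_atTop (k := 10) hb).bound (show (0 : ℝ) < 1 / 5 by norm_num)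
  have h2 := (tendsto_natCast_atTop_atTop (R := ℝ)).eventually h1
  obtain ⟨r0, hr0⟩ := Filter.eventually_atTop.mp h2
  refine ⟨r0, ?_⟩
  intro r hr V _ _ hV S hS N hN
  have hr1 := hr0 r hr
  rw [Real.norm_of_nonneg (by positivity), Real.norm_of_nonneg (Real.exp_pos _).le] at hr1
  obtain ⟨k, hk⟩ := hS
  have hcard : Fintype.card (Fin k × Bool) = Fintype.card S := by
    rw [Fintype.card_prod, Fintype.card_fin, Fintype.card_bool, Fintype.card_coe, hk]
    ring
  obtain ⟨e⟩ : Nonempty (Fin k × Bool ≃ S) := ⟨Fintype.equivOfCardEq hcard⟩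
  obtain ⟨x, hx⟩ : ∃ x : Fin k × Bool → V, ∀ p, x p = (e p : V) := ⟨_, fun _ => rfl⟩
  have hxinj : Function.Injective x := by
    intro p p' h
    rw [hx, hx] at h
    exact e.injective (Subtype.ext h)
  have hxS : ∀ p, x p ∈ S := fun p => by
    rw [hx]
    exact (e p).2
  have hxsurj : ∀ v ∈ S, ∃ p, x p = v := fun v hv => ⟨e.symm ⟨v, hv⟩, by
    rw [hx, Equiv.apply_symm_apply]⟩
  obtain ⟨A, hA⟩ : ∃ A : (Fin k → Bool) → Finset V, ∀ ω, A ω = univ.image fun i => x (i, ω i) :=
    ⟨_, fun _ => rfl⟩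
  have hinjω : ∀ ω : Fin k → Bool, Function.Injective fun i => x (i, ω i) := by
    intro ω i j h
    have := hxinj h
    simp only [Prod.mk.injEq] at this
    exact this.1
  have hNA : ∀ v ω, ((N v ∩ A ω).card : ℝ) = ∑ i, if x (i, ω i) ∈ N v then (1 : ℝ) else 0 := by
    intro v ω
    have h3 : N v ∩ A ω = (univ.filter fun i => x (i, ω i) ∈ N v).image fun i => x (i, ω i) := by
      ext u
      rw [mem_inter, hA, mem_image, mem_image]
      constructor
      · rintro ⟨hu, i, -, rfl⟩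
        exact ⟨i, by rw [mem_filter]; exact ⟨mem_univ _, hu⟩, rfl⟩
      · rintro ⟨i, hi, rfl⟩
        rw [mem_filter] at hi
        exact ⟨hi.2, i, mem_univ _, rfl⟩
    rw [h3, card_image_of_injective _ (hinjω ω), ← Finset.sum_boole]
  have hNS : ∀ v, ((N v ∩ S).card : ℝ) = ∑ i : Fin k, ((if x (i, true) ∈ N v then (1 : ℝ) else 0) +
      (if x (i, false) ∈ N v then (1 : ℝ) else 0)) := by
    intro v
    have h3 : N v ∩ S = (univ.filter fun p => x p ∈ N v).image x := by
      ext u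
      rw [mem_inter, mem_image]
      constructor
      · rintro ⟨hu, huS⟩
        obtain ⟨p, rfl⟩ := hxsurj u huS
        exact ⟨p, by rw [mem_filter]; exact ⟨mem_univ _, hu⟩, rfl⟩
      · rintro ⟨p, hp, rfl⟩
        rw [mem_filter] at hp
        exact ⟨hp.2, hxS p⟩
    rw [h3, card_image_of_injective _ hxinj, ← Finset.sum_boole, Fintype.sum_prod_type]
    apply sum_congr rfl
    intro i _
    rw [Fintype.sum_bool]
  obtain ⟨d, hd⟩ : ∃ d : V → Fin k → ℝ, ∀ v i, d v i = (if x (i, true) ∈ N v then (1 : ℝ) else 0) -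
      (if x (i, false) ∈ N v then (1 : ℝ) else 0) := ⟨_, fun _ _ => rfl⟩
  have hD : ∀ v ω, ((N v ∩ A ω).card : ℝ) - ((N v ∩ S).card : ℝ) / 2 =
      ∑ i, (if ω i then d v i / 2 else -(d v i / 2)) := by
    intro v ω
    rw [hNA, hNS, sum_div, ← sum_sub_distrib]
    apply sum_congr rfl
    intro i _
    rw [hd]
    cases ω i
    · simp only [Bool.false_eq_true, if_false]
      ring
    · simp only [if_true]
      ring
  have hdr : ∀ v, ∑ i, d v i ^ 2 ≤ r := by
    intro v
    calc ∑ i, d v i ^ 2 ≤ ∑ i : Fin k, ((if x (i, true) ∈ N v then (1 : ℝ) else 0) +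
          (if x (i, false) ∈ N v then (1 : ℝ) else 0)) := by
          apply sum_le_sum
          intro i _
          rw [hd]
          split_ifs <;> norm_num
      _ = ((N v ∩ S).card : ℝ) := (hNS v).symm
      _ ≤ r := by exact_mod_cast (card_le_card inter_subset_left).trans (hN v)
  -- the total exponential moment
  obtain ⟨D, hDd⟩ : ∃ D : V → (Fin k → Bool) → ℝ, ∀ v ω, D v ω =
      ∑ i, (if ω i then d v i / 2 else -(d v i / 2)) := ⟨_, fun _ _ => rfl⟩
  have hm : ∀ v (lam : ℝ), ∑ ω : Fin k → Bool, Real.exp (lam * D v ω) ≤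
      2 ^ k * Real.exp (lam ^ 2 * r / 8) := by
    intro v lam
    simp only [hDd]
    exact moment (d v) lam r (hdr v)
  have htot : ∑ ω : Fin k → Bool, ∑ v, (Real.exp (4 * ε * D v ω) + Real.exp (-(4 * ε) * D v ω)) ≤
      ∑ _ω : Fin k → Bool, (4 * r ^ 10 * Real.exp (2 * ε ^ 2 * r)) := by
    rw [sum_comm]
    calc ∑ v, ∑ ω : Fin k → Bool, (Real.exp (4 * ε * D v ω) + Real.exp (-(4 * ε) * D v ω)) ≤
          ∑ _v : V, 2 * (2 ^ k * Real.exp (2 * ε ^ 2 * r)) := by
          apply sum_le_sum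
          intro v _
          rw [sum_add_distrib]
          have h3 := hm v (4 * ε)
          have h4 := hm v (-(4 * ε))
          rw [show (4 * ε) ^ 2 * (r : ℝ) / 8 = 2 * ε ^ 2 * r by ring] at h3
          rw [show (-(4 * ε)) ^ 2 * (r : ℝ) / 8 = 2 * ε ^ 2 * r by ring] at h4
          linarith
      _ = (Fintype.card V : ℝ) * (2 * (2 ^ k * Real.exp (2 * ε ^ 2 * r))) := by
          rw [sum_const, card_univ, nsmul_eq_mul]
      _ ≤ (2 * (r : ℝ) ^ 10) * (2 * (2 ^ k * Real.exp (2 * ε ^ 2 * r))) := by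
          apply mul_le_mul_of_nonneg_right _ (by positivity)
          exact_mod_cast hV
      _ = _ := by
          rw [sum_const, card_univ, Fintype.card_fun, Fintype.card_bool, Fintype.card_fin,
            nsmul_eq_mul]
          push_cast
          ring
  obtain ⟨ω, -, hω⟩ := exists_le_of_sum_le univ_nonempty htot
  have hlt : 4 * (r : ℝ) ^ 10 * Real.exp (2 * ε ^ 2 * r) ≤ Real.exp (4 * ε * (ε * r)) := by
    have h3 : Real.exp (4 * ε * (ε * r)) = Real.exp (2 * ε ^ 2 * r) * Real.exp (2 * ε ^ 2 * r) := by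
      rw [← Real.exp_add]
      congr 1
      ring
    rw [h3]
    have h4 := Real.exp_pos (2 * ε ^ 2 * (r : ℝ))
    apply mul_le_mul_of_nonneg_right _ h4.le
    linarith
  refine ⟨A ω, ?_, ?_, ?_⟩
  · intro u hu
    rw [hA, mem_image] at hu
    obtain ⟨i, -, rfl⟩ := hu
    exact hxS _
  · rw [hA, card_image_of_injective _ (hinjω ω), card_univ, Fintype.card_fin, hk]
    ring
  · intro v
    rw [hD, ← hDd]
    have h3 : Real.exp (4 * ε * D v ω) + Real.exp (-(4 * ε) * D v ω) ≤ Real.exp (4 * ε * (ε * r)) := by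
      refine le_trans ?_ (hω.trans hlt)
      exact single_le_sum (f := fun v => Real.exp (4 * ε * D v ω) + Real.exp (-(4 * ε) * D v ω))
        (fun v _ => by positivity) (mem_univ v)
    have h4 := Real.exp_pos (4 * ε * D v ω)
    have h5 := Real.exp_pos (-(4 * ε) * D v ω)
    have h6 : 4 * ε * D v ω ≤ 4 * ε * (ε * r) := Real.exp_le_exp.mp (by linarith)
    have h7 : -(4 * ε) * D v ω ≤ 4 * ε * (ε * r) := Real.exp_le_exp.mp (by linarith)
    have h8 : 0 < 4 * ε := by positivity
    rw [abs_le]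
    constructor
    · have : 4 * ε * (-(ε * r)) ≤ 4 * ε * D v ω := by linarith
      exact le_of_mul_le_mul_left this h8
    · exact le_of_mul_le_mul_left h6 h8

end Pool.Agent.CHS
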