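import Pool.Agent.CHS.Basic
import Pool.Agent.CHS.Split

/-!
# CHS/PartEx: the partition `V \ W = A ∪ B`

`n = card V` is odd: `m.mul x` is an involution of `V` with the only fixed point `x`.
`r = |W|`, `|Zall| = r(r-1)/2`.  `E` has `2 r²` points, so `E \ (W ∪ Zall)` has at least
`2 r² - r - r(r-1)/2 ≥ (r-1)(r-2)/2` points: let `E₀` be a subset of it with exactly
`(r-1)(r-2)/2` points.  `S = V \ W \ Zall \ E₀` has `n - r - (r-1)²` points, an even number
(`r + (r-1)² = r² - r + 1` is odd).  Take `A'` from `split` with `ε = 10⁻¹⁴`, `N v` = the neighbours of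
`v` in `G_W`.  `A = Zall ∪ A'`, `B = E₀ ∪ (S \ A')`.  Then
`|A| - |B| = r(r-1)/2 - (r-1)(r-2)/2 = r - 1`.
For `v ∉ W` the number of neighbours is `r` or `r - 2`, at most 6 are in `Zall` and at most 4 in
`E₀ ⊆ E` (`zdeg`, `edeg`), so `|N v ∩ A|`, `|N v ∩ B|` differ from `r/2` by at most
`12 + 10⁻¹⁴ r ≤ 10⁻¹³ r`.
-/

set_option autoImplicit false

namespace Pool.Agent.CHS
open Finset

private theorem odd_cardPE {V : Type} [Fintype V] [DecidableEq V] (m : SQ V) (x : V) :
    Fintype.card V % 2 = 1 := by
  classical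
  let f : Function.End V := m.mul x
  have hf : f ^ 2 ^ 1 = 1 := by
    rw [pow_one, pow_two]
    funext y
    exact m.inv x y
  have : Fact (Nat.Prime 2) := ⟨Nat.prime_two⟩
  have h1 := Equiv.Perm.card_fixedPoints_modEq hf
  have h2 : Fintype.card (Function.fixedPoints f) = 1 := by
    rw [Fintype.card_eq_one_iff]
    refine ⟨⟨x, m.idem x⟩, ?_⟩
    rintro ⟨y, hy⟩
    apply Subtype.ext
    have h3 : m.mul x y = y := hy
    have h4 := m.inv y x
    rw [m.comm y x, h3, m.idem] at h4
    exact h4
  rw [h2] at h1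
  exact h1

theorem partEx : ∃ r0 : ℕ, ∀ r ≥ r0, ∀ (V : Type) [Fintype V] [DecidableEq V] (m : SQ V)
    (c : V → ℕ) (E W : Finset V), W.card = r → r ^ 10 ≤ Fintype.card V →
    Fintype.card V ≤ 2 * r ^ 10 → E.card = 2 * r ^ 2 → GoodW m c E W →
    ∃ A B : Finset V, Part m W A B := by
  obtain ⟨r1, hr1⟩ := split (1 / 10 ^ 14) (by positivity)
  refine ⟨max r1 (2 * 10 ^ 14), ?_⟩
  intro r hr V _ _ m c E W hWr hn1 hn2 hE hW
  have hr1' : r1 ≤ r := le_trans (le_max_left _ _) hr
  have hr2 : 2 * 10 ^ 14 ≤ r := le_trans (le_max_right _ _) hr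
  have hz := Zall_card hW
  rw [hWr] at hz
  obtain ⟨z, hzd⟩ : ∃ z, z = (Zall m W).card := ⟨_, rfl⟩
  rw [← hzd] at hz
  have hWne : W.Nonempty := by
    rw [← card_pos, hWr]
    omega
  obtain ⟨x, hx⟩ := hWne
  have hodd := odd_cardPE m x
  have hzr : r ≤ z + 1 := by nlinarith
  have hWZ : Disjoint W (Zall m W) := by
    rw [disjoint_left]
    intro v hv hv'
    exact Zall_notin hW v hv' hv
  have hWZc : (W ∪ Zall m W).card = r + z := by
    rw [card_union_of_disjoint hWZ, hWr, ← hzd]
  have hEc : z + 1 - r ≤ (E \ (W ∪ Zall m W)).card := by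
    have h1 := le_card_sdiff (W ∪ Zall m W) E
    rw [hWZc, hE] at h1
    refine le_trans ?_ h1
    have h2 : r ^ 2 = r * r := by ring
    have h3 : z ≤ r * r := by omega
    have h4 : 4 * z + 2 * r = 2 * (r * r) := by omega
    rw [h2]
    omega
  obtain ⟨E0, hE0, hE0c⟩ := exists_subset_card_eq hEc
  have hE0E : E0 ⊆ E := hE0.trans sdiff_subset
  have hE0W : ∀ v ∈ E0, v ∉ W ∧ v ∉ Zall m W := by
    intro v hv
    have h1 := (mem_sdiff.1 (hE0 hv)).2
    rw [mem_union, not_or] at h1
    exact h1
  obtain ⟨S, hSd⟩ : ∃ S : Finset V, S = univ \ ((W ∪ Zall m W) ∪ E0) := ⟨_, rfl⟩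
  have hSm : ∀ v, v ∈ S ↔ (v ∉ W ∧ v ∉ Zall m W ∧ v ∉ E0) := by
    intro v
    rw [hSd, mem_sdiff, mem_union, mem_union, not_or, not_or]
    simp only [mem_univ, true_and]
    tauto
  have hdisj : Disjoint (W ∪ Zall m W) E0 := by
    rw [disjoint_left]
    intro v hv hv'
    have h1 := hE0W v hv'
    rcases mem_union.1 hv with h2 | h2
    · exact h1.1 h2
    · exact h1.2 h2
  have hSc : S.card + (2 * z + 1) = Fintype.card V := by
    have h1 : S.card + ((W ∪ Zall m W) ∪ E0).card = Fintype.card V := by
      rw [hSd, card_sdiff_add_card_eq_card (subset_univ _), card_univ]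
    rw [card_union_of_disjoint hdisj, hWZc, hE0c] at h1
    omega
  have hSe : Even S.card := by
    rw [Nat.even_iff]
    omega
  let N : V → Finset V := fun v => univ.filter (fun u => adj m W v u)
  obtain ⟨A', hA'S, hA'c, hA'⟩ := hr1 r hr1' V hn2 S hSe N (by
    intro v
    have := deg_le m W v
    rw [hWr] at this
    exact this)
  have hA'm : ∀ v ∈ A', v ∉ W ∧ v ∉ Zall m W ∧ v ∉ E0 := fun v hv => (hSm v).1 (hA'S hv)
  have hB0 : Disjoint E0 (S \ A') := by
    rw [disjoint_left]
    intro v hv hv'
    exact ((hSm v).1 (mem_sdiff.1 hv').1).2.2 hv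
  have hA0 : Disjoint (Zall m W) A' := by
    rw [disjoint_left]
    intro v hv hv'
    exact (hA'm v hv').2.1 hv
  -- degrees
  have hNW : ∀ v u, u ∈ N v → u ∉ W := by
    intro v u hu
    exact (mem_filter.1 hu).2.2.1
  have hdeg : ∀ v ∉ W, ∃ a e s : ℕ, a ≤ 6 ∧ e ≤ 4 ∧ (N v ∩ Zall m W).card = a ∧
      (N v ∩ E0).card = e ∧ (N v ∩ S).card = s ∧ s + a + e ≤ r ∧ r ≤ s + a + e + 2 := by
    intro v hv
    refine ⟨_, _, _, ?_, ?_, rfl, rfl, rfl, ?_, ?_⟩
    · have h1 := hW.zdeg v hv
      refine le_trans (card_le_card ?_) h1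
      intro u hu
      rw [mem_inter] at hu
      exact mem_filter.2 ⟨mem_univ _, (mem_filter.1 hu.1).2, hu.2⟩
    · have h1 := hW.edeg v hv
      refine le_trans (card_le_card ?_) h1
      intro u hu
      rw [mem_inter] at hu
      exact mem_filter.2 ⟨mem_univ _, (mem_filter.1 hu.1).2, hE0E hu.2⟩
    · have h0 : (N v ∩ S).card + (N v ∩ Zall m W).card + (N v ∩ E0).card = (N v).card := by
        rw [← card_union_of_disjoint, ← card_union_of_disjoint]
        · congr 1
          ext u
          simp only [mem_union, mem_inter]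
          constructor
          · rintro ((h | h) | h) <;> exact h.1
          · intro h
            by_cases h1 : u ∈ Zall m W
            · exact Or.inl (Or.inr ⟨h, h1⟩)
            · by_cases h2 : u ∈ E0
              · exact Or.inr ⟨h, h2⟩
              · exact Or.inl (Or.inl ⟨h, (hSm u).2 ⟨hNW v u h, h1, h2⟩⟩)
        · rw [disjoint_left]
          intro u hu hu'
          rcases mem_union.1 hu with h | h
          · exact ((hSm u).1 (mem_inter.1 h).2).2.2 (mem_inter.1 hu').2
          · exact (hE0W u (mem_inter.1 hu').2).2 (mem_inter.1 h).2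
        · rw [disjoint_left]
          intro u hu hu'
          exact ((hSm u).1 (mem_inter.1 hu).2).2.1 (mem_inter.1 hu').2
      have h1 := deg_le m W v
      rw [hWr] at h1
      have h2 : (N v).card ≤ r := h1
      omega
    · have h0 : (N v ∩ S).card + (N v ∩ Zall m W).card + (N v ∩ E0).card = (N v).card := by
        rw [← card_union_of_disjoint, ← card_union_of_disjoint]
        · congr 1
          ext u
          simp only [mem_union, mem_inter]
          constructor
          · rintro ((h | h) | h) <;> exact h.1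
          · intro h
            by_cases h1 : u ∈ Zall m W
            · exact Or.inl (Or.inr ⟨h, h1⟩)
            · by_cases h2 : u ∈ E0
              · exact Or.inr ⟨h, h2⟩
              · exact Or.inl (Or.inl ⟨h, (hSm u).2 ⟨hNW v u h, h1, h2⟩⟩)
        · rw [disjoint_left]
          intro u hu hu'
          rcases mem_union.1 hu with h | h
          · exact ((hSm u).1 (mem_inter.1 h).2).2.2 (mem_inter.1 hu').2
          · exact (hE0W u (mem_inter.1 hu').2).2 (mem_inter.1 h).2
        · rw [disjoint_left]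
          intro u hu hu'
          exact ((hSm u).1 (mem_inter.1 hu).2).2.1 (mem_inter.1 hu').2
      have h3 : r ≤ (N v).card + 2 := by
        by_cases hvz : v ∈ Zall m W
        · have := deg_add_two hW v hvz
          rw [hWr] at this
          have h4 : (N v).card + 2 = r := this
          omega
        · have := deg_eq m W v hv hvz
          rw [hWr] at this
          have h4 : (N v).card = r := this
          omega
      omega
  have hrR : (2 * 10 ^ 14 : ℝ) ≤ r := by exact_mod_cast hr2
  refine ⟨Zall m W ∪ A', E0 ∪ (S \ A'), ?_, ?_, ?_, ?_, ?_, ?_⟩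
  · rw [disjoint_left]
    intro v hv hv'
    rcases mem_union.1 hv with h | h
    · rcases mem_union.1 hv' with h' | h'
      · exact (hE0W v h').2 h
      · exact ((hSm v).1 (mem_sdiff.1 h').1).2.1 h
    · rcases mem_union.1 hv' with h' | h'
      · exact (hA'm v h).2.2 h'
      · exact (mem_sdiff.1 h').2 h
  · ext v
    simp only [mem_union, mem_sdiff, mem_univ, true_and]
    constructor
    · rintro ((h | h) | (h | h))
      · exact Zall_notin hW v h
      · exact (hA'm v h).1
      · exact (hE0W v h).1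
      · exact ((hSm v).1 h.1).1
    · intro h
      by_cases h1 : v ∈ Zall m W
      · exact Or.inl (Or.inl h1)
      · by_cases h2 : v ∈ E0
        · exact Or.inr (Or.inl h2)
        · by_cases h3 : v ∈ A'
          · exact Or.inl (Or.inr h3)
          · exact Or.inr (Or.inr ⟨(hSm v).2 ⟨h, h1, h2⟩, h3⟩)
  · exact subset_union_left
  · rw [card_union_of_disjoint hA0, card_union_of_disjoint hB0, ← hzd, hE0c, hWr]
    have h1 := card_sdiff_add_card_eq_card hA'S
    omega
  · intro v hv
    obtain ⟨a, e, s, ha, he, ha', he', hs', h1, h2⟩ := hdeg v hv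
    have h3 := hA' v
    rw [hs'] at h3
    have h4 : (univ.filter (fun u => adj m W v u ∧ u ∈ Zall m W ∪ A')).card =
        a + (N v ∩ A').card := by
      rw [← ha', ← card_union_of_disjoint]
      · congr 1
        ext u
        simp only [N, mem_filter, mem_univ, true_and, mem_union, mem_inter]
        tauto
      · rw [disjoint_left]
        intro u hu hu'
        exact (hA'm u (mem_inter.1 hu').2).2.1 (mem_inter.1 hu).2
    rw [h4, hWr]
    push_cast
    have h1' : (s : ℝ) + a + e ≤ r := by exact_mod_cast h1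
    have h2' : (r : ℝ) ≤ s + a + e + 2 := by exact_mod_cast h2
    have ha1 : (a : ℝ) ≤ 6 := by exact_mod_cast ha
    have he1 : (e : ℝ) ≤ 4 := by exact_mod_cast he
    have ha0 : (0 : ℝ) ≤ a := Nat.cast_nonneg a
    have he0 : (0 : ℝ) ≤ e := Nat.cast_nonneg e
    rw [abs_le] at h3 ⊢
    obtain ⟨h5, h6⟩ := h3
    constructor
    · linarith
    · linarith
  · intro v hv
    obtain ⟨a, e, s, ha, he, ha', he', hs', h1, h2⟩ := hdeg v hv
    have h3 := hA' v
    rw [hs'] at h3
    have h4 : (univ.filter (fun u => adj m W v u ∧ u ∈ E0 ∪ (S \ A'))).card +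
        (N v ∩ A').card = e + s := by
      rw [← he', ← hs']
      have h5 : N v ∩ S = (N v ∩ (S \ A')) ∪ (N v ∩ A') := by
        ext u
        simp only [mem_union, mem_inter, mem_sdiff]
        constructor
        · rintro ⟨h, h'⟩
          by_cases h3 : u ∈ A'
          · exact Or.inr ⟨h, h3⟩
          · exact Or.inl ⟨h, h', h3⟩
        · rintro (h | h)
          · exact ⟨h.1, h.2.1⟩
          · exact ⟨h.1, hA'S h.2⟩
      rw [h5, card_union_of_disjoint, ← add_assoc]
      · congr 1
        rw [← card_union_of_disjoint]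
        · congr 1
          ext u
          simp only [N, mem_filter, mem_univ, true_and, mem_union, mem_inter, mem_sdiff]
          tauto
        · rw [disjoint_left]
          intro u hu hu'
          exact disjoint_left.1 hB0 (mem_inter.1 hu).2 (mem_inter.1 hu').2
      · rw [disjoint_left]
        intro u hu hu'
        exact (mem_sdiff.1 (mem_inter.1 hu).2).2 (mem_inter.1 hu').2
    have h4' : ((univ.filter (fun u => adj m W v u ∧ u ∈ E0 ∪ (S \ A'))).card : ℝ) +
        ((N v ∩ A').card : ℝ) = e + s := by exact_mod_cast h4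
    rw [hWr]
    have h1' : (s : ℝ) + a + e ≤ r := by exact_mod_cast h1
    have h2' : (r : ℝ) ≤ s + a + e + 2 := by exact_mod_cast h2
    have ha1 : (a : ℝ) ≤ 6 := by exact_mod_cast ha
    have he1 : (e : ℝ) ≤ 4 := by exact_mod_cast he
    have ha0 : (0 : ℝ) ≤ a := Nat.cast_nonneg a
    have he0 : (0 : ℝ) ≤ e := Nat.cast_nonneg e
    rw [abs_le] at h3 ⊢
    obtain ⟨h5, h6⟩ := h3
    constructor
    · linarith
    · linarith

end Pool.Agent.CHS
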