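import Pool.Agent.CHS.Basic
import Pool.Agent.CHS.Step1

/-!
# CHS/S1ind: the induction of stage 1

`G ⊆ W` are the colours treated in stage 1, `R h` (`h ∈ G`) disjoint matchings of non-monochromatic
inside edges avoiding `Zs m W h` and covering almost everything.
Induction over subsets `K ⊆ G` (add one colour at a time).  Invariant: `f` with `State m W K f`, the
first two conclusions for `h ∈ K`, and, with `cnt v = #{h ∈ K : R h v ≠ v ∧ f h v ≠ R h v}`,
`∑ v, 2 ^ cnt v ≤ n (1 + 5/100000)^|K|`.  Then for every `v`, since `|K| ≤ 0.51 r`, `n ≤ 2 r^10`,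
`cnt v * log 2 ≤ log 2 + 10 log r + 0.51 r * 5/100000`, so `cnt v ≤ (4/100000) r` for large `r`.
Step: the pool is `P u v := adj m W u v ∧ cross A B u v ∧ c u ≠ c v ∧ ¬ used K f u v` (symmetric).
For `v ∉ W`: to the other side `v` has at least `(1/2 - 10⁻¹³) r` neighbours (`Part.degA/degB`), at
most 4 with the same colour (`GoodW.mono`), and the number of used cross pairs at `v` is
`#{h ∈ K : cross A B v (f h v)} ≤ #{h ∈ K : R h v = v} + cnt v ≤ (5/100000) r` (if
`cross A B v (f h v)` then `f h v ≠ v` and `f h v ≠ R h v` since pairs of `R h` are inside pairs).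
So the pool degree is at least `0.46 r`.  Apply `step1` with `wt u = 2 ^ cnt u`: the new sum is at most
`∑ wt + ∑_{R h u ≠ u, f h u ≠ R h u} wt ≤ (1 + 5/100000) ∑ wt`.
`State.disj` for the new colour `h` and `h' ∈ K`: if `f h u = f h' u ≠ u`, then either `f h u = R h u`
is an inside pair, so `f h' u = R h' u` and the disjointness of the `R`'s is violated, or
`P u (f h u)`, which is an unused pair.
-/

set_option autoImplicit false

namespace Pool.Agent.CHS
open Finset

namespace S1I

theorem num0 : ∃ r0 : ℕ, ∀ r ≥ r0, Real.log 2 + 10 * Real.log (r : ℝ) ≤ (2 / 10 ^ 6) * (r : ℝ) := by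
  have h1 := (Real.isLittleO_log_id_atTop).bound (show (0 : ℝ) < 1 / 10 ^ 7 by norm_num)
  have h2 := tendsto_natCast_atTop_atTop (R := ℝ) |>.eventually h1
  obtain ⟨N, hN⟩ := Filter.eventually_atTop.1 h2
  refine ⟨max N (10 ^ 7), fun r hr => ?_⟩
  have hr1 : N ≤ r := le_trans (le_max_left _ _) hr
  have hr2 : 10 ^ 7 ≤ r := le_trans (le_max_right _ _) hr
  have hr3 : (10 ^ 7 : ℝ) ≤ r := by exact_mod_cast hr2
  have h3 := hN r hr1
  simp only [id_eq, Real.norm_eq_abs] at h3
  have h4 : Real.log (r : ℝ) ≤ 1 / 10 ^ 7 * r := by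
    have := le_abs_self (Real.log (r : ℝ))
    rw [abs_of_nonneg (show (0 : ℝ) ≤ (r : ℝ) by positivity)] at h3
    linarith
  have h5 : Real.log 2 ≤ 1 := by
    have := Real.log_two_lt_d9
    linarith
  nlinarith

/-- the growth estimate -/
theorem cnt_le {r n k t : ℕ} (hr : 1 ≤ r) (h0 : Real.log 2 + 10 * Real.log (r : ℝ) ≤ (2 / 10 ^ 6) * (r : ℝ))
    (hn : n ≤ 2 * r ^ 10) (hk : (k : ℝ) ≤ (51 / 100) * r)
    (h : (2 : ℝ) ^ t ≤ n * (1 + 5 / 100000) ^ k) : (t : ℝ) ≤ (4 / 100000) * r := by
  have hnpos : (0 : ℝ) < n := by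
    rcases Nat.eq_zero_or_pos n with h' | h'
    · subst h'
      have : (0 : ℝ) < 2 ^ t := by positivity
      simp at h
      linarith
    · exact_mod_cast h'
  have hrpos : (0 : ℝ) < r := by exact_mod_cast hr
  have h1 := Real.log_le_log (by positivity : (0 : ℝ) < 2 ^ t) h
  rw [Real.log_pow, Real.log_mul hnpos.ne' (by positivity), Real.log_pow] at h1
  have h2 : Real.log (n : ℝ) ≤ Real.log 2 + 10 * Real.log r := by
    have h3 : (n : ℝ) ≤ 2 * (r : ℝ) ^ 10 := by exact_mod_cast hn
    have h4 := Real.log_le_log hnpos h3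
    rw [Real.log_mul (by norm_num) (by positivity), Real.log_pow] at h4
    exact_mod_cast h4
  have h5 : Real.log (1 + 5 / 100000 : ℝ) ≤ 5 / 100000 := by
    have := Real.log_le_sub_one_of_pos (show (0 : ℝ) < 1 + 5 / 100000 by norm_num)
    linarith
  have h6 : (k : ℝ) * Real.log (1 + 5 / 100000 : ℝ) ≤ (51 / 100) * r * (5 / 100000) := by
    have hl0 : 0 ≤ Real.log (1 + 5 / 100000 : ℝ) := Real.log_nonneg (by norm_num)
    calc (k : ℝ) * Real.log (1 + 5 / 100000 : ℝ) ≤ (51 / 100) * r * Real.log (1 + 5 / 100000 : ℝ) :=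
          mul_le_mul_of_nonneg_right hk hl0
      _ ≤ (51 / 100) * r * (5 / 100000) := mul_le_mul_of_nonneg_left h5 (by positivity)
  have h7 := Real.log_two_gt_d9
  have h8 : (t : ℝ) * Real.log 2 ≤ (2 / 10 ^ 6) * (r : ℝ) + (51 / 100) * r * (5 / 100000) := by
    linarith
  have h9 : (t : ℝ) * (693 / 1000) ≤ (t : ℝ) * Real.log 2 :=
    mul_le_mul_of_nonneg_left (by linarith) (by positivity)
  nlinarith

variable {V : Type} [Fintype V] [DecidableEq V] {m : SQ V} {c : V → ℕ} {E W A B : Finset V}

/-- the counter -/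
def cnt (R f : V → V → V) (K : Finset V) (v : V) : ℕ :=
  (K.filter (fun h => R h v ≠ v ∧ f h v ≠ R h v)).card

/-- The first conclusion. -/
def C1 (c : V → ℕ) (A B : Finset V) (R f : V → V → V) (K : Finset V) : Prop :=
  ∀ h ∈ K, ∀ u, f h u ≠ u → f h u = R h u ∨ (cross A B u (f h u) ∧ c (f h u) ≠ c u)

theorem not_cross_self (hP : Part m W A B) (v : V) : ¬ cross A B v v := by
  rintro (⟨h1, h2⟩ | ⟨h1, h2⟩)
  · exact Finset.disjoint_left.1 hP.disj h1 h2
  · exact Finset.disjoint_left.1 hP.disj h2 h1

theorem used_cross_le (hP : Part m W A B) {R f : V → V → V} {K G : Finset V} (hKG : K ⊆ G)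
    (hRin : ∀ h ∈ G, ∀ u, R h u ≠ u →
      adj m W u (R h u) ∧ ¬ cross A B u (R h u) ∧ c (R h u) ≠ c u ∧ u ∉ Zs m W h)
    (hf : C1 c A B R f K) (v : V) :
    (univ.filter (fun u => cross A B v u ∧ used K f v u)).card ≤
      (G.filter (fun h => R h v = v)).card + cnt R f K v := by
  classical
  have h1 : (univ.filter (fun u => cross A B v u ∧ used K f v u)) ⊆
      ((G.filter (fun h => R h v = v)) ∪ (K.filter (fun h => R h v ≠ v ∧ f h v ≠ R h v))).image
        (fun h => f h v) := by
    intro u hu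
    simp only [Finset.mem_filter, Finset.mem_univ, true_and] at hu
    obtain ⟨hc, h, hh, hhu⟩ := hu
    rw [Finset.mem_image]
    refine ⟨h, ?_, hhu⟩
    rw [Finset.mem_union, Finset.mem_filter, Finset.mem_filter]
    by_cases hR : R h v = v
    · exact Or.inl ⟨hKG hh, hR⟩
    · refine Or.inr ⟨hh, hR, ?_⟩
      intro he
      have := (hRin h (hKG hh) v hR).2.1
      rw [← he, hhu] at this
      exact this hc
  calc (univ.filter (fun u => cross A B v u ∧ used K f v u)).card
      ≤ _ := Finset.card_le_card h1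
    _ ≤ _ := Finset.card_image_le
    _ ≤ _ := Finset.card_union_le _ _

theorem used_symm {f : V → V → V} {K : Finset V} (hinv : ∀ h ∈ K, ∀ u, f h (f h u) = u) {u v : V}
    (h : used K f u v) : used K f v u := by
  obtain ⟨h', hh', rfl⟩ := h
  exact ⟨h', hh', hinv h' hh' u⟩

theorem pool_deg (hW : GoodW m c E W) (hP : Part m W A B) {R f : V → V → V} {K G : Finset V} {r : ℕ}
    (hWr : W.card = r) (hr : 200 ≤ r) (hKG : K ⊆ G)
    (hRin : ∀ h ∈ G, ∀ u, R h u ≠ u →
      adj m W u (R h u) ∧ ¬ cross A B u (R h u) ∧ c (R h u) ≠ c u ∧ u ∉ Zs m W h)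
    (hf : C1 c A B R f K) (v : V) (hv : v ∉ W)
    (h1 : ((G.filter (fun h => R h v = v)).card : ℝ) ≤ (1 / 100000) * r)
    (h2 : (cnt R f K v : ℝ) ≤ (4 / 100000) * r) :
    (46 / 100) * (r : ℝ) ≤ ((univ.filter (fun u => adj m W v u ∧ cross A B v u ∧ c v ≠ c u ∧
      ¬ used K f v u)).card : ℝ) := by
  classical
  have hr' : (200 : ℝ) ≤ r := by exact_mod_cast hr
  have hside : (1 / 2 - 1 / 10 ^ 13) * (r : ℝ) ≤
      ((univ.filter (fun u => adj m W v u ∧ cross A B v u)).card : ℝ) := by
    have hmem : v ∈ A ∪ B := by rw [hP.union]; simp [hv]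
    rw [Finset.mem_union] at hmem
    rcases hmem with hA | hB
    · have h3 := hP.degB v hv
      rw [hWr] at h3
      have h4 := (abs_le.1 h3).1
      have h5 : ((univ.filter (fun u => adj m W v u ∧ u ∈ B)).card : ℝ) ≤
          ((univ.filter (fun u => adj m W v u ∧ cross A B v u)).card : ℝ) := by
        norm_cast
        apply Finset.card_le_card
        intro u hu
        simp only [Finset.mem_filter, Finset.mem_univ, true_and] at hu ⊢
        exact ⟨hu.1, Or.inl ⟨hA, hu.2⟩⟩
      linarith
    · have h3 := hP.degA v hv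
      rw [hWr] at h3
      have h4 := (abs_le.1 h3).1
      have h5 : ((univ.filter (fun u => adj m W v u ∧ u ∈ A)).card : ℝ) ≤
          ((univ.filter (fun u => adj m W v u ∧ cross A B v u)).card : ℝ) := by
        norm_cast
        apply Finset.card_le_card
        intro u hu
        simp only [Finset.mem_filter, Finset.mem_univ, true_and] at hu ⊢
        exact ⟨hu.1, Or.inr ⟨hB, hu.2⟩⟩
      linarith
  have hsub : (univ.filter (fun u => adj m W v u ∧ cross A B v u)) ⊆
      (univ.filter (fun u => adj m W v u ∧ cross A B v u ∧ c v ≠ c u ∧ ¬ used K f v u)) ∪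
      ((univ.filter (fun u => adj m W v u ∧ c u = c v)) ∪
       (univ.filter (fun u => cross A B v u ∧ used K f v u))) := by
    intro u hu
    simp only [Finset.mem_filter, Finset.mem_univ, true_and, Finset.mem_union] at hu ⊢
    by_cases hc : c u = c v
    · exact Or.inr (Or.inl ⟨hu.1, hc⟩)
    · by_cases hus : used K f v u
      · exact Or.inr (Or.inr ⟨hu.2, hus⟩)
      · exact Or.inl ⟨hu.1, hu.2, fun h => hc h.symm, hus⟩
  have hcard := (Finset.card_le_card hsub).trans
    ((Finset.card_union_le _ _).trans (Nat.add_le_add_left (Finset.card_union_le _ _) _))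
  have h3 := hW.mono v hv
  have h4 := used_cross_le (c := c) hP hKG hRin hf v
  have h5 : ((univ.filter (fun u => adj m W v u ∧ cross A B v u)).card : ℝ) ≤
      ((univ.filter (fun u => adj m W v u ∧ cross A B v u ∧ c v ≠ c u ∧
        ¬ used K f v u)).card : ℝ) + (4 + (((G.filter (fun h => R h v = v)).card : ℝ) +
          (cnt R f K v : ℝ))) := by
    have : (univ.filter (fun u => adj m W v u ∧ cross A B v u)).card ≤
      (univ.filter (fun u => adj m W v u ∧ cross A B v u ∧ c v ≠ c u ∧
        ¬ used K f v u)).card + (4 + ((G.filter (fun h => R h v = v)).card +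
          cnt R f K v)) := by omega
    exact_mod_cast this
  nlinarith

theorem cnt_insert {R f : V → V → V} {f' : V → V} {K : Finset V} {h : V} (hh : h ∉ K) (v : V) :
    cnt R (Function.update f h f') (insert h K) v =
      cnt R f K v + (if R h v ≠ v ∧ f' v ≠ R h v then 1 else 0) := by
  unfold cnt
  rw [Finset.filter_insert]
  have h1 : K.filter (fun g => R g v ≠ v ∧ Function.update f h f' g v ≠ R g v) =
      K.filter (fun g => R g v ≠ v ∧ f g v ≠ R g v) := by
    apply Finset.filter_congr
    intro g hg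
    have : g ≠ h := fun he => hh (he ▸ hg)
    rw [Function.update_of_ne this]
  rw [h1, Function.update_self]
  split_ifs with h2
  · rw [Finset.card_insert_of_notMem]
    intro h3
    exact hh (Finset.mem_filter.1 h3).1
  · rfl

end S1I

open S1I

theorem s1ind : ∃ r0 : ℕ, ∀ r ≥ r0, ∀ (V : Type) [Fintype V] [DecidableEq V] (m : SQ V) (c : V → ℕ)
    (E W A B : Finset V), W.card = r → r ^ 10 ≤ Fintype.card V → Fintype.card V ≤ 2 * r ^ 10 →
    GoodW m c E W → Part m W A B → ∀ (G : Finset V), G ⊆ W → (G.card : ℝ) ≤ (51 / 100) * r →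
    ∀ (R : V → V → V), (∀ h ∈ G, ∀ u, R h (R h u) = u) →
    (∀ h ∈ G, ∀ u, R h u ≠ u →
      adj m W u (R h u) ∧ ¬ cross A B u (R h u) ∧ c (R h u) ≠ c u ∧ u ∉ Zs m W h) →
    (∀ h ∈ G, ∀ h' ∈ G, h ≠ h' → ∀ u, R h u = R h' u → R h u = u) →
    (∀ h ∈ G, (1 - 2 / 10 ^ 6) * (A.card : ℝ) ≤ ((A.filter (fun u => R h u ≠ u)).card : ℝ)) →
    (∀ h ∈ G, (1 - 2 / 10 ^ 6) * (B.card : ℝ) ≤ ((B.filter (fun u => R h u ≠ u)).card : ℝ)) →
    (∀ v ∉ W, ((G.filter (fun h => R h v = v)).card : ℝ) ≤ (1 / 100000) * r) →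
    ∃ f : V → V → V, State m W G f ∧
      (∀ h ∈ G, ∀ u, f h u ≠ u →
        f h u = R h u ∨ (cross A B u (f h u) ∧ c (f h u) ≠ c u)) ∧
      (∀ h ∈ G, (A.filter (fun u => R h u ≠ u ∧ f h u = R h u)).card =
        (B.filter (fun u => R h u ≠ u ∧ f h u = R h u)).card) ∧
      (∀ v, ((G.filter (fun h => R h v ≠ v ∧ f h v ≠ R h v)).card : ℝ) ≤ (4 / 100000) * r) := by
  obtain ⟨r1, hr1⟩ := step1
  obtain ⟨r2, hr2⟩ := num0
  refine ⟨max (max r1 r2) 200, fun r hr V _ _ m c E W A B hWr hn1 hn2 hW hP G hGW hGc R hRinv hRin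
    hRdisj hRA hRB hRv => ?_⟩
  have hra : r1 ≤ r := le_trans (le_trans (le_max_left _ _) (le_max_left _ _)) hr
  have hrb : r2 ≤ r := le_trans (le_trans (le_max_right _ _) (le_max_left _ _)) hr
  have hrc : 200 ≤ r := le_trans (le_max_right _ _) hr
  have hlog := hr2 r hrb
  -- the invariant
  have key : ∃ f : V → V → V, State m W G f ∧ C1 c A B R f G ∧
      (∀ h ∈ G, (A.filter (fun u => R h u ≠ u ∧ f h u = R h u)).card =
        (B.filter (fun u => R h u ≠ u ∧ f h u = R h u)).card) ∧
      (∑ v, (2 : ℝ) ^ (cnt R f G v)) ≤ (Fintype.card V : ℝ) * (1 + 5 / 100000) ^ G.card := by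
    refine Finset.induction_on' (motive := fun K => ∃ f : V → V → V, State m W K f ∧ C1 c A B R f K ∧
      (∀ h ∈ K, (A.filter (fun u => R h u ≠ u ∧ f h u = R h u)).card =
        (B.filter (fun u => R h u ≠ u ∧ f h u = R h u)).card) ∧
      (∑ v, (2 : ℝ) ^ (cnt R f K v)) ≤ (Fintype.card V : ℝ) * (1 + 5 / 100000) ^ K.card) G ?_ ?_
    · refine ⟨fun _ u => u, ⟨by simp, by simp, by simp⟩, ?_, by simp, ?_⟩
      · intro h hh; simp at hh
      · simp [cnt]
    · rintro h K hhG hKG hhK ⟨f, hSt, hC1, hbal, hsum⟩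
      have hKc : (K.card : ℝ) ≤ (51 / 100) * r := by
        have : K.card ≤ G.card := Finset.card_le_card hKG
        have : (K.card : ℝ) ≤ G.card := by exact_mod_cast this
        linarith
      have hcnt : ∀ v, (cnt R f K v : ℝ) ≤ (4 / 100000) * r := by
        intro v
        refine cnt_le (by omega) hlog hn2 hKc (le_trans ?_ hsum)
        exact Finset.single_le_sum (f := fun v => (2 : ℝ) ^ (cnt R f K v))
          (fun i _ => by positivity) (Finset.mem_univ v)
      obtain ⟨f', hM, hf'1, hf'2, hf'3⟩ := hr1 r hra V m c E W A B hWr hn1 hn2 hW hP h (hGW hhG) (R h)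
        (hRinv h hhG)
        (fun u hu => ⟨(hRin h hhG u hu).1, (hRin h hhG u hu).2.1, (hRin h hhG u hu).2.2.2⟩)
        (hRA h hhG) (hRB h hhG)
        (fun u v => adj m W u v ∧ cross A B u v ∧ c u ≠ c v ∧ ¬ used K f u v)
        (fun u v ⟨h1, h2, h3, h4⟩ => ⟨adj_symm m W u v h1, cross_symm A B u v h2, fun h5 => h3 h5.symm,
          fun h5 => h4 (used_symm (fun h hh => (hSt.mat h hh).inv) h5)⟩)
        (fun u v h1 => ⟨h1.1, h1.2.1⟩)
        (fun v hv => pool_deg hW hP hWr hrc hKG hRin hC1 v hv (hRv v hv) (hcnt v))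
        (fun u => (2 : ℝ) ^ (cnt R f K u)) (fun u => by positivity)
      have hnew : ∀ u, ∀ h' ∈ K, f' u = f h' u → f' u = u := by
        intro u h' hh' he
        by_contra hne
        rcases hf'1 u hne with h3 | h3
        · have hRne : R h u ≠ u := by rw [← h3]; exact hne
          have hin := hRin h hhG u hRne
          have hne' : f h' u ≠ u := by rw [← he]; exact hne
          rcases hC1 h' hh' u hne' with h4 | h4
          · have : R h u = R h' u := by rw [← h3, he, h4]
            have hhne : h ≠ h' := fun h5 => hhK (h5 ▸ hh')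
            exact hRne (hRdisj h hhG h' (hKG hh') hhne u this)
          · apply hin.2.1
            rw [← h3, he]
            exact h4.1
        · exact h3.2.2.2 ⟨h', hh', he.symm⟩
      refine ⟨Function.update f h f', ⟨?_, ?_, ?_⟩, ?_, ?_, ?_⟩
      · intro x hx
        rcases Finset.mem_insert.1 hx with rfl | hx
        · exact hGW hhG
        · exact hSt.sub hx
      · intro g hg
        by_cases hgh : g = h
        · subst hgh
          rw [Function.update_self]
          exact hM
        · rw [Function.update_of_ne hgh]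
          exact hSt.mat g ((Finset.mem_insert.1 hg).resolve_left hgh)
      · intro g hg g' hg' hne u he
        by_cases hgh : g = h
        · subst hgh
          have hg'h : g' ≠ g := Ne.symm hne
          rw [Function.update_self, Function.update_of_ne hg'h] at he
          rw [Function.update_self]
          exact hnew u g' ((Finset.mem_insert.1 hg').resolve_left hg'h) he
        · have hgK := (Finset.mem_insert.1 hg).resolve_left hgh
          by_cases hg'h : g' = h
          · subst hg'h
            rw [Function.update_of_ne hgh, Function.update_self] at he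
            rw [Function.update_of_ne hgh, he]
            exact hnew u g hgK he.symm
          · rw [Function.update_of_ne hgh, Function.update_of_ne hg'h] at he
            rw [Function.update_of_ne hgh]
            exact hSt.disj g hgK g' ((Finset.mem_insert.1 hg').resolve_left hg'h) hne u he
      · intro g hg u hu
        by_cases hgh : g = h
        · subst hgh
          rw [Function.update_self] at hu ⊢
          rcases hf'1 u hu with h3 | h3
          · exact Or.inl h3
          · exact Or.inr ⟨h3.2.1, fun h4 => h3.2.2.1 h4.symm⟩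
        · rw [Function.update_of_ne hgh] at hu ⊢
          exact hC1 g ((Finset.mem_insert.1 hg).resolve_left hgh) u hu
      · intro g hg
        by_cases hgh : g = h
        · subst hgh
          rw [Function.update_self]
          exact hf'2
        · rw [Function.update_of_ne hgh]
          exact hbal g ((Finset.mem_insert.1 hg).resolve_left hgh)
      · have h3 : (∑ v, (2 : ℝ) ^ (cnt R (Function.update f h f') (insert h K) v)) =
            (∑ v, (2 : ℝ) ^ (cnt R f K v)) +
              ∑ v ∈ univ.filter (fun u => R h u ≠ u ∧ f' u ≠ R h u), (2 : ℝ) ^ (cnt R f K v) := by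
          rw [Finset.sum_filter, ← Finset.sum_add_distrib]
          apply Finset.sum_congr rfl
          intro v _
          rw [cnt_insert hhK, pow_add]
          split_ifs with h4
          · ring
          · ring
        rw [h3, Finset.card_insert_of_notMem hhK, pow_succ]
        have h4 : (0 : ℝ) ≤ 1 + 5 / 100000 := by norm_num
        nlinarith [mul_le_mul_of_nonneg_right hsum h4]
  obtain ⟨f, hSt, hC1, hbal, hsum⟩ := key
  refine ⟨f, hSt, hC1, hbal, fun v => ?_⟩
  refine cnt_le (by omega) hlog hn2 hGc (le_trans ?_ hsum)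
  exact Finset.single_le_sum (f := fun v => (2 : ℝ) ^ (cnt R f G v))
    (fun i _ => by positivity) (Finset.mem_univ v)

end Pool.Agent.CHS
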