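import Pool.Agent.CHS.Edges
import Pool.Agent.CHS.Levels
import Pool.Agent.CHS.S1ind

/-!
# CHS/S1: stage 1

`r = |W|`.  Let `G₀ u v := adj m W u v ∧ ¬ cross A B u v ∧ c u ≠ c v`, `Δ = ⌊(1/2 + 10⁻¹³) r⌋`
(for `v ∉ W` the non-cross neighbours of `v` are those on its own side).  `levels` with `ε = 10⁻¹³`
gives `q ≤ (1/2 + 2·10⁻¹³) r` matchings `R₀ i`.  Fix an injection `col : Fin q → W`.
`R₁ i u := u` if `u` or `R₀ i u` is in `Zs m W (col i)`, and `R₀ i u` otherwise.  `i` is good if
`R₁ i` covers at least `(1 - 2·10⁻⁶)|A|` points of `A` and `(1 - 2·10⁻⁶)|B|` points of `B`;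
`G` = the set of the `col i`, `i` good; `R h := R₁ i` for `h = col i`, `i` good.
(a) For `v ∉ W`: `#{i : R₀ i v ≠ v} ≥ (degree of v in G₀) - 10⁻¹³ r ≥ (1/2 - 2·10⁻¹³) r - 4`, so
`#{i : R₀ i v = v} ≤ 4·10⁻¹³ r + 4 ≤ 5·10⁻¹³ r`.
(b) `#{i : R₀ i v ≠ v, R₁ i v = v} ≤ 8`: either `v ∈ Zs (col i)` (at most 2 values, `le_two`), or
`R₀ i v ∈ Zall` is a neighbour of `v` (at most 6, `zdeg`; different `i` give different `R₀ i v`).
(c) Bad `i`: summing (a) over `A`, `∑ i #{v ∈ A : R₀ i v = v} ≤ 5·10⁻¹³ r |A|`; and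
`#{v ∈ A : R₁ i v = v} ≤ #{v ∈ A : R₀ i v = v} + 2 r`, `2 r ≤ 10⁻⁶ |A|`, so a bad `i` (because of `A`)
has `#{v ∈ A : R₀ i v = v} ≥ 10⁻⁶ |A|`: at most `5·10⁻⁷ r` such `i`; the same for `B`: at most
`10⁻⁶ r` bad `i`.
The hypotheses of `s1ind`: `|G| ≤ q ≤ 0.51 r`; `#{h ∈ G : R h v = v} ≤ 5·10⁻¹³ r + 8 ≤ 10⁻⁵ r`.
From its conclusion with `H = G`:
`nonmono`: pairs of `R h` are non-monochromatic, and so are the others.
`usage`: `cross A B v (f h v)` implies `R h v = v` or (`R h v ≠ v` and `f h v ≠ R h v`): at most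
`5·10⁻⁵ r ≤ r/10000`.
`left`: an unused inside neighbour `u` of `v` is monochromatic (at most 4), or not covered by any `R₀ i`
(at most `10⁻¹³ r`), or `u = R₀ i v` with `i` bad (at most `10⁻⁶ r`), or with `R₁ i v = v` (at most 8),
or `u = R h v`, `f h v ≠ R h v` (at most `4·10⁻⁵ r`): together at most `5·10⁻⁵ r = r/20000`.
`bal`: by `edges` the total numbers of ordered inside pairs in `A` and `B` are equal; the used ones in `A`
are the pairs `(u, f h u)`, `u ∈ A`, `R h u ≠ u`, `f h u = R h u` (`h ∈ G`), all different by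
`State.disj`, and their number equals the one for `B` for each `h`.
-/

set_option autoImplicit false

namespace Pool.Agent.CHS
open Finset

namespace S1aux

variable {V : Type} [Fintype V] [DecidableEq V] {m : SQ V} {c : V → ℕ} {E W A B : Finset V}

theorem A_notW (hP : Part m W A B) {v : V} (hv : v ∈ A) : v ∉ W := by
  have h1 : v ∈ A ∪ B := mem_union_left _ hv
  rw [hP.union] at h1
  exact (mem_sdiff.1 h1).2

theorem B_notW (hP : Part m W A B) {v : V} (hv : v ∈ B) : v ∉ W := by
  have h1 : v ∈ A ∪ B := mem_union_right _ hv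
  rw [hP.union] at h1
  exact (mem_sdiff.1 h1).2

theorem mem_or (hP : Part m W A B) {v : V} (hv : v ∉ W) : v ∈ A ∨ v ∈ B := by
  have h1 : v ∈ A ∪ B := by
    rw [hP.union]
    exact mem_sdiff.2 ⟨mem_univ _, hv⟩
  exact mem_union.1 h1

theorem not_both (hP : Part m W A B) {v : V} (hv : v ∈ A) (hv' : v ∈ B) : False :=
  (Finset.disjoint_left.1 hP.disj) hv hv'

theorem noncross_A (hP : Part m W A B) {v u : V} (hv : v ∈ A) (hu : u ∉ W) :
    ¬ cross A B v u ↔ u ∈ A := by
  constructor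
  · intro h
    rcases mem_or hP hu with h1 | h1
    · exact h1
    · exact absurd (Or.inl ⟨hv, h1⟩) h
  · intro h hc
    rcases hc with ⟨_, h2⟩ | ⟨h1, _⟩
    · exact not_both hP h h2
    · exact not_both hP hv h1

theorem noncross_B (hP : Part m W A B) {v u : V} (hv : v ∈ B) (hu : u ∉ W) :
    ¬ cross A B v u ↔ u ∈ B := by
  constructor
  · intro h
    rcases mem_or hP hu with h1 | h1
    · exact absurd (Or.inr ⟨hv, h1⟩) h
    · exact h1
  · intro h hc
    rcases hc with ⟨h1, _⟩ | ⟨_, h2⟩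
    · exact not_both hP h1 hv
    · exact not_both hP h2 h

theorem deg_le' (hP : Part m W A B) {v : V} (hv : v ∉ W) :
    ((univ.filter (fun u => adj m W v u ∧ ¬ cross A B v u ∧ c v ≠ c u)).card : ℝ) ≤
      (1 / 2 + 1 / 10 ^ 13) * W.card := by
  rcases mem_or hP hv with h | h
  · have h1 := abs_le.1 (hP.degA v hv)
    have h2 : (univ.filter (fun u => adj m W v u ∧ ¬ cross A B v u ∧ c v ≠ c u)).card ≤
        (univ.filter (fun u => adj m W v u ∧ u ∈ A)).card := by
      apply card_le_card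
      intro u hu
      simp only [mem_filter, mem_univ, true_and] at hu ⊢
      exact ⟨hu.1, (noncross_A hP h hu.1.2.1).1 hu.2.1⟩
    have h3 : ((univ.filter (fun u => adj m W v u ∧ ¬ cross A B v u ∧ c v ≠ c u)).card : ℝ) ≤
        ((univ.filter (fun u => adj m W v u ∧ u ∈ A)).card : ℝ) := by exact_mod_cast h2
    linarith [h1.2]
  · have h1 := abs_le.1 (hP.degB v hv)
    have h2 : (univ.filter (fun u => adj m W v u ∧ ¬ cross A B v u ∧ c v ≠ c u)).card ≤
        (univ.filter (fun u => adj m W v u ∧ u ∈ B)).card := by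
      apply card_le_card
      intro u hu
      simp only [mem_filter, mem_univ, true_and] at hu ⊢
      exact ⟨hu.1, (noncross_B hP h hu.1.2.1).1 hu.2.1⟩
    have h3 : ((univ.filter (fun u => adj m W v u ∧ ¬ cross A B v u ∧ c v ≠ c u)).card : ℝ) ≤
        ((univ.filter (fun u => adj m W v u ∧ u ∈ B)).card : ℝ) := by exact_mod_cast h2
    linarith [h1.2]

theorem deg_ge' (hW : GoodW m c E W) (hP : Part m W A B) {v : V} (hv : v ∉ W) :
    (1 / 2 - 1 / 10 ^ 13) * (W.card : ℝ) - 4 ≤
    ((univ.filter (fun u => adj m W v u ∧ ¬ cross A B v u ∧ c v ≠ c u)).card : ℝ) := by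
  have hm := hW.mono v hv
  have hm' : ((univ.filter (fun u => adj m W v u ∧ c u = c v)).card : ℝ) ≤ 4 := by
    exact_mod_cast hm
  rcases mem_or hP hv with h | h
  · have h1 := abs_le.1 (hP.degA v hv)
    have h2 : (univ.filter (fun u => adj m W v u ∧ u ∈ A)).card ≤
        (univ.filter (fun u => adj m W v u ∧ ¬ cross A B v u ∧ c v ≠ c u)).card +
        (univ.filter (fun u => adj m W v u ∧ c u = c v)).card := by
      refine le_trans (card_le_card ?_) (card_union_le _ _)
      intro u hu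
      simp only [mem_filter, mem_univ, true_and, mem_union] at hu ⊢
      by_cases hc : c u = c v
      · exact Or.inr ⟨hu.1, hc⟩
      · exact Or.inl ⟨hu.1, (noncross_A hP h hu.1.2.1).2 hu.2, fun e => hc e.symm⟩
    have h3 : ((univ.filter (fun u => adj m W v u ∧ u ∈ A)).card : ℝ) ≤
        ((univ.filter (fun u => adj m W v u ∧ ¬ cross A B v u ∧ c v ≠ c u)).card : ℝ) +
        ((univ.filter (fun u => adj m W v u ∧ c u = c v)).card : ℝ) := by exact_mod_cast h2
    linarith [h1.1]
  · have h1 := abs_le.1 (hP.degB v hv)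
    have h2 : (univ.filter (fun u => adj m W v u ∧ u ∈ B)).card ≤
        (univ.filter (fun u => adj m W v u ∧ ¬ cross A B v u ∧ c v ≠ c u)).card +
        (univ.filter (fun u => adj m W v u ∧ c u = c v)).card := by
      refine le_trans (card_le_card ?_) (card_union_le _ _)
      intro u hu
      simp only [mem_filter, mem_univ, true_and, mem_union] at hu ⊢
      by_cases hc : c u = c v
      · exact Or.inr ⟨hu.1, hc⟩
      · exact Or.inl ⟨hu.1, (noncross_B hP h hu.1.2.1).2 hu.2, fun e => hc e.symm⟩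
    have h3 : ((univ.filter (fun u => adj m W v u ∧ u ∈ B)).card : ℝ) ≤
        ((univ.filter (fun u => adj m W v u ∧ ¬ cross A B v u ∧ c v ≠ c u)).card : ℝ) +
        ((univ.filter (fun u => adj m W v u ∧ c u = c v)).card : ℝ) := by exact_mod_cast h2
    linarith [h1.1]

/-- The matching `R` with the pairs meeting `Zs m W h` removed. -/
def cutM (m : SQ V) (W : Finset V) (h : V) (R : V → V) (u : V) : V :=
  if u ∈ Zs m W h ∨ R u ∈ Zs m W h then u else R u

omit [Fintype V] in
theorem cutM_ne {h : V} {R : V → V} {u : V} (hu : cutM m W h R u ≠ u) :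
    cutM m W h R u = R u ∧ u ∉ Zs m W h ∧ R u ∉ Zs m W h ∧ R u ≠ u := by
  unfold cutM at hu ⊢
  split_ifs at hu ⊢ with h1
  · exact absurd rfl hu
  · push Not at h1
    exact ⟨rfl, h1.1, h1.2, hu⟩

omit [Fintype V] in
theorem cutM_inv {h : V} {R : V → V} (hR : ∀ u, R (R u) = u) (u : V) :
    cutM m W h R (cutM m W h R u) = u := by
  by_cases h1 : u ∈ Zs m W h ∨ R u ∈ Zs m W h
  · have e : cutM m W h R u = u := by unfold cutM; rw [if_pos h1]
    rw [e, e]
  · have e : cutM m W h R u = R u := by unfold cutM; rw [if_neg h1]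
    rw [e]
    have h2 : ¬ (R u ∈ Zs m W h ∨ R (R u) ∈ Zs m W h) := by
      rw [hR]
      tauto
    unfold cutM
    rw [if_neg h2, hR]

omit [Fintype V] in
theorem cutM_fix {h : V} {R : V → V} {u : V} (hu : cutM m W h R u = u) :
    R u = u ∨ u ∈ Zs m W h ∨ R u ∈ Zs m W h := by
  by_contra hc
  push Not at hc
  unfold cutM at hu
  rw [if_neg (by tauto)] at hu
  exact hc.1 hu

/-- The data of the first step of stage 1. -/
structure Data (m : SQ V) (c : V → ℕ) (W A B : Finset V) (q : ℕ) (R0 : Fin q → V → V)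
    (col : Fin q → V) : Prop where
  inv : ∀ i u, R0 i (R0 i u) = u
  edge : ∀ i u, R0 i u ≠ u → adj m W u (R0 i u) ∧ ¬ cross A B u (R0 i u) ∧ c u ≠ c (R0 i u)
  disj : ∀ i j, i ≠ j → ∀ u, R0 i u = R0 j u → R0 i u = u
  unc : ∀ v, ((univ.filter (fun u => (adj m W v u ∧ ¬ cross A B v u ∧ c v ≠ c u) ∧
    ∀ i, R0 i v ≠ u)).card : ℝ) ≤ (1 / 10 ^ 13) * W.card
  hq : (q : ℝ) ≤ (1 / 2 + 2 / 10 ^ 13) * W.card
  colW : ∀ i, col i ∈ W
  colinj : Function.Injective col

variable {q : ℕ} {R0 : Fin q → V → V} {col : Fin q → V}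

theorem inj_on (D : Data m c W A B q R0 col) (v : V) (i j : Fin q) (hi : R0 i v ≠ v)
    (h : R0 i v = R0 j v) : i = j := by
  by_contra hij
  exact hi (D.disj i j hij v h)

/-- (a) -/
theorem cnt_fix (hW : GoodW m c E W) (hP : Part m W A B) (D : Data m c W A B q R0 col)
    (hr : (10 : ℝ) ^ 14 ≤ W.card) {v : V} (hv : v ∉ W) :
    ((univ.filter (fun i => R0 i v = v)).card : ℝ) ≤ (5 / 10 ^ 13) * W.card := by
  have h1 : (univ.filter (fun u => adj m W v u ∧ ¬ cross A B v u ∧ c v ≠ c u)).card ≤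
      (univ.filter (fun u => (adj m W v u ∧ ¬ cross A B v u ∧ c v ≠ c u) ∧
        ∀ i, R0 i v ≠ u)).card + (univ.filter (fun i => ¬ R0 i v = v)).card := by
    have h2 : (univ.filter (fun u => adj m W v u ∧ ¬ cross A B v u ∧ c v ≠ c u)) ⊆
      (univ.filter (fun u => (adj m W v u ∧ ¬ cross A B v u ∧ c v ≠ c u) ∧
        ∀ i, R0 i v ≠ u)) ∪ (univ.filter (fun i => ¬ R0 i v = v)).image (fun i => R0 i v) := by
      intro u hu
      simp only [mem_filter, mem_univ, true_and, mem_union, mem_image] at hu ⊢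
      by_cases h3 : ∀ i, R0 i v ≠ u
      · exact Or.inl ⟨hu, h3⟩
      · push Not at h3
        obtain ⟨i, hi⟩ := h3
        refine Or.inr ⟨i, ?_, hi⟩
        rw [hi]
        exact fun e => hu.1.2.2.1 e.symm
    refine le_trans (card_le_card h2) (le_trans (card_union_le _ _) ?_)
    exact Nat.add_le_add_left card_image_le _
  have h4 : (univ.filter (fun i => R0 i v = v)).card +
      (univ.filter (fun i => ¬ R0 i v = v)).card = q := by
    rw [card_filter_add_card_filter_not]
    simp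
  have h1' : ((univ.filter (fun u => adj m W v u ∧ ¬ cross A B v u ∧ c v ≠ c u)).card : ℝ) ≤
      ((univ.filter (fun u => (adj m W v u ∧ ¬ cross A B v u ∧ c v ≠ c u) ∧
        ∀ i, R0 i v ≠ u)).card : ℝ) + ((univ.filter (fun i => ¬ R0 i v = v)).card : ℝ) := by
    exact_mod_cast h1
  have h4' : ((univ.filter (fun i => R0 i v = v)).card : ℝ) +
      ((univ.filter (fun i => ¬ R0 i v = v)).card : ℝ) = q := by
    exact_mod_cast h4
  have h5 := deg_ge' hW hP hv
  have h6 := D.unc v
  have h7 := D.hq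
  linarith

/-- (b) -/
theorem cnt_cut (hW : GoodW m c E W) (D : Data m c W A B q R0 col)
    {v : V} (hv : v ∉ W) :
    (univ.filter (fun i => R0 i v ≠ v ∧ cutM m W (col i) (R0 i) v = v)).card ≤ 8 := by
  have h1 : (univ.filter (fun i => v ∈ Zs m W (col i))).card ≤ 2 := by
    refine le_trans ?_ (le_two hW v)
    apply card_le_card_of_injOn col
    · intro i hi
      simp only [coe_filter, mem_univ, true_and, Set.mem_ofPred_eq] at hi ⊢
      exact ⟨D.colW i, hi⟩
    · intro i _ j _ h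
      exact D.colinj h
  have h2 : (univ.filter (fun i => R0 i v ≠ v ∧ R0 i v ∈ Zs m W (col i))).card ≤ 6 := by
    refine le_trans ?_ (hW.zdeg v hv)
    apply card_le_card_of_injOn (fun i => R0 i v)
    · intro i hi
      simp only [coe_filter, mem_univ, true_and, Set.mem_ofPred_eq] at hi ⊢
      refine ⟨(D.edge i v hi.1).1, ?_⟩
      exact mem_biUnion.2 ⟨col i, D.colW i, hi.2⟩
    · intro i hi j _ h
      simp only [coe_filter, mem_univ, true_and, Set.mem_ofPred_eq] at hi
      exact inj_on D v i j hi.1 h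
  have h3 : (univ.filter (fun i => R0 i v ≠ v ∧ cutM m W (col i) (R0 i) v = v)) ⊆
      (univ.filter (fun i => v ∈ Zs m W (col i))) ∪
      (univ.filter (fun i => R0 i v ≠ v ∧ R0 i v ∈ Zs m W (col i))) := by
    intro i hi
    simp only [mem_filter, mem_univ, true_and, mem_union] at hi ⊢
    rcases cutM_fix hi.2 with h | h | h
    · exact absurd h hi.1
    · exact Or.inl h
    · exact Or.inr ⟨hi.1, h⟩
  have h4 := le_trans (card_le_card h3) (card_union_le _ _)
  omega

/-- The number of points of `X` missed by the cut matching. -/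
theorem cut_miss (D : Data m c W A B q R0 col) (X : Finset V) (i : Fin q) :
    (X.filter (fun u => cutM m W (col i) (R0 i) u = u)).card ≤
      (X.filter (fun u => R0 i u = u)).card + 2 * W.card := by
  have h1 : X.filter (fun u => cutM m W (col i) (R0 i) u = u) ⊆
      X.filter (fun u => R0 i u = u) ∪ (Zs m W (col i) ∪ (Zs m W (col i)).image (R0 i)) := by
    intro u hu
    simp only [mem_filter, mem_union, mem_image] at hu ⊢
    rcases cutM_fix hu.2 with h | h | h
    · exact Or.inl ⟨hu.1, h⟩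
    · exact Or.inr (Or.inl h)
    · exact Or.inr (Or.inr ⟨R0 i u, h, D.inv i u⟩)
  have h2 : (Zs m W (col i)).card + 1 = W.card := Zs_card m W (col i) (D.colW i)
  have h3 : ((Zs m W (col i)).image (R0 i)).card ≤ (Zs m W (col i)).card := card_image_le
  have h4 := card_union_le (X.filter (fun u => R0 i u = u))
    (Zs m W (col i) ∪ (Zs m W (col i)).image (R0 i))
  have h5 := card_union_le (Zs m W (col i)) ((Zs m W (col i)).image (R0 i))
  have h6 := card_le_card h1
  omega

/-- (c) -/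
theorem bad_card (hW : GoodW m c E W) (hP : Part m W A B) (D : Data m c W A B q R0 col)
    (hr : (10 : ℝ) ^ 14 ≤ W.card) (X : Finset V) (hX : ∀ v ∈ X, v ∉ W)
    (hXc : 2 * (W.card : ℝ) ≤ (1 / 10 ^ 6) * X.card) :
    ((univ.filter (fun i => ¬ ((1 - 2 / 10 ^ 6) * (X.card : ℝ) ≤
      ((X.filter (fun u => cutM m W (col i) (R0 i) u ≠ u)).card : ℝ)))).card : ℝ) ≤
      (5 / 10 ^ 7) * W.card := by
  set S := univ.filter (fun i => ¬ ((1 - 2 / 10 ^ 6) * (X.card : ℝ) ≤
      ((X.filter (fun u => cutM m W (col i) (R0 i) u ≠ u)).card : ℝ))) with hS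
  have hXpos : 0 < (X.card : ℝ) := by
    have : (0 : ℝ) < 10 ^ 14 := by norm_num
    linarith
  have h1 : ∑ i : Fin q, ((X.filter (fun u => R0 i u = u)).card : ℝ) =
      ∑ v ∈ X, ((univ.filter (fun i => R0 i v = v)).card : ℝ) := by
    have : ∑ i : Fin q, (X.filter (fun u => R0 i u = u)).card =
      ∑ v ∈ X, (univ.filter (fun i => R0 i v = v)).card := by
      simp only [card_filter]
      exact sum_comm
    exact_mod_cast this
  have h2 : ∑ v ∈ X, ((univ.filter (fun i => R0 i v = v)).card : ℝ) ≤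
      X.card * ((5 / 10 ^ 13) * W.card) := by
    have : ∑ v ∈ X, ((univ.filter (fun i => R0 i v = v)).card : ℝ) ≤
        ∑ v ∈ X, ((5 / 10 ^ 13) * (W.card : ℝ)) :=
      sum_le_sum (fun v hv => cnt_fix hW hP D hr (hX v hv))
    rw [sum_const, nsmul_eq_mul] at this
    exact this
  have h3 : (S.card : ℝ) * ((1 / 10 ^ 6) * X.card) ≤
      ∑ i : Fin q, ((X.filter (fun u => R0 i u = u)).card : ℝ) := by
    have h4 : ∑ i ∈ S, ((1 / 10 ^ 6) * (X.card : ℝ)) ≤
        ∑ i ∈ S, ((X.filter (fun u => R0 i u = u)).card : ℝ) := by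
      apply sum_le_sum
      intro i hi
      rw [hS] at hi
      simp only [mem_filter, mem_univ, true_and] at hi
      have h5 := cut_miss D X i
      have h5' : ((X.filter (fun u => cutM m W (col i) (R0 i) u = u)).card : ℝ) ≤
        ((X.filter (fun u => R0 i u = u)).card : ℝ) + 2 * W.card := by exact_mod_cast h5
      have h6 : ((X.filter (fun u => cutM m W (col i) (R0 i) u = u)).card : ℝ) +
          ((X.filter (fun u => cutM m W (col i) (R0 i) u ≠ u)).card : ℝ) = X.card := by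
        have : (X.filter (fun u => cutM m W (col i) (R0 i) u = u)).card +
          (X.filter (fun u => ¬ cutM m W (col i) (R0 i) u = u)).card = X.card :=
          card_filter_add_card_filter_not _
        exact_mod_cast this
      push Not at hi
      linarith
    have h5 : ∑ i ∈ S, ((X.filter (fun u => R0 i u = u)).card : ℝ) ≤
        ∑ i : Fin q, ((X.filter (fun u => R0 i u = u)).card : ℝ) :=
      sum_le_sum_of_subset_of_nonneg (subset_univ _) (fun _ _ _ => by positivity)
    rw [sum_const, nsmul_eq_mul] at h4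
    exact le_trans h4 h5
  rw [h1] at h3
  have h7 : (S.card : ℝ) * ((1 / 10 ^ 6) * X.card) ≤ X.card * ((5 / 10 ^ 13) * W.card) :=
    le_trans h3 h2
  have h8 : (X.card : ℝ) * (S.card : ℝ) ≤ X.card * ((5 / 10 ^ 7) * W.card) := by
    have : (S.card : ℝ) * ((1 / 10 ^ 6) * X.card) = (1 / 10 ^ 6) * ((X.card : ℝ) * S.card) := by
      ring
    rw [this] at h7
    have h9 : (X.card : ℝ) * ((5 / 10 ^ 7) * W.card) =
      10 ^ 6 * (X.card * ((5 / 10 ^ 13) * W.card)) := by ring
    rw [h9]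
    linarith
  exact le_of_mul_le_mul_left h8 hXpos

/-- The index `i` is good. -/
def good (m : SQ V) (W A B : Finset V) (R0 : Fin q → V → V) (col : Fin q → V) (i : Fin q) : Prop :=
  (1 - 2 / 10 ^ 6) * (A.card : ℝ) ≤
      ((A.filter (fun u => cutM m W (col i) (R0 i) u ≠ u)).card : ℝ) ∧
  (1 - 2 / 10 ^ 6) * (B.card : ℝ) ≤
      ((B.filter (fun u => cutM m W (col i) (R0 i) u ≠ u)).card : ℝ)

open Classical in
theorem bad_tot (hW : GoodW m c E W) (hP : Part m W A B) (D : Data m c W A B q R0 col)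
    (hr : (10 : ℝ) ^ 14 ≤ W.card)
    (hA : 2 * (W.card : ℝ) ≤ (1 / 10 ^ 6) * A.card)
    (hB : 2 * (W.card : ℝ) ≤ (1 / 10 ^ 6) * B.card) :
    ((univ.filter (fun i => ¬ good m W A B R0 col i)).card : ℝ) ≤ (1 / 10 ^ 6) * W.card := by
  have h1 := bad_card hW hP D hr A (fun v hv => A_notW hP hv) hA
  have h2 := bad_card hW hP D hr B (fun v hv => B_notW hP hv) hB
  have h3 : (univ.filter (fun i => ¬ good m W A B R0 col i)) ⊆
      (univ.filter (fun i => ¬ ((1 - 2 / 10 ^ 6) * (A.card : ℝ) ≤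
        ((A.filter (fun u => cutM m W (col i) (R0 i) u ≠ u)).card : ℝ)))) ∪
      (univ.filter (fun i => ¬ ((1 - 2 / 10 ^ 6) * (B.card : ℝ) ≤
        ((B.filter (fun u => cutM m W (col i) (R0 i) u ≠ u)).card : ℝ)))) := by
    intro i hi
    simp only [mem_filter, mem_univ, true_and, mem_union] at hi ⊢
    unfold good at hi
    tauto
  have h4 := le_trans (card_le_card h3) (card_union_le _ _)
  have h5 : ((univ.filter (fun i => ¬ good m W A B R0 col i)).card : ℝ) ≤
      ((univ.filter (fun i => ¬ ((1 - 2 / 10 ^ 6) * (A.card : ℝ) ≤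
        ((A.filter (fun u => cutM m W (col i) (R0 i) u ≠ u)).card : ℝ)))).card : ℝ) +
      ((univ.filter (fun i => ¬ ((1 - 2 / 10 ^ 6) * (B.card : ℝ) ≤
        ((B.filter (fun u => cutM m W (col i) (R0 i) u ≠ u)).card : ℝ)))).card : ℝ) := by
    exact_mod_cast h4
  linarith

open Classical in
theorem prep (hW : GoodW m c E W) (hP : Part m W A B) (D : Data m c W A B q R0 col)
    (hr : (10 : ℝ) ^ 14 ≤ W.card)
    (hA : 2 * (W.card : ℝ) ≤ (1 / 10 ^ 6) * A.card)
    (hB : 2 * (W.card : ℝ) ≤ (1 / 10 ^ 6) * B.card) :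
    ∃ (G : Finset V) (R : V → V → V), G ⊆ W ∧ (G.card : ℝ) ≤ (51 / 100) * W.card ∧
      (∀ h ∈ G, ∀ u, R h (R h u) = u) ∧
      (∀ h ∈ G, ∀ u, R h u ≠ u →
        adj m W u (R h u) ∧ ¬ cross A B u (R h u) ∧ c (R h u) ≠ c u ∧ u ∉ Zs m W h) ∧
      (∀ h ∈ G, ∀ h' ∈ G, h ≠ h' → ∀ u, R h u = R h' u → R h u = u) ∧
      (∀ h ∈ G, (1 - 2 / 10 ^ 6) * (A.card : ℝ) ≤ ((A.filter (fun u => R h u ≠ u)).card : ℝ)) ∧
      (∀ h ∈ G, (1 - 2 / 10 ^ 6) * (B.card : ℝ) ≤ ((B.filter (fun u => R h u ≠ u)).card : ℝ)) ∧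
      (∀ v ∉ W, ((G.filter (fun h => R h v = v)).card : ℝ) ≤ (1 / 100000) * W.card) ∧
      (∀ v ∉ W, ((univ.filter (fun u => (adj m W v u ∧ ¬ cross A B v u ∧ c v ≠ c u) ∧
        ∀ h ∈ G, R h v ≠ u)).card : ℝ) ≤ (2 / 10 ^ 6) * W.card) := by
  obtain ⟨R, hR⟩ : ∃ R : V → V → V, ∀ i u, R (col i) u = cutM m W (col i) (R0 i) u := by
    refine ⟨fun h u => if hh : ∃ i, col i = h then cutM m W h (R0 hh.choose) u else u, ?_⟩
    intro i u
    have hh : ∃ j, col j = col i := ⟨i, rfl⟩
    have h1 : hh.choose = i := D.colinj hh.choose_spec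
    simp only [dif_pos hh]
    rw [h1]
  set G : Finset V := (univ.filter (fun i => good m W A B R0 col i)).image col with hG
  have hGm : ∀ h, h ∈ G ↔ ∃ i, good m W A B R0 col i ∧ col i = h := by
    intro h
    rw [hG]
    simp only [mem_image, mem_filter, mem_univ, true_and]
  have hne : ∀ i u, R (col i) u ≠ u → R (col i) u = R0 i u ∧ u ∉ Zs m W (col i) ∧
      R0 i u ∉ Zs m W (col i) ∧ R0 i u ≠ u := by
    intro i u h
    rw [hR] at h ⊢
    exact cutM_ne h
  refine ⟨G, R, ?_, ?_, ?_, ?_, ?_, ?_, ?_, ?_, ?_⟩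
  · intro h hh
    obtain ⟨i, _, rfl⟩ := (hGm h).1 hh
    exact D.colW i
  · have h1 : G.card ≤ q := by
      refine le_trans card_image_le ?_
      refine le_trans (card_filter_le _ _) ?_
      simp
    have h2 : (G.card : ℝ) ≤ q := by exact_mod_cast h1
    have h3 := D.hq
    have h4 : (0 : ℝ) ≤ W.card := by positivity
    linarith
  · intro h hh u
    obtain ⟨i, _, rfl⟩ := (hGm h).1 hh
    rw [hR, hR]
    exact cutM_inv (D.inv i) u
  · intro h hh u hu
    obtain ⟨i, _, rfl⟩ := (hGm h).1 hh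
    obtain ⟨h1, h2, h3, h4⟩ := hne i u hu
    rw [h1]
    obtain ⟨h5, h6, h7⟩ := D.edge i u h4
    exact ⟨h5, h6, fun e => h7 e.symm, h2⟩
  · intro h hh h' hh' hne' u hu
    obtain ⟨i, _, rfl⟩ := (hGm h).1 hh
    obtain ⟨j, _, rfl⟩ := (hGm h').1 hh'
    by_contra hc
    have hc' : R (col j) u ≠ u := by rw [← hu]; exact hc
    obtain ⟨h1, _, _, h4⟩ := hne i u hc
    obtain ⟨h1', _, _, _⟩ := hne j u hc'
    have hij : i ≠ j := fun e => hne' (by rw [e])
    apply h4
    apply D.disj i j hij u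
    rw [← h1, ← h1', hu]
  · intro h hh
    obtain ⟨i, hi, rfl⟩ := (hGm h).1 hh
    have h1 := hi.1
    have e : A.filter (fun u => R (col i) u ≠ u) =
        A.filter (fun u => cutM m W (col i) (R0 i) u ≠ u) := by
      apply filter_congr
      intro u _
      rw [hR]
    rw [e]
    exact h1
  · intro h hh
    obtain ⟨i, hi, rfl⟩ := (hGm h).1 hh
    have h1 := hi.2
    have e : B.filter (fun u => R (col i) u ≠ u) =
        B.filter (fun u => cutM m W (col i) (R0 i) u ≠ u) := by
      apply filter_congr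
      intro u _
      rw [hR]
    rw [e]
    exact h1
  · intro v hv
    have h1 := cnt_fix hW hP D hr hv
    have h2 := cnt_cut hW D hv
    have h3 : G.filter (fun h => R h v = v) ⊆
        ((univ.filter (fun i => R0 i v = v)) ∪
        (univ.filter (fun i => R0 i v ≠ v ∧ cutM m W (col i) (R0 i) v = v))).image col := by
      intro h hh
      rw [mem_filter] at hh
      obtain ⟨i, hi, rfl⟩ := (hGm h).1 hh.1
      refine mem_image.2 ⟨i, ?_, rfl⟩
      simp only [mem_filter, mem_univ, true_and, mem_union]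
      have h4 := hh.2
      rw [hR] at h4
      by_cases h5 : R0 i v = v
      · exact Or.inl h5
      · exact Or.inr ⟨h5, h4⟩
    have h4 := le_trans (card_le_card h3) (le_trans card_image_le (card_union_le _ _))
    have h5 : ((G.filter (fun h => R h v = v)).card : ℝ) ≤
        ((univ.filter (fun i => R0 i v = v)).card : ℝ) + 8 := by
      have : (G.filter (fun h => R h v = v)).card ≤
        (univ.filter (fun i => R0 i v = v)).card + 8 := by omega
      exact_mod_cast this
    linarith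
  · intro v hv
    have h1 := D.unc v
    have h2 := cnt_cut hW D hv
    have h3 := bad_tot hW hP D hr hA hB
    have h4 : (univ.filter (fun u => (adj m W v u ∧ ¬ cross A B v u ∧ c v ≠ c u) ∧
        ∀ h ∈ G, R h v ≠ u)) ⊆
        (univ.filter (fun u => (adj m W v u ∧ ¬ cross A B v u ∧ c v ≠ c u) ∧
          ∀ i, R0 i v ≠ u)) ∪
        ((univ.filter (fun i => ¬ good m W A B R0 col i)) ∪
        (univ.filter (fun i => R0 i v ≠ v ∧ cutM m W (col i) (R0 i) v = v))).image
          (fun i => R0 i v) := by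
      intro u hu
      simp only [mem_filter, mem_univ, true_and] at hu
      rw [mem_union]
      by_cases h5 : ∀ i, R0 i v ≠ u
      · left
        simp only [mem_filter, mem_univ, true_and]
        exact ⟨hu.1, h5⟩
      · right
        push Not at h5
        obtain ⟨i, hi⟩ := h5
        refine mem_image.2 ⟨i, ?_, hi⟩
        simp only [mem_filter, mem_univ, true_and, mem_union]
        by_cases h6 : good m W A B R0 col i
        · right
          have h7 : R0 i v ≠ v := by
            rw [hi]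
            exact fun e => hu.1.1.2.2.1 e.symm
          refine ⟨h7, ?_⟩
          have h8 := hu.2 (col i) ((hGm _).2 ⟨i, h6, rfl⟩)
          by_contra h9
          apply h8
          have h9' : R (col i) v ≠ v := by rw [hR]; exact h9
          rw [(hne i v h9').1, hi]
        · exact Or.inl h6
    have h5 := le_trans (card_le_card h4) (le_trans (card_union_le _ _)
      (Nat.add_le_add_left (le_trans card_image_le (card_union_le _ _)) _))
    have h6 : ((univ.filter (fun u => (adj m W v u ∧ ¬ cross A B v u ∧ c v ≠ c u) ∧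
        ∀ h ∈ G, R h v ≠ u)).card : ℝ) ≤
        ((univ.filter (fun u => (adj m W v u ∧ ¬ cross A B v u ∧ c v ≠ c u) ∧
          ∀ i, R0 i v ≠ u)).card : ℝ) +
        (((univ.filter (fun i => ¬ good m W A B R0 col i)).card : ℝ) + 8) := by
      have : (univ.filter (fun u => (adj m W v u ∧ ¬ cross A B v u ∧ c v ≠ c u) ∧
        ∀ h ∈ G, R h v ≠ u)).card ≤
        (univ.filter (fun u => (adj m W v u ∧ ¬ cross A B v u ∧ c v ≠ c u) ∧
          ∀ i, R0 i v ≠ u)).card +
        ((univ.filter (fun i => ¬ good m W A B R0 col i)).card + 8) := by omega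
      exact_mod_cast this
    linarith

/-- The pairs inside `X` used by the `f h`. -/
theorem used_card {X : Finset V} {G : Finset V} {R f : V → V → V}
    (hX : ∀ u ∈ X, ∀ v ∉ W, (¬ cross A B u v ↔ v ∈ X))
    (hXW : ∀ u ∈ X, u ∉ W)
    (hst : State m W G f)
    (hedge : ∀ h ∈ G, ∀ u, R h u ≠ u →
        adj m W u (R h u) ∧ ¬ cross A B u (R h u) ∧ c (R h u) ≠ c u ∧ u ∉ Zs m W h)
    (hf : ∀ h ∈ G, ∀ u, f h u ≠ u →
        f h u = R h u ∨ (cross A B u (f h u) ∧ c (f h u) ≠ c u)) :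
    ((X ×ˢ X).filter (fun q => adj m W q.1 q.2 ∧ used G f q.1 q.2)).card =
      ∑ h ∈ G, (X.filter (fun u => R h u ≠ u ∧ f h u = R h u)).card := by
  have h1 : (X ×ˢ X).filter (fun q => adj m W q.1 q.2 ∧ used G f q.1 q.2) =
      G.biUnion (fun h => (X.filter (fun u => R h u ≠ u ∧ f h u = R h u)).image
        (fun u => (u, f h u))) := by
    ext ⟨u, v⟩
    simp only [mem_filter, mem_product, mem_biUnion, mem_image, Prod.mk.injEq]
    constructor
    · rintro ⟨⟨hu, hv⟩, hadj, h, hh, hfu⟩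
      have hne : f h u ≠ u := by
        rw [hfu]
        exact fun e => hadj.2.2.1 e.symm
      rcases hf h hh u hne with h2 | h2
      · refine ⟨h, hh, u, ⟨hu, ?_, h2⟩, rfl, hfu⟩
        rw [← h2]
        exact hne
      · exfalso
        have h3 := (hX u hu v (hXW v hv)).2 hv
        rw [hfu] at h2
        exact h3 h2.1
    · rintro ⟨h, hh, u', ⟨hu', h2, h3⟩, rfl, rfl⟩
      obtain ⟨h4, h5, _, _⟩ := hedge h hh u' h2
      rw [← h3] at h4 h5
      exact ⟨⟨hu', (hX u' hu' _ h4.2.1).1 h5⟩, h4, h, hh, rfl⟩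
  rw [h1, card_biUnion]
  · apply sum_congr rfl
    intro h _
    apply card_image_of_injective
    intro u v huv
    simp only [Prod.mk.injEq] at huv
    exact huv.1
  · intro h hh h' hh' hne
    simp only [Function.onFun]
    rw [Finset.disjoint_left]
    rintro ⟨u, v⟩ h2 h3
    simp only [mem_image, mem_filter, Prod.mk.injEq] at h2 h3
    obtain ⟨u1, ⟨hu1, h4, h5⟩, rfl, rfl⟩ := h2
    obtain ⟨u2, ⟨hu2, h6, h7⟩, rfl, h8⟩ := h3
    have h9 := hst.disj h hh h' hh' hne u2 h8.symm
    rw [h5] at h9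
    exact h4 h9

/-- The final step. -/
theorem fin_step (hW : GoodW m c E W) (hP : Part m W A B)
    (hr : (10 : ℝ) ^ 14 ≤ W.card) {G : Finset V} {R f : V → V → V}
    (hGc : (G.card : ℝ) ≤ (51 / 100) * W.card)
    (hedge : ∀ h ∈ G, ∀ u, R h u ≠ u →
        adj m W u (R h u) ∧ ¬ cross A B u (R h u) ∧ c (R h u) ≠ c u ∧ u ∉ Zs m W h)
    (hfix : ∀ v ∉ W, ((G.filter (fun h => R h v = v)).card : ℝ) ≤ (1 / 100000) * W.card)
    (hunc : ∀ v ∉ W, ((univ.filter (fun u => (adj m W v u ∧ ¬ cross A B v u ∧ c v ≠ c u) ∧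
        ∀ h ∈ G, R h v ≠ u)).card : ℝ) ≤ (2 / 10 ^ 6) * W.card)
    (hst : State m W G f)
    (hf : ∀ h ∈ G, ∀ u, f h u ≠ u →
        f h u = R h u ∨ (cross A B u (f h u) ∧ c (f h u) ≠ c u))
    (hbal : ∀ h ∈ G, (A.filter (fun u => R h u ≠ u ∧ f h u = R h u)).card =
        (B.filter (fun u => R h u ≠ u ∧ f h u = R h u)).card)
    (hcnt : ∀ v, ((G.filter (fun h => R h v ≠ v ∧ f h v ≠ R h v)).card : ℝ) ≤
        (4 / 100000) * W.card) : Stage1 m c W A B G f := by
  refine ⟨hst, hGc, ?_, ?_, ?_, ?_⟩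
  · intro h hh u hu
    rcases hf h hh u hu with h1 | h1
    · rw [h1] at hu ⊢
      exact (hedge h hh u hu).2.2.1
    · exact h1.2
  · intro v hv
    have h1 : G.filter (fun h => cross A B v (f h v)) ⊆
        G.filter (fun h => R h v = v) ∪ G.filter (fun h => R h v ≠ v ∧ f h v ≠ R h v) := by
      intro h hh
      simp only [mem_filter, mem_union] at hh ⊢
      by_cases h2 : R h v = v
      · exact Or.inl ⟨hh.1, h2⟩
      · refine Or.inr ⟨hh.1, h2, ?_⟩
        intro h3
        have h4 := (hedge h hh.1 v h2).2.1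
        rw [← h3] at h4
        exact h4 hh.2
    have h2 := le_trans (card_le_card h1) (card_union_le _ _)
    have h3 : ((G.filter (fun h => cross A B v (f h v))).card : ℝ) ≤
        ((G.filter (fun h => R h v = v)).card : ℝ) +
        ((G.filter (fun h => R h v ≠ v ∧ f h v ≠ R h v)).card : ℝ) := by exact_mod_cast h2
    have h4 := hfix v hv
    have h5 := hcnt v
    have h6 : (0 : ℝ) ≤ W.card := by positivity
    linarith
  · intro v hv
    have h1 : univ.filter (fun u => adj m W v u ∧ ¬ used G f v u ∧ ¬ cross A B v u) ⊆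
        univ.filter (fun u => adj m W v u ∧ c u = c v) ∪
        (univ.filter (fun u => (adj m W v u ∧ ¬ cross A B v u ∧ c v ≠ c u) ∧
          ∀ h ∈ G, R h v ≠ u) ∪
        (G.filter (fun h => R h v ≠ v ∧ f h v ≠ R h v)).image (fun h => R h v)) := by
      intro u hu
      rw [mem_filter] at hu
      rw [mem_union, mem_union]
      by_cases hc : c u = c v
      · left
        rw [mem_filter]
        exact ⟨mem_univ _, hu.2.1, hc⟩
      · right
        by_cases h2 : ∀ h ∈ G, R h v ≠ u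
        · left
          rw [mem_filter]
          exact ⟨mem_univ _, ⟨hu.2.1, hu.2.2.2, fun e => hc e.symm⟩, h2⟩
        · right
          push Not at h2
          obtain ⟨h, hh, h3⟩ := h2
          refine mem_image.2 ⟨h, ?_, h3⟩
          rw [mem_filter]
          refine ⟨hh, ?_, ?_⟩
          · rw [h3]
            exact fun e => hu.2.1.2.2.1 e.symm
          · intro h4
            exact hu.2.2.1 ⟨h, hh, by rw [h4, h3]⟩
    have h2 := le_trans (card_le_card h1) (le_trans (card_union_le _ _)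
      (Nat.add_le_add_left (le_trans (card_union_le _ _)
        (Nat.add_le_add_left card_image_le _)) _))
    have h3 : ((univ.filter (fun u => adj m W v u ∧ ¬ used G f v u ∧ ¬ cross A B v u)).card : ℝ) ≤
        ((univ.filter (fun u => adj m W v u ∧ c u = c v)).card : ℝ) +
        (((univ.filter (fun u => (adj m W v u ∧ ¬ cross A B v u ∧ c v ≠ c u) ∧
          ∀ h ∈ G, R h v ≠ u)).card : ℝ) +
        ((G.filter (fun h => R h v ≠ v ∧ f h v ≠ R h v)).card : ℝ)) := by exact_mod_cast h2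
    have h4 : ((univ.filter (fun u => adj m W v u ∧ c u = c v)).card : ℝ) ≤ 4 := by
      exact_mod_cast hW.mono v hv
    have h5 := hcnt v
    have h6 := hunc v hv
    linarith
  · have hA := used_card (X := A) (fun u hu v hv => noncross_A hP hu hv)
      (fun u hu => A_notW hP hu) hst hedge hf
    have hB := used_card (X := B) (fun u hu v hv => noncross_B hP hu hv)
      (fun u hu => B_notW hP hu) hst hedge hf
    have hE := edges hW hP
    have hAB : ∑ h ∈ G, (A.filter (fun u => R h u ≠ u ∧ f h u = R h u)).card =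
      ∑ h ∈ G, (B.filter (fun u => R h u ≠ u ∧ f h u = R h u)).card := sum_congr rfl hbal
    have sp : ∀ X : Finset V, ((X ×ˢ X).filter (fun q => adj m W q.1 q.2 ∧ used G f q.1 q.2)).card +
        ((X ×ˢ X).filter (fun q => adj m W q.1 q.2 ∧ ¬ used G f q.1 q.2)).card =
        ((X ×ˢ X).filter (fun q => adj m W q.1 q.2)).card := by
      intro X
      rw [← filter_filter, ← filter_filter]
      exact card_filter_add_card_filter_not _
    have h1 := sp A
    have h2 := sp B
    omega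

end S1aux

theorem s1 : ∃ r0 : ℕ, ∀ r ≥ r0, ∀ (V : Type) [Fintype V] [DecidableEq V] (m : SQ V) (c : V → ℕ)
    (E W A B : Finset V), W.card = r → r ^ 10 ≤ Fintype.card V → Fintype.card V ≤ 2 * r ^ 10 →
    GoodW m c E W → Part m W A B → ∃ (H : Finset V) (f : V → V → V), Stage1 m c W A B H f := by
  obtain ⟨r1, hr1⟩ := levels (1 / 10 ^ 13) (by norm_num)
  obtain ⟨r2, hr2⟩ := s1ind
  refine ⟨max (max r1 r2) (10 ^ 14), ?_⟩
  intro r hr V _ _ m c E W A B hWr hn1 hn2 hW hP
  have hra : r1 ≤ r := le_trans (le_trans (le_max_left _ _) (le_max_left _ _)) hr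
  have hrb : r2 ≤ r := le_trans (le_trans (le_max_right _ _) (le_max_left _ _)) hr
  have hrc : 10 ^ 14 ≤ r := le_trans (le_max_right _ _) hr
  have hrR : (10 : ℝ) ^ 14 ≤ (r : ℝ) := by exact_mod_cast hrc
  have hWR : (W.card : ℝ) = r := by rw [hWr]
  have hrW : (10 : ℝ) ^ 14 ≤ (W.card : ℝ) := by rw [hWR]; exact hrR
  have hr0 : (0 : ℝ) ≤ (r : ℝ) := by positivity
  -- the sizes
  have hcAB := card_AB hP
  have hcA := hP.card
  have hr10 : 4 * 10 ^ 6 * r + 2 * r + 2 ≤ r ^ 10 := by
    have h1 : r ^ 2 ≤ r ^ 10 := Nat.pow_le_pow_right (by omega) (by norm_num)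
    have h2 : 10 ^ 14 * r ≤ r ^ 2 := by nlinarith
    omega
  have hAc : 2 * (W.card : ℝ) ≤ (1 / 10 ^ 6) * A.card := by
    have h1 : 2 * 10 ^ 6 * W.card ≤ A.card := by omega
    have h2 : (2 * 10 ^ 6 * W.card : ℝ) ≤ A.card := by exact_mod_cast h1
    linarith
  have hBc : 2 * (W.card : ℝ) ≤ (1 / 10 ^ 6) * B.card := by
    have h1 : 2 * 10 ^ 6 * W.card ≤ B.card := by omega
    have h2 : (2 * 10 ^ 6 * W.card : ℝ) ≤ B.card := by exact_mod_cast h1
    linarith
  -- the matchings of `levels`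
  set Δ : ℕ := ⌊(1 / 2 + 1 / 10 ^ 13) * (r : ℝ)⌋₊ with hΔ
  have hΔr : (Δ : ℝ) ≤ (1 / 2 + 1 / 10 ^ 13) * (r : ℝ) := Nat.floor_le (by positivity)
  have hΔr' : Δ ≤ r := by
    have : (Δ : ℝ) ≤ r := by linarith
    exact_mod_cast this
  obtain ⟨q, hq, R0, h1, h2, h3, h4⟩ := hr1 r hra V hn2
    (fun u v => adj m W u v ∧ ¬ cross A B u v ∧ c u ≠ c v)
    (fun u v h => ⟨adj_symm m W u v h.1, fun hc => h.2.1 (cross_symm A B v u hc),
      fun e => h.2.2 e.symm⟩)
    (fun u h => h.2.2 rfl) Δ hΔr' (by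
      intro v
      by_cases hv : v ∈ W
      · have : univ.filter (fun u => adj m W v u ∧ ¬ cross A B v u ∧ c v ≠ c u) = ∅ := by
          apply filter_eq_empty_iff.2
          intro u _ h
          exact h.1.1 hv
        rw [this]
        simp
      · have h5 := S1aux.deg_le' (c := c) hP hv
        rw [hWR] at h5
        exact Nat.le_floor h5)
  have hqr : (q : ℝ) ≤ (1 / 2 + 2 / 10 ^ 13) * r := by linarith
  have hqr' : q ≤ W.card := by
    have : (q : ℝ) ≤ W.card := by rw [hWR]; linarith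
    exact_mod_cast this
  obtain ⟨col, hcolW, hcolinj⟩ : ∃ col : Fin q → V, (∀ i, col i ∈ W) ∧
      Function.Injective col := by
    refine ⟨fun i => (W.equivFin.symm (Fin.castLE hqr' i) : V), fun i => coe_mem _, ?_⟩
    intro i j h
    have h5 := W.equivFin.symm.injective (Subtype.ext h)
    exact Fin.castLE_injective hqr' h5
  have D : S1aux.Data m c W A B q R0 col := by
    refine ⟨h1, h2, h3, ?_, ?_, hcolW, hcolinj⟩
    · intro v
      rw [hWR]
      exact h4 v
    · rw [hWR]
      exact hqr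
  obtain ⟨G, R, hG1, hG2, hG3, hG4, hG5, hG6, hG7, hG8, hG9⟩ := S1aux.prep hW hP D hrW hAc hBc
  obtain ⟨f, hf1, hf2, hf3, hf4⟩ := hr2 r hrb V m c E W A B hWr hn1 hn2 hW hP G hG1
    (by rw [← hWR]; exact hG2) R hG3 hG4 hG5 hG6 hG7 (by rw [← hWR]; exact hG8)
  refine ⟨G, f, S1aux.fin_step hW hP hrW hG2 hG4 hG8 ?_ hf1 hf2 hf3 (by rw [hWR]; exact hf4)⟩
  intro v hv
  have h5 := hG9 v hv
  convert h5 using 3

end Pool.Agent.CHS
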