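import Pool.Agent.CHS.Basic
import Pool.Agent.CHS.Col

/-!
# CHS/S2a: the base matchings of stage 2

`r = |W|`, `H2` = any subset of `W \ H` with `|H2| = ⌊r/10⌋` (possible by `Stage1.hcard`).
Let `YA` (`YB`) be the set of the unordered unused pairs inside `A` (inside `B`), i.e. pairs `{u,v}` with
`adj m W u v`, `¬ used H f u v`; by `Stage1.bal` `|YA| = |YB|` (the ordered pairs are twice as many), fix
a bijection `β : YA → YB`.  Let `X` be the set of the unordered pairs `{u,v}` with `adj`, `¬ used`,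
`cross A B u v`, `c u = c v`.
Items: `I = YA ⊕ X`, `T (e ∈ YA) = e ∪ β e`, `T (e ∈ X) = e`; `C = H2` as a type;
`Forb i` = the `h ∈ H2` such that for one of the pairs `{u,v}` of the item `(c u = c v ∧ c u = c h)` or
`u ∈ Zs m W h` or `v ∈ Zs m W h`: at most `1 + 2 + 2` for each pair (`cinj`; a point lies in `Zs m W h` for
at most two `h`, by `zdist`), so at most `10 ≤ 12`.
A point is in at most `r/20000 + 4` items (`Stage1.left`, `GoodW.mono`; each unused pair at the point
belongs to at most one item), `Δ := ⌊r/20000⌋ + 4`, and `8 Δ + 24 ≤ ⌊r/10⌋` for large `r`.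
`N v` = the `u` with `adj m W v u` for `v ∉ W` (at most `r` of them: `u = m.mul v w`), `∅` for `v ∈ W`.
`colLemma` gives `col`.  Let `b h` be the involution exchanging `u, v` for all pairs `{u,v}` belonging
to an item `i` with `col i = h` (these pairs are pairwise disjoint: the two pairs of one item lie in
`A` and in `B`).
`bal`: an item of the first kind covers 2 points of `A` and 2 of `B`, one of the second kind 1 and 1.
`fair`: for `v ∉ W`, `#{u ∈ N v : b h u ≠ u} = ∑_{i, col i = h} |N v ∩ T i| =: x` and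
`2 ^ x ≤ 2 r^10 * r * exp (8 r Δ / ⌊r/10⌋) ≤ 2 r^11 exp (r / 200)` for large `r`
(`8 r (r/20000 + 4) / (r/10 - 1)` is about `r/250`), so `x ≤ r/20` for large `r`
(`x log 2 ≤ log 2 + 11 log r + r/200`).
-/

set_option autoImplicit false

namespace Pool.Agent.CHS
open Finset

/-! ### The numerical estimate -/

private theorem s2a_num {r x n l Δ : ℕ} (hr : 10 ^ 7 ≤ r) (hn : n ≤ 2 * r ^ 10) (hl : l = r / 10)
    (hΔ : Δ = r / 20000 + 4)
    (h : (2 : ℝ) ^ x ≤ n * l * Real.exp (8 * r * Δ / l)) : (x : ℝ) ≤ (r : ℝ) / 20 := by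
  have hrR : (10 : ℝ) ^ 7 ≤ r := by exact_mod_cast hr
  have hr0 : (0 : ℝ) < r := lt_of_lt_of_le (by norm_num) hrR
  have hlR : (l : ℝ) ≤ r / 10 := by
    rw [hl]; exact_mod_cast (Nat.cast_div_le (α := ℝ) (m := r) (n := 10))
  have hlR2 : (r : ℝ) / 10 - 1 ≤ l := by
    have h1 : r < 10 * (l + 1) := by omega
    have h2 : (r : ℝ) < 10 * (l + 1) := by exact_mod_cast h1
    linarith
  have hΔR : (Δ : ℝ) ≤ r / 20000 + 4 := by
    have h1 : (Δ - 4 : ℕ) * 20000 ≤ r := by
      rw [hΔ, Nat.add_sub_cancel]; exact Nat.div_mul_le_self r 20000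
    have h2 : 4 ≤ Δ := by omega
    have h3 : ((Δ - 4 : ℕ) : ℝ) = (Δ : ℝ) - 4 := by
      rw [Nat.cast_sub h2]; norm_num
    have h4 : ((Δ - 4 : ℕ) : ℝ) * 20000 ≤ r := by exact_mod_cast h1
    rw [h3] at h4
    linarith
  have hl0 : (0 : ℝ) < l := by
    have : (10 : ℝ) ^ 7 / 10 - 1 ≤ l := by linarith
    have h2 : (0 : ℝ) < 10 ^ 7 / 10 - 1 := by norm_num
    linarith
  have hn0 : 0 < n := by
    rcases Nat.eq_zero_or_pos n with h0 | h0
    · exfalso
      rw [h0] at h
      simp only [Nat.cast_zero, zero_mul] at h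
      have : (0 : ℝ) < 2 ^ x := by positivity
      linarith
    · exact h0
  have hn0R : (0 : ℝ) < n := by exact_mod_cast hn0
  have h1 := Real.log_le_log (by positivity) h
  rw [Real.log_pow, Real.log_mul (by positivity) (Real.exp_pos _).ne', Real.log_exp] at h1
  have h2 : Real.log (n * l) ≤ Real.log (2 * (r : ℝ) ^ 11) := by
    apply Real.log_le_log (by positivity)
    have h3 : (n : ℝ) ≤ 2 * r ^ 10 := by exact_mod_cast hn
    have h4 : (l : ℝ) ≤ r := by linarith
    calc (n : ℝ) * l ≤ (2 * r ^ 10) * r := mul_le_mul h3 h4 hl0.le (by positivity)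
      _ = 2 * (r : ℝ) ^ 11 := by ring
  have h2b : Real.log (2 * (r : ℝ) ^ 11) = Real.log 2 + 11 * Real.log r := by
    rw [Real.log_mul (by norm_num) (by positivity), Real.log_pow]; norm_num
  rw [h2b] at h2
  have hlog2 : Real.log 2 < 0.6931471808 := Real.log_two_lt_d9
  have hlog2' : 0.6931471803 < Real.log 2 := Real.log_two_gt_d9
  have h5 : Real.log r ≤ r / 10 ^ 7 + 20 := by
    have h6 : Real.log r = Real.log (r / 10 ^ 7) + Real.log (10 ^ 7) := by
      rw [← Real.log_mul (by positivity) (by positivity)]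
      congr 1
      field_simp
    have h7 : Real.log (r / 10 ^ 7) ≤ r / 10 ^ 7 - 1 := Real.log_le_sub_one_of_pos (by positivity)
    have h8 : Real.log ((10 : ℝ) ^ 7) ≤ 28 * Real.log 2 := by
      have h8a : Real.log ((10 : ℝ) ^ 7) ≤ Real.log (2 ^ 28) := by
        apply Real.log_le_log (by positivity); norm_num
      have h8b : Real.log ((2 : ℝ) ^ 28) = 28 * Real.log 2 := by
        rw [Real.log_pow]; norm_num
      rwa [h8b] at h8a
    calc Real.log r = Real.log (r / 10 ^ 7) + Real.log (10 ^ 7) := h6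
      _ ≤ (r / 10 ^ 7 - 1) + 28 * Real.log 2 := add_le_add h7 h8
      _ ≤ r / 10 ^ 7 + 20 := by linarith
  have h9 : 8 * (r : ℝ) * Δ / l ≤ r / 200 := by
    rw [div_le_iff₀ hl0]
    have h10 : 8 * (Δ : ℝ) ≤ l / 200 := by
      linarith
    nlinarith
  have h11 : (x : ℝ) * Real.log 2 ≤ 0.6931471808 + 11 * (r / 10 ^ 7 + 20) + r / 200 := by
    linarith
  have h12 : (x : ℝ) * 0.69 ≤ x * Real.log 2 :=
    mul_le_mul_of_nonneg_left (by linarith) (Nat.cast_nonneg x)
  linarith

/-! ### The items -/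

private structure ItemDat {V : Type} [DecidableEq V] (A B : Finset V) (R : V → V → Prop)
    (itm : V → V → V × V) (T : V × V → Finset V) : Prop where
  mem : ∀ i u, u ∈ T i ↔ ∃ v, R u v ∧ itm u v = i
  symm : ∀ u v, R u v → itm u v = itm v u
  inj : ∀ u v w, R u v → R u w → itm u v = itm u w → v = w
  cardA : ∀ i, (T i ∩ A).card ≤ 2
  eqAB : ∀ i, (T i ∩ A).card = (T i ∩ B).card

open Classical in
private theorem half_count {V : Type} [Fintype V] [DecidableEq V] (κ : V → ℕ) (hκ : Function.Injective κ)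
    (A : Finset V) (R : V → V → Prop) (hs : ∀ u v, R u v → R v u) (hirr : ∀ u, ¬ R u u) :
    ((A ×ˢ A).filter (fun q => R q.1 q.2)).card =
      2 * ((A ×ˢ A).filter (fun q => R q.1 q.2 ∧ κ q.1 < κ q.2)).card := by
  have h1 : ((A ×ˢ A).filter (fun q => R q.1 q.2)) =
      ((A ×ˢ A).filter (fun q => R q.1 q.2 ∧ κ q.1 < κ q.2)) ∪
      ((A ×ˢ A).filter (fun q => R q.1 q.2 ∧ κ q.2 < κ q.1)) := by
    ext ⟨x, y⟩
    simp only [mem_filter, mem_product, mem_union]
    constructor
    · rintro ⟨h, hR⟩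
      have hne : κ x ≠ κ y := fun h' => by
        have := hκ h'
        subst this
        exact hirr _ hR
      rcases lt_or_gt_of_ne hne with h' | h'
      · exact Or.inl ⟨h, hR, h'⟩
      · exact Or.inr ⟨h, hR, h'⟩
    · rintro (⟨h, hR, -⟩ | ⟨h, hR, -⟩) <;> exact ⟨h, hR⟩
  have h2 : Disjoint ((A ×ˢ A).filter (fun q => R q.1 q.2 ∧ κ q.1 < κ q.2))
      ((A ×ˢ A).filter (fun q => R q.1 q.2 ∧ κ q.2 < κ q.1)) := by
    rw [Finset.disjoint_left]
    rintro ⟨x, y⟩ hx hy
    simp only [mem_filter] at hx hy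
    omega
  have h3 : ((A ×ˢ A).filter (fun q => R q.1 q.2 ∧ κ q.2 < κ q.1)).card =
      ((A ×ˢ A).filter (fun q => R q.1 q.2 ∧ κ q.1 < κ q.2)).card := by
    apply Finset.card_bij (fun q _ => Prod.swap q)
    · rintro ⟨x, y⟩ h
      simp only [mem_filter, mem_product, Prod.swap] at h ⊢
      exact ⟨⟨h.1.2, h.1.1⟩, hs _ _ h.2.1, h.2.2⟩
    · intro a _ b _ h
      exact Prod.swap_injective h
    · rintro ⟨x, y⟩ h
      refine ⟨(y, x), ?_, rfl⟩
      simp only [mem_filter, mem_product] at h ⊢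
      exact ⟨⟨h.1.2, h.1.1⟩, hs _ _ h.2.1, h.2.2⟩
  rw [h1, card_union_of_disjoint h2, h3]
  ring

open Classical in
private theorem exists_items {V : Type} [Fintype V] [DecidableEq V] (A B : Finset V) (hAB : Disjoint A B)
    (R : V → V → Prop) (hs : ∀ u v, R u v → R v u) (hirr : ∀ u, ¬ R u u)
    (hin : ∀ u v, R u v → u ∈ A ∨ u ∈ B)
    (hbal : ((A ×ˢ A).filter (fun q => R q.1 q.2)).card =
      ((B ×ˢ B).filter (fun q => R q.1 q.2)).card) :
    ∃ (itm : V → V → V × V) (T : V × V → Finset V), ItemDat A B R itm T := by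
  obtain ⟨κ, hκ⟩ : ∃ κ : V → ℕ, Function.Injective κ :=
    ⟨fun v => (Fintype.equivFin V v : ℕ), fun a b h => (Fintype.equivFin V).injective (Fin.ext h)⟩
  set YA := (A ×ˢ A).filter (fun q => R q.1 q.2 ∧ κ q.1 < κ q.2) with hYA
  set YB := (B ×ˢ B).filter (fun q => R q.1 q.2 ∧ κ q.1 < κ q.2) with hYB
  have hc : YB.card = YA.card := by
    have e1 := half_count κ hκ A R hs hirr
    have e2 := half_count κ hκ B R hs hirr
    rw [hYA, hYB]; omega
  obtain ⟨β, hβ1, hβ2, hβ3⟩ : ∃ β : V × V → V × V, (∀ p ∈ YB, β p ∈ YA) ∧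
      (∀ p ∈ YB, ∀ q ∈ YB, β p = β q → p = q) ∧ (∀ i ∈ YA, ∃ p ∈ YB, β p = i) := by
    have e := Finset.equivOfCardEq hc
    refine ⟨fun p => if hp : p ∈ YB then (e ⟨p, hp⟩).1 else p, ?_, ?_, ?_⟩
    · intro p hp
      simp only [hp, dif_pos]
      exact (e ⟨p, hp⟩).2
    · intro p hp q hq h
      simp only [hp, hq, dif_pos] at h
      have := e.injective (Subtype.ext h)
      exact congrArg Subtype.val this
    · intro i hi
      refine ⟨(e.symm ⟨i, hi⟩).1, (e.symm ⟨i, hi⟩).2, ?_⟩
      simp only [(e.symm ⟨i, hi⟩).2, dif_pos]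
      simp
  have hdis : ∀ u, u ∈ A → u ∈ B → False := fun u h1 h2 => Finset.disjoint_left.1 hAB h1 h2
  obtain ⟨pk, hpk1, hpk2⟩ : ∃ pk : V → V → V × V, (∀ u v, κ u < κ v → pk u v = (u, v)) ∧
      (∀ u v, ¬ κ u < κ v → pk u v = (v, u)) :=
    ⟨fun u v => if κ u < κ v then (u, v) else (v, u), fun u v h => if_pos h, fun u v h => if_neg h⟩
  have hpksymm : ∀ u v, R u v → pk u v = pk v u := by
    intro u v h
    have hne : κ u ≠ κ v := fun h' => by
      have := hκ h'; subst this; exact hirr _ h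
    rcases lt_or_gt_of_ne hne with h' | h'
    · rw [hpk1 u v h', hpk2 v u (by omega)]
    · rw [hpk2 u v (by omega), hpk1 v u h']
  have hpkc : ∀ u v, (pk u v = (u, v) ∨ pk u v = (v, u)) := by
    intro u v
    by_cases h : κ u < κ v
    · exact Or.inl (hpk1 u v h)
    · exact Or.inr (hpk2 u v h)
  have hpkinj : ∀ u v w, pk u v = pk u w → v = w := by
    intro u v w h
    rcases hpkc u v with h1 | h1 <;> rcases hpkc u w with h2 | h2 <;> rw [h1, h2] at h <;>
      simp only [Prod.mk.injEq] at h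
    · exact h.2
    · exact h.2.trans h.1
    · exact h.1.trans h.2
    · exact h.1
  have hpkB : ∀ u v, R u v → u ∈ B → v ∈ B → pk u v ∈ YB := by
    intro u v h hu hv
    have hne : κ u ≠ κ v := fun h' => by
      have := hκ h'; subst this; exact hirr _ h
    rw [hYB, mem_filter, mem_product]
    rcases lt_or_gt_of_ne hne with h' | h'
    · rw [hpk1 u v h']; exact ⟨⟨hu, hv⟩, h, h'⟩
    · rw [hpk2 u v (by omega)]; exact ⟨⟨hv, hu⟩, hs _ _ h, h'⟩
  obtain ⟨itm, hi1, hi2⟩ : ∃ itm : V → V → V × V,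
      (∀ u v, u ∈ B → v ∈ B → itm u v = β (pk u v)) ∧
      (∀ u v, ¬ (u ∈ B ∧ v ∈ B) → itm u v = pk u v) :=
    ⟨fun u v => if u ∈ B ∧ v ∈ B then β (pk u v) else pk u v,
      fun u v h1 h2 => if_pos ⟨h1, h2⟩, fun u v h => if_neg h⟩
  have hYAin : ∀ i ∈ YA, i.1 ∈ A ∧ i.2 ∈ A ∧ R i.1 i.2 ∧ κ i.1 < κ i.2 := by
    intro i hi
    rw [hYA, mem_filter, mem_product] at hi
    exact ⟨hi.1.1, hi.1.2, hi.2.1, hi.2.2⟩
  have hYBin : ∀ i ∈ YB, i.1 ∈ B ∧ i.2 ∈ B ∧ R i.1 i.2 ∧ κ i.1 < κ i.2 := by
    intro i hi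
    rw [hYB, mem_filter, mem_product] at hi
    exact ⟨hi.1.1, hi.1.2, hi.2.1, hi.2.2⟩
  refine ⟨itm, fun i => univ.filter (fun u => ∃ v, R u v ∧ itm u v = i), ?_⟩
  have hmem : ∀ i u, u ∈ univ.filter (fun u => ∃ v, R u v ∧ itm u v = i) ↔
      ∃ v, R u v ∧ itm u v = i := by
    intro i u; simp
  -- the structure of the items
  have hA : ∀ i u, u ∈ A → (∃ v, R u v ∧ itm u v = i) → R i.1 i.2 ∧ κ i.1 < κ i.2 ∧
      (u = i.1 ∨ u = i.2) := by
    rintro i u hu ⟨v, hR, hv⟩
    have h1 : ¬ (u ∈ B ∧ v ∈ B) := fun h => hdis u hu h.1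
    rw [hi2 u v h1] at hv
    have hne : κ u ≠ κ v := fun h' => by
      have := hκ h'; subst this; exact hirr _ hR
    rcases lt_or_gt_of_ne hne with h' | h'
    · rw [hpk1 u v h'] at hv
      rw [← hv]; exact ⟨hR, h', Or.inl rfl⟩
    · rw [hpk2 u v (by omega)] at hv
      rw [← hv]; exact ⟨hs _ _ hR, h', Or.inr rfl⟩
  have hother : ∀ i : V × V, R i.1 i.2 → κ i.1 < κ i.2 → ¬ (i.1 ∈ B ∧ i.2 ∈ B) →
      (∃ v, R i.1 v ∧ itm i.1 v = i) ∧ (∃ v, R i.2 v ∧ itm i.2 v = i) := by
    intro i hR hlt hnB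
    refine ⟨⟨i.2, hR, ?_⟩, ⟨i.1, hs _ _ hR, ?_⟩⟩
    · rw [hi2 _ _ hnB, hpk1 _ _ hlt]
    · rw [hi2 _ _ (fun h => hnB ⟨h.2, h.1⟩), hpk2 _ _ (by omega)]
  have hcase : ∀ i, ((univ.filter (fun u => ∃ v, R u v ∧ itm u v = i)) ∩ A).card ≤ 2 ∧
      ((univ.filter (fun u => ∃ v, R u v ∧ itm u v = i)) ∩ A).card =
      ((univ.filter (fun u => ∃ v, R u v ∧ itm u v = i)) ∩ B).card := by
    intro i
    by_cases hiY : R i.1 i.2 ∧ κ i.1 < κ i.2 ∧ ¬ (i.1 ∈ B ∧ i.2 ∈ B)
    · obtain ⟨hR, hlt, hnB⟩ := hiY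
      obtain ⟨ho1, ho2⟩ := hother i hR hlt hnB
      have hne : i.1 ≠ i.2 := fun h => by rw [h] at hR; exact hirr _ hR
      rcases hin _ _ hR with h1 | h1
      · rcases hin _ _ (hs _ _ hR) with h2 | h2
        · -- both in `A`
          have hiA : i ∈ YA := by
            rw [hYA, mem_filter, mem_product]; exact ⟨⟨h1, h2⟩, hR, hlt⟩
          obtain ⟨p, hp, hpi⟩ := hβ3 i hiA
          obtain ⟨p1, p2, p3, p4⟩ := hYBin p hp
          have e1 : (univ.filter (fun u => ∃ v, R u v ∧ itm u v = i)) ∩ A = {i.1, i.2} := by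
            ext u
            rw [mem_inter, hmem, mem_insert, mem_singleton]
            constructor
            · rintro ⟨h, hu⟩
              exact (hA i u hu h).2.2
            · rintro (rfl | rfl)
              · exact ⟨ho1, h1⟩
              · exact ⟨ho2, h2⟩
          have e2 : (univ.filter (fun u => ∃ v, R u v ∧ itm u v = i)) ∩ B = {p.1, p.2} := by
            ext u
            rw [mem_inter, hmem, mem_insert, mem_singleton]
            constructor
            · rintro ⟨⟨v, hv, hv2⟩, hu⟩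
              by_cases hvB : v ∈ B
              · rw [hi1 u v hu hvB] at hv2
                have h3 := hβ2 _ (hpkB u v hv hu hvB) _ hp (hv2.trans hpi.symm)
                rcases hpkc u v with h4 | h4
                · left; rw [← h3, h4]
                · right; rw [← h3, h4]
              · exfalso
                rw [hi2 u v (fun h => hvB h.2)] at hv2
                rcases hpkc u v with h4 | h4
                · rw [← hv2, h4] at h1; exact hdis u h1 hu
                · rw [← hv2, h4] at h2; exact hdis u h2 hu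
            · rintro (rfl | rfl)
              · refine ⟨⟨p.2, p3, ?_⟩, p1⟩
                rw [hi1 _ _ p1 p2, hpk1 _ _ p4]; exact hpi
              · refine ⟨⟨p.1, hs _ _ p3, ?_⟩, p2⟩
                rw [hi1 _ _ p2 p1, hpk2 _ _ (by omega)]; exact hpi
          have hpne : p.1 ≠ p.2 := fun h => by rw [h] at p3; exact hirr _ p3
          rw [e1, e2, card_pair hne, card_pair hpne]
          exact ⟨le_refl _, rfl⟩
        · -- `i.1 ∈ A`, `i.2 ∈ B`
          have e1 : (univ.filter (fun u => ∃ v, R u v ∧ itm u v = i)) ∩ A = {i.1} := by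
            ext u
            rw [mem_inter, hmem, mem_singleton]
            constructor
            · rintro ⟨h, hu⟩
              rcases (hA i u hu h).2.2 with h3 | h3
              · exact h3
              · exfalso; rw [h3] at hu; exact hdis _ hu h2
            · rintro rfl
              exact ⟨ho1, h1⟩
          have e2 : (univ.filter (fun u => ∃ v, R u v ∧ itm u v = i)) ∩ B = {i.2} := by
            ext u
            rw [mem_inter, hmem, mem_singleton]
            constructor
            · rintro ⟨⟨v, hv, hv2⟩, hu⟩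
              by_cases hvB : v ∈ B
              · exfalso
                rw [hi1 u v hu hvB] at hv2
                have h3 := hβ1 _ (hpkB u v hv hu hvB)
                rw [hv2] at h3
                exact hdis _ (hYAin i h3).2.1 h2
              · rw [hi2 u v (fun h => hvB h.2)] at hv2
                rcases hpkc u v with h4 | h4
                · exfalso; rw [← hv2, h4] at h1; exact hdis u h1 hu
                · rw [← hv2, h4]
            · rintro rfl
              exact ⟨ho2, h2⟩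
          rw [e1, e2, card_singleton, card_singleton]
          exact ⟨by norm_num, rfl⟩
      · rcases hin _ _ (hs _ _ hR) with h2 | h2
        · -- `i.1 ∈ B`, `i.2 ∈ A`
          have e1 : (univ.filter (fun u => ∃ v, R u v ∧ itm u v = i)) ∩ A = {i.2} := by
            ext u
            rw [mem_inter, hmem, mem_singleton]
            constructor
            · rintro ⟨h, hu⟩
              rcases (hA i u hu h).2.2 with h3 | h3
              · exfalso; rw [h3] at hu; exact hdis _ hu h1
              · exact h3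
            · rintro rfl
              exact ⟨ho2, h2⟩
          have e2 : (univ.filter (fun u => ∃ v, R u v ∧ itm u v = i)) ∩ B = {i.1} := by
            ext u
            rw [mem_inter, hmem, mem_singleton]
            constructor
            · rintro ⟨⟨v, hv, hv2⟩, hu⟩
              by_cases hvB : v ∈ B
              · exfalso
                rw [hi1 u v hu hvB] at hv2
                have h3 := hβ1 _ (hpkB u v hv hu hvB)
                rw [hv2] at h3
                exact hdis _ (hYAin i h3).1 h1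
              · rw [hi2 u v (fun h => hvB h.2)] at hv2
                rcases hpkc u v with h4 | h4
                · rw [← hv2, h4]
                · exfalso; rw [← hv2, h4] at h2; exact hdis u h2 hu
            · rintro rfl
              exact ⟨ho1, h1⟩
          rw [e1, e2, card_singleton, card_singleton]
          exact ⟨by norm_num, rfl⟩
        · exact absurd ⟨h1, h2⟩ hnB
    · -- not an item
      have e : ∀ u, ¬ ∃ v, R u v ∧ itm u v = i := by
        rintro u ⟨v, hv, hv2⟩
        apply hiY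
        have hne : κ u ≠ κ v := fun h' => by
          have := hκ h'; subst this; exact hirr _ hv
        by_cases hB : u ∈ B ∧ v ∈ B
        · rw [hi1 u v hB.1 hB.2] at hv2
          have h3 := hβ1 _ (hpkB u v hv hB.1 hB.2)
          rw [hv2] at h3
          obtain ⟨q1, q2, q3, q4⟩ := hYAin i h3
          exact ⟨q3, q4, fun h => hdis _ q1 h.1⟩
        · rw [hi2 u v hB] at hv2
          rcases lt_or_gt_of_ne hne with h' | h'
          · rw [hpk1 u v h'] at hv2
            rw [← hv2]; exact ⟨hv, h', hB⟩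
          · rw [hpk2 u v (by omega)] at hv2
            rw [← hv2]; exact ⟨hs _ _ hv, h', fun h => hB ⟨h.2, h.1⟩⟩
      have e2 : univ.filter (fun u => ∃ v, R u v ∧ itm u v = i) = ∅ := by
        rw [Finset.filter_eq_empty_iff]; intro u _; exact e u
      rw [e2]; simp
  refine ⟨hmem, ?_, ?_, fun i => (hcase i).1, fun i => (hcase i).2⟩
  · intro u v h
    by_cases hB : u ∈ B ∧ v ∈ B
    · rw [hi1 u v hB.1 hB.2, hi1 v u hB.2 hB.1, hpksymm u v h]
    · rw [hi2 u v hB, hi2 v u (fun h => hB ⟨h.2, h.1⟩), hpksymm u v h]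
  · intro u v w h1 h2 h
    by_cases hv : u ∈ B ∧ v ∈ B
    · by_cases hw : u ∈ B ∧ w ∈ B
      · rw [hi1 u v hv.1 hv.2, hi1 u w hw.1 hw.2] at h
        exact hpkinj u v w (hβ2 _ (hpkB u v h1 hv.1 hv.2) _ (hpkB u w h2 hw.1 hw.2) h)
      · exfalso
        rw [hi1 u v hv.1 hv.2, hi2 u w hw] at h
        have h3 := hβ1 _ (hpkB u v h1 hv.1 hv.2)
        rw [h] at h3
        obtain ⟨q1, q2, -, -⟩ := hYAin _ h3
        rcases hpkc u w with h4 | h4
        · rw [h4] at q1; exact hdis u q1 hv.1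
        · rw [h4] at q2; exact hdis u q2 hv.1
    · by_cases hw : u ∈ B ∧ w ∈ B
      · exfalso
        rw [hi2 u v hv, hi1 u w hw.1 hw.2] at h
        have h3 := hβ1 _ (hpkB u w h2 hw.1 hw.2)
        rw [← h] at h3
        obtain ⟨q1, q2, -, -⟩ := hYAin _ h3
        rcases hpkc u v with h4 | h4
        · rw [h4] at q1; exact hdis u q1 hw.1
        · rw [h4] at q2; exact hdis u q2 hw.1
      · rw [hi2 u v hv, hi2 u w hw] at h
        exact hpkinj u v w h

theorem s2a : ∃ r0 : ℕ, ∀ r ≥ r0, ∀ (V : Type) [Fintype V] [DecidableEq V] (m : SQ V) (c : V → ℕ)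
    (E W A B H : Finset V) (f : V → V → V), W.card = r → r ^ 10 ≤ Fintype.card V →
    Fintype.card V ≤ 2 * r ^ 10 → GoodW m c E W → Part m W A B → Stage1 m c W A B H f →
    ∃ (H2 : Finset V) (b : V → V → V), Base m c W A B H f H2 b := by
  refine ⟨10 ^ 7, ?_⟩
  intro r hr V _ _ m c E W A B H f hWr _ hV hW hP hS
  classical
  have hrR : (10 : ℝ) ^ 7 ≤ r := by exact_mod_cast hr
  have hr0 : (0 : ℝ) < r := lt_of_lt_of_le (by norm_num) hrR
  -- the colours
  have hHW : H ⊆ W := hS.st.sub
  have hdiff : r / 10 ≤ (W \ H).card := by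
    rw [card_sdiff_of_subset hHW, hWr]
    have h1 : (H.card : ℝ) ≤ 51 / 100 * r := by
      have := hS.hcard; rwa [hWr] at this
    have h2 : 100 * H.card ≤ 51 * r := by
      have : (100 * H.card : ℝ) ≤ 51 * r := by linarith
      exact_mod_cast this
    omega
  obtain ⟨H2, hH2sub, hH2card⟩ := Finset.exists_subset_card_eq hdiff
  have hH2W : ∀ h ∈ H2, h ∈ W := fun h hh => (mem_sdiff.1 (hH2sub hh)).1
  have hCcard : Fintype.card {h // h ∈ H2} = r / 10 := by rw [Fintype.card_coe, hH2card]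
  -- the relation
  obtain ⟨R, hR⟩ : ∃ R : V → V → Prop, ∀ u v, R u v ↔ (adj m W u v ∧ ¬ used H f u v ∧
      (¬ cross A B u v ∨ c u = c v)) := ⟨fun u v => _, fun u v => Iff.rfl⟩
  have husym : ∀ u v, used H f u v → used H f v u := by
    rintro u v ⟨h, hh, rfl⟩
    exact ⟨h, hh, (hS.st.mat h hh).inv u⟩
  have hRs : ∀ u v, R u v → R v u := by
    intro u v h
    rw [hR] at h ⊢
    refine ⟨adj_symm m W u v h.1, fun h' => h.2.1 (husym v u h'), ?_⟩
    rcases h.2.2 with h' | h'
    · exact Or.inl (fun h2 => h' (cross_symm A B v u h2))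
    · exact Or.inr h'.symm
  have hRirr : ∀ u, ¬ R u u := by
    intro u h
    rw [hR] at h
    exact h.1.2.2.1 rfl
  have hout : ∀ u, u ∉ W → u ∈ A ∨ u ∈ B := by
    intro u hu
    have : u ∈ A ∪ B := by rw [hP.union]; exact mem_sdiff.2 ⟨mem_univ _, hu⟩
    exact mem_union.1 this
  have hRin : ∀ u v, R u v → u ∈ A ∨ u ∈ B := by
    intro u v h
    rw [hR] at h
    exact hout u h.1.1
  have hdis : ∀ u, u ∈ A → u ∈ B → False := fun u h1 h2 => Finset.disjoint_left.1 hP.disj h1 h2
  have hbal : ((A ×ˢ A).filter (fun q => R q.1 q.2)).card =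
      ((B ×ˢ B).filter (fun q => R q.1 q.2)).card := by
    have e1 : (A ×ˢ A).filter (fun q => R q.1 q.2) =
        (A ×ˢ A).filter (fun q => adj m W q.1 q.2 ∧ ¬ used H f q.1 q.2) := by
      apply Finset.filter_congr
      rintro ⟨x, y⟩ hxy
      rw [mem_product] at hxy
      rw [hR]
      constructor
      · rintro ⟨h1, h2, -⟩; exact ⟨h1, h2⟩
      · rintro ⟨h1, h2⟩
        refine ⟨h1, h2, Or.inl ?_⟩
        rintro (⟨-, h3⟩ | ⟨h3, -⟩)
        · exact hdis y hxy.2 h3
        · exact hdis x hxy.1 h3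
    have e2 : (B ×ˢ B).filter (fun q => R q.1 q.2) =
        (B ×ˢ B).filter (fun q => adj m W q.1 q.2 ∧ ¬ used H f q.1 q.2) := by
      apply Finset.filter_congr
      rintro ⟨x, y⟩ hxy
      rw [mem_product] at hxy
      rw [hR]
      constructor
      · rintro ⟨h1, h2, -⟩; exact ⟨h1, h2⟩
      · rintro ⟨h1, h2⟩
        refine ⟨h1, h2, Or.inl ?_⟩
        rintro (⟨h3, -⟩ | ⟨-, h3⟩)
        · exact hdis x h3 hxy.1
        · exact hdis y h3 hxy.2
    rw [e1, e2]
    exact hS.bal
  obtain ⟨itm, T, hI⟩ := exists_items A B hP.disj R hRs hRirr hRin hbal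
  have hRW : ∀ u v, R u v → u ∉ W := by
    intro u v h
    rw [hR] at h; exact h.1.1
  have hTin : ∀ i u, u ∈ T i → u ∈ A ∨ u ∈ B := by
    intro i u hu
    obtain ⟨v, hv, -⟩ := (hI.mem i u).1 hu
    exact hRin u v hv
  have hT : ∀ i, (T i).card ≤ 4 := by
    intro i
    have h1 : T i ⊆ (T i ∩ A) ∪ (T i ∩ B) := by
      intro u hu
      rcases hTin i u hu with h | h
      · exact mem_union_left _ (mem_inter.2 ⟨hu, h⟩)
      · exact mem_union_right _ (mem_inter.2 ⟨hu, h⟩)
    have h2 := card_le_card h1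
    have h3 := card_union_le (T i ∩ A) (T i ∩ B)
    have h4 := hI.cardA i
    have h5 := hI.eqAB i
    omega
  -- the degrees
  set Δ := r / 20000 + 4 with hΔ
  have hdeg : ∀ v, (univ.filter (fun i => v ∈ T i)).card ≤ Δ := by
    intro v
    have h1 : univ.filter (fun i => v ∈ T i) ⊆ (univ.filter (fun w => R v w)).image (itm v) := by
      intro i hi
      rw [mem_filter] at hi
      obtain ⟨w, hw, hw2⟩ := (hI.mem i v).1 hi.2
      exact mem_image.2 ⟨w, mem_filter.2 ⟨mem_univ _, hw⟩, hw2⟩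
    have h2 : (univ.filter (fun i => v ∈ T i)).card ≤ (univ.filter (fun w => R v w)).card :=
      (card_le_card h1).trans card_image_le
    refine h2.trans ?_
    by_cases hv : v ∈ W
    · have : univ.filter (fun w => R v w) = ∅ := by
        rw [Finset.filter_eq_empty_iff]
        intro w _ h
        exact hRW v w h hv
      rw [this]; simp
    · have h3 : univ.filter (fun w => R v w) ⊆
          (univ.filter (fun u => adj m W v u ∧ ¬ used H f v u ∧ ¬ cross A B v u)) ∪
          (univ.filter (fun u => adj m W v u ∧ c u = c v)) := by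
        intro w hw
        rw [mem_filter, hR] at hw
        rw [mem_union, mem_filter, mem_filter]
        rcases hw.2.2.2 with h | h
        · exact Or.inl ⟨mem_univ _, hw.2.1, hw.2.2.1, h⟩
        · exact Or.inr ⟨mem_univ _, hw.2.1, h.symm⟩
      have h4 := (card_le_card h3).trans (card_union_le _ _)
      have h5 := hS.left v hv
      have h6 := hW.mono v hv
      rw [hWr] at h5
      have h7 : (univ.filter (fun u => adj m W v u ∧ ¬ used H f v u ∧ ¬ cross A B v u)).card ≤
          r / 20000 := by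
        rw [Nat.le_div_iff_mul_le (by norm_num)]
        have : (((univ.filter (fun u => adj m W v u ∧ ¬ used H f v u ∧
          ¬ cross A B v u)).card : ℕ) : ℝ) * 20000 ≤ r := by linarith
        exact_mod_cast this
      omega
  -- forbidden colours
  obtain ⟨Forb, hForb⟩ : ∃ Forb : V × V → Finset {h // h ∈ H2}, ∀ i h, h ∈ Forb i ↔
      ∃ u v, R u v ∧ itm u v = i ∧ ((c u = c v ∧ c u = c h.1) ∨ u ∈ Zs m W h.1) :=
    ⟨fun i => univ.filter (fun h => ∃ u v, R u v ∧ itm u v = i ∧
      ((c u = c v ∧ c u = c h.1) ∨ u ∈ Zs m W h.1)), fun i h => by simp⟩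
  have hF : ∀ i, (Forb i).card ≤ 12 := by
    intro i
    have h1 : Forb i ⊆ (T i).biUnion (fun u => univ.filter (fun h : {h // h ∈ H2} =>
        c u = c h.1 ∨ u ∈ Zs m W h.1)) := by
      intro h hh
      obtain ⟨u, v, hu, hv, h3⟩ := (hForb i h).1 hh
      rw [mem_biUnion]
      refine ⟨u, (hI.mem i u).2 ⟨v, hu, hv⟩, mem_filter.2 ⟨mem_univ _, ?_⟩⟩
      rcases h3 with h3 | h3
      · exact Or.inl h3.2
      · exact Or.inr h3
    have h2 : ∀ u ∈ T i, (univ.filter (fun h : {h // h ∈ H2} =>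
        c u = c h.1 ∨ u ∈ Zs m W h.1)).card ≤ 3 := by
      intro u _
      rw [Finset.filter_or]
      refine (card_union_le _ _).trans ?_
      have a1 : (univ.filter (fun h : {h // h ∈ H2} => c u = c h.1)).card ≤ 1 := by
        rw [Finset.card_le_one]
        intro x hx y hy
        rw [mem_filter] at hx hy
        exact Subtype.ext (hW.cinj _ (hH2W _ x.2) _ (hH2W _ y.2) (hx.2.symm.trans hy.2))
      have a2 : (univ.filter (fun h : {h // h ∈ H2} => u ∈ Zs m W h.1)).card ≤
          (W.filter (fun h => u ∈ Zs m W h)).card := by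
        apply card_le_card_of_injOn Subtype.val
        · intro x hx
          rw [Finset.mem_coe, mem_filter] at hx ⊢
          exact ⟨hH2W _ x.2, hx.2⟩
        · intro x _ y _ h
          exact Subtype.ext h
      have a3 := le_two hW u
      omega
    calc (Forb i).card ≤ ((T i).biUnion (fun u => univ.filter (fun h : {h // h ∈ H2} =>
        c u = c h.1 ∨ u ∈ Zs m W h.1))).card := card_le_card h1
      _ ≤ (T i).card * 3 := card_biUnion_le_card_mul _ _ _ h2
      _ ≤ 4 * 3 := Nat.mul_le_mul_right _ (hT i)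
      _ = 12 := by norm_num
  have hN : ∀ v, (univ.filter (fun u => adj m W v u)).card ≤ r := by
    intro v
    rw [← hWr]; exact deg_le m W v
  have hl : 8 * Δ + 24 ≤ Fintype.card {h // h ∈ H2} := by
    rw [hCcard, hΔ]; omega
  obtain ⟨col, hc1, hc2, hc3⟩ := colLemma T Forb (fun v => univ.filter (fun u => adj m W v u)) Δ r
    hT hdeg hF hN hl
  -- the matchings
  have hK3 : ∀ u v w, R u v → R u w → col (itm u v) = col (itm u w) → v = w := by
    intro u v w h1 h2 h
    by_cases hij : itm u v = itm u w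
    · exact hI.inj u v w h1 h2 hij
    · exfalso
      have h3 := hc2 _ _ hij h
      exact Finset.disjoint_left.1 h3 ((hI.mem _ u).2 ⟨v, h1, rfl⟩) ((hI.mem _ u).2 ⟨w, h2, rfl⟩)
  obtain ⟨b, hb1, hb2⟩ : ∃ b : V → V → V,
      (∀ h u v, R u v → (col (itm u v)).1 = h → b h u = v) ∧
      (∀ h u, b h u ≠ u → R u (b h u) ∧ (col (itm u (b h u))).1 = h) := by
    refine ⟨fun h u => if hx : ∃ v, R u v ∧ (col (itm u v)).1 = h then hx.choose else u, ?_, ?_⟩
    · intro h u v h1 h2
      have hx : ∃ v, R u v ∧ (col (itm u v)).1 = h := ⟨v, h1, h2⟩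
      simp only [hx, dif_pos]
      exact hK3 u _ v hx.choose_spec.1 h1 (Subtype.ext (hx.choose_spec.2.trans h2.symm))
    · intro h u h1
      by_cases hx : ∃ v, R u v ∧ (col (itm u v)).1 = h
      · simp only [hx, dif_pos]
        exact hx.choose_spec
      · simp only [hx, dif_neg, not_false_eq_true] at h1
        exact absurd rfl h1
  have hcov : ∀ (S : Finset V) (h : V) (hh : h ∈ H2), S.filter (fun u => b h u ≠ u) =
      (univ.filter (fun i => col i = ⟨h, hh⟩)).biUnion (fun i => T i ∩ S) := by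
    intro S h hh
    ext u
    rw [mem_filter, mem_biUnion]
    constructor
    · rintro ⟨hu, hbu⟩
      obtain ⟨h1, h2⟩ := hb2 h u hbu
      exact ⟨itm u (b h u), mem_filter.2 ⟨mem_univ _, Subtype.ext h2⟩,
        mem_inter.2 ⟨(hI.mem _ u).2 ⟨_, h1, rfl⟩, hu⟩⟩
    · rintro ⟨i, hi, hu⟩
      rw [mem_filter] at hi
      rw [mem_inter] at hu
      obtain ⟨v, hv, hv2⟩ := (hI.mem i u).1 hu.1
      refine ⟨hu.2, ?_⟩
      rw [hb1 h u v hv (by rw [hv2, hi.2])]
      intro h3
      rw [h3] at hv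
      exact hRirr _ hv
  refine ⟨H2, b, ?_⟩
  refine ⟨hH2sub, ?_, ?_, ?_, ?_, ?_, ?_, ?_, ?_⟩
  · -- card
    rw [hH2card, hWr]
    exact_mod_cast (Nat.cast_div_le (α := ℝ) (m := r) (n := 10))
  · -- inv
    intro h _ u
    by_cases hu : b h u = u
    · rw [hu, hu]
    · obtain ⟨h1, h2⟩ := hb2 h u hu
      exact hb1 h _ _ (hRs _ _ h1) (by rw [← hI.symm _ _ h1]; exact h2)
  · -- edge
    intro h hh u hu
    obtain ⟨h1, h2⟩ := hb2 h u hu
    have h3 := (hR _ _).1 h1
    refine ⟨h3.1, h3.2.1, h3.2.2, ?_⟩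
    intro h4
    apply hc1 (itm u (b h u))
    rw [hForb]
    exact ⟨u, b h u, h1, rfl, Or.inr (by rw [h2]; exact h4)⟩
  · -- good
    intro h hh u hu h4
    obtain ⟨h1, h2⟩ := hb2 h u hu
    apply hc1 (itm u (b h u))
    rw [hForb]
    exact ⟨u, b h u, h1, rfl, Or.inl ⟨h4.1.symm, by rw [h2]; exact h4.2⟩⟩
  · -- disj
    intro h _ h' _ hne u hu
    by_contra hu2
    obtain ⟨h1, h2⟩ := hb2 h u hu2
    have hu3 : b h' u ≠ u := by rw [← hu]; exact hu2
    obtain ⟨h3, h4⟩ := hb2 h' u hu3
    rw [← hu, h2] at h4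
    exact hne h4
  · -- bal
    intro h hh
    have hdisj : ∀ S : Finset V, ((univ.filter (fun i => col i = ⟨h, hh⟩)).biUnion
        (fun i => T i ∩ S)).card = ∑ i ∈ univ.filter (fun i => col i = ⟨h, hh⟩), (T i ∩ S).card := by
      intro S
      apply card_biUnion
      intro i hi j hj hij
      rw [Finset.mem_coe, mem_filter] at hi hj
      have := hc2 i j hij (hi.2.trans hj.2.symm)
      show Disjoint (T i ∩ S) (T j ∩ S)
      exact Disjoint.mono inter_subset_left inter_subset_left this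
    rw [hcov A h hh, hcov B h hh, hdisj, hdisj]
    exact sum_congr rfl (fun i _ => hI.eqAB i)
  · -- cover
    intro u v h1 h2 h3
    have h4 : R u v := (hR u v).2 ⟨h1, h2, h3⟩
    exact ⟨(col (itm u v)).1, (col (itm u v)).2, hb1 _ u v h4 rfl⟩
  · -- fair
    intro h hh v hv
    have h1 : (univ.filter (fun u => adj m W v u ∧ b h u ≠ u)) =
        (univ.filter (fun i => col i = ⟨h, hh⟩)).biUnion
          (fun i => T i ∩ univ.filter (fun u => adj m W v u)) := by
      rw [← hcov (univ.filter (fun u => adj m W v u)) h hh, Finset.filter_filter]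
    have h2 : (univ.filter (fun u => adj m W v u ∧ b h u ≠ u)).card ≤
        ∑ i, if col i = ⟨h, hh⟩ then (univ.filter (fun u => adj m W v u) ∩ T i).card else 0 := by
      rw [h1, ← Finset.sum_filter]
      refine card_biUnion_le.trans (le_of_eq ?_)
      exact sum_congr rfl (fun i _ => by rw [inter_comm])
    have h3 := hc3 v ⟨h, hh⟩
    have h4 := s2a_num hr hV hCcard hΔ h3
    rw [hWr]
    have h5 : ((univ.filter (fun u => adj m W v u ∧ b h u ≠ u)).card : ℝ) ≤
        ((∑ i, if col i = ⟨h, hh⟩ then (univ.filter (fun u => adj m W v u) ∩ T i).card else 0 : ℕ) : ℝ) := by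
      exact_mod_cast h2
    exact h5.trans h4

end Pool.Agent.CHS
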