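import Pool.Agent.CHS.Complete
import Pool.Agent.CHS.Basic

/-!
# CHS/S2b: completing the base matchings of stage 2

Induction over the elements `h` of `H2` (over subsets `K ⊆ H2` of treated colours).  Invariant: a
family `f'` with `f' = f` on `H`, `State m W (H ∪ K) f'`, `f' h u = b h u` whenever `h ∈ K` and
`b h u ≠ u`, and `cross A B u (f' h u) ∧ c u ≠ c (f' h u)` whenever `h ∈ K`, `b h u = u` and
`f' h u ≠ u`.
Step for `h ∈ H2 \ K`: the pool is
`P u v := adj m W u v ∧ cross A B u v ∧ c u ≠ c v ∧ ¬ used (H ∪ K) f' u v` (symmetric, since the `f'` are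
involutions).  For `v ∉ W` the number of `u` with `P v u` is at least
`(1/2 - 10⁻¹³) r - 4 - r/10000 - r/10 ≥ 0.39 r` (degree to the other side by `Part`, mono pairs by
`GoodW.mono`, pairs used by `H` by `Stage1.usage`, pairs used by `K`: at most one for each element of
`K`).  Of these at most `r/20` have `b h u ≠ u` (`Base.fair`) and at most 6 lie in `Zs m W h ⊆ Zall`
(`zdeg`), so `τ = 0.3 r` works in `complete`, since
`r |B| / (2 n) + 10⁻⁷ r ≤ r/4 + 10⁻⁷ r < 0.3 r` (`2|B| + r - 1 = |A| + |B| ≤ n`).
`complete` gives `f' h`.  Disjointness from the earlier matchings: the pairs of `b h` are not used by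
`H`, and are not used by `h' ∈ K`: the pairs of `f' h'` are those of `b h'` (disjoint by `Base.disj`)
or cross pairs with `c u ≠ c v`, while pairs of `b h` are inside or have `c u = c v`; the new pool pairs
are unused by definition.
At the end (`K = H2`): `Stage2` holds for `H ∪ H2`: `good` by `Stage1.nonmono` on `H` and by `Base.good`,
respectively `c u ≠ c v`, on `H2`; `rest`: an unused pair which is inside or has `c u = c v` would be
covered by some `b h` (`Base.cover`).
-/

set_option autoImplicit false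

namespace Pool.Agent.CHS
open Finset

/-- the invariant of the induction -/
structure InvS2b {V : Type} [Fintype V] [DecidableEq V] (m : SQ V) (c : V → ℕ)
    (W A B H : Finset V) (f b : V → V → V) (K : Finset V) (f' : V → V → V) : Prop where
  i1 : ∀ x ∈ H, f' x = f x
  i2 : State m W (H ∪ K) f'
  i3 : ∀ x ∈ K, ∀ u, b x u ≠ u → f' x u = b x u
  i4 : ∀ x ∈ K, ∀ u, b x u = u → f' x u ≠ u → cross A B u (f' x u) ∧ c u ≠ c (f' x u)

/-- the pool -/
def poolS2b {V : Type} [Fintype V] [DecidableEq V] (m : SQ V) (c : V → ℕ)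
    (W A B L : Finset V) (f' : V → V → V) (u v : V) : Prop :=
  adj m W u v ∧ cross A B u v ∧ c u ≠ c v ∧ ¬ used L f' u v

instance instPoolS2b {V : Type} [Fintype V] [DecidableEq V] (m : SQ V) (c : V → ℕ)
    (W A B L : Finset V) (f' : V → V → V) : DecidableRel (poolS2b m c W A B L f') := by
  intro u v
  unfold poolS2b
  infer_instance

section
variable {V : Type} [Fintype V] [DecidableEq V] {m : SQ V} {c : V → ℕ}
  {E W A B H : Finset V} {f : V → V → V} {H2 : Finset V} {b : V → V → V}

theorem crossdeg_s2b (hP : Part m W A B) (v : V) (hv : v ∉ W) :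
    (W.card : ℝ) / 2 - (1 / 10 ^ 13) * W.card ≤
      ((univ.filter (fun u => adj m W v u ∧ cross A B v u)).card : ℝ) := by
  have hmem : v ∈ A ∨ v ∈ B := by
    rw [← mem_union, hP.union, mem_sdiff]
    exact ⟨mem_univ _, hv⟩
  rcases hmem with h | h
  · have h1 := (abs_le.mp (hP.degB v hv)).1
    have h2 : ((univ.filter (fun u => adj m W v u ∧ u ∈ B)).card : ℝ) ≤
        ((univ.filter (fun u => adj m W v u ∧ cross A B v u)).card : ℝ) := by
      norm_cast
      refine card_le_card ?_
      intro u hu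
      rw [mem_filter] at hu ⊢
      exact ⟨hu.1, hu.2.1, Or.inl ⟨h, hu.2.2⟩⟩
    linarith
  · have h1 := (abs_le.mp (hP.degA v hv)).1
    have h2 : ((univ.filter (fun u => adj m W v u ∧ u ∈ A)).card : ℝ) ≤
        ((univ.filter (fun u => adj m W v u ∧ cross A B v u)).card : ℝ) := by
      norm_cast
      refine card_le_card ?_
      intro u hu
      rw [mem_filter] at hu ⊢
      exact ⟨hu.1, hu.2.1, Or.inr ⟨h, hu.2.2⟩⟩
    linarith

theorem pooldeg_s2b (hr : 1000 ≤ W.card) (hW : GoodW m c E W) (hP : Part m W A B)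
    (hS : Stage1 m c W A B H f) (hB : Base m c W A B H f H2 b) {K : Finset V} (hK : K ⊆ H2)
    {f' : V → V → V} (hI : InvS2b m c W A B H f b K f') {h : V} (hh : h ∈ H2) (v : V)
    (hv : v ∉ W) :
    (3 / 10 : ℝ) * W.card ≤ ((univ.filter (fun u => poolS2b m c W A B (H ∪ K) f' v u ∧
      b h u = u ∧ u ∉ Zs m W h)).card : ℝ) := by
  have hhW : h ∈ W := (mem_sdiff.mp (hB.sub hh)).1
  set S := univ.filter (fun u => poolS2b m c W A B (H ∪ K) f' v u ∧ b h u = u ∧ u ∉ Zs m W h)
    with hSd
  set M := univ.filter (fun u => adj m W v u ∧ c u = c v) with hM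
  set U := (H.filter (fun x => cross A B v (f x v))).image (fun x => f x v) with hU
  set T := K.image (fun x => f' x v) with hT
  set Fx := univ.filter (fun u => adj m W v u ∧ b h u ≠ u) with hF
  set Z := univ.filter (fun u => adj m W v u ∧ u ∈ Zall m W) with hZ
  have hsub : univ.filter (fun u => adj m W v u ∧ cross A B v u) ⊆
      ((((S ∪ M) ∪ U) ∪ T) ∪ Fx) ∪ Z := by
    intro u hu
    rw [mem_filter] at hu
    obtain ⟨-, h1, h2⟩ := hu
    by_cases h3 : u ∈ Zall m W
    · exact mem_union_right _ (by rw [hZ, mem_filter]; exact ⟨mem_univ _, h1, h3⟩)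
    by_cases h4 : b h u ≠ u
    · refine mem_union_left _ (mem_union_right _ ?_)
      rw [hF, mem_filter]; exact ⟨mem_univ _, h1, h4⟩
    push Not at h4
    by_cases h5 : ∃ x ∈ K, f' x v = u
    · obtain ⟨x, hx, hxu⟩ := h5
      refine mem_union_left _ (mem_union_left _ (mem_union_right _ ?_))
      rw [hT, mem_image]; exact ⟨x, hx, hxu⟩
    by_cases h6 : ∃ x ∈ H, f x v = u
    · obtain ⟨x, hx, hxu⟩ := h6
      refine mem_union_left _ (mem_union_left _ (mem_union_left _ (mem_union_right _ ?_)))
      rw [hU, mem_image]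
      exact ⟨x, mem_filter.mpr ⟨hx, by rw [hxu]; exact h2⟩, hxu⟩
    by_cases h7 : c u = c v
    · refine mem_union_left _ (mem_union_left _ (mem_union_left _ (mem_union_left _
        (mem_union_right _ ?_))))
      rw [hM, mem_filter]; exact ⟨mem_univ _, h1, h7⟩
    refine mem_union_left _ (mem_union_left _ (mem_union_left _ (mem_union_left _
        (mem_union_left _ ?_))))
    rw [hSd, mem_filter]
    refine ⟨mem_univ _, ⟨h1, h2, fun h8 => h7 h8.symm, ?_⟩, h4, ?_⟩
    · rintro ⟨x, hx, hxu⟩
      rcases mem_union.mp hx with hx | hx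
      · exact h6 ⟨x, hx, by rw [← hI.i1 x hx]; exact hxu⟩
      · exact h5 ⟨x, hx, hxu⟩
    · intro h8
      exact h3 (mem_biUnion.2 ⟨h, hhW, h8⟩)
  have hc1 := card_le_card hsub
  have hc2 : (((((S ∪ M) ∪ U) ∪ T) ∪ Fx) ∪ Z).card ≤
      S.card + M.card + U.card + T.card + Fx.card + Z.card := by
    have a1 := card_union_le ((((S ∪ M) ∪ U) ∪ T) ∪ Fx) Z
    have a2 := card_union_le (((S ∪ M) ∪ U) ∪ T) Fx
    have a3 := card_union_le ((S ∪ M) ∪ U) T
    have a4 := card_union_le (S ∪ M) U
    have a5 := card_union_le S M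
    omega
  have hc3 : ((univ.filter (fun u => adj m W v u ∧ cross A B v u)).card : ℝ) ≤
      S.card + M.card + U.card + T.card + Fx.card + Z.card := by
    exact_mod_cast hc1.trans hc2
  have b1 := crossdeg_s2b hP v hv
  have b2 : (M.card : ℝ) ≤ 4 := by exact_mod_cast hW.mono v hv
  have b3 : (U.card : ℝ) ≤ (1 / 10000) * W.card := by
    refine le_trans ?_ (hS.usage v hv)
    exact_mod_cast card_image_le
  have b4 : (T.card : ℝ) ≤ (W.card : ℝ) / 10 := by
    refine le_trans ?_ hB.card
    exact_mod_cast card_image_le.trans (card_le_card hK)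
  have b5 : (Fx.card : ℝ) ≤ (W.card : ℝ) / 20 := hB.fair h hh v hv
  have b6 : (Z.card : ℝ) ≤ 6 := by exact_mod_cast hW.zdeg v hv
  have hr' : (1000 : ℝ) ≤ W.card := by exact_mod_cast hr
  linarith

theorem tau_s2b (hr : 1000 ≤ W.card) (hP : Part m W A B) (h : V) :
    (W.card : ℝ) * (B.filter (fun u => b h u = u)).card / (2 * Fintype.card V)
      + (1 / 10 ^ 7) * W.card < (3 / 10 : ℝ) * W.card := by
  have h1 := card_AB hP
  have h2 := hP.card
  have h3 : (B.filter (fun u => b h u = u)).card ≤ B.card := card_filter_le _ _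
  have h4 : 2 * (B.filter (fun u => b h u = u)).card ≤ Fintype.card V := by omega
  have hn : 0 < Fintype.card V := by omega
  have hn' : (0 : ℝ) < Fintype.card V := by exact_mod_cast hn
  have hr' : (1000 : ℝ) ≤ W.card := by exact_mod_cast hr
  have h5 : 2 * ((B.filter (fun u => b h u = u)).card : ℝ) ≤ Fintype.card V := by
    exact_mod_cast h4
  have h6 : (W.card : ℝ) * (B.filter (fun u => b h u = u)).card / (2 * Fintype.card V) ≤
      (W.card : ℝ) / 4 := by
    rw [div_le_iff₀ (by positivity)]
    nlinarith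
  linarith

theorem step_s2b (hr : 1000 ≤ W.card) (hW : GoodW m c E W) (hP : Part m W A B)
    (hS : Stage1 m c W A B H f) (hB : Base m c W A B H f H2 b) {K : Finset V} (hK : K ⊆ H2)
    {f' : V → V → V} (hI : InvS2b m c W A B H f b K f') {h : V} (hh : h ∈ H2) (hhK : h ∉ K) :
    ∃ f'' : V → V → V, InvS2b m c W A B H f b (insert h K) f'' := by
  have hhW : h ∈ W := (mem_sdiff.mp (hB.sub hh)).1
  have hhH : h ∉ H := (mem_sdiff.mp (hB.sub hh)).2
  obtain ⟨f0, hf1, hf2, hf3⟩ := complete m c E W A B hW hP h hhW (b h) (hB.inv h hh)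
    (fun u hu => ⟨(hB.edge h hh u hu).1, (hB.edge h hh u hu).2.2.2⟩) (hB.bal h hh)
    (poolS2b m c W A B (H ∪ K) f')
    (by
      rintro u v ⟨h1, h2, h3, h4⟩
      refine ⟨adj_symm m W u v h1, cross_symm A B u v h2, Ne.symm h3, ?_⟩
      rintro ⟨x, hx, hxu⟩
      exact h4 ⟨x, hx, by rw [← hxu]; exact (hI.i2.mat x hx).inv v⟩)
    (fun u v huv => ⟨huv.1, huv.2.1⟩) ((3 / 10 : ℝ) * W.card) (tau_s2b hr hP h)
    (fun v hv _ _ => pooldeg_s2b hr hW hP hS hB hK hI hh v hv)
  have key : ∀ y ∈ H ∪ K, ∀ u, f0 u = f' y u → f0 u = u := by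
    intro y hy u he
    by_contra hne
    by_cases hb : b h u = u
    · obtain ⟨-, -, -, h4⟩ := hf3 u hb hne
      exact h4 ⟨y, hy, he.symm⟩
    · have h1 := hf2 u hb
      obtain ⟨e1, e2, e3, e4⟩ := hB.edge h hh u hb
      rcases mem_union.mp hy with hy | hy
      · exact e2 ⟨y, hy, by rw [← hI.i1 y hy, ← he, h1]⟩
      · by_cases hby : b y u = u
        · have h2 : f' y u ≠ u := by rw [← he]; exact hne
          obtain ⟨c1, c2⟩ := hI.i4 y hy u hby h2
          rw [← he, h1] at c1 c2
          rcases e3 with e3 | e3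
          · exact e3 c1
          · exact c2 e3
        · have h2 := hI.i3 y hy u hby
          have hyh : h ≠ y := fun e => hhK (e ▸ hy)
          exact hb (hB.disj h hh y (hK hy) hyh u (by rw [← h1, he, h2]))
  refine ⟨Function.update f' h f0, ?_, ⟨?_, ?_, ?_⟩, ?_, ?_⟩
  · intro x hx
    have hxh : x ≠ h := fun e => hhH (e ▸ hx)
    rw [Function.update_of_ne hxh]
    exact hI.i1 x hx
  · intro x hx
    rcases mem_union.mp hx with hx | hx
    · exact hI.i2.sub (mem_union_left _ hx)
    · rcases mem_insert.mp hx with rfl | hx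
      · exact hhW
      · exact hI.i2.sub (mem_union_right _ hx)
  · intro x hx
    by_cases hxh : x = h
    · subst hxh
      rw [Function.update_self]
      exact hf1
    · rw [Function.update_of_ne hxh]
      refine hI.i2.mat x ?_
      rcases mem_union.mp hx with hx | hx
      · exact mem_union_left _ hx
      · exact mem_union_right _ ((mem_insert.mp hx).resolve_left hxh)
  · intro x hx y hy hxy u he
    have hin : ∀ z ∈ H ∪ insert h K, z ≠ h → z ∈ H ∪ K := by
      intro z hz hzh
      rcases mem_union.mp hz with hz | hz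
      · exact mem_union_left _ hz
      · exact mem_union_right _ ((mem_insert.mp hz).resolve_left hzh)
    by_cases hxh : x = h
    · have hyh : y ≠ h := fun e => hxy (hxh.trans e.symm)
      subst hxh
      rw [Function.update_self, Function.update_of_ne hyh] at he
      rw [Function.update_self]
      exact key y (hin y hy hyh) u he
    · rw [Function.update_of_ne hxh] at he ⊢
      by_cases hyh : y = h
      · subst hyh
        rw [Function.update_self] at he
        rw [he]
        exact key x (hin x hx hxh) u he.symm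
      · rw [Function.update_of_ne hyh] at he
        exact hI.i2.disj x (hin x hx hxh) y (hin y hy hyh) hxy u he
  · intro x hx u hu
    by_cases hxh : x = h
    · subst hxh
      rw [Function.update_self]
      exact hf2 u hu
    · rw [Function.update_of_ne hxh]
      exact hI.i3 x ((mem_insert.mp hx).resolve_left hxh) u hu
  · intro x hx u hu hne
    by_cases hxh : x = h
    · subst hxh
      rw [Function.update_self] at hne ⊢
      obtain ⟨-, h2, h3, -⟩ := hf3 u hu hne
      exact ⟨h2, h3⟩
    · rw [Function.update_of_ne hxh] at hne ⊢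
      exact hI.i4 x ((mem_insert.mp hx).resolve_left hxh) u hu hne

theorem ind_s2b (hr : 1000 ≤ W.card) (hW : GoodW m c E W) (hP : Part m W A B)
    (hS : Stage1 m c W A B H f) (hB : Base m c W A B H f H2 b) (K : Finset V) :
    K ⊆ H2 → ∃ f' : V → V → V, InvS2b m c W A B H f b K f' := by
  induction K using Finset.induction_on with
  | empty =>
    intro _
    refine ⟨f, fun _ _ => rfl, ?_, fun x hx => absurd hx (notMem_empty x),
      fun x hx => absurd hx (notMem_empty x)⟩
    rw [union_empty]
    exact hS.st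
  | insert h K hhK ih =>
    intro hK
    obtain ⟨f', hf'⟩ := ih ((subset_insert h K).trans hK)
    exact step_s2b hr hW hP hS hB ((subset_insert h K).trans hK) hf' (hK (mem_insert_self h K)) hhK

end

theorem s2b : ∃ r0 : ℕ, ∀ r ≥ r0, ∀ (V : Type) [Fintype V] [DecidableEq V] (m : SQ V) (c : V → ℕ)
    (E W A B H : Finset V) (f : V → V → V) (H2 : Finset V) (b : V → V → V), W.card = r →
    r ^ 10 ≤ Fintype.card V → GoodW m c E W → Part m W A B → Stage1 m c W A B H f →
    Base m c W A B H f H2 b →
    ∃ f' : V → V → V, Stage2 m c W A B (H ∪ H2) f' := by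
  refine ⟨1000, ?_⟩
  intro r hr V _ _ m c E W A B H f H2 b hWr _ hW hP hS hB
  subst hWr
  obtain ⟨f', hI⟩ := ind_s2b hr hW hP hS hB H2 (Subset.refl _)
  refine ⟨f', hI.i2, ?_, ?_⟩
  · intro h hh u hne
    rcases mem_union.mp hh with hh | hh
    · rw [hI.i1 h hh] at hne ⊢
      exact fun h1 => hS.nonmono h hh u hne h1.1
    · by_cases hb : b h u = u
      · have h1 := (hI.i4 h hh u hb hne).2
        exact fun h2 => h1 h2.1.symm
      · rw [hI.i3 h hh u hb]
        exact hB.good h hh u hb
  · intro u v huv hnu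
    by_contra hcon
    have h1 : ¬ used H f u v := by
      rintro ⟨x, hx, hxu⟩
      exact hnu ⟨x, mem_union_left _ hx, by rw [hI.i1 x hx]; exact hxu⟩
    have h2 : ¬ cross A B u v ∨ c u = c v := by
      by_contra h3
      push Not at h3
      exact hcon ⟨h3.1, h3.2⟩
    obtain ⟨h, hh, hb⟩ := hB.cover u v huv h1 h2
    have hne : b h u ≠ u := by rw [hb]; exact huv.2.2.1.symm
    exact hnu ⟨h, mem_union_right _ hh, by rw [hI.i3 h hh u hne]; exact hb⟩

end Pool.Agent.CHS
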