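import Pool.Agent.CHS.Assemble
import Pool.Agent.CHS.Chain
import Pool.Agent.CHS.ExW
import Pool.Agent.CHS.FinApp
import Pool.Agent.CHS.PartEx
import Pool.Agent.CHS.S1
import Pool.Agent.CHS.S2a
import Pool.Agent.CHS.S2b

/-!
# CHS/StepT: the step theorem
-/

set_option autoImplicit false

namespace Pool.Agent.CHS
open Finset

theorem stepT : ∃ r0 : ℕ, ∀ r ≥ r0, ∀ (V : Type) [Fintype V] [DecidableEq V],
    r ^ 10 ≤ Fintype.card V → Fintype.card V ≤ 2 * r ^ 10 → ∀ (c : V → ℕ),
    (∀ j, (univ.filter (fun v => c v = j)).card * r ^ 4 ≤ 2 * Fintype.card V) →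
    StepProp c := by
  obtain ⟨ra, ha⟩ := exW
  obtain ⟨rb, hb⟩ := partEx
  obtain ⟨rc, hc⟩ := s1
  obtain ⟨rd, hd⟩ := s2a
  obtain ⟨re, he⟩ := s2b
  refine ⟨ra + rb + rc + rd + re + 2, fun r hr V _ _ hV1 hV2 c hcl m => ?_⟩
  rintro ⟨a, b, hab, hcab, hcb⟩
  -- the auxiliary set
  have hr2 : 2 ≤ r := by omega
  have hE : 2 * r ^ 2 ≤ (univ : Finset V).card := by
    rw [Finset.card_univ]
    refine le_trans ?_ hV1
    calc 2 * r ^ 2 ≤ r * r ^ 2 := Nat.mul_le_mul_right _ hr2
      _ = r ^ 3 := by ring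
      _ ≤ r ^ 10 := Nat.pow_le_pow_right (by omega) (by norm_num)
  obtain ⟨E, -, hEc⟩ := Finset.exists_subset_card_eq hE
  obtain ⟨W, haW, hWr, hW⟩ := ha r (by omega) V hV1 hV2 m c hcl E hEc.le a
  obtain ⟨A, B, hP⟩ := hb r (by omega) V m c E W hWr hV1 hV2 hEc hW
  obtain ⟨H, f, h1⟩ := hc r (by omega) V m c E W A B hWr hV1 hV2 hW hP
  obtain ⟨H2, b2, h2⟩ := hd r (by omega) V m c E W A B H f hWr hV1 hV2 hW hP h1
  obtain ⟨f2, h3⟩ := he r (by omega) V m c E W A B H f H2 b2 hWr hV1 hW hP h1 h2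
  obtain ⟨f', z, hF, hmono⟩ := finApp m c E W A B (H ∪ H2) f2 hW hP h3
  obtain ⟨m', hm1, hm2, hm3, hm4⟩ := assemble m W f' z hF
  have hind' : ∀ x ∈ W, ∀ y ∈ W, x ≠ y → m'.mul x y ∉ W := by
    intro x hx y hy hxy
    rw [hm3 x hx y hy hxy]
    exact hF.zout x hx y hy hxy
  refine ⟨m', W, hW.indep, hind', ?_, hm2, ⟨a, haW, b, hab, hcab, hcb⟩, ?_⟩
  · intro x hx y hy hxy
    by_cases he : x = y
    · subst he; rw [m.idem, m'.idem]
    · have := (not_congr (hm1 x hx y hy he)).1 hxy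
      exact (hm2 x hx y hy this).symm
  · -- main claim: a block with a point of `W` is not monochromatic
    -- one point `w` in `W`, the others outside
    have key : ∀ w ∈ W, ∀ u, u ≠ w → ¬ (c w = c u ∧ c u = c (m'.mul w u)) := by
      rintro w hw u huw ⟨e1, e2⟩
      by_cases hu : u ∈ W
      · exact huw (hW.cinj w hw u hu e1).symm
      by_cases hv : m'.mul w u ∈ W
      · have : w = m'.mul w u := hW.cinj w hw _ hv (e1.trans e2)
        have h5 : m'.mul w (m'.mul w u) = u := m'.inv w u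
        rw [← this, m'.idem] at h5
        exact huw h5.symm
      have hfu : f' w u ≠ u := by
        intro hfix
        rcases (hF.fix w hw u).1 hfix with h6 | ⟨w', hw', hne, hz⟩
        · exact hu h6
        · apply hv
          have h7 := hm3 w hw w' hw' (Ne.symm hne)
          rw [hz] at h7
          have h8 := m'.inv w w'
          rw [h7] at h8
          rw [h8]; exact hw'
      have h9 := hm4 w hw u hfu
      rw [h9] at e2
      exact hmono w hw u hfu ⟨e2.symm, e1.symm⟩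
    intro x y hxy e1 e2
    refine ⟨fun hx => ?_, fun hy => ?_, fun hz => ?_⟩
    · exact key x hx y (Ne.symm hxy) ⟨e1, e2⟩
    · refine key y hy x hxy ⟨e1.symm, ?_⟩
      rw [m'.comm y x]; exact e1.trans e2
    · -- the point `z = m' x y` in `W`
      have hzx : m'.mul (m'.mul x y) x = y := by
        rw [m'.comm]; exact m'.inv x y
      refine key _ hz x ?_ ⟨?_, ?_⟩
      · intro h
        have := m'.inv x y
        rw [← h, m'.idem] at this
        exact hxy this
      · exact (e1.trans e2).symm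
      · rw [hzx]; exact e1

end Pool.Agent.CHS
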