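import Pool.Agent.CHS.Conv
import Pool.Agent.CHS.StepT

/-!
# CHS/Final: the theorem
-/

set_option autoImplicit false

namespace Pool.Agent.CHS
open Finset

/-- The colour classes of `v ↦ v % d` on `Fin n` have at most `n / d + 1` elements. -/
theorem class_card (n d : ℕ) (hd : 0 < d) (j : ℕ) :
    (univ.filter (fun v : Fin n => (v : ℕ) % d = j)).card * d ≤ n + d := by
  have h1 : (univ.filter (fun v : Fin n => (v : ℕ) % d = j)).card ≤ n / d + 1 := by
    have h2 : (univ.filter (fun v : Fin n => (v : ℕ) % d = j)).card =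
        ((univ.filter (fun v : Fin n => (v : ℕ) % d = j)).image (fun v : Fin n => (v : ℕ) / d)).card := by
      rw [Finset.card_image_of_injOn]
      intro x hx y hy hxy
      simp only [Finset.coe_filter, Finset.mem_univ, true_and, Set.mem_setOf_eq] at hx hy
      have hxy' : (x : ℕ) / d = (y : ℕ) / d := hxy
      apply Fin.ext
      rw [← Nat.div_add_mod (x : ℕ) d, ← Nat.div_add_mod (y : ℕ) d, hx, hy, hxy']
    rw [h2]
    have h3 : (univ.filter (fun v : Fin n => (v : ℕ) % d = j)).image (fun v : Fin n => (v : ℕ) / d)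
        ⊆ Finset.range (n / d + 1) := by
      intro t ht
      simp only [Finset.mem_image, Finset.mem_filter, Finset.mem_univ, true_and] at ht
      obtain ⟨v, -, rfl⟩ := ht
      rw [Finset.mem_range]
      have := Nat.div_le_div_right (c := d) (le_of_lt v.2)
      omega
    exact le_trans (Finset.card_le_card h3) (by rw [Finset.card_range])
  calc (univ.filter (fun v : Fin n => (v : ℕ) % d = j)).card * d ≤ (n / d + 1) * d :=
        Nat.mul_le_mul_right _ h1
    _ = n / d * d + d := by ring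
    _ ≤ n + d := Nat.add_le_add_right (Nat.div_mul_le_self n d) d

theorem final : ∃ n0 : ℕ, ∀ n ≥ n0, ∀ k ∈ Cn n, ∀ q : ℕ,
    (n : ℝ) ^ (2 / 5 : ℝ) ≤ q → q ≤ k → q ∈ Cn n := by
  obtain ⟨r0, h0⟩ := stepT
  refine ⟨(r0 + 20) ^ 10, fun n hn k hk q hq hqk => ?_⟩
  -- the largest `r` with `r ^ 10 ≤ n`
  have hex : ∃ r : ℕ, r ^ 10 ≤ n ∧ n < (r + 1) ^ 10 := by
    have hfin : ∃ r, n < (r + 1) ^ 10 := ⟨n, by
      calc n < n + 1 := Nat.lt_succ_self n
        _ ≤ (n + 1) ^ 10 := Nat.le_self_pow (by norm_num) _⟩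
    classical
    refine ⟨Nat.find hfin, ?_, Nat.find_spec hfin⟩
    rcases Nat.eq_zero_or_pos (Nat.find hfin) with h | h
    · rw [h]; simp
    · have := Nat.find_min hfin (m := Nat.find hfin - 1) (by omega)
      rw [Nat.sub_add_cancel h] at this
      omega
  obtain ⟨r, hr1, hr2⟩ := hex
  have hr3 : r0 + 20 ≤ r := by
    by_contra hcon
    push Not at hcon
    have : (r + 1) ^ 10 ≤ (r0 + 20) ^ 10 := Nat.pow_le_pow_left (by omega) _
    omega
  have hr4 : n ≤ 2 * r ^ 10 := by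
    have h5 : (r + 1) ^ 10 ≤ 2 * r ^ 10 := by
      have h20 : 20 ≤ r := by omega
      have h6 : ((r : ℝ) + 1) ^ 10 ≤ 2 * (r : ℝ) ^ 10 := by
        have hr20 : (20 : ℝ) ≤ r := by exact_mod_cast h20
        have h7 : (r : ℝ) + 1 ≤ (21 / 20) * r := by linarith
        have h8 : ((r : ℝ) + 1) ^ 10 ≤ ((21 / 20) * (r : ℝ)) ^ 10 :=
          pow_le_pow_left₀ (by positivity) h7 10
        rw [mul_pow] at h8
        have h9 : ((21 : ℝ) / 20) ^ 10 ≤ 2 := by norm_num
        nlinarith [pow_nonneg (by positivity : (0 : ℝ) ≤ r) 10]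
      exact_mod_cast h6
    omega
  have hrpos : 0 < r := by omega
  have hr4n : r ^ 4 ≤ n := le_trans (Nat.pow_le_pow_right hrpos (by norm_num)) hr1
  -- the target colouring
  let c : Fin n → ℕ := fun v => (v : ℕ) % (r ^ 4)
  have hc : ∀ v, c v < r ^ 4 := fun v => Nat.mod_lt _ (by positivity)
  have hcl : ∀ j, (univ.filter (fun v => c v = j)).card * r ^ 4 ≤ 2 * Fintype.card (Fin n) := by
    intro j
    rw [Fintype.card_fin]
    have := class_card n (r ^ 4) (by positivity) j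
    have h2 : (univ.filter (fun v : Fin n => (v : ℕ) % r ^ 4 = j)).card * r ^ 4 ≤ 2 * n := by omega
    exact h2
  have hstep : StepProp c := h0 r (by omega) (Fin n) (by rw [Fintype.card_fin]; exact hr1)
    (by rw [Fintype.card_fin]; exact hr4) c hcl
  obtain ⟨m, hm⟩ := (conv n k).1 hk
  have hrq : r ^ 4 ≤ q := by
    have h1 : ((r : ℝ) ^ 4) ≤ (n : ℝ) ^ (2 / 5 : ℝ) := by
      have h2 : ((r : ℝ) ^ 10) ≤ n := by exact_mod_cast hr1
      have h3 : ((r : ℝ) ^ 10) ^ (2 / 5 : ℝ) ≤ (n : ℝ) ^ (2 / 5 : ℝ) :=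
        Real.rpow_le_rpow (by positivity) h2 (by norm_num)
      have h4 : ((r : ℝ) ^ 10) ^ (2 / 5 : ℝ) = (r : ℝ) ^ 4 := by
        rw [← Real.rpow_natCast, ← Real.rpow_mul (by positivity), ← Real.rpow_natCast]
        norm_num
      rw [← h4]; exact h3
    have h5 : ((r : ℝ) ^ 4) ≤ (q : ℝ) := le_trans h1 hq
    exact_mod_cast h5
  obtain ⟨m', hm'⟩ := chain c (r ^ 4) hc hstep m q hrq (by rw [hm]; exact hqk)
  exact (conv n q).2 ⟨m', hm'⟩

end Pool.Agent.CHS
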