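import Pool.Agent.CHS.Basic

/-!
# CHS/GWa: coincidences among few random points

`n = card V`, `w = Fin.cons a ω : Fin (s+1) → V`, `ω : Fin s → V` uniformly random, `r = s + 1`,
`n ≥ r^10`.  `BasicP` fails only if one of the following happens (all indices in `Fin (s+1)`):
* `w i = w j` or `c (w i) = c (w j)` for some `i ≠ j` (the second contains the first): one of `i, j` is
  not `0`, and given all other coordinates the bad values of this coordinate form a colour class, of
  size at most `2 n / r^4`: fraction `≤ r² * 2 / r^4`;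
* `m (w i) (w j) = w k`, `i, j, k` distinct: a coordinate that is not `a` is determined by the other two:
  fraction `≤ r³ / n`;
* `m (w i) (w j) = m (w k) (w l)` for four distinct indices: one (nonzero) index is determined by the
  other three: fraction `≤ r⁴ / n`.
If none of these happens: for `i ≠ j`, `m (w i) (w j) = w i` is impossible (it gives `w j = w i`); and
`m (w i) (w j) = m (w k) (w l)` with a common index gives equality of the other points, hence of the
indices.  The sum of the fractions is at most `1/10` for large `s`.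
Counting tool: if `i : Fin s` and for every choice of the other coordinates at most `β` values of the
coordinate `i` are bad, then at most `β n^(s-1)` functions are bad (`Fin.insertNthEquiv` or
`Function.update` fibres).
-/

set_option autoImplicit false

namespace Pool.Agent.CHS
open Finset

/-- The sequence `w` has no coincidences. -/
def BasicP {V : Type} (m : SQ V) (c : V → ℕ) {t : ℕ} (w : Fin t → V) : Prop :=
  (∀ i j, i ≠ j → w i ≠ w j ∧ c (w i) ≠ c (w j)) ∧
  (∀ i j k, i ≠ j → m.mul (w i) (w j) ≠ w k) ∧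
  (∀ i j k l, i ≠ j → k ≠ l → m.mul (w i) (w j) = m.mul (w k) (w l) →
    (i = k ∧ j = l) ∨ (i = l ∧ j = k))

/-- Counting along one coordinate. -/
theorem fib {V : Type} [Fintype V] [DecidableEq V] {s : ℕ} (i : Fin s) (B : Finset (Fin s → V))
    (β : ℕ) (h : ∀ ω : Fin s → V, (univ.filter (fun x => Function.update ω i x ∈ B)).card ≤ β) :
    B.card * Fintype.card V ≤ β * Fintype.card V ^ s := by
  classical
  let P : Finset ((Fin s → V) × V) :=
    (univ ×ˢ univ).filter (fun p => Function.update p.1 i p.2 ∈ B)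
  have h1 : P.card = (B ×ˢ (univ : Finset V)).card := by
    refine Finset.card_nbij' (fun p => (Function.update p.1 i p.2, p.1 i))
      (fun p => (Function.update p.1 i p.2, p.1 i)) ?_ ?_ ?_ ?_
    · intro p hp
      have hp' := (Finset.mem_filter.1 hp).2
      exact Finset.mem_product.2 ⟨hp', Finset.mem_univ _⟩
    · intro p hp
      have hp' := (Finset.mem_product.1 hp).1
      refine Finset.mem_filter.2 ⟨Finset.mem_product.2 ⟨Finset.mem_univ _, Finset.mem_univ _⟩, ?_⟩
      show Function.update (Function.update p.1 i p.2) i (p.1 i) ∈ B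
      rw [Function.update_idem, Function.update_eq_self]
      exact hp'
    · intro p _
      show (Function.update (Function.update p.1 i p.2) i (p.1 i),
        (Function.update p.1 i p.2) i) = p
      rw [Function.update_idem, Function.update_eq_self, Function.update_self]
    · intro p _
      show (Function.update (Function.update p.1 i p.2) i (p.1 i),
        (Function.update p.1 i p.2) i) = p
      rw [Function.update_idem, Function.update_eq_self, Function.update_self]
  have h2 : P.card ≤ β * Fintype.card V ^ s := by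
    have h3 : P.card = ∑ ω : Fin s → V, (univ.filter (fun x => Function.update ω i x ∈ B)).card := by
      rw [Finset.card_filter, Finset.sum_product]
      refine Finset.sum_congr rfl (fun ω _ => ?_)
      rw [Finset.card_filter]
    rw [h3]
    refine (Finset.sum_le_sum (fun ω _ => h ω)).trans ?_
    rw [Finset.sum_const, smul_eq_mul, Finset.card_univ, Fintype.card_fun, Fintype.card_fin,
      mul_comm]
  rw [← Finset.card_univ (α := V), ← Finset.card_product, ← h1]
  simpa only [Finset.card_univ] using h2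

section
variable {V : Type} [Fintype V] [DecidableEq V] {s : ℕ}

omit [Fintype V] [DecidableEq V] in
theorem cons_upd_self (a : V) (ω : Fin s → V) (p : Fin s) (x : V) :
    (Fin.cons a (Function.update ω p x) : Fin (s + 1) → V) p.succ = x := by
  rw [Fin.cons_succ, Function.update_self]

omit [Fintype V] [DecidableEq V] in
theorem cons_upd_ne (a : V) (ω : Fin s → V) (p : Fin s) (x : V) (j : Fin (s + 1))
    (hj : j ≠ p.succ) :
    (Fin.cons a (Function.update ω p x) : Fin (s + 1) → V) j =
      (Fin.cons a ω : Fin (s + 1) → V) j := by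
  rw [Fin.cons_update, Function.update_of_ne hj]

/-- Bound along the coordinate `p.succ`. -/
theorem fibc (a : V) (p : Fin s) (B : Finset (Fin s → V)) (β : ℕ)
    (h : ∀ ω : Fin s → V, ∃ X : Finset V, X.card ≤ β ∧ ∀ x, Function.update ω p x ∈ B → x ∈ X) :
    B.card * Fintype.card V ≤ β * Fintype.card V ^ s := by
  apply fib p B β
  intro ω
  obtain ⟨X, hX, hX2⟩ := h ω
  refine (Finset.card_le_card ?_).trans hX
  intro x hx
  exact hX2 x (Finset.mem_filter.1 hx).2

end

section
variable {V : Type} [Fintype V] [DecidableEq V] {s : ℕ} (m : SQ V) (c : V → ℕ) (a : V)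

open Classical in
/-- coincidence of colours -/
noncomputable def E1 (i j : Fin (s + 1)) : Finset (Fin s → V) :=
  univ.filter (fun ω => i ≠ j ∧ c ((Fin.cons a ω : Fin (s + 1) → V) i) =
    c ((Fin.cons a ω : Fin (s + 1) → V) j))

open Classical in
/-- a block -/
noncomputable def E2 (i j k : Fin (s + 1)) : Finset (Fin s → V) :=
  univ.filter (fun ω => i ≠ j ∧ i ≠ k ∧ j ≠ k ∧
    m.mul ((Fin.cons a ω : Fin (s + 1) → V) i) ((Fin.cons a ω : Fin (s + 1) → V) j) =
      (Fin.cons a ω : Fin (s + 1) → V) k)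

open Classical in
/-- two pairs with the same third point -/
noncomputable def E3 (i j k l : Fin (s + 1)) : Finset (Fin s → V) :=
  univ.filter (fun ω => i ≠ j ∧ i ≠ k ∧ i ≠ l ∧ j ≠ k ∧ j ≠ l ∧
    m.mul ((Fin.cons a ω : Fin (s + 1) → V) i) ((Fin.cons a ω : Fin (s + 1) → V) j) =
      m.mul ((Fin.cons a ω : Fin (s + 1) → V) k) ((Fin.cons a ω : Fin (s + 1) → V) l))

theorem E1_symm (i j : Fin (s + 1)) : E1 c a i j = E1 c a j i := by
  classical
  ext ω
  simp only [E1, Finset.mem_filter, Finset.mem_univ, true_and]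
  exact ⟨fun h => ⟨Ne.symm h.1, h.2.symm⟩, fun h => ⟨Ne.symm h.1, h.2.symm⟩⟩

theorem E2_symm (i j k : Fin (s + 1)) : E2 m a i j k = E2 m a j i k := by
  classical
  ext ω
  simp only [E2, Finset.mem_filter, Finset.mem_univ, true_and]
  constructor
  · rintro ⟨h1, h2, h3, h4⟩; exact ⟨Ne.symm h1, h3, h2, by rw [m.comm]; exact h4⟩
  · rintro ⟨h1, h2, h3, h4⟩; exact ⟨Ne.symm h1, h3, h2, by rw [m.comm]; exact h4⟩

theorem E3_symm (i j k l : Fin (s + 1)) : E3 m a i j k l = E3 m a j i k l := by
  classical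
  ext ω
  simp only [E3, Finset.mem_filter, Finset.mem_univ, true_and]
  constructor
  · rintro ⟨h1, h2, h3, h4, h5, h6⟩; exact ⟨Ne.symm h1, h4, h5, h2, h3, by rw [m.comm]; exact h6⟩
  · rintro ⟨h1, h2, h3, h4, h5, h6⟩; exact ⟨Ne.symm h1, h4, h5, h2, h3, by rw [m.comm]; exact h6⟩

theorem E1_card_aux (K : ℕ) (hc : ∀ j, (univ.filter (fun v => c v = j)).card ≤ K) (p : Fin s)
    (j : Fin (s + 1)) :
    (E1 c a p.succ j).card * Fintype.card V ≤ K * Fintype.card V ^ s := by
  classical
  apply fibc a p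
  intro ω
  refine ⟨univ.filter (fun v => c v = c ((Fin.cons a ω : Fin (s + 1) → V) j)), hc _, ?_⟩
  intro x hx
  simp only [E1, Finset.mem_filter, Finset.mem_univ, true_and] at hx ⊢
  rw [cons_upd_self, cons_upd_ne a ω p x j (Ne.symm hx.1)] at hx
  exact hx.2

theorem E2_card_aux (p : Fin s) (j k : Fin (s + 1)) :
    (E2 m a p.succ j k).card * Fintype.card V ≤ 1 * Fintype.card V ^ s := by
  classical
  apply fibc a p
  intro ω
  refine ⟨{m.mul ((Fin.cons a ω : Fin (s + 1) → V) j) ((Fin.cons a ω : Fin (s + 1) → V) k)},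
    by simp, ?_⟩
  intro x hx
  simp only [E2, Finset.mem_filter, Finset.mem_univ, true_and, Finset.mem_singleton] at hx ⊢
  obtain ⟨h1, h2, _, h4⟩ := hx
  rw [cons_upd_self, cons_upd_ne a ω p x j (Ne.symm h1), cons_upd_ne a ω p x k (Ne.symm h2)] at h4
  rw [← h4, m.comm x, m.inv]

theorem E3_card_aux (p : Fin s) (j k l : Fin (s + 1)) :
    (E3 m a p.succ j k l).card * Fintype.card V ≤ 1 * Fintype.card V ^ s := by
  classical
  apply fibc a p
  intro ω
  refine ⟨{m.mul ((Fin.cons a ω : Fin (s + 1) → V) j)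
    (m.mul ((Fin.cons a ω : Fin (s + 1) → V) k) ((Fin.cons a ω : Fin (s + 1) → V) l))},
    by simp, ?_⟩
  intro x hx
  simp only [E3, Finset.mem_filter, Finset.mem_univ, true_and, Finset.mem_singleton] at hx ⊢
  obtain ⟨h1, h2, h3, _, _, h4⟩ := hx
  rw [cons_upd_self, cons_upd_ne a ω p x j (Ne.symm h1), cons_upd_ne a ω p x k (Ne.symm h2),
    cons_upd_ne a ω p x l (Ne.symm h3)] at h4
  rw [← h4, m.comm x, m.inv]

/-- One of two different indices is not zero. -/
theorem idx_cases {P : Prop} (i j : Fin (s + 1)) (h1 : i = j → P) (h2 : ∀ p : Fin s, i = p.succ → P)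
    (h3 : ∀ p : Fin s, j = p.succ → P) : P := by
  rcases Fin.eq_zero_or_eq_succ i with hi | ⟨p, hp⟩
  · rcases Fin.eq_zero_or_eq_succ j with hj | ⟨p, hp⟩
    · exact h1 (hi.trans hj.symm)
    · exact h3 p hp
  · exact h2 p hp

theorem E1_card (K : ℕ) (hc : ∀ j, (univ.filter (fun v => c v = j)).card ≤ K)
    (i j : Fin (s + 1)) :
    (E1 c a i j).card * Fintype.card V ≤ K * Fintype.card V ^ s := by
  classical
  refine idx_cases i j (fun h => ?_) (fun p hp => ?_) (fun p hp => ?_)
  · have : E1 c a i j = ∅ := by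
      simp only [E1]
      rw [Finset.filter_eq_empty_iff]
      intro ω _ h'
      exact h'.1 h
    rw [this]; simp
  · rw [hp]; exact E1_card_aux c a K hc p j
  · rw [E1_symm, hp]; exact E1_card_aux c a K hc p i

theorem E2_card (i j k : Fin (s + 1)) :
    (E2 m a i j k).card * Fintype.card V ≤ 1 * Fintype.card V ^ s := by
  classical
  refine idx_cases i j (fun h => ?_) (fun p hp => ?_) (fun p hp => ?_)
  · have : E2 m a i j k = ∅ := by
      simp only [E2]
      rw [Finset.filter_eq_empty_iff]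
      intro ω _ h'
      exact h'.1 h
    rw [this]; simp
  · rw [hp]; exact E2_card_aux m a p j k
  · rw [E2_symm, hp]; exact E2_card_aux m a p i k

theorem E3_card (i j k l : Fin (s + 1)) :
    (E3 m a i j k l).card * Fintype.card V ≤ 1 * Fintype.card V ^ s := by
  classical
  refine idx_cases i j (fun h => ?_) (fun p hp => ?_) (fun p hp => ?_)
  · have : E3 m a i j k l = ∅ := by
      simp only [E3]
      rw [Finset.filter_eq_empty_iff]
      intro ω _ h'
      exact h'.1 h
    rw [this]; simp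
  · rw [hp]; exact E3_card_aux m a p j k l
  · rw [E3_symm, hp]; exact E3_card_aux m a p i k l

theorem basic_of (ω : Fin s → V) (h1 : ∀ i j, ω ∉ E1 c a i j) (h2 : ∀ i j k, ω ∉ E2 m a i j k)
    (h3 : ∀ i j k l, ω ∉ E3 m a i j k l) : BasicP m c (Fin.cons a ω : Fin (s + 1) → V) := by
  classical
  set w : Fin (s + 1) → V := Fin.cons a ω with hw
  have k1 : ∀ i j, i ≠ j → c (w i) ≠ c (w j) := by
    intro i j hij he
    exact h1 i j (by simp only [E1, Finset.mem_filter, Finset.mem_univ, true_and]; exact ⟨hij, he⟩)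
  have kinj : ∀ i j, w i = w j → i = j := by
    intro i j he
    by_contra hij
    exact k1 i j hij (by rw [he])
  have kself : ∀ i j, m.mul (w i) (w j) = w i → i = j := by
    intro i j he
    apply kinj
    have := m.inv (w i) (w j)
    rw [he, m.idem] at this
    exact this
  have kinj2 : ∀ i j l, m.mul (w i) (w j) = m.mul (w i) (w l) → j = l := by
    intro i j l he
    exact kinj _ _ (mul_inj m (w i) he)
  refine ⟨fun i j hij => ⟨fun he => hij (kinj i j he), k1 i j hij⟩, ?_, ?_⟩
  · intro i j k hij he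
    by_cases hik : i = k
    · subst hik; exact hij (kself i j he)
    · by_cases hjk : j = k
      · subst hjk
        rw [m.comm] at he
        exact hij (kself j i he).symm
      · exact h2 i j k (by
          simp only [E2, Finset.mem_filter, Finset.mem_univ, true_and]
          exact ⟨hij, hik, hjk, he⟩)
  · intro i j k l hij hkl he
    by_cases hik : i = k
    · subst hik; exact Or.inl ⟨rfl, kinj2 i j l he⟩
    by_cases hil : i = l
    · subst hil
      rw [m.comm (w k)] at he
      exact Or.inr ⟨rfl, kinj2 i j k he⟩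
    by_cases hjk : j = k
    · subst hjk
      rw [m.comm (w i)] at he
      exact Or.inr ⟨kinj2 j i l he, rfl⟩
    by_cases hjl : j = l
    · subst hjl
      rw [m.comm (w i), m.comm (w k)] at he
      exact Or.inl ⟨kinj2 j i k he, rfl⟩
    exfalso
    exact h3 i j k l (by
      simp only [E3, Finset.mem_filter, Finset.mem_univ, true_and]
      exact ⟨hij, hik, hil, hjk, hjl, he⟩)

end

open Classical in
theorem gwa : ∃ s0 : ℕ, ∀ s ≥ s0, ∀ (V : Type) [Fintype V] [DecidableEq V],
    (s + 1) ^ 10 ≤ Fintype.card V → ∀ (m : SQ V) (c : V → ℕ) (a : V),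
    (∀ j, (univ.filter (fun v => c v = j)).card * (s + 1) ^ 4 ≤ 2 * Fintype.card V) →
    ((univ.filter (fun ω : Fin s → V => ¬ BasicP m c (Fin.cons a ω : Fin (s + 1) → V))).card : ℝ)
      ≤ (1 / 10) * (Fintype.card V : ℝ) ^ s := by
  refine ⟨10, fun s hs V _ _ hV m c a hc => ?_⟩
  set n := Fintype.card V with hn
  have hnpos : 0 < n := lt_of_lt_of_le (by positivity) hV
  -- the common bound of the colour classes
  set K := (2 * n) / (s + 1) ^ 4 with hK
  have hcK : ∀ j, (univ.filter (fun v => c v = j)).card ≤ K := by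
    intro j
    rw [hK, Nat.le_div_iff_mul_le (by positivity)]
    have := hc j
    convert this using 3
  have hKr : K * (s + 1) ^ 4 ≤ 2 * n := Nat.div_mul_le_self _ _
  set N := univ.filter (fun ω : Fin s → V => ¬ BasicP m c (Fin.cons a ω : Fin (s + 1) → V)) with hN
  let U1 : Finset (Fin s → V) :=
    (univ : Finset (Fin (s + 1) × Fin (s + 1))).biUnion (fun p => E1 c a p.1 p.2)
  let U2 : Finset (Fin s → V) :=
    (univ : Finset (Fin (s + 1) × Fin (s + 1) × Fin (s + 1))).biUnion
      (fun p => E2 m a p.1 p.2.1 p.2.2)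
  let U3 : Finset (Fin s → V) :=
    (univ : Finset (Fin (s + 1) × Fin (s + 1) × Fin (s + 1) × Fin (s + 1))).biUnion
      (fun p => E3 m a p.1 p.2.1 p.2.2.1 p.2.2.2)
  have hsub : N ⊆ U1 ∪ (U2 ∪ U3) := by
    intro ω hω
    rw [hN, Finset.mem_filter] at hω
    by_contra hcon
    rw [Finset.mem_union, Finset.mem_union] at hcon
    push Not at hcon
    obtain ⟨g1, g2, g3⟩ := hcon
    apply hω.2
    apply basic_of m c a ω
    · intro i j h
      exact g1 (Finset.mem_biUnion.2 ⟨(i, j), Finset.mem_univ _, h⟩)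
    · intro i j k h
      exact g2 (Finset.mem_biUnion.2 ⟨(i, j, k), Finset.mem_univ _, h⟩)
    · intro i j k l h
      exact g3 (Finset.mem_biUnion.2 ⟨(i, j, k, l), Finset.mem_univ _, h⟩)
  have hU1 : U1.card * n ≤ (s + 1) ^ 2 * (K * n ^ s) := by
    calc U1.card * n ≤ (∑ p : Fin (s + 1) × Fin (s + 1), (E1 c a p.1 p.2).card) * n :=
          Nat.mul_le_mul_right _ Finset.card_biUnion_le
      _ = ∑ p : Fin (s + 1) × Fin (s + 1), (E1 c a p.1 p.2).card * n := by rw [Finset.sum_mul]
      _ ≤ ∑ _p : Fin (s + 1) × Fin (s + 1), K * n ^ s :=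
          Finset.sum_le_sum (fun p _ => E1_card c a K hcK p.1 p.2)
      _ = (s + 1) ^ 2 * (K * n ^ s) := by
          rw [Finset.sum_const, smul_eq_mul, Finset.card_univ, Fintype.card_prod, Fintype.card_fin]
          ring
  have hU2 : U2.card * n ≤ (s + 1) ^ 3 * (1 * n ^ s) := by
    calc U2.card * n ≤ (∑ p : Fin (s + 1) × Fin (s + 1) × Fin (s + 1),
            (E2 m a p.1 p.2.1 p.2.2).card) * n :=
          Nat.mul_le_mul_right _ Finset.card_biUnion_le
      _ = ∑ p : Fin (s + 1) × Fin (s + 1) × Fin (s + 1), (E2 m a p.1 p.2.1 p.2.2).card * n := by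
          rw [Finset.sum_mul]
      _ ≤ ∑ _p : Fin (s + 1) × Fin (s + 1) × Fin (s + 1), 1 * n ^ s :=
          Finset.sum_le_sum (fun p _ => E2_card m a p.1 p.2.1 p.2.2)
      _ = (s + 1) ^ 3 * (1 * n ^ s) := by
          rw [Finset.sum_const, smul_eq_mul, Finset.card_univ, Fintype.card_prod,
            Fintype.card_prod, Fintype.card_fin]
          ring
  have hU3 : U3.card * n ≤ (s + 1) ^ 4 * (1 * n ^ s) := by
    calc U3.card * n ≤ (∑ p : Fin (s + 1) × Fin (s + 1) × Fin (s + 1) × Fin (s + 1),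
            (E3 m a p.1 p.2.1 p.2.2.1 p.2.2.2).card) * n :=
          Nat.mul_le_mul_right _ Finset.card_biUnion_le
      _ = ∑ p : Fin (s + 1) × Fin (s + 1) × Fin (s + 1) × Fin (s + 1),
            (E3 m a p.1 p.2.1 p.2.2.1 p.2.2.2).card * n := by
          rw [Finset.sum_mul]
      _ ≤ ∑ _p : Fin (s + 1) × Fin (s + 1) × Fin (s + 1) × Fin (s + 1), 1 * n ^ s :=
          Finset.sum_le_sum (fun p _ => E3_card m a p.1 p.2.1 p.2.2.1 p.2.2.2)
      _ = (s + 1) ^ 4 * (1 * n ^ s) := by
          rw [Finset.sum_const, smul_eq_mul, Finset.card_univ, Fintype.card_prod,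
            Fintype.card_prod, Fintype.card_prod, Fintype.card_fin]
          ring
  have hNc : N.card ≤ U1.card + (U2.card + U3.card) :=
    (Finset.card_le_card hsub).trans ((Finset.card_union_le _ _).trans
      (Nat.add_le_add_left (Finset.card_union_le _ _) _))
  -- real arithmetic
  have hr : (10 : ℝ) < (s : ℝ) + 1 := by
    have : (10 : ℝ) ≤ s := by exact_mod_cast hs
    linarith
  set r : ℝ := (s : ℝ) + 1 with hrdef
  have hnR : (0 : ℝ) < n := by exact_mod_cast hnpos
  have hVR : r ^ 10 ≤ (n : ℝ) := by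
    have : (((s + 1 : ℕ) : ℝ)) ^ 10 ≤ (n : ℝ) := by exact_mod_cast hV
    simpa [hrdef] using this
  have hX : (0 : ℝ) < (n : ℝ) ^ s := by positivity
  have a1 : (U1.card : ℝ) * n ≤ r ^ 2 * (K * (n : ℝ) ^ s) := by
    have : ((U1.card * n : ℕ) : ℝ) ≤ (((s + 1) ^ 2 * (K * n ^ s) : ℕ) : ℝ) := by exact_mod_cast hU1
    push_cast at this
    simpa [hrdef] using this
  have a2 : (U2.card : ℝ) * n ≤ r ^ 3 * (n : ℝ) ^ s := by
    have : ((U2.card * n : ℕ) : ℝ) ≤ (((s + 1) ^ 3 * (1 * n ^ s) : ℕ) : ℝ) := by exact_mod_cast hU2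
    push_cast at this
    simpa [hrdef] using this
  have a3 : (U3.card : ℝ) * n ≤ r ^ 4 * (n : ℝ) ^ s := by
    have : ((U3.card * n : ℕ) : ℝ) ≤ (((s + 1) ^ 4 * (1 * n ^ s) : ℕ) : ℝ) := by exact_mod_cast hU3
    push_cast at this
    simpa [hrdef] using this
  have aK : (K : ℝ) * r ^ 4 ≤ 2 * n := by
    have : ((K * (s + 1) ^ 4 : ℕ) : ℝ) ≤ ((2 * n : ℕ) : ℝ) := by exact_mod_cast hKr
    push_cast at this
    simpa [hrdef] using this
  have aN : (N.card : ℝ) ≤ U1.card + (U2.card + U3.card) := by exact_mod_cast hNc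
  have hrpos : (0 : ℝ) < r := by linarith
  -- `U1 ≤ (2 / r²) n^s`
  have b1 : (U1.card : ℝ) ≤ (2 / 100) * (n : ℝ) ^ s := by
    have h1 : (U1.card : ℝ) * n * r ^ 2 ≤ 2 * n * (n : ℝ) ^ s := by
      calc (U1.card : ℝ) * n * r ^ 2 ≤ r ^ 2 * (K * (n : ℝ) ^ s) * r ^ 2 :=
            mul_le_mul_of_nonneg_right a1 (by positivity)
        _ = (K * r ^ 4) * (n : ℝ) ^ s := by ring
        _ ≤ 2 * n * (n : ℝ) ^ s := mul_le_mul_of_nonneg_right aK hX.le
    have h2 : (U1.card : ℝ) * r ^ 2 ≤ 2 * (n : ℝ) ^ s := by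
      have : n * ((U1.card : ℝ) * r ^ 2) ≤ n * (2 * (n : ℝ) ^ s) := by linarith
      exact le_of_mul_le_mul_left this hnR
    have h3 : (100 : ℝ) ≤ r ^ 2 := by nlinarith
    have h4 : (U1.card : ℝ) * 100 ≤ (U1.card : ℝ) * r ^ 2 :=
      mul_le_mul_of_nonneg_left h3 (by positivity)
    linarith
  have b23 : (U2.card : ℝ) + U3.card ≤ (2 / 100) * (n : ℝ) ^ s := by
    have h1 : ((U2.card : ℝ) + U3.card) * n ≤ (r ^ 3 + r ^ 4) * (n : ℝ) ^ s := by linarith
    have h2 : r ^ 3 + r ^ 4 ≤ (2 / 100) * n := by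
      have h3 : r ^ 3 ≤ (1 / 100) * r ^ 10 := by
        have : (100 : ℝ) ≤ r ^ 7 := by
          calc (100 : ℝ) ≤ 10 ^ 7 := by norm_num
            _ ≤ r ^ 7 := pow_le_pow_left₀ (by norm_num) hr.le 7
        calc r ^ 3 = (1 / 100) * (100 * r ^ 3) := by ring
          _ ≤ (1 / 100) * (r ^ 7 * r ^ 3) := by gcongr
          _ = (1 / 100) * r ^ 10 := by ring
      have h4 : r ^ 4 ≤ (1 / 100) * r ^ 10 := by
        have : (100 : ℝ) ≤ r ^ 6 := by
          calc (100 : ℝ) ≤ 10 ^ 6 := by norm_num
            _ ≤ r ^ 6 := pow_le_pow_left₀ (by norm_num) hr.le 6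
        calc r ^ 4 = (1 / 100) * (100 * r ^ 4) := by ring
          _ ≤ (1 / 100) * (r ^ 6 * r ^ 4) := by gcongr
          _ = (1 / 100) * r ^ 10 := by ring
      linarith
    have h5 : n * ((U2.card : ℝ) + U3.card) ≤ n * ((2 / 100) * (n : ℝ) ^ s) := by
      calc n * ((U2.card : ℝ) + U3.card) = ((U2.card : ℝ) + U3.card) * n := by ring
        _ ≤ (r ^ 3 + r ^ 4) * (n : ℝ) ^ s := h1
        _ ≤ ((2 / 100) * n) * (n : ℝ) ^ s := mul_le_mul_of_nonneg_right h2 hX.le
        _ = n * ((2 / 100) * (n : ℝ) ^ s) := by ring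
    exact le_of_mul_le_mul_left h5 hnR
  linarith

end Pool.Agent.CHS
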