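import Pool.Agent.CHS.SatMatch

/-!
# CHS/Konig: Konig's edge colouring theorem for bipartite graphs (matchings as involutions)

Induction on `Δ`: `Δ = 0`: no edges.  `Δ ≥ 1`: take `R` from `satMatch` as the last matching and
remove its edges: all degrees are `≤ Δ - 1` (a point of degree `Δ` loses its edge `R v`).
-/

set_option autoImplicit false

namespace Pool.Agent.CHS
open Finset

theorem konig {V : Type} [Fintype V] [DecidableEq V] (X : Finset V) (Δ : ℕ) :
    ∀ (G : V → V → Prop) [DecidableRel G], (∀ u v, G u v → G v u) →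
    (∀ u v, G u v → (u ∈ X ↔ v ∉ X)) → (∀ v, (univ.filter (fun u => G v u)).card ≤ Δ) →
    ∃ R : Fin Δ → V → V, (∀ i u, R i (R i u) = u) ∧ (∀ i u, R i u ≠ u → G u (R i u)) ∧
      (∀ i j, i ≠ j → ∀ u, R i u = R j u → R i u = u) ∧
      ∀ u v, G u v → ∃ i, R i u = v := by
  induction Δ with
  | zero =>
    intro G _ hs hX hdeg
    have hno : ∀ u v, ¬ G u v := by
      intro u v h
      have h1 := hdeg u
      have h2 : v ∈ univ.filter (fun w => G u w) := Finset.mem_filter.mpr ⟨Finset.mem_univ v, h⟩
      have h3 : 0 < (univ.filter (fun w => G u w)).card := Finset.card_pos.mpr ⟨v, h2⟩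
      omega
    exact ⟨fun i => i.elim0, fun i => i.elim0, fun i => i.elim0, fun i => i.elim0,
      fun u v h => absurd h (hno u v)⟩
  | succ Δ ih =>
    intro G _ hs hX hdeg
    obtain ⟨R₀, h1, h2, h3⟩ := satMatch G hs X hX (Δ + 1) (by omega) hdeg
    have hs' : ∀ u v, (G u v ∧ R₀ u ≠ v) → (G v u ∧ R₀ v ≠ u) := by
      rintro u v ⟨a, b⟩
      refine ⟨hs u v a, fun h => b ?_⟩
      rw [← h, h1]
    have hdeg' : ∀ v, (univ.filter (fun u => G v u ∧ R₀ v ≠ u)).card ≤ Δ := by
      intro v
      have hsub : univ.filter (fun u => G v u ∧ R₀ v ≠ u) ⊆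
          (univ.filter (fun u => G v u)).erase (R₀ v) := by
        intro u hu
        rw [Finset.mem_filter] at hu
        rw [Finset.mem_erase, Finset.mem_filter]
        exact ⟨Ne.symm hu.2.2, hu.1, hu.2.1⟩
      by_cases hd : (univ.filter (fun u => G v u)).card = Δ + 1
      · have h4 := h3 v hd
        have h5 : R₀ v ∈ univ.filter (fun u => G v u) :=
          Finset.mem_filter.mpr ⟨Finset.mem_univ _, h2 v h4⟩
        calc _ ≤ ((univ.filter (fun u => G v u)).erase (R₀ v)).card := Finset.card_le_card hsub
          _ = Δ := by rw [Finset.card_erase_of_mem h5, hd]; rfl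
      · have h6 := hdeg v
        calc _ ≤ ((univ.filter (fun u => G v u)).erase (R₀ v)).card := Finset.card_le_card hsub
          _ ≤ (univ.filter (fun u => G v u)).card := Finset.card_erase_le
          _ ≤ Δ := by omega
    obtain ⟨R, r1, r2, r3, r4⟩ := ih (fun u v => G u v ∧ R₀ u ≠ v) hs'
      (fun u v h => hX u v h.1) hdeg'
    have key : ∀ j u, R₀ u = R j u → R j u = u := by
      intro j u h
      by_contra hne
      exact (r2 j u hne).2 h
    refine ⟨Fin.cons R₀ R, ?_, ?_, ?_, ?_⟩
    · intro i u
      refine Fin.cases ?_ (fun j => ?_) i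
      · simp only [Fin.cons_zero]; exact h1 u
      · simp only [Fin.cons_succ]; exact r1 j u
    · intro i u
      refine Fin.cases ?_ (fun j => ?_) i
      · simp only [Fin.cons_zero]; exact h2 u
      · simp only [Fin.cons_succ]; exact fun h => (r2 j u h).1
    · intro i k
      refine Fin.cases ?_ (fun j => ?_) i
      · refine Fin.cases ?_ (fun l => ?_) k
        · intro h; exact absurd rfl h
        · intro _ u
          simp only [Fin.cons_zero, Fin.cons_succ]
          intro h
          rw [h]
          exact key l u h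
      · refine Fin.cases ?_ (fun l => ?_) k
        · intro _ u
          simp only [Fin.cons_zero, Fin.cons_succ]
          intro h
          exact key j u h.symm
        · intro hne u
          simp only [Fin.cons_succ]
          exact r3 j l (fun h => hne (by rw [h])) u
    · intro u v h
      by_cases h5 : R₀ u = v
      · exact ⟨0, by simpa using h5⟩
      · obtain ⟨i, hi⟩ := r4 u v ⟨h, h5⟩
        exact ⟨i.succ, by simpa using hi⟩

end Pool.Agent.CHS
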