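import Pool.Agent.CHS.Defs

/-!
# CHS/Lip: a change through an independent set raises the chromatic number by at most one

Proof of `lip`: give all points of `W` one new colour (`Fin.last k`), the others their old colour
(`Fin.castSucc`).  A block of `m'` inside `W` does not exist (`hind`); a block meeting `W` and its
complement has two colours; a block `{x, y, m' x y}` disjoint from `W` is a block of `m` (`heq`).
`colb_card`: the injective colouring.  `colb_mono`: `Fin.castLE`.
-/

set_option autoImplicit false

namespace Pool.Agent.CHS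
open Finset

theorem lip {V : Type} [Fintype V] [DecidableEq V] (m m' : SQ V) (W : Finset V)
    (hind : ∀ x ∈ W, ∀ y ∈ W, x ≠ y → m'.mul x y ∉ W)
    (heq : ∀ x ∉ W, ∀ y ∉ W, m'.mul x y ∉ W → m.mul x y = m'.mul x y)
    (k : ℕ) (h : Colb m k) : Colb m' (k + 1) := by
  obtain ⟨c, hc⟩ := h
  refine ⟨fun v => if v ∈ W then Fin.last k else (c v).castSucc, ?_⟩
  rintro x y hxy ⟨e1, e2⟩
  by_cases hx : x ∈ W
  · by_cases hy : y ∈ W
    · have hz := hind x hx y hy hxy
      simp only [hy, hz, if_true, if_false] at e2
      exact absurd e2 (Fin.castSucc_lt_last _).ne'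
    · simp only [hx, hy, if_true, if_false] at e1
      exact absurd e1 (Fin.castSucc_lt_last _).ne'
  · by_cases hy : y ∈ W
    · simp only [hx, hy, if_true, if_false] at e1
      exact absurd e1 (Fin.castSucc_lt_last _).ne
    · by_cases hz : m'.mul x y ∈ W
      · simp only [hy, hz, if_true, if_false] at e2
        exact absurd e2 (Fin.castSucc_lt_last _).ne
      · simp only [hx, hy, hz, if_false] at e1 e2
        apply hc x y hxy
        rw [heq x hx y hy hz]
        exact ⟨Fin.castSucc_injective k e1, Fin.castSucc_injective k e2⟩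

theorem colb_card {V : Type} [Fintype V] (m : SQ V) : Colb m (Fintype.card V) := by
  refine ⟨Fintype.equivFin V, ?_⟩
  rintro x y hxy ⟨e1, -⟩
  exact hxy ((Fintype.equivFin V).injective e1)

theorem colb_mono {V : Type} (m : SQ V) {k l : ℕ} (hkl : k ≤ l) (h : Colb m k) : Colb m l := by
  obtain ⟨c, hc⟩ := h
  refine ⟨fun v => Fin.castLE hkl (c v), ?_⟩
  rintro x y hxy ⟨e1, e2⟩
  exact hc x y hxy ⟨Fin.castLE_injective hkl e1, Fin.castLE_injective hkl e2⟩

end Pool.Agent.CHS
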