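import Mathlib

/-!
# CHS/SatMatch: in a bipartite graph some matching covers all points of maximal degree

`G` is bipartite with sides `X` and its complement, all degrees are `≤ Δ`, `Δ ≥ 1`.
Proof.  Let `N` be the matrix over `V × V`... one convenient way: the square matrix `M` indexed by
`V` (rows: `x ∈ X` and copies of the `y ∉ X`; columns: `y ∉ X` and copies of the `x ∈ X`):
`M = [[G(x,y), diag(Δ - deg x)], [diag(Δ - deg y), G(x,y)^T]]`, i.e. rows and columns are both indexed
by `V ⊕ ...`; all row and column sums are `Δ`, so by Hall's theorem (or Birkhoff's theorem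
`doublyStochastic`) the support of `M` contains a permutation; the entries used in the first block
form a matching of `G`; a point of degree `Δ` has zero diagonal entry, so it is covered.
Equivalent direct formulation: rows `V`, columns `V`, `M u v = 1` if `G u v` and `u ∈ X`, ... any
variant is fine.  Alternative: Hall for the points of degree `Δ` of each side separately and the
Mendelsohn-Dulmage theorem.
Then turn the matching into an involution `R` of `V`.
-/

set_option autoImplicit false

namespace Pool.Agent.CHS
open Finset

theorem satMatch {V : Type} [Fintype V] [DecidableEq V] (G : V → V → Prop) [DecidableRel G]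
    (hs : ∀ u v, G u v → G v u) (X : Finset V) (hX : ∀ u v, G u v → (u ∈ X ↔ v ∉ X)) (Δ : ℕ)
    (hΔ : 1 ≤ Δ) (hdeg : ∀ v, (univ.filter (fun u => G v u)).card ≤ Δ) :
    ∃ R : V → V, (∀ u, R (R u) = u) ∧ (∀ u, R u ≠ u → G u (R u)) ∧
      ∀ v, (univ.filter (fun u => G v u)).card = Δ → R v ≠ v := by
  classical
  let M : V → V → ℕ := fun u v =>
    (if G u v then 1 else 0) + (if u = v then Δ - (univ.filter (fun w => G u w)).card else 0)
  have hirr : ∀ u, ¬ G u u := fun u h => by
    have h1 := hX u u h
    tauto
  have hrow : ∀ u, ∑ v, M u v = Δ := by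
    intro u
    have h1 : ∑ v, M u v = (∑ v, if G u v then 1 else 0)
        + ∑ v, (if u = v then Δ - (univ.filter (fun w => G u w)).card else 0) :=
      Finset.sum_add_distrib
    rw [h1, ← Finset.card_filter, Finset.sum_ite_eq, if_pos (Finset.mem_univ u)]
    have := hdeg u
    omega
  have hsym : ∀ u v, M u v = M v u := by
    intro u v
    simp only [M]
    by_cases h : u = v
    · subst h; rfl
    · have h2 : G u v ↔ G v u := ⟨hs u v, hs v u⟩
      rw [if_neg h, if_neg (Ne.symm h)]
      by_cases h3 : G u v
      · rw [if_pos h3, if_pos (h2.mp h3)]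
      · rw [if_neg h3, if_neg (fun h4 => h3 (h2.mpr h4))]
  have hcol : ∀ v, ∑ u, M u v = Δ := by
    intro v
    rw [← hrow v]
    exact Finset.sum_congr rfl (fun u _ => hsym u v)
  have hhall : ∀ s : Finset V,
      s.card ≤ (s.biUnion (fun u => univ.filter (fun v => 0 < M u v))).card := by
    intro s
    set N := s.biUnion (fun u => univ.filter (fun v => 0 < M u v)) with hN
    have h1 : Δ * s.card ≤ Δ * N.card := by
      calc Δ * s.card = ∑ u ∈ s, ∑ v, M u v := by
            rw [Finset.sum_congr rfl (fun u _ => hrow u), Finset.sum_const, smul_eq_mul, mul_comm]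
        _ = ∑ u ∈ s, ∑ v ∈ N, M u v := by
            refine Finset.sum_congr rfl (fun u hu => ?_)
            symm
            apply Finset.sum_subset (Finset.subset_univ N)
            intro v _ hv
            by_contra h0
            apply hv
            rw [hN, Finset.mem_biUnion]
            exact ⟨u, hu, Finset.mem_filter.mpr ⟨Finset.mem_univ v, Nat.pos_of_ne_zero h0⟩⟩
        _ = ∑ v ∈ N, ∑ u ∈ s, M u v := Finset.sum_comm
        _ ≤ ∑ v ∈ N, ∑ u, M u v :=
            Finset.sum_le_sum (fun v _ => Finset.sum_le_sum_of_subset (Finset.subset_univ s))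
        _ = Δ * N.card := by
            rw [Finset.sum_congr rfl (fun v _ => hcol v), Finset.sum_const, smul_eq_mul, mul_comm]
    exact Nat.le_of_mul_le_mul_left h1 (by omega)
  obtain ⟨f, hf, hft⟩ := (Finset.all_card_le_biUnion_card_iff_exists_injective _).mp hhall
  have hbij : Function.Bijective f := Finite.injective_iff_bijective.mp hf
  let π : Equiv.Perm V := Equiv.ofBijective f hbij
  have hM : ∀ u, 0 < M u (π u) := fun u => (Finset.mem_filter.mp (hft u)).2
  -- if `π u ≠ u` then `G u (π u)`
  have hG : ∀ u, π u ≠ u → G u (π u) := by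
    intro u hu
    by_contra h0
    have h1 := hM u
    simp only [M] at h1
    rw [if_neg h0, if_neg (Ne.symm hu)] at h1
    exact lt_irrefl _ h1
  have hfull : ∀ u, (univ.filter (fun w => G u w)).card = Δ → π u ≠ u := by
    intro u hu h0
    have h1 := hM u
    rw [h0] at h1
    simp only [M] at h1
    rw [if_neg (hirr u), hu] at h1
    simp at h1
  refine ⟨fun u => if u ∈ X then π u else if π.symm u ∈ X then π.symm u else u, ?_, ?_, ?_⟩
  · intro u
    by_cases hu : u ∈ X
    · simp only [if_pos hu]
      by_cases h1 : π u = u
      · rw [h1, if_pos hu, h1]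
      · have h2 := (hX _ _ (hG u h1)).mp hu
        rw [if_neg h2, Equiv.symm_apply_apply, if_pos hu]
    · simp only [if_neg hu]
      by_cases h1 : π.symm u ∈ X
      · rw [if_pos h1, if_pos h1, Equiv.apply_symm_apply]
      · rw [if_neg h1, if_neg hu, if_neg h1]
  · intro u hne
    by_cases hu : u ∈ X
    · simp only [if_pos hu] at hne ⊢
      exact hG u hne
    · simp only [if_neg hu] at hne ⊢
      by_cases h1 : π.symm u ∈ X
      · rw [if_pos h1] at hne ⊢
        have h2 : π (π.symm u) ≠ π.symm u := by
          rw [Equiv.apply_symm_apply]; exact Ne.symm hne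
        have h3 := hG _ h2
        rw [Equiv.apply_symm_apply] at h3
        exact hs _ _ h3
      · rw [if_neg h1] at hne
        exact absurd rfl hne
  · intro v hv
    by_cases hu : v ∈ X
    · simp only [if_pos hu]
      exact hfull v hv
    · simp only [if_neg hu]
      have h1 : π v ≠ v := hfull v hv
      have h2 : π.symm v ≠ v := by
        intro h3
        apply h1
        conv_lhs => rw [← h3]
        rw [Equiv.apply_symm_apply]
      have h3 : π (π.symm v) ≠ π.symm v := by
        rw [Equiv.apply_symm_apply]; exact Ne.symm h2
      have h4 := hG _ h3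
      rw [Equiv.apply_symm_apply] at h4
      have h5 : π.symm v ∈ X := (hX _ _ h4).mpr hu
      rw [if_pos h5]
      exact h2

end Pool.Agent.CHS
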