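import Mathlib

/-!
# CHS/Spec: a bound for bilinear forms by the trace of a power

Let `X` be a real symmetric matrix, `‖·‖` the Euclidean norm, `a_k = ‖X^k f‖`.  Cauchy-Schwarz:
`a_k² = ⟨f, X^(2k) f⟩ ≤ ‖f‖ a_{2k}`.  So `a_1^16 ≤ ‖f‖^15 a_16`, and
`a_16² = ⟨f, X^32 f⟩ ≤ ‖f‖² trace (X^32)` because `X^32 = (X^16)ᵀ X^16` and for any matrix `Y`
`‖Y f‖² ≤ ‖f‖² ∑_{i,j} Y i j ^ 2 = ‖f‖² trace (Yᵀ Y)`.  So `‖X f‖^32 ≤ ‖f‖^32 Λ^32`, i.e.
`‖X f‖ ≤ Λ ‖f‖`, and `∑_{x ∈ S, y ∈ T} X x y = ⟨1_S, X 1_T⟩ ≤ Λ sqrt |S| sqrt |T|`.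
(Alternatively by the spectral theorem for Hermitian matrices.)
-/

set_option autoImplicit false

namespace Pool.Agent.CHS
open Finset

section
variable {V : Type} [Fintype V] [DecidableEq V]

omit [DecidableEq V] in
private theorem cs (f g : V → ℝ) : (f ⬝ᵥ g) ^ 2 ≤ (f ⬝ᵥ f) * (g ⬝ᵥ g) := by
  have := Finset.sum_mul_sq_le_sq_mul_sq (univ : Finset V) f g
  simp only [dotProduct]
  calc (∑ i, f i * g i) ^ 2 ≤ (∑ i, f i ^ 2) * ∑ i, g i ^ 2 := this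
    _ = _ := by simp only [pow_two]

omit [DecidableEq V] in
private theorem dot_nonneg (f : V → ℝ) : 0 ≤ f ⬝ᵥ f := by
  simp only [dotProduct]
  exact Finset.sum_nonneg (fun i _ => mul_self_nonneg (f i))

private theorem pow_symm (X : Matrix V V ℝ) (hX : X.IsSymm) (k : ℕ) : (X ^ k).IsSymm := by
  unfold Matrix.IsSymm
  rw [Matrix.transpose_pow, hX.eq]

private theorem a_eq (X : Matrix V V ℝ) (hX : X.IsSymm) (f : V → ℝ) (k : ℕ) :
    ((X ^ k).mulVec f) ⬝ᵥ ((X ^ k).mulVec f) = f ⬝ᵥ ((X ^ (2 * k)).mulVec f) := by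
  have h1 : (X ^ (2 * k)).mulVec f = (X ^ k).mulVec ((X ^ k).mulVec f) := by
    rw [Matrix.mulVec_mulVec, ← pow_add, two_mul]
  have h2 : Matrix.vecMul f (X ^ k) = (X ^ k).mulVec f := by
    rw [← Matrix.mulVec_transpose, (pow_symm X hX k).eq]
  rw [h1, Matrix.dotProduct_mulVec f (X ^ k), h2]

/-- `a k = ‖X^k f‖²`. -/
private theorem a_step (X : Matrix V V ℝ) (hX : X.IsSymm) (f : V → ℝ) (k : ℕ) :
    (((X ^ k).mulVec f) ⬝ᵥ ((X ^ k).mulVec f)) ^ 2 ≤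
      (f ⬝ᵥ f) * (((X ^ (2 * k)).mulVec f) ⬝ᵥ ((X ^ (2 * k)).mulVec f)) := by
  rw [a_eq X hX f k]
  exact cs _ _

private theorem frob (Y : Matrix V V ℝ) (hY : Y.IsSymm) (f : V → ℝ) :
    (Y.mulVec f) ⬝ᵥ (Y.mulVec f) ≤ (f ⬝ᵥ f) * (Y * Y).trace := by
  have h1 : (Y * Y).trace = ∑ i, ∑ j, Y i j ^ 2 := by
    rw [Matrix.trace]
    refine Finset.sum_congr rfl (fun i _ => ?_)
    rw [Matrix.diag_apply, Matrix.mul_apply]
    refine Finset.sum_congr rfl (fun j _ => ?_)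
    rw [hY.apply i j, pow_two]
  rw [h1, Finset.mul_sum]
  simp only [dotProduct, Matrix.mulVec]
  refine Finset.sum_le_sum (fun i _ => ?_)
  have := Finset.sum_mul_sq_le_sq_mul_sq (univ : Finset V) (Y i) f
  calc (∑ j, Y i j * f j) * (∑ j, Y i j * f j) = (∑ j, Y i j * f j) ^ 2 := by ring
    _ ≤ (∑ j, Y i j ^ 2) * ∑ j, f j ^ 2 := this
    _ = _ := by
      rw [mul_comm]
      simp only [pow_two]

private theorem main_bound (X : Matrix V V ℝ) (hX : X.IsSymm) (Λ : ℝ) (hΛ : 0 ≤ Λ)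
    (h : (X ^ 32).trace ≤ Λ ^ 32) (f : V → ℝ) :
    (X.mulVec f) ⬝ᵥ (X.mulVec f) ≤ Λ ^ 2 * (f ⬝ᵥ f) := by
  set a : ℕ → ℝ := fun k => ((X ^ k).mulVec f) ⬝ᵥ ((X ^ k).mulVec f) with ha
  set b : ℝ := f ⬝ᵥ f with hb
  have hb0 : 0 ≤ b := dot_nonneg f
  have ha0 : ∀ k, 0 ≤ a k := fun k => dot_nonneg _
  have hs : ∀ k, a k ^ 2 ≤ b * a (2 * k) := fun k => a_step X hX f k
  have h16 : a 16 ≤ b * Λ ^ 32 := by
    have h1 := frob (X ^ 16) (pow_symm X hX 16) f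
    rw [← pow_add] at h1
    exact h1.trans (mul_le_mul_of_nonneg_left h hb0)
  have e1 : a 1 ^ 16 ≤ b ^ 16 * Λ ^ 32 := by
    have s1 := hs 1
    have s2 := hs 2
    have s4 := hs 4
    have s8 := hs 8
    norm_num at s1 s2 s4 s8
    calc a 1 ^ 16 = (a 1 ^ 2) ^ 8 := by ring
      _ ≤ (b * a 2) ^ 8 := pow_le_pow_left₀ (by positivity) s1 8
      _ = b ^ 8 * (a 2 ^ 2) ^ 4 := by ring
      _ ≤ b ^ 8 * (b * a 4) ^ 4 :=
          mul_le_mul_of_nonneg_left (pow_le_pow_left₀ (by positivity) s2 4) (by positivity)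
      _ = b ^ 12 * (a 4 ^ 2) ^ 2 := by ring
      _ ≤ b ^ 12 * (b * a 8) ^ 2 :=
          mul_le_mul_of_nonneg_left (pow_le_pow_left₀ (by positivity) s4 2) (by positivity)
      _ = b ^ 14 * (a 8 ^ 2) := by ring
      _ ≤ b ^ 14 * (b * a 16) := mul_le_mul_of_nonneg_left s8 (by positivity)
      _ ≤ b ^ 14 * (b * (b * Λ ^ 32)) :=
          mul_le_mul_of_nonneg_left (mul_le_mul_of_nonneg_left h16 hb0) (by positivity)
      _ = b ^ 16 * Λ ^ 32 := by ring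
  have e2 : a 1 ^ 16 ≤ (Λ ^ 2 * b) ^ 16 := by
    calc a 1 ^ 16 ≤ b ^ 16 * Λ ^ 32 := e1
      _ = (Λ ^ 2 * b) ^ 16 := by ring
  have e3 : a 1 ≤ Λ ^ 2 * b := (pow_le_pow_iff_left₀ (ha0 1) (by positivity) (by norm_num)).1 e2
  simpa only [ha, pow_one] using e3

end

theorem spec {V : Type} [Fintype V] [DecidableEq V] (X : Matrix V V ℝ) (hX : X.IsSymm) (Λ : ℝ)
    (hΛ : 0 ≤ Λ) (h : (X ^ 32).trace ≤ Λ ^ 32) (S T : Finset V) :
    ∑ x ∈ S, ∑ y ∈ T, X x y ≤ Λ * Real.sqrt (S.card * T.card) := by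
  set f : V → ℝ := fun y => if y ∈ T then 1 else 0 with hf
  set g : V → ℝ := fun x => if x ∈ S then 1 else 0 with hg
  have hff : f ⬝ᵥ f = T.card := by
    simp only [dotProduct, hf, mul_ite, mul_one, mul_zero]
    simp [Finset.sum_ite]
  have hgg : g ⬝ᵥ g = S.card := by
    simp only [dotProduct, hg, mul_ite, mul_one, mul_zero]
    simp [Finset.sum_ite]
  have hsum : ∑ x ∈ S, ∑ y ∈ T, X x y = g ⬝ᵥ (X.mulVec f) := by
    simp only [dotProduct, Matrix.mulVec, hf, hg, mul_ite, mul_one, mul_zero, ite_mul, one_mul,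
      zero_mul]
    rw [Finset.sum_ite_mem, Finset.univ_inter]
    refine Finset.sum_congr rfl (fun x _ => ?_)
    rw [Finset.sum_ite_mem, Finset.univ_inter]
  rw [hsum]
  have h1 := cs g (X.mulVec f)
  have h2 := main_bound X hX Λ hΛ h f
  rw [hff] at h2
  rw [hgg] at h1
  have h3 : (g ⬝ᵥ (X.mulVec f)) ^ 2 ≤ (Λ * Real.sqrt (S.card * T.card)) ^ 2 := by
    rw [mul_pow, Real.sq_sqrt (by positivity)]
    calc (g ⬝ᵥ (X.mulVec f)) ^ 2 ≤ S.card * ((X.mulVec f) ⬝ᵥ (X.mulVec f)) := h1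
      _ ≤ S.card * (Λ ^ 2 * T.card) := mul_le_mul_of_nonneg_left h2 (by positivity)
      _ = Λ ^ 2 * (S.card * T.card) := by ring
  exact le_of_sq_le_sq h3 (by positivity)

end Pool.Agent.CHS
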